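import Pool.Agent.Lib.MP_caf32e_co.Bd.BDefs

/-! From a flat band to a collar. -/

set_option autoImplicit false

namespace TorGrid
namespace Bd

open Finset

variable {V : Type} [Fintype V] [DecidableEq V] {ℓ W : ℕ}

namespace BandG

private lemma b1_T (b : BandG V ℓ W) (k : ℤ) : ∀ x : ℤ, b.T (x + k * ℓ) = b.T x + k * b.v2 := by
  induction k using Int.induction_on with
  | zero => intro x; simp
  | succ i ih =>
    intro x
    have h1 : x + ((i : ℤ) + 1) * (ℓ : ℤ) = (x + (i : ℤ) * ℓ) + ℓ := by ring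
    rw [h1, b.per, ih]; ring
  | pred i ih =>
    intro x
    have h1 := ih x
    have h2 : x + (-(i : ℤ)) * (ℓ : ℤ) = (x + (-(i : ℤ) - 1) * ℓ) + ℓ := by ring
    rw [h2, b.per] at h1
    linarith

private lemma b1_F (b : BandG V ℓ W) (k : ℤ) :
    ∀ x t : ℤ, b.F (x + k * ℓ, t + k * b.v2) = b.F (x, t) := by
  induction k using Int.induction_on with
  | zero => intro x t; simp
  | succ i ih =>
    intro x t
    have h1 : x + ((i : ℤ) + 1) * (ℓ : ℤ) = (x + (i : ℤ) * ℓ) + ℓ := by ring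
    have h2 : t + ((i : ℤ) + 1) * b.v2 = (t + (i : ℤ) * b.v2) + b.v2 := by ring
    rw [h1, h2, b.Fper, ih]
  | pred i ih =>
    intro x t
    have h1 := ih x t
    have h2 : x + (-(i : ℤ)) * (ℓ : ℤ) = (x + (-(i : ℤ) - 1) * ℓ) + ℓ := by ring
    have h3 : t + (-(i : ℤ)) * b.v2 = (t + (-(i : ℤ) - 1) * b.v2) + b.v2 := by ring
    rw [h2, h3, b.Fper] at h1
    exact h1

private lemma b1_s (b : BandG V ℓ W) (k : ℤ) (x : ℤ) : b.s (x + k * ℓ) = b.s x := by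
  unfold BandG.s
  have h1 : x + k * (ℓ : ℤ) + 1 = (x + 1) + k * ℓ := by ring
  rw [h1, b1_T b k, b1_T b k]; ring

private lemma b1_pt (b : BandG V ℓ W) (v : V) (h : ∃ p : P2, 0 ≤ b.ly p ∧ b.ly p ≤ W ∧ b.F p = v) :
    0 ≤ b.ly (b.pt v) ∧ b.ly (b.pt v) ≤ W ∧ b.F (b.pt v) = v := by
  have h1 : b.pt v = h.choose := by
    unfold BandG.pt
    rw [dif_pos h]
  rw [h1]
  exact h.choose_spec

/-- ROW B1. Periodicity for all multiples: induction on `k` (`Int.induction_on`) from `per`, `Fper`. -/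
theorem per_k (b : BandG V ℓ W) (k : ℤ) (x t : ℤ) :
    b.T (x + k * ℓ) = b.T x + k * b.v2 ∧ b.F (x + k * ℓ, t + k * b.v2) = b.F (x, t) ∧
    b.s (x + k * ℓ) = b.s x ∧ b.ly (x + k * ℓ, t + k * b.v2) = b.ly (x, t) ∧
    (b.s x = 1 ∨ b.s x = -1) := by
  refine ⟨b1_T b k x, b1_F b k x t, b1_s b k x, ?_, ?_⟩
  · simp only [BandG.ly]
    rw [b1_T b k x]; ring
  · unfold BandG.s
    rcases b.hT x with h | h
    · left; rw [h]; ring
    · right; rw [h]; ring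

/-- ROW B1. `pt (F p)` is a lift of `F p` (choose_spec), so `p + k (ℓ, v2)` by `inj`; the rest by `per_k`. -/
theorem pt_F (b : BandG V ℓ W) (m : ℕ) (p : P2) (h0 : 0 ≤ b.ly p) (h1 : b.ly p ≤ W) :
    (∃ k : ℤ, b.pt (b.F p) = (p.1 + k * ℓ, p.2 + k * b.v2)) ∧
    (∀ d : P2, b.mv (b.F p) d = b.F (p.1 + d.1, p.2 + d.2)) ∧
    (∀ x, b.slp (b.F p) x = b.s (p.1 + x)) ∧ b.lay m (b.F p) = b.ly p - m := by
  have hex : ∃ p' : P2, 0 ≤ b.ly p' ∧ b.ly p' ≤ W ∧ b.F p' = b.F p := ⟨p, h0, h1, rfl⟩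
  obtain ⟨g0, g1, g2⟩ := b1_pt b (b.F p) hex
  obtain ⟨k, hk⟩ := b.inj p (b.pt (b.F p)) h0 h1 g0 g1 g2.symm
  refine ⟨⟨k, hk⟩, ?_, ?_, ?_⟩
  · intro d
    unfold BandG.mv
    rw [hk]
    have e1 : p.1 + k * (ℓ : ℤ) + d.1 = (p.1 + d.1) + k * ℓ := by ring
    have e2 : p.2 + k * b.v2 + d.2 = (p.2 + d.2) + k * b.v2 := by ring
    show b.F (p.1 + k * (ℓ : ℤ) + d.1, p.2 + k * b.v2 + d.2) = _
    rw [e1, e2, b1_F b k]
  · intro x
    unfold BandG.slp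
    rw [hk]
    show b.s (p.1 + k * (ℓ : ℤ) + x) = _
    have e1 : p.1 + k * (ℓ : ℤ) + x = (p.1 + x) + k * ℓ := by ring
    rw [e1, b1_s b k]
  · unfold BandG.lay
    rw [if_pos hex, hk]
    have := (b.per_k k p.1 p.2).2.2.2.1
    rw [this]

/-- ROW B1. For `m ≤ ..`: a vertex with `lay ≥ -1` is in the band (`2 ≤ m` is not needed: outside the band `lay = -2`). -/
theorem of_lay (b : BandG V ℓ W) (m : ℕ) (v : V) (h : -1 ≤ b.lay m v) :
    b.F (b.pt v) = v ∧ 0 ≤ b.ly (b.pt v) ∧ b.ly (b.pt v) ≤ W ∧ b.lay m v = b.ly (b.pt v) - m := by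
  by_cases hex : ∃ p : P2, 0 ≤ b.ly p ∧ b.ly p ≤ W ∧ b.F p = v
  · obtain ⟨g0, g1, g2⟩ := b1_pt b v hex
    refine ⟨g2, g0, g1, ?_⟩
    unfold BandG.lay
    rw [if_pos hex]
  · exfalso
    unfold BandG.lay at h
    rw [if_neg hex] at h
    norm_num at h

end BandG

end Bd
end TorGrid
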