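import Pool.Agent.Lib.MP_caf32e_co.Bd.B1

/-! From a flat band to a collar. -/

set_option autoImplicit false

namespace TorGrid
namespace Bd

open Finset

variable {V : Type} [Fintype V] [DecidableEq V] {ℓ W : ℕ}

namespace BandG

private theorem b2_mem (p q : P2) : q ∈ nb p ↔ q = (p.1 + 1, p.2) ∨ q = (p.1 - 1, p.2) ∨
    q = (p.1, p.2 + 1) ∨ q = (p.1, p.2 - 1) := by
  simp only [nb, mem_insert, mem_singleton]

/-- a neighbour of an inner point is in the band, one column away at most -/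
private theorem b2_nb (b : BandG V ℓ W) (p : P2) (h0 : 0 < b.ly p) (h1 : b.ly p < W)
    (q : P2) (hq : q ∈ nb p) :
    0 ≤ b.ly q ∧ b.ly q ≤ W ∧ q.1 ≤ p.1 + 1 ∧ p.1 - 1 ≤ q.1 := by
  rw [b2_mem] at hq
  have hT1 := b.hT p.1
  have hT2 := b.hT (p.1 - 1)
  rw [sub_add_cancel] at hT2
  rcases hq with rfl | rfl | rfl | rfl
  · simp only [ly] at h0 h1 ⊢
    rcases hT1 with h | h <;> rw [h] <;> refine ⟨by omega, by omega, by omega, by omega⟩
  · simp only [ly] at h0 h1 ⊢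
    rcases hT2 with h | h <;> refine ⟨by omega, by omega, by omega, by omega⟩
  · simp only [ly] at h0 h1 ⊢
    refine ⟨by omega, by omega, by omega, by omega⟩
  · simp only [ly] at h0 h1 ⊢
    refine ⟨by omega, by omega, by omega, by omega⟩

private theorem b2_inj (b : BandG V ℓ W) (hℓ : 3 ≤ ℓ) (p : P2) (h0 : 0 < b.ly p)
    (h1 : b.ly p < W) (q q' : P2) (hq : q ∈ nb p) (hq' : q' ∈ nb p) (h : b.F q = b.F q') :
    q = q' := by
  obtain ⟨a1, a2, a3, a4⟩ := b2_nb b p h0 h1 q hq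
  obtain ⟨c1, c2, c3, c4⟩ := b2_nb b p h0 h1 q' hq'
  obtain ⟨k, hk⟩ := b.inj q q' a1 a2 c1 c2 h
  have e1 : q'.1 = q.1 + k * ℓ := by rw [hk]
  have hℓ' : (3 : ℤ) ≤ ℓ := by exact_mod_cast hℓ
  have hk0 : k = 0 := by
    rcases lt_trichotomy k 0 with hk' | hk' | hk'
    · exfalso
      have : k * (ℓ : ℤ) ≤ -1 * ℓ := mul_le_mul_of_nonneg_right (by omega) (by omega)
      omega
    · exact hk'
    · exfalso
      have : 1 * (ℓ : ℤ) ≤ k * ℓ := mul_le_mul_of_nonneg_right (by omega) (by omega)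
      omega
  rw [hk, hk0]
  ext <;> simp

/-- the face function is periodic -/
private theorem b2_per (b : BandG V ℓ W) (m M : ℕ) (k x t : ℤ) :
    b.ψ0 m M (x + k * ℓ, t + k * b.v2) = b.ψ0 m M (x, t) := by
  obtain ⟨-, -, h3, h4, -⟩ := b.per_k k x t
  unfold ψ0
  rw [h4]
  simp only [h3]

/-- the weight is periodic -/
private theorem b2_wc (b : BandG V ℓ W) (m M : ℕ) (k : ℤ) (p q : P2) :
    wc (b.ψ0 m M) (p.1 + k * ℓ, p.2 + k * b.v2) (q.1 + k * ℓ, q.2 + k * b.v2) =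
      wc (b.ψ0 m M) p q := by
  obtain ⟨p1, p2⟩ := p
  obtain ⟨q1, q2⟩ := q
  have e1 : b.ψ0 m M (p1 + k * ℓ, p2 + k * b.v2) = b.ψ0 m M (p1, p2) := b2_per b m M k p1 p2
  have e2 : b.ψ0 m M (p1 + k * ℓ, p2 + k * b.v2 - 1) = b.ψ0 m M (p1, p2 - 1) := by
    rw [← b2_per b m M k p1 (p2 - 1)]
    congr 2
    ring
  have e3 : b.ψ0 m M (p1 + k * ℓ - 1, p2 + k * b.v2 - 1) = b.ψ0 m M (p1 - 1, p2 - 1) := by
    rw [← b2_per b m M k (p1 - 1) (p2 - 1)]
    congr 2 <;> ring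
  have e4 : b.ψ0 m M (p1 + k * ℓ - 1, p2 + k * b.v2) = b.ψ0 m M (p1 - 1, p2) := by
    rw [← b2_per b m M k (p1 - 1) p2]
    congr 2
    ring
  have g1 : ((q1 + k * (ℓ : ℤ), q2 + k * b.v2) = (p1 + k * (ℓ : ℤ) + 1, p2 + k * b.v2)) ↔
      ((q1, q2) = (p1 + 1, p2)) := by
    simp only [Prod.mk.injEq]
    constructor <;> rintro ⟨h1, h2⟩ <;> constructor <;> linarith
  have g2 : ((q1 + k * (ℓ : ℤ), q2 + k * b.v2) = (p1 + k * (ℓ : ℤ) - 1, p2 + k * b.v2)) ↔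
      ((q1, q2) = (p1 - 1, p2)) := by
    simp only [Prod.mk.injEq]
    constructor <;> rintro ⟨h1, h2⟩ <;> constructor <;> linarith
  have g3 : ((q1 + k * (ℓ : ℤ), q2 + k * b.v2) = (p1 + k * (ℓ : ℤ), p2 + k * b.v2 + 1)) ↔
      ((q1, q2) = (p1, p2 + 1)) := by
    simp only [Prod.mk.injEq]
    constructor <;> rintro ⟨h1, h2⟩ <;> constructor <;> linarith
  have g4 : ((q1 + k * (ℓ : ℤ), q2 + k * b.v2) = (p1 + k * (ℓ : ℤ), p2 + k * b.v2 - 1)) ↔
      ((q1, q2) = (p1, p2 - 1)) := by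
    simp only [Prod.mk.injEq]
    constructor <;> rintro ⟨h1, h2⟩ <;> constructor <;> linarith
  unfold wc
  simp only [g1, g2, g3, g4, e1, e2, e3, e4]

/-- translates of neighbours -/
private theorem b2_shift (p q : P2) (a c : ℤ) (hq : q ∈ nb p) :
    ((q.1 + a, q.2 + c) : P2) ∈ nb ((p.1 + a, p.2 + c) : P2) := by
  rw [b2_mem] at hq ⊢
  rcases hq with rfl | rfl | rfl | rfl
  · left; ext <;> simp <;> ring
  · right; left; ext <;> simp <;> ring
  · right; right; left; ext <;> simp <;> ring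
  · right; right; right; ext <;> simp <;> ring

/-- ROW B2. For an inner vertex `F p` the four neighbours have different images (`inj`: their lifts are in the band, differ by at most 2 in the first coordinate; `3 ≤ ℓ`, so
`k = 0`). Hence in the definition of `wt` the chosen `q'` for `pt (F p) = p + k(ℓ,v2)` is `q + k(ℓ,v2)`, and `ψ0` is periodic (`per_k`), so `wc` is the same. -/
theorem wt_F (b : BandG V ℓ W) (m M : ℕ) (hℓ : 3 ≤ ℓ) (p : P2) (h0 : 0 < b.ly p) (h1 : b.ly p < W)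
    (q : P2) (hq : q ∈ nb p) : b.wt m M (b.F p) (b.F q) = wc (b.ψ0 m M) p q := by
  obtain ⟨⟨k, hk⟩, -⟩ := b.pt_F m p h0.le h1.le
  have hly : b.ly (b.pt (b.F p)) = b.ly p := by
    rw [hk]
    exact (b.per_k k p.1 p.2).2.2.2.1
  have hmem : ((q.1 + k * ℓ, q.2 + k * b.v2) : P2) ∈ nb (b.pt (b.F p)) := by
    rw [hk]
    exact b2_shift p q _ _ hq
  have hFq : b.F (q.1 + k * ℓ, q.2 + k * b.v2) = b.F q := (b.per_k k q.1 q.2).2.1
  have hex : b.Bv (b.F p) ∧ ∃ q' ∈ nb (b.pt (b.F p)), b.F q' = b.F q :=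
    ⟨⟨p, h0, h1, rfl⟩, ⟨_, hmem, hFq⟩⟩
  unfold wt
  rw [dif_pos hex]
  have hc := hex.2.choose_spec
  have heq : hex.2.choose = ((q.1 + k * ℓ, q.2 + k * b.v2) : P2) := by
    refine b2_inj b hℓ (b.pt (b.F p)) (by rw [hly]; exact h0) (by rw [hly]; exact h1) _ _
      hc.1 hmem ?_
    rw [hc.2, hFq]
  rw [heq, hk]
  exact b2_wc b m M k p q

/-- ROW B2. -/
theorem nb_inj (b : BandG V ℓ W) (hℓ : 3 ≤ ℓ) (p : P2) (h0 : 0 < b.ly p) (h1 : b.ly p < W)
    (q q' : P2) (hq : q ∈ nb p) (hq' : q' ∈ nb p) (h : b.F q = b.F q') : q = q' :=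
  b2_inj b hℓ p h0 h1 q q' hq hq' h

end BandG

end Bd
end TorGrid
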