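import Pool.Agent.Lib.MP_caf32e_co.Bd.Defs

/-! Weights and private boxes (page, section 0). -/

set_option autoImplicit false

namespace TorGrid
namespace Bd

open Finset

private theorem p1_r (ψ : P2 → ℤ) (a b : ℤ) : wc ψ (a, b) (a + 1, b) = 1 + ψ (a, b) - ψ (a, b - 1) := by
  unfold wc
  rw [if_pos rfl]

private theorem p1_l (ψ : P2 → ℤ) (a b : ℤ) :
    wc ψ (a, b) (a - 1, b) = 1 + ψ (a - 1, b - 1) - ψ (a - 1, b) := by
  unfold wc
  rw [if_neg, if_pos rfl]
  intro h
  have h1 := congrArg Prod.fst h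
  simp only at h1
  omega

private theorem p1_u (ψ : P2 → ℤ) (a b : ℤ) :
    wc ψ (a, b) (a, b + 1) = 1 + ψ (a - 1, b) - ψ (a, b) := by
  unfold wc
  rw [if_neg, if_neg, if_pos rfl]
  · intro h
    have h1 := congrArg Prod.fst h
    simp only at h1
    omega
  · intro h
    have h1 := congrArg Prod.fst h
    simp only at h1
    omega

private theorem p1_d (ψ : P2 → ℤ) (a b : ℤ) :
    wc ψ (a, b) (a, b - 1) = 1 + ψ (a, b - 1) - ψ (a - 1, b - 1) := by
  unfold wc
  rw [if_neg, if_neg, if_neg, if_pos rfl]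
  · intro h
    have h1 := congrArg Prod.snd h
    simp only at h1
    omega
  · intro h
    have h1 := congrArg Prod.fst h
    simp only at h1
    omega
  · intro h
    have h1 := congrArg Prod.fst h
    simp only at h1
    omega

private theorem p1_r' (ψ : P2 → ℤ) (a b : ℤ) :
    wc ψ (a + 1, b) (a, b) = 1 + ψ (a, b - 1) - ψ (a, b) := by
  have h := p1_l ψ (a + 1) b
  rw [add_sub_cancel_right] at h
  exact h

private theorem p1_l' (ψ : P2 → ℤ) (a b : ℤ) :
    wc ψ (a - 1, b) (a, b) = 1 + ψ (a - 1, b) - ψ (a - 1, b - 1) := by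
  have h := p1_r ψ (a - 1) b
  rw [sub_add_cancel] at h
  exact h

private theorem p1_u' (ψ : P2 → ℤ) (a b : ℤ) :
    wc ψ (a, b + 1) (a, b) = 1 + ψ (a, b) - ψ (a - 1, b) := by
  have h := p1_d ψ a (b + 1)
  rw [add_sub_cancel_right] at h
  exact h

private theorem p1_d' (ψ : P2 → ℤ) (a b : ℤ) :
    wc ψ (a, b - 1) (a, b) = 1 + ψ (a - 1, b - 1) - ψ (a, b - 1) := by
  have h := p1_u ψ a (b - 1)
  rw [sub_add_cancel] at h
  exact h

/-- ROW P1. By cases on the four directions (unfold `wc`, `nb`; the other tests fail by `omega`).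
`wc_out`: the eight terms cancel; expand the sum over `nb p` (four different elements). -/
theorem wc_pair (ψ : P2 → ℤ) (p q : P2) (h : q ∈ nb p) : wc ψ p q + wc ψ q p = 2 := by
  obtain ⟨a, b⟩ := p
  simp only [nb, mem_insert, mem_singleton] at h
  rcases h with rfl | rfl | rfl | rfl
  · rw [p1_r, p1_r']; ring
  · rw [p1_l, p1_l']; ring
  · rw [p1_u, p1_u']; ring
  · rw [p1_d, p1_d']; ring

private theorem p1_sum (a b : ℤ) (g : P2 → ℤ) :
    ∑ q ∈ nb (a, b), g q = g (a + 1, b) + g (a - 1, b) + g (a, b + 1) + g (a, b - 1) := by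
  unfold nb
  rw [sum_insert, sum_insert, sum_insert, sum_singleton]
  · ring
  · simp only [mem_singleton, Prod.mk.injEq]
    omega
  · simp only [mem_insert, mem_singleton, Prod.mk.injEq]
    omega
  · simp only [mem_insert, mem_singleton, Prod.mk.injEq]
    omega

/-- ROW P1. -/
theorem wc_out (ψ : P2 → ℤ) (p : P2) :
    ∑ q ∈ nb p, wc ψ p q = 4 ∧ ∑ q ∈ nb p, wc ψ q p = 4 := by
  obtain ⟨a, b⟩ := p
  rw [p1_sum a b (fun q => wc ψ (a, b) q), p1_sum a b (fun q => wc ψ q (a, b))]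
  constructor
  · rw [p1_r, p1_l, p1_u, p1_d]; ring
  · rw [p1_r', p1_l', p1_u', p1_d']; ring

/-- ROW P1. -/
theorem wc_nn (ψ : P2 → ℤ) (hψ : F01 ψ) (p q : P2) : 0 ≤ wc ψ p q := by
  have h01 : ∀ f, 0 ≤ ψ f ∧ ψ f ≤ 1 := by
    intro f
    rcases hψ f with h | h <;> rw [h] <;> norm_num
  have h1 := h01 p
  have h2 := h01 (p.1, p.2 - 1)
  have h3 := h01 (p.1 - 1, p.2 - 1)
  have h4 := h01 (p.1 - 1, p.2)
  unfold wc
  split_ifs <;> omega

end Bd
end TorGrid
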