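import Pool.Agent.Lib.MP_caf32e_co.Bd.B2
import Pool.Agent.Lib.MP_caf32e_co.Bd.P1

/-! From a flat band to a collar. -/

set_option autoImplicit false

namespace TorGrid
namespace Bd

open Finset

variable {V : Type} [Fintype V] [DecidableEq V] {ℓ W : ℕ}

namespace BandG

private theorem b3_F01 (b : BandG V ℓ W) (m M : ℕ) : F01 (b.ψ0 m M) := by
  intro f
  unfold BandG.ψ0
  split_ifs
  · right; rfl
  · left; rfl

/-- the face function vanishes on the faces at a vertex of the layer 0 or W -/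
private theorem b3_face (b : BandG V ℓ W) (m M : ℕ) (hm : 4 ≤ m) (hW : W = M + 2 * m) (q f : P2)
    (hq : b.ly q = 0 ∨ b.ly q = W)
    (hf : (f.1 = q.1 ∨ f.1 = q.1 - 1) ∧ (f.2 = q.2 ∨ f.2 = q.2 - 1)) : b.ψ0 m M f = 0 := by
  unfold BandG.ψ0
  rw [if_neg]
  rintro ⟨h1, h2, h3⟩
  unfold BandG.s at h1
  unfold BandG.ly at h2 h3 hq
  obtain ⟨hf1, hf2⟩ := hf
  have hW' : (W : ℤ) = M + 2 * m := by exact_mod_cast hW
  have hm' : (4 : ℤ) ≤ m := by exact_mod_cast hm
  have hT : b.T f.1 - 1 ≤ b.T q.1 ∧ b.T q.1 ≤ b.T f.1 := by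
    rcases hf1 with h | h
    · rw [h]; omega
    · have h4 : q.1 = f.1 + 1 := by omega
      rw [h4]; omega
  omega

private theorem b3_ly (b : BandG V ℓ W) (p q : P2) (hq : q ∈ nb p) :
    b.ly q = b.ly p + 1 ∨ b.ly q = b.ly p - 1 := by
  obtain ⟨x, t⟩ := p
  simp only [nb, mem_insert, mem_singleton] at hq
  unfold BandG.ly
  rcases hq with rfl | rfl | rfl | rfl
  · have := b.hT x
    simp only
    omega
  · have := b.hT (x - 1)
    rw [sub_add_cancel] at this
    simp only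
    omega
  · simp only
    omega
  · simp only
    omega

private theorem b3_symm (p q : P2) (hq : q ∈ nb p) : p ∈ nb q := by
  obtain ⟨x, t⟩ := p
  simp only [nb, mem_insert, mem_singleton] at hq ⊢
  rcases hq with rfl | rfl | rfl | rfl
  · right; left; ext <;> simp
  · left; ext <;> simp
  · right; right; right; ext <;> simp
  · right; right; left; ext <;> simp

/-- an inner vertex and a neighbour of it -/
private theorem b3_nb (b : BandG V ℓ W) (u v : V) (hu : b.Bv u) (h : b.G.Adj u v) :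
    ∃ p q : P2, 0 < b.ly p ∧ b.ly p < W ∧ b.F p = u ∧ q ∈ nb p ∧ b.F q = v := by
  obtain ⟨p, h0, h1, rfl⟩ := hu
  obtain ⟨q, hq, hv⟩ := (b.adj p h0 h1 v).1 h
  exact ⟨p, q, h0, h1, rfl, hq, hv.symm⟩

private theorem b3_in (b : BandG V ℓ W) (q : P2) (h0 : 0 ≤ b.ly q) (h1 : b.ly q ≤ W)
    (h : b.Bv (b.F q)) : 0 < b.ly q ∧ b.ly q < W := by
  obtain ⟨p', g0, g1, g2⟩ := h
  obtain ⟨k, hk⟩ := b.inj q p' h0 h1 g0.le g1.le g2.symm
  have h2 := (per_k b k q.1 q.2).2.2.2.1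
  rw [hk, h2] at g0 g1
  exact ⟨g0, g1⟩

private theorem b3_out (b : BandG V ℓ W) (m M : ℕ) (hℓ : 3 ≤ ℓ) (p : P2) (h0 : 0 < b.ly p)
    (h1 : b.ly p < W) (s : Finset V) (hs : ∀ w, w ∈ s ↔ b.G.Adj (b.F p) w) :
    ∑ w ∈ s, b.wt m M (b.F p) w = 4 := by
  classical
  have himg : s = (nb p).image b.F := by
    ext w
    rw [hs, mem_image, b.adj p h0 h1 w]
    constructor
    · rintro ⟨q, hq, h⟩
      exact ⟨q, hq, h.symm⟩
    · rintro ⟨q, hq, h⟩
      exact ⟨q, hq, h.symm⟩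
  rw [himg, sum_image]
  · rw [← (wc_out (b.ψ0 m M) p).1]
    exact sum_congr rfl (fun q hq => wt_F b m M hℓ p h0 h1 q hq)
  · intro q hq q' hq' h
    exact nb_inj b hℓ p h0 h1 q q' (by simpa using hq) (by simpa using hq') h

open Classical in
/-- ROW B3. `wt_nn`: `wc ≥ 0` for 0-1 functions (`ψ0` is one; see the statement `wc_nn` of PB.lean, prove it here by `split_ifs` and omega) and `1 ≥ 0`.
`wt_pair`: `wt_F` twice and the cases of `wc` (as in `wc_pair` of PB.lean). `wt_out`: the neighbours of `u = F p` are the four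
`F q` (`adj`, `nb_inj`), `wt_F`, and the sum of the four weights is 4 (`wc_out` of PB.lean). `wt_bd`: `u = F p`, `v = F q` with `q ∈ nb p`, `ly q = 0` or `W`; all faces at `q` have
`ψ0 = 0` (`4 ≤ m`). -/
theorem wt_all (b : BandG V ℓ W) (m M : ℕ) (hℓ : 3 ≤ ℓ) (hm : 4 ≤ m) (hW : W = M + 2 * m) :
    (∀ u v, 0 ≤ b.wt m M u v) ∧
    (∀ u v, b.Bv u → b.Bv v → b.G.Adj u v → b.wt m M u v + b.wt m M v u = 2) ∧
    (∀ u, b.Bv u → ∑ w ∈ univ.filter (fun w => b.G.Adj u w), b.wt m M u w = 4) ∧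
    (∀ u v, b.Bv u → ¬ b.Bv v → b.G.Adj u v → b.wt m M u v = 1) := by
  refine ⟨?_, ?_, ?_, ?_⟩
  · intro u v
    unfold BandG.wt
    split_ifs
    · exact wc_nn _ (b3_F01 b m M) _ _
    · norm_num
  · intro u v hu hv h
    obtain ⟨p, q, h0, h1, rfl, hq, rfl⟩ := b3_nb b u v hu h
    have hl := b3_ly b p q hq
    have hin := b3_in b q (by omega) (by omega) hv
    rw [wt_F b m M hℓ p h0 h1 q hq, wt_F b m M hℓ q hin.1 hin.2 p (b3_symm p q hq)]
    exact wc_pair _ p q hq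
  · rintro u ⟨p, h0, h1, rfl⟩
    exact b3_out b m M hℓ p h0 h1 _ (fun w => by simp)
  · intro u v hu hv h
    obtain ⟨p, q, h0, h1, rfl, hq, rfl⟩ := b3_nb b u v hu h
    have hl := b3_ly b p q hq
    have hqW : b.ly q = 0 ∨ b.ly q = W := by
      by_contra hne
      push Not at hne
      exact hv ⟨q, by omega, by omega, rfl⟩
    rw [wt_F b m M hℓ p h0 h1 q hq]
    have hF := fun f => b3_face b m M hm hW q f hqW
    obtain ⟨x, t⟩ := p
    simp only [nb, mem_insert, mem_singleton] at hq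
    unfold wc
    rcases hq with rfl | rfl | rfl | rfl <;> split_ifs <;> simp_all

end BandG

end Bd
end TorGrid
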