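import Pool.Agent.Lib.MP_caf32e_co.Bd.B2

/-! From a flat band to a collar. -/

set_option autoImplicit false

namespace TorGrid
namespace Bd

open Finset

variable {V : Type} [Fintype V] [DecidableEq V] {ℓ W : ℕ}

namespace BandG

private theorem b4_psi (b : BandG V ℓ W) (m M : ℕ) (x y : ℤ)
    (h0 : (m : ℤ) ≤ b.ly (x, y)) (h1 : b.ly (x, y) < m + M) :
    b.ψ0 m M (x, y) = (if b.s x = -1 then 1 else 0) ∧
    b.ψ0 m M (x, y - 1) = (if b.s x = -1 then 1 else 0) ∧
    b.ψ0 m M (x - 1, y) = (if b.s (x - 1) = -1 then 1 else 0) ∧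
    b.ψ0 m M (x - 1, y - 1) = (if b.s (x - 1) = -1 then 1 else 0) := by
  have hs : b.s (x - 1) = b.T x - b.T (x - 1) := by
    unfold s
    rw [sub_add_cancel]
  unfold ly at h0 h1
  simp only at h0 h1
  unfold ψ0 ly
  simp only
  refine ⟨?_, ?_, ?_, ?_⟩
  · by_cases h : b.s x = -1
    · rw [if_pos ⟨h, by omega, by omega⟩, if_pos h]
    · rw [if_neg (fun h' => h h'.1), if_neg h]
  · by_cases h : b.s x = -1
    · rw [if_pos ⟨h, by omega, by omega⟩, if_pos h]
    · rw [if_neg (fun h' => h h'.1), if_neg h]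
  · by_cases h : b.s (x - 1) = -1
    · rw [if_pos ⟨h, by omega, by omega⟩, if_pos h]
    · rw [if_neg (fun h' => h h'.1), if_neg h]
  · by_cases h : b.s (x - 1) = -1
    · rw [if_pos ⟨h, by omega, by omega⟩, if_pos h]
    · rw [if_neg (fun h' => h h'.1), if_neg h]

open Classical in
private theorem b4_aux (b : BandG V ℓ W) (m M : ℕ) (hℓ : 3 ≤ ℓ) (hm : 4 ≤ m)
    (hW : W = M + 2 * m) (x y : ℤ) (h0 : (m : ℤ) ≤ b.ly (x, y)) (h1 : b.ly (x, y) < m + M)
    (q : P2) (hq : q ∈ nb (x, y)) :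
    b.wt m M (b.F (x, y)) (b.F q) = (if b.F q = b.F (x + 1, y) then 1 else 0) +
      (if b.F q = b.F (x, y + b.s x) then 1 else 0) +
      (if b.F q = b.F (x - 1, y) then 1 else 0) +
      (if b.F q = b.F (x, y - b.s (x - 1)) then 1 else 0) := by
  have g0 : 0 < b.ly (x, y) := by omega
  have g1 : b.ly (x, y) < W := by omega
  rw [b.wt_F m M hℓ (x, y) g0 g1 q hq]
  have key : ∀ q' : P2, q' ∈ nb (x, y) → (b.F q = b.F q' ↔ q = q') := fun q' hq' =>
    ⟨fun h => b.nb_inj hℓ (x, y) g0 g1 q q' hq hq' h, fun h => by rw [h]⟩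
  have n1 : ((x + 1, y) : P2) ∈ nb (x, y) := by simp [nb]
  have n2 : ((x - 1, y) : P2) ∈ nb (x, y) := by simp [nb]
  have n3 : ((x, y + 1) : P2) ∈ nb (x, y) := by simp [nb]
  have n4 : ((x, y - 1) : P2) ∈ nb (x, y) := by simp [nb]
  have s1 : b.s x = 1 ∨ b.s x = -1 := (b.per_k 0 x 0).2.2.2.2
  have s2 : b.s (x - 1) = 1 ∨ b.s (x - 1) = -1 := (b.per_k 0 (x - 1) 0).2.2.2.2
  have n5 : ((x, y + b.s x) : P2) ∈ nb (x, y) := by
    rcases s1 with h | h
    · rw [h]; exact n3
    · rw [h]; exact n4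
  have n6 : ((x, y - b.s (x - 1)) : P2) ∈ nb (x, y) := by
    rcases s2 with h | h
    · rw [h]; exact n4
    · rw [h, sub_neg_eq_add]; exact n3
  obtain ⟨p1, p2, p3, p4⟩ := b4_psi b m M x y h0 h1
  simp only [key _ n1, key _ n2, key _ n5, key _ n6]
  have hq' : q = (x + 1, y) ∨ q = (x - 1, y) ∨ q = (x, y + 1) ∨ q = (x, y - 1) := by
    simpa [nb] using hq
  unfold wc
  simp only [p1, p2, p3, p4]
  rcases hq' with rfl | rfl | rfl | rfl <;> rcases s1 with h | h <;> rcases s2 with h' | h' <;>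
    simp [h, h', Prod.ext_iff] <;> omega

open Classical in
/-- ROW B4. `u = F p` with `m ≤ ly p < m + M`. The faces at `p` have `ψ0 = 1` iff the slope of their column is `-1` (definition of `ψ0`, layers of the corners). `w = F q`,
`q ∈ nb p`. In each of the four cases compute both sides: right: `1 = [w = N u]`; left: `1 = [w = N' u]`; up: `1 + [s(x-1) = -1] - [s x = -1] =
[H u = w] + [H' u = w]`, down similarly; the other indicators vanish by `nb_inj`. -/
theorem wt_col (b : BandG V ℓ W) (m M : ℕ) (hℓ : 3 ≤ ℓ) (hm : 4 ≤ m) (hW : W = M + 2 * m) (u w : V)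
    (h0 : 0 ≤ b.lay m u) (h1 : b.lay m u < M) (h : b.G.Adj u w) :
    b.wt m M u w = (if w = b.N u then 1 else 0) + (if w = b.H u then 1 else 0) +
      (if w = b.N' u then 1 else 0) + (if w = b.H' u then 1 else 0) := by
  obtain ⟨hF, hl0, hlW, hlay⟩ := b.of_lay m u (by omega)
  obtain ⟨x, y, hxy⟩ : ∃ x y : ℤ, b.pt u = (x, y) := ⟨_, _, rfl⟩
  rw [hxy] at hF hl0 hlW hlay
  have g0 : (m : ℤ) ≤ b.ly (x, y) := by omega
  have g1 : b.ly (x, y) < m + M := by omega
  rw [← hF] at h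
  obtain ⟨q, hq, rfl⟩ := (b.adj (x, y) (by have : 0 < b.ly (x, y) := by omega
                                           exact this)
    (by have : b.ly (x, y) < W := by omega
        exact this) w).1 h
  have e1 : b.N u = b.F (x + 1, y) := by
    unfold N mv; rw [hxy]; simp
  have e2 : b.H u = b.F (x, y + b.s x) := by
    unfold H mv slp; rw [hxy]; simp
  have e3 : b.N' u = b.F (x - 1, y) := by
    unfold N' mv; rw [hxy]; simp [sub_eq_add_neg]
  have e4 : b.H' u = b.F (x, y - b.s (x - 1)) := by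
    unfold H' mv slp; rw [hxy]; simp [sub_eq_add_neg]
  rw [e1, e2, e3, e4]
  have := b4_aux b m M hℓ hm hW x y g0 g1 q hq
  rw [hF] at this
  exact this

end BandG

end Bd
end TorGrid
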