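import Pool.Agent.Lib.MP_caf32e_co.Bd.B1

/-! From a flat band to a collar. -/

set_option autoImplicit false

namespace TorGrid
namespace Bd

open Finset

variable {V : Type} [Fintype V] [DecidableEq V] {ℓ W : ℕ}

namespace BandG

private theorem b5_T1 (b : BandG V ℓ W) (x : ℤ) (a : ℕ) : |b.T (x + a) - b.T x| ≤ a := by
  induction a with
  | zero => simp
  | succ a ih =>
    have h := b.hT (x + a)
    have e : x + ((a + 1 : ℕ) : ℤ) = x + a + 1 := by push_cast; ring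
    rw [e]
    rw [abs_le] at ih ⊢
    push_cast
    constructor <;> rcases h with h | h <;> omega

private theorem b5_T (b : BandG V ℓ W) (x a : ℤ) : |b.T (x + a) - b.T x| ≤ |a| := by
  rcases le_total 0 a with h | h
  · obtain ⟨n, rfl⟩ := Int.eq_ofNat_of_zero_le h
    have := b5_T1 b x n
    rwa [abs_of_nonneg h]
  · obtain ⟨n, hn⟩ := Int.eq_ofNat_of_zero_le (neg_nonneg.2 h)
    have h2 := b5_T1 b (x + a) n
    have e : x + a + n = x := by omega
    rw [e] at h2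
    rw [abs_sub_comm, abs_of_nonpos h, hn]
    exact h2

private theorem b5_ly (b : BandG V ℓ W) (P p : P2) :
    |b.ly (P.1 + p.1, P.2 + p.2) - b.ly P| ≤ |p.1| + |p.2| := by
  have h := b5_T b P.1 p.1
  have e : b.ly (P.1 + p.1, P.2 + p.2) - b.ly P = p.2 - (b.T (P.1 + p.1) - b.T P.1) := by
    unfold ly
    ring
  rw [e]
  calc |p.2 - (b.T (P.1 + p.1) - b.T P.1)| ≤ |p.2| + |b.T (P.1 + p.1) - b.T P.1| := abs_sub _ _
    _ ≤ |p.1| + |p.2| := by linarith

private theorem b5_box (b : BandG V ℓ W) (P p : P2) (r m M : ℕ) (hW : W = M + 2 * m)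
    (hm : 2 * r + 8 ≤ m) (h0 : (m : ℤ) ≤ b.ly P) (h1 : b.ly P < M + m)
    (hp : InB (0, 0) ((r : ℤ) + 1) p) :
    0 < b.ly (P.1 + p.1, P.2 + p.2) ∧ b.ly (P.1 + p.1, P.2 + p.2) < W := by
  have h := b5_ly b P p
  obtain ⟨ha, hb⟩ := hp
  simp only [sub_zero] at ha hb
  have h2 : |b.ly (P.1 + p.1, P.2 + p.2) - b.ly P| ≤ 2 * r + 2 := by linarith
  rw [abs_le] at h2
  constructor <;> omega

/-- ROW B5. All points `pt z + p` with `p` in the box of radius `r + 1` are in layers `1 .. W-1` (the layer changes by at most `|p.1| + |p.2|`: induction on `|p.1|` for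
`|T(x+a) - T x| ≤ |a|`). `chinj`: lifts differ by `k (ℓ, v2)` with `|k| ℓ ≤ 2r + 2 < ℓ`, so `k = 0`. -/
theorem chart1 (b : BandG V ℓ W) (r m M : ℕ) (hW : W = M + 2 * m) (hm : 2 * r + 8 ≤ m)
    (hℓ : 2 * r + 8 ≤ ℓ) (z : V) (h0 : 0 ≤ b.lay m z) (h1 : b.lay m z < M) :
    b.mv z (0, 0) = z ∧ (∀ p, InB (0, 0) (r + 1) p →
      0 < b.ly ((b.pt z).1 + p.1, (b.pt z).2 + p.2) ∧ b.ly ((b.pt z).1 + p.1, (b.pt z).2 + p.2) < W) ∧
    (∀ p, InB (0, 0) r p → b.Bv (b.mv z p)) ∧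
    (∀ p, InB (0, 0) r p → ∀ w, b.G.Adj (b.mv z p) w ↔ ∃ q ∈ nb p, w = b.mv z q) ∧
    (∀ p q, InB (0, 0) (r + 1) p → InB (0, 0) (r + 1) q → b.mv z p = b.mv z q → p = q) := by
  obtain ⟨hF, hl0, hl1, hl⟩ := b.of_lay m z (by omega)
  have hb : ∀ p, InB (0, 0) ((r : ℤ) + 1) p →
      0 < b.ly ((b.pt z).1 + p.1, (b.pt z).2 + p.2) ∧
        b.ly ((b.pt z).1 + p.1, (b.pt z).2 + p.2) < W := fun p hp =>
    b5_box b (b.pt z) p r m M hW hm (by omega) (by omega) hp
  have hr : ∀ p : P2, InB (0, 0) (r : ℤ) p → InB (0, 0) ((r : ℤ) + 1) p := fun p hp =>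
    ⟨by have := hp.1; omega, by have := hp.2; omega⟩
  refine ⟨?_, hb, ?_, ?_, ?_⟩
  · unfold mv
    rw [add_zero, add_zero]
    exact hF
  · intro p hp
    obtain ⟨h2, h3⟩ := hb p (hr p hp)
    exact ⟨_, h2, h3, rfl⟩
  · intro p hp w
    obtain ⟨h2, h3⟩ := hb p (hr p hp)
    unfold mv
    rw [b.adj _ h2 h3 w]
    constructor
    · rintro ⟨q, hq, rfl⟩
      refine ⟨(q.1 - (b.pt z).1, q.2 - (b.pt z).2), ?_, ?_⟩
      · obtain ⟨q1, q2⟩ := q
        obtain ⟨p1, p2⟩ := p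
        simp only [nb, mem_insert, mem_singleton, Prod.mk.injEq] at hq ⊢
        omega
      · congr 1
        ext <;> simp
    · rintro ⟨q, hq, rfl⟩
      refine ⟨_, ?_, rfl⟩
      obtain ⟨q1, q2⟩ := q
      obtain ⟨p1, p2⟩ := p
      simp only [nb, mem_insert, mem_singleton, Prod.mk.injEq] at hq ⊢
      omega
  · intro p q hp hq h
    obtain ⟨h2, h3⟩ := hb p hp
    obtain ⟨h4, h5⟩ := hb q hq
    obtain ⟨k, hk⟩ := b.inj _ _ h2.le h3.le h4.le h5.le h
    rw [Prod.mk.injEq] at hk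
    obtain ⟨hk1, hk2⟩ := hk
    have hp1 := abs_le.1 hp.1
    have hq1 := abs_le.1 hq.1
    have hk0 : k = 0 := by
      have hlt : |k * (ℓ : ℤ)| < ℓ := by
        rw [abs_lt]
        constructor <;> omega
      rw [abs_mul, Nat.abs_cast] at hlt
      have hℓ0 : (0 : ℤ) < ℓ := by omega
      have h6 : |k| < 1 := by
        by_contra hc
        push Not at hc
        nlinarith
      exact Int.abs_lt_one_iff.1 h6
    subst hk0
    simp only [zero_mul, add_zero] at hk1 hk2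
    ext
    · simp at hk1
      omega
    · simp at hk2
      omega

end BandG

end Bd
end TorGrid
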