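import Pool.Agent.Lib.MP_caf32e_co.Bd.B5
import Pool.Agent.Lib.MP_caf32e_co.Bd.B2

/-! From a flat band to a collar. -/

set_option autoImplicit false

namespace TorGrid
namespace Bd

open Finset

variable {V : Type} [Fintype V] [DecidableEq V] {ℓ W : ℕ}

namespace BandG

/-- translation of the weights -/
private theorem b6_wc (ψ : P2 → ℤ) (X Y : ℤ) (p q : P2) :
    wc (fun f : P2 => ψ (X + f.1, Y + f.2)) p q = wc ψ (X + p.1, Y + p.2) (X + q.1, Y + q.2) := by
  unfold wc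
  have e1 : (q = (p.1 + 1, p.2)) ↔ ((X + q.1, Y + q.2) = (X + p.1 + 1, Y + p.2)) := by
    rw [Prod.ext_iff, Prod.ext_iff]
    constructor
    · rintro ⟨h1, h2⟩
      constructor
      · show X + q.1 = X + p.1 + 1
        rw [h1]; show X + (p.1 + 1) = _; ring
      · show Y + q.2 = Y + p.2
        rw [h2]
    · rintro ⟨h1, h2⟩
      have h1' : X + q.1 = X + p.1 + 1 := h1
      have h2' : Y + q.2 = Y + p.2 := h2
      constructor
      · show q.1 = p.1 + 1
        omega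
      · show q.2 = p.2
        omega
  have e2 : (q = (p.1 - 1, p.2)) ↔ ((X + q.1, Y + q.2) = (X + p.1 - 1, Y + p.2)) := by
    rw [Prod.ext_iff, Prod.ext_iff]
    constructor
    · rintro ⟨h1, h2⟩
      constructor
      · show X + q.1 = X + p.1 - 1
        rw [h1]; show X + (p.1 - 1) = _; ring
      · show Y + q.2 = Y + p.2
        rw [h2]
    · rintro ⟨h1, h2⟩
      have h1' : X + q.1 = X + p.1 - 1 := h1
      have h2' : Y + q.2 = Y + p.2 := h2
      constructor
      · show q.1 = p.1 - 1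
        omega
      · show q.2 = p.2
        omega
  have e3 : (q = (p.1, p.2 + 1)) ↔ ((X + q.1, Y + q.2) = (X + p.1, Y + p.2 + 1)) := by
    rw [Prod.ext_iff, Prod.ext_iff]
    constructor
    · rintro ⟨h1, h2⟩
      constructor
      · show X + q.1 = X + p.1
        rw [h1]
      · show Y + q.2 = Y + p.2 + 1
        rw [h2]; show Y + (p.2 + 1) = _; ring
    · rintro ⟨h1, h2⟩
      have h1' : X + q.1 = X + p.1 := h1
      have h2' : Y + q.2 = Y + p.2 + 1 := h2
      constructor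
      · show q.1 = p.1
        omega
      · show q.2 = p.2 + 1
        omega
  have e4 : (q = (p.1, p.2 - 1)) ↔ ((X + q.1, Y + q.2) = (X + p.1, Y + p.2 - 1)) := by
    rw [Prod.ext_iff, Prod.ext_iff]
    constructor
    · rintro ⟨h1, h2⟩
      constructor
      · show X + q.1 = X + p.1
        rw [h1]
      · show Y + q.2 = Y + p.2 - 1
        rw [h2]; show Y + (p.2 - 1) = _; ring
    · rintro ⟨h1, h2⟩
      have h1' : X + q.1 = X + p.1 := h1
      have h2' : Y + q.2 = Y + p.2 - 1 := h2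
      constructor
      · show q.1 = p.1
        omega
      · show q.2 = p.2 - 1
        omega
  have a1 : X + (p.1 - 1) = X + p.1 - 1 := by ring
  have a2 : Y + (p.2 - 1) = Y + p.2 - 1 := by ring
  simp only [e1, e2, e3, e4, a1, a2]

private theorem b6_up {r : ℕ} {p : P2} (h : InB (0, 0) r p) : InB (0, 0) (r + 1) p :=
  ⟨h.1.trans (by omega), h.2.trans (by omega)⟩

private theorem b6_nb {X Y : ℤ} {p q : P2} (h : q ∈ nb p) :
    ((X + q.1, Y + q.2) : P2) ∈ nb ((X + p.1, Y + p.2) : P2) := by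
  simp only [nb, mem_insert, mem_singleton, Prod.ext_iff] at h ⊢
  rcases h with h | h | h | h
  · left; omega
  · right; left; omega
  · right; right; left; omega
  · right; right; right; omega

/-- ROW B6. `glue`: both points are in the band (`chart1`), so the lifts differ by `k (ℓ, v2)`, `per_k`. `chwt`: `wt_F` and the definition of `ψz` (translate the
arguments of `wc`). The six formulas: `pt_F` for the point `pt z + p`, `mv z p = F (..)`. -/
theorem chart2 (b : BandG V ℓ W) (r m M : ℕ) (hW : W = M + 2 * m) (hm : 2 * r + 8 ≤ m)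
    (hℓ : 2 * r + 8 ≤ ℓ) (z : V) (h0 : 0 ≤ b.lay m z) (h1 : b.lay m z < M) :
    (∀ z', 0 ≤ b.lay m z' → b.lay m z' < M → ∀ p p' d : P2, InB (0, 0) r p → InB (0, 0) r p' →
      b.mv z p = b.mv z' p' → b.mv z (p.1 + d.1, p.2 + d.2) = b.mv z' (p'.1 + d.1, p'.2 + d.2)) ∧
    (∀ p, InB (0, 0) r p → ∀ q ∈ nb p, b.wt m M (b.mv z p) (b.mv z q) = wc (b.ψz m M z) p q) ∧
    (∀ p : P2, InB (0, 0) r p → 0 ≤ b.lay m (b.mv z p) → b.lay m (b.mv z p) < M →
      b.sg (b.mv z p) = b.mv z (p.1 + 1, p.2 + b.slp z p.1) ∧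
      b.N (b.mv z p) = b.mv z (p.1 + 1, p.2) ∧ b.H (b.mv z p) = b.mv z (p.1, p.2 + b.slp z p.1) ∧
      b.ta (b.mv z p) = b.mv z (p.1 - 1, p.2 - b.slp z (p.1 - 1)) ∧
      b.N' (b.mv z p) = b.mv z (p.1 - 1, p.2) ∧
      b.H' (b.mv z p) = b.mv z (p.1, p.2 - b.slp z (p.1 - 1))) := by
  obtain ⟨-, hb, -⟩ := b.chart1 r m M hW hm hℓ z h0 h1
  refine ⟨?_, ?_, ?_⟩
  · intro z' h0' h1' p p' d hp hp' he
    obtain ⟨-, hb', -⟩ := b.chart1 r m M hW hm hℓ z' h0' h1'
    have a := hb p (b6_up hp)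
    have a' := hb' p' (b6_up hp')
    unfold ly at a a'
    unfold mv at he ⊢
    obtain ⟨k, hk⟩ := b.inj _ _ a.1.le a.2.le a'.1.le a'.2.le he
    rw [Prod.ext_iff] at hk
    have hk1 : (b.pt z').1 + p'.1 = (b.pt z).1 + p.1 + k * ℓ := hk.1
    have hk2 : (b.pt z').2 + p'.2 = (b.pt z).2 + p.2 + k * b.v2 := hk.2
    have h2 := (b.per_k k ((b.pt z).1 + (p.1 + d.1)) ((b.pt z).2 + (p.2 + d.2))).2.1
    have e1 : (b.pt z').1 + (p'.1 + d.1) = (b.pt z).1 + (p.1 + d.1) + k * ℓ := by linarith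
    have e2 : (b.pt z').2 + (p'.2 + d.2) = (b.pt z).2 + (p.2 + d.2) + k * b.v2 := by linarith
    show b.F ((b.pt z).1 + (p.1 + d.1), (b.pt z).2 + (p.2 + d.2)) =
      b.F ((b.pt z').1 + (p'.1 + d.1), (b.pt z').2 + (p'.2 + d.2))
    rw [e1, e2, h2]
  · intro p hp q hq
    have a := hb p (b6_up hp)
    have h3 := b.wt_F m M (by omega) ((b.pt z).1 + p.1, (b.pt z).2 + p.2) a.1 a.2
      ((b.pt z).1 + q.1, (b.pt z).2 + q.2) (b6_nb hq)
    have h4 := b6_wc (b.ψ0 m M) (b.pt z).1 (b.pt z).2 p q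
    show b.wt m M (b.F ((b.pt z).1 + p.1, (b.pt z).2 + p.2))
      (b.F ((b.pt z).1 + q.1, (b.pt z).2 + q.2)) =
      wc (fun f : P2 => b.ψ0 m M ((b.pt z).1 + f.1, (b.pt z).2 + f.2)) p q
    rw [h3, h4]
  · intro p hp _ _
    have a := hb p (b6_up hp)
    obtain ⟨-, hmv, hsl, -⟩ := b.pt_F m ((b.pt z).1 + p.1, (b.pt z).2 + p.2) a.1.le a.2.le
    have hz : b.mv z p = b.F ((b.pt z).1 + p.1, (b.pt z).2 + p.2) := rfl
    have hF : ∀ x y x' y' : ℤ, x = x' → y = y' → b.F (x, y) = b.F (x', y') := by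
      intro x y x' y' hx hy
      rw [hx, hy]
    rw [hz]
    refine ⟨?_, ?_, ?_, ?_, ?_, ?_⟩
    · unfold sg
      rw [hmv, hsl]
      refine hF _ _ _ _ ?_ ?_
      · show (b.pt z).1 + p.1 + 1 = (b.pt z).1 + (p.1 + 1)
        ring
      · show (b.pt z).2 + p.2 + b.s ((b.pt z).1 + p.1 + 0) =
          (b.pt z).2 + (p.2 + b.s ((b.pt z).1 + p.1))
        rw [add_zero]
        ring
    · unfold N
      rw [hmv]
      refine hF _ _ _ _ ?_ ?_
      · show (b.pt z).1 + p.1 + 1 = (b.pt z).1 + (p.1 + 1)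
        ring
      · show (b.pt z).2 + p.2 + 0 = (b.pt z).2 + p.2
        ring
    · unfold H
      rw [hmv, hsl]
      refine hF _ _ _ _ ?_ ?_
      · show (b.pt z).1 + p.1 + 0 = (b.pt z).1 + p.1
        ring
      · show (b.pt z).2 + p.2 + b.s ((b.pt z).1 + p.1 + 0) =
          (b.pt z).2 + (p.2 + b.s ((b.pt z).1 + p.1))
        rw [add_zero]
        ring
    · unfold ta
      rw [hmv, hsl]
      refine hF _ _ _ _ ?_ ?_
      · show (b.pt z).1 + p.1 + -1 = (b.pt z).1 + (p.1 - 1)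
        ring
      · show (b.pt z).2 + p.2 + -b.s ((b.pt z).1 + p.1 + -1) =
          (b.pt z).2 + (p.2 - b.s ((b.pt z).1 + (p.1 - 1)))
        have e : (b.pt z).1 + p.1 + -1 = (b.pt z).1 + (p.1 - 1) := by ring
        rw [e]
        ring
    · unfold N'
      rw [hmv]
      refine hF _ _ _ _ ?_ ?_
      · show (b.pt z).1 + p.1 + -1 = (b.pt z).1 + (p.1 - 1)
        ring
      · show (b.pt z).2 + p.2 + 0 = (b.pt z).2 + p.2
        ring
    · unfold H'
      rw [hmv, hsl]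
      refine hF _ _ _ _ ?_ ?_
      · show (b.pt z).1 + p.1 + 0 = (b.pt z).1 + p.1
        ring
      · show (b.pt z).2 + p.2 + -b.s ((b.pt z).1 + p.1 + -1) =
          (b.pt z).2 + (p.2 - b.s ((b.pt z).1 + (p.1 - 1)))
        have e : (b.pt z).1 + p.1 + -1 = (b.pt z).1 + (p.1 - 1) := by ring
        rw [e]
        ring

end BandG

end Bd
end TorGrid
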