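import Pool.Agent.Lib.MP_caf32e_co.Bd.B1

/-! From a flat band to a collar. -/

set_option autoImplicit false

namespace TorGrid
namespace Bd

open Finset

variable {V : Type} [Fintype V] [DecidableEq V] {ℓ W : ℕ}

namespace BandG

/-- step of the layer function -/
private theorem b7_ly (b : BandG V ℓ W) (x t : ℤ) : b.ly (x, t) = t - b.T x := rfl

private theorem b7_lay (b : BandG V ℓ W) (m : ℕ) (q : P2) (h0 : 0 ≤ b.ly q) (h1 : b.ly q ≤ W) :
    b.lay m (b.F q) = b.ly q - m := (b.pt_F m q h0 h1).2.2.2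

private theorem b7_iter (b : BandG V ℓ W) (x j : ℤ) (h0 : 0 ≤ j) (h1 : j ≤ W) (k : ℕ) :
    b.sg^[k] (b.F (x, b.T x + j)) = b.F (x + k, b.T (x + k) + j) := by
  induction k with
  | zero => simp
  | succ k ih =>
    rw [Function.iterate_succ_apply', ih]
    have hly : b.ly (x + k, b.T (x + k) + j) = j := by
      simp only [b7_ly]; ring
    obtain ⟨-, hmv, hsl, -⟩ := b.pt_F 0 (x + k, b.T (x + k) + j) (by rw [hly]; exact h0)
      (by rw [hly]; exact h1)
    show b.mv (b.F (x + k, b.T (x + k) + j))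
      (1, b.slp (b.F (x + k, b.T (x + k) + j)) 0) = _
    rw [hmv, hsl]
    simp only [s]
    congr 2
    · push_cast; ring
    · push_cast
      have e1 : x + (k : ℤ) + 0 = x + k := by ring
      have e2 : x + ((k : ℤ) + 1) = x + k + 1 := by ring
      rw [e1, e2]
      ring

/-- ROW B7. `of_lay`, `pt_F` for the neighbouring points (they are in the band, `2 ≤ m`). `orb`: `u = F (x, T x + j)`, `v = F (y, T y + j)` with `j = ly`; `sg^[k] u =
F (x + k, T (x + k) + j)` by induction; take `k = ((y - x) mod ℓ)`. -/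
theorem lay_all (b : BandG V ℓ W) (m M : ℕ) (hℓ : 3 ≤ ℓ) (hm : 4 ≤ m) (hW : W = M + 2 * m) :
    (∀ v, -1 ≤ b.lay m v → b.lay m v ≤ M → b.Bv v) ∧
    (∀ v, 0 ≤ b.lay m v → b.lay m v < M →
      b.lay m (b.sg v) = b.lay m v ∧ b.lay m (b.ta v) = b.lay m v) ∧
    (∀ v, 0 ≤ b.lay m v → b.lay m v < M →
      (b.lay m (b.N v) = b.lay m v + 1 ∧ b.lay m (b.H v) = b.lay m v - 1) ∨
      (b.lay m (b.N v) = b.lay m v - 1 ∧ b.lay m (b.H v) = b.lay m v + 1)) ∧
    (∀ v, 0 ≤ b.lay m v → b.lay m v < M →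
      (b.lay m (b.N' v) = b.lay m v + 1 ∧ b.lay m (b.H' v) = b.lay m v - 1) ∨
      (b.lay m (b.N' v) = b.lay m v - 1 ∧ b.lay m (b.H' v) = b.lay m v + 1)) ∧
    (∀ u v, 0 ≤ b.lay m u → b.lay m u < M → b.G.Adj u v →
      b.lay m v = b.lay m u + 1 ∨ b.lay m v = b.lay m u - 1) ∧
    (∀ u v, 0 ≤ b.lay m u → b.lay m u < M → b.lay m u = b.lay m v → ∃ k : ℕ, b.sg^[k] u = v) := by
  have hWz : (W : ℤ) = M + 2 * m := by exact_mod_cast hW
  have hmz : (4 : ℤ) ≤ m := by exact_mod_cast hm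
  refine ⟨?_, ?_, ?_, ?_, ?_, ?_⟩
  · intro v h1 h2
    obtain ⟨hF, h3, h4, h5⟩ := b.of_lay m v h1
    exact ⟨b.pt v, by omega, by omega, hF⟩
  · intro v h1 h2
    obtain ⟨hF, h3, h4, h5⟩ := b.of_lay m v (by omega)
    constructor
    · have hl : b.ly ((b.pt v).1 + 1, (b.pt v).2 + b.slp v 0) = b.ly (b.pt v) := by
        simp only [slp, s, ly, add_zero]; ring
      show b.lay m (b.F ((b.pt v).1 + 1, (b.pt v).2 + b.slp v 0)) = _
      rw [b7_lay b m _ (by rw [hl]; exact h3) (by rw [hl]; exact h4), hl, h5]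
    · have hl : b.ly ((b.pt v).1 + -1, (b.pt v).2 + -b.slp v (-1)) = b.ly (b.pt v) := by
        simp only [slp, s, ly]
        have e : (b.pt v).1 + -1 + 1 = (b.pt v).1 := by ring
        rw [e]; ring
      show b.lay m (b.F ((b.pt v).1 + -1, (b.pt v).2 + -b.slp v (-1))) = _
      rw [b7_lay b m _ (by rw [hl]; exact h3) (by rw [hl]; exact h4), hl, h5]
  · intro v h1 h2
    obtain ⟨hF, h3, h4, h5⟩ := b.of_lay m v (by omega)
    have hN : b.ly ((b.pt v).1 + 1, (b.pt v).2 + 0) =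
        b.ly (b.pt v) - (b.T ((b.pt v).1 + 1) - b.T (b.pt v).1) := by
      simp only [ly]; ring
    have hH : b.ly ((b.pt v).1 + 0, (b.pt v).2 + b.slp v 0) =
        b.ly (b.pt v) + (b.T ((b.pt v).1 + 1) - b.T (b.pt v).1) := by
      simp only [slp, s, ly, add_zero]; ring
    show (b.lay m (b.F ((b.pt v).1 + 1, (b.pt v).2 + 0)) = _ ∧
      b.lay m (b.F ((b.pt v).1 + 0, (b.pt v).2 + b.slp v 0)) = _) ∨
      (b.lay m (b.F ((b.pt v).1 + 1, (b.pt v).2 + 0)) = _ ∧
      b.lay m (b.F ((b.pt v).1 + 0, (b.pt v).2 + b.slp v 0)) = _)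
    rcases b.hT (b.pt v).1 with hT | hT
    · right
      rw [b7_lay b m _ (by rw [hN]; omega) (by rw [hN]; omega),
        b7_lay b m _ (by rw [hH]; omega) (by rw [hH]; omega), hN, hH, h5]
      constructor <;> omega
    · left
      rw [b7_lay b m _ (by rw [hN]; omega) (by rw [hN]; omega),
        b7_lay b m _ (by rw [hH]; omega) (by rw [hH]; omega), hN, hH, h5]
      constructor <;> omega
  · intro v h1 h2
    obtain ⟨hF, h3, h4, h5⟩ := b.of_lay m v (by omega)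
    have e : (b.pt v).1 + -1 + 1 = (b.pt v).1 := by ring
    have hT0 := b.hT ((b.pt v).1 + -1)
    rw [e] at hT0
    have hN : b.ly ((b.pt v).1 + -1, (b.pt v).2 + 0) =
        b.ly (b.pt v) + (b.T (b.pt v).1 - b.T ((b.pt v).1 + -1)) := by
      simp only [ly]; ring
    have hH : b.ly ((b.pt v).1 + 0, (b.pt v).2 + -b.slp v (-1)) =
        b.ly (b.pt v) - (b.T (b.pt v).1 - b.T ((b.pt v).1 + -1)) := by
      simp only [slp, s, ly, add_zero, e]; ring
    show (b.lay m (b.F ((b.pt v).1 + -1, (b.pt v).2 + 0)) = _ ∧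
      b.lay m (b.F ((b.pt v).1 + 0, (b.pt v).2 + -b.slp v (-1))) = _) ∨
      (b.lay m (b.F ((b.pt v).1 + -1, (b.pt v).2 + 0)) = _ ∧
      b.lay m (b.F ((b.pt v).1 + 0, (b.pt v).2 + -b.slp v (-1))) = _)
    rcases hT0 with hT | hT
    · left
      rw [b7_lay b m _ (by rw [hN]; omega) (by rw [hN]; omega),
        b7_lay b m _ (by rw [hH]; omega) (by rw [hH]; omega), hN, hH, h5]
      constructor <;> omega
    · right
      rw [b7_lay b m _ (by rw [hN]; omega) (by rw [hN]; omega),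
        b7_lay b m _ (by rw [hH]; omega) (by rw [hH]; omega), hN, hH, h5]
      constructor <;> omega
  · intro u v h1 h2 hadj
    obtain ⟨hF, h3, h4, h5⟩ := b.of_lay m u (by omega)
    rw [← hF] at hadj
    have hlp : b.ly (b.pt u) = (b.pt u).2 - b.T (b.pt u).1 := rfl
    obtain ⟨q, hq, rfl⟩ := (b.adj (b.pt u) (by omega) (by omega) v).mp hadj
    simp only [nb, mem_insert, mem_singleton] at hq
    have e : (b.pt u).1 - 1 + 1 = (b.pt u).1 := by ring
    have hT1 := b.hT (b.pt u).1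
    have hT0 := b.hT ((b.pt u).1 - 1)
    rw [e] at hT0
    have key : b.ly q = b.ly (b.pt u) + 1 ∨ b.ly q = b.ly (b.pt u) - 1 := by
      rcases hq with rfl | rfl | rfl | rfl <;> simp only [ly] <;> omega
    rw [b7_lay b m q (by omega) (by omega), h5]
    rcases key with h | h
    · left; omega
    · right; omega
  · intro u v h1 h2 huv
    obtain ⟨hF, h3, h4, h5⟩ := b.of_lay m u (by omega)
    obtain ⟨hF', h3', h4', h5'⟩ := b.of_lay m v (by omega)
    obtain ⟨⟨x, t⟩, hp⟩ : ∃ p, b.pt u = p := ⟨_, rfl⟩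
    obtain ⟨⟨y, t'⟩, hp'⟩ : ∃ p, b.pt v = p := ⟨_, rfl⟩
    rw [hp] at hF h3 h4 h5
    rw [hp'] at hF' h3' h4' h5'
    have hj : b.ly (y, t') = b.ly (x, t) := by omega
    have ht : t = b.T x + b.ly (x, t) := by simp only [ly]; ring
    have ht' : t' = b.T y + b.ly (x, t) := by rw [← hj]; simp only [ly]; ring
    have hl0 : (0 : ℤ) < ℓ := by exact_mod_cast (by omega : 0 < ℓ)
    have hk0 : 0 ≤ (y - x) % (ℓ : ℤ) := Int.emod_nonneg _ (by omega)
    refine ⟨((y - x) % (ℓ : ℤ)).toNat, ?_⟩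
    rw [← hF, ht, b7_iter b x _ h3 h4, Int.toNat_of_nonneg hk0, ← hF', ht']
    have hy : y = x + (y - x) % (ℓ : ℤ) + (y - x) / (ℓ : ℤ) * ℓ := by
      have := Int.emod_add_mul_ediv (y - x) (ℓ : ℤ)
      linarith
    obtain ⟨hT, -, -, -, -⟩ := b.per_k ((y - x) / (ℓ : ℤ)) (x + (y - x) % (ℓ : ℤ)) 0
    have hFk := (b.per_k ((y - x) / (ℓ : ℤ)) (x + (y - x) % (ℓ : ℤ))
      (b.T (x + (y - x) % (ℓ : ℤ)) + b.ly (x, t))).2.1
    rw [← hFk]
    congr 2
    · exact hy.symm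
    · rw [← hy] at hT
      rw [hT]; ring

end BandG

end Bd
end TorGrid
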