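import Pool.Agent.Lib.MP_caf32e_co.Bd.B1

/-! From a flat band to a collar. -/

set_option autoImplicit false

namespace TorGrid
namespace Bd

open Finset

variable {V : Type} [Fintype V] [DecidableEq V] {ℓ W : ℕ}

namespace BandG

/-- the layers `1 .. n-1` of the band -/
private def b8Inn (b : BandG V ℓ W) (n : ℤ) (u : V) : Prop := ∃ p : P2, 0 < b.ly p ∧ b.ly p < n ∧ b.F p = u

private theorem b8_ly_eq (b : BandG V ℓ W) (p q : P2) (hp0 : 0 ≤ b.ly p) (hp1 : b.ly p ≤ W)
    (hq0 : 0 ≤ b.ly q) (hq1 : b.ly q ≤ W) (h : b.F p = b.F q) : b.ly p = b.ly q := by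
  have h1 := (pt_F b 0 p hp0 hp1).2.2.2
  have h2 := (pt_F b 0 q hq0 hq1).2.2.2
  rw [h] at h1
  omega

private theorem b8_ly_nb (b : BandG V ℓ W) (p q : P2) (h : q ∈ nb p) :
    b.ly q = b.ly p + 1 ∨ b.ly q = b.ly p - 1 := by
  simp only [nb, mem_insert, mem_singleton] at h
  have hT1 := b.hT p.1
  have hT2 := b.hT (p.1 - 1)
  rw [sub_add_cancel] at hT2
  rcases h with rfl | rfl | rfl | rfl
  · simp only [ly]; omega
  · simp only [ly]; omega
  · simp only [ly]; omega
  · simp only [ly]; omega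

private theorem b8_F0 (b : BandG V ℓ W) (p : P2) (h : b.ly p = 0) : p = (p.1, b.T p.1) := by
  simp only [ly] at h
  ext
  · rfl
  · show p.2 = b.T p.1
    omega

private theorem b8_F1 (b : BandG V ℓ W) (p : P2) (h : b.ly p = 1) : p = (p.1, b.T p.1 + 1) := by
  simp only [ly] at h
  ext
  · rfl
  · show p.2 = b.T p.1 + 1
    omega

private theorem b8_ly0 (b : BandG V ℓ W) (x : ℤ) : b.ly (x, b.T x) = 0 := by simp [ly]

private theorem b8_ly1 (b : BandG V ℓ W) (x : ℤ) : b.ly (x, b.T x + 1) = 1 := by simp [ly]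

/-- an edge with an end in an inner layer `i` and the other in a layer of the band, both positive: not exceptional -/
private theorem b8_par_inn (b : BandG V ℓ W) (hW : 1 ≤ W) (p q : P2) (hp0 : 0 < b.ly p) (hp1 : b.ly p ≤ W)
    (hq0 : 0 < b.ly q) (hq1 : b.ly q ≤ W) (h : b.G.Adj (b.F p) (b.F q)) :
    (b.A (b.F p) ↔ ¬ b.A (b.F q)) := by
  have h1 := b.par _ _ h
  have hn : ¬ ((∃ x y, b.F p = b.F (x, b.T x) ∧ b.F q = b.F (y, b.T y + 1)) ∨
      (∃ x y, b.F q = b.F (x, b.T x) ∧ b.F p = b.F (y, b.T y + 1))) := by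
    rintro (⟨x, y, h2, -⟩ | ⟨x, y, h2, -⟩)
    · have := b8_ly_eq b p (x, b.T x) hp0.le hp1 (by rw [b8_ly0]) (by rw [b8_ly0]; positivity) h2
      rw [b8_ly0] at this
      omega
    · have := b8_ly_eq b q (x, b.T x) hq0.le hq1 (by rw [b8_ly0]) (by rw [b8_ly0]; positivity) h2
      rw [b8_ly0] at this
      omega
  have h3 := (not_congr h1).mpr hn
  tauto

/-- Case `u` in an inner layer. -/
private theorem b8_case (b : BandG V ℓ W) (m M : ℕ) (hm : 4 ≤ m) (hW : W = M + 2 * m) (j : ℤ)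
    (hj : 0 ≤ j) (hj' : j < M) (u v : V) (h : b.G.Adj u v) (hv : b.lay m v ≠ j)
    (hu : b8Inn b (m + j) u) : (b.A u ↔ (b.A v ↔ ¬ b8Inn b (m + j) v)) := by
  obtain ⟨p, hp0, hp1, rfl⟩ := hu
  have hWc : (W : ℤ) = M + 2 * m := by rw [hW]; push_cast; ring
  have hpW : b.ly p < W := by omega
  obtain ⟨q, hq, rfl⟩ := (b.adj p hp0 hpW v).1 h
  have hq' := b8_ly_nb b p q hq
  have hqW : b.ly q ≤ W := by omega
  have hq0 : 0 ≤ b.ly q := by omega
  have hl := (pt_F b m q hq0 hqW).2.2.2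
  have hqj : b.ly q ≠ m + j := by
    intro h1
    exact hv (by rw [hl, h1]; ring)
  rcases eq_or_ne (b.ly q) 0 with h0 | h0
  · have hni : ¬ b8Inn b (m + j) (b.F q) := by
      rintro ⟨q', h1, h2, h3⟩
      have := b8_ly_eq b q' q h1.le (by omega) hq0 hqW h3
      omega
    have hp1' : b.ly p = 1 := by omega
    have hex : ((∃ x y, b.F p = b.F (x, b.T x) ∧ b.F q = b.F (y, b.T y + 1)) ∨
      (∃ x y, b.F q = b.F (x, b.T x) ∧ b.F p = b.F (y, b.T y + 1))) := by
      right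
      exact ⟨q.1, p.1, by rw [← b8_F0 b q h0], by rw [← b8_F1 b p hp1']⟩
    have h4 := (b.par _ _ h).2 hex
    tauto
  · have hi : b8Inn b (m + j) (b.F q) := ⟨q, by omega, by omega, rfl⟩
    have h4 := b8_par_inn b (by omega) p q hp0 hpW.le (by omega) hqW h
    tauto

/-- ROW B8. `A' v = A v` xor (`v` is in one of the band layers `1 .. m+j-1`, i.e. `1 - m ≤ lay v ∧ lay v < j` and `v` in the band). Edges `u ~ v` with no end in the layer `j`: if no end is in the
flipped layers use `par` (an exceptional edge has an end in band layer 1, which is flipped); if `u` is in a flipped layer `i` (so inner), `v` is in the layer `i ± 1` (`adj`,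
`pt_F`): both flipped: `par` (not exceptional); `v` in layer `m+j`: excluded; `v` in layer 0: exceptional, `par`. Second claim: `N u` is adjacent to `u` and `σ u`, the edges are
not exceptional (layers `≥ 2`), so `A u ↔ A (σ u)`, and `lay` is the same. -/
theorem bip_band (b : BandG V ℓ W) (m M : ℕ) (hℓ : 3 ≤ ℓ) (hm : 4 ≤ m) (hW : W = M + 2 * m) (j : ℤ)
    (hj : 0 ≤ j) (hj' : j < M) : ∃ A : V → Prop,
    (∀ u v, b.G.Adj u v → b.lay m u ≠ j → b.lay m v ≠ j → (A u ↔ ¬ A v)) ∧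
    ∀ u, 0 ≤ b.lay m u → b.lay m u < M → b.lay m u ≠ j → (A (b.sg u) ↔ A u) := by
  refine ⟨fun u => (b.A u ↔ ¬ b8Inn b (m + j) u), ?_, ?_⟩
  · intro u v h hu hv
    by_cases hiu : b8Inn b (m + j) u
    · have := b8_case b m M hm hW j hj hj' u v h hv hiu
      tauto
    · by_cases hiv : b8Inn b (m + j) v
      · have := b8_case b m M hm hW j hj hj' v u h.symm hu hiv
        tauto
      · have hn : ¬ ((∃ x y, u = b.F (x, b.T x) ∧ v = b.F (y, b.T y + 1)) ∨
          (∃ x y, v = b.F (x, b.T x) ∧ u = b.F (y, b.T y + 1))) := by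
          rintro (⟨x, y, -, h2⟩ | ⟨x, y, -, h2⟩)
          · exact hiv ⟨(y, b.T y + 1), by rw [b8_ly1]; norm_num, by rw [b8_ly1]; omega, h2.symm⟩
          · exact hiu ⟨(y, b.T y + 1), by rw [b8_ly1]; norm_num, by rw [b8_ly1]; omega, h2.symm⟩
        have h3 := (not_congr (b.par _ _ h)).mpr hn
        tauto
  · intro u h0 h1 hne
    obtain ⟨hF, hp0, hpW, hl⟩ := of_lay b m u (by omega)
    obtain ⟨p, hp⟩ : ∃ p, b.pt u = p := ⟨_, rfl⟩
    rw [hp] at hF hp0 hpW hl
    have hs : b.s p.1 = 1 ∨ b.s p.1 = -1 := (per_k b 0 p.1 0).2.2.2.2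
    have hlp : b.ly p = b.lay m u + m := by omega
    have hWc : (W : ℤ) = M + 2 * m := by rw [hW]; push_cast; ring
    -- sg u
    have hsg : b.sg u = b.F (p.1 + 1, p.2 + b.s p.1) := by
      simp only [sg, mv, slp, hp, add_zero]
    have hlys : b.ly (p.1 + 1, p.2 + b.s p.1) = b.ly p := by
      simp only [ly, s]; ring
    have hlyN : b.ly (p.1 + 1, p.2) = b.ly p - b.s p.1 := by
      simp only [ly, s]; ring
    have hadj1 : b.G.Adj (b.F p) (b.F (p.1 + 1, p.2)) := by
      rw [b.adj p (by show 0 < b.ly p; omega) (by show b.ly p < W; omega)]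
      exact ⟨_, by simp [nb], rfl⟩
    have hadj2 : b.G.Adj (b.F (p.1 + 1, p.2 + b.s p.1)) (b.F (p.1 + 1, p.2)) := by
      rw [b.adj (p.1 + 1, p.2 + b.s p.1) (by show 0 < b.ly (p.1 + 1, p.2 + b.s p.1); omega)
        (by show b.ly (p.1 + 1, p.2 + b.s p.1) < W; omega)]
      refine ⟨_, ?_, rfl⟩
      rcases hs with hs | hs <;> simp [nb, hs]
    have e1 := b8_par_inn b (by omega) p (p.1 + 1, p.2) (by omega) (by omega) (by omega) (by omega) hadj1
    have e2 := b8_par_inn b (by omega) (p.1 + 1, p.2 + b.s p.1) (p.1 + 1, p.2) (by omega) (by omega)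
      (by omega) (by omega) hadj2
    have e3 : b8Inn b (m + j) (b.sg u) ↔ b8Inn b (m + j) u := by
      rw [hsg, ← hF]
      constructor
      · rintro ⟨q, hq0, hq1, hq2⟩
        have := b8_ly_eq b q _ hq0.le (by omega) (by omega) (by omega) hq2
        exact ⟨p, by omega, by omega, rfl⟩
      · rintro ⟨q, hq0, hq1, hq2⟩
        have := b8_ly_eq b q _ hq0.le (by omega) (by omega) (by omega) hq2
        exact ⟨_, by rw [hlys]; omega, by rw [hlys]; omega, rfl⟩
    show (b.A (b.sg u) ↔ ¬ b8Inn b (m + j) (b.sg u)) ↔ (b.A u ↔ ¬ b8Inn b (m + j) u)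
    rw [e3]
    have e4 : b.A (b.sg u) ↔ b.A u := by
      rw [hsg]
      rw [hF] at e1
      tauto
    rw [e4]

end BandG

end Bd
end TorGrid
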