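import Pool.Agent.Lib.MP_caf32e_co.Bd.B3
import Pool.Agent.Lib.MP_caf32e_co.Bd.B4
import Pool.Agent.Lib.MP_caf32e_co.Bd.B6
import Pool.Agent.Lib.MP_caf32e_co.Bd.B7
import Pool.Agent.Lib.MP_caf32e_co.Bd.B8

/-! From a flat band to a collar. -/

set_option autoImplicit false

namespace TorGrid
namespace Bd

open Finset

variable {V : Type} [Fintype V] [DecidableEq V] {ℓ W : ℕ}

namespace BandG

/-- ROW B9. Put everything together. -/
theorem toColl (b : BandG V ℓ W) (r m M : ℕ) (hW : W = M + 2 * m) (hm : 2 * r + 8 ≤ m)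
    (hℓ : 2 * r + 8 ≤ ℓ) : ∃ K : Coll V r M, K.G = b.G := by
  have hℓ3 : 3 ≤ ℓ := by omega
  have hm4 : 4 ≤ m := by omega
  obtain ⟨l1, l2, l3, l4, l5, l6⟩ := b.lay_all m M hℓ3 hm4 hW
  obtain ⟨w1, w2, w3, w4⟩ := b.wt_all m M hℓ3 hm4 hW
  refine ⟨{
    G := b.G
    B := b.Bv
    lay := b.lay m
    σ := b.sg
    τ := b.ta
    N := b.N
    H := b.H
    N' := b.N'
    H' := b.H'
    wt := b.wt m M
    ch := b.mv
    ψ := b.ψz m M
    sl := b.slp
    CB := l1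
    lσ := l2
    hd := l3
    hd' := l4
    adjlay := l5
    orb := l6
    bip := fun j hj hj' => b.bip_band m M hℓ3 hm4 hW j hj hj'
    wt_nn := w1
    wt_pair := w2
    wt_out := w3
    wt_bd := w4
    wt_col := fun u w h0 h1 h => b.wt_col m M hℓ3 hm4 hW u w h0 h1 h
    outH := fun S hS => b.outH S fun v hv p h0 h1 h => hS v hv ⟨p, h0, h1, h⟩
    ch0 := fun z h0 h1 => (b.chart1 r m M hW hm hℓ z h0 h1).1
    chB := fun z h0 h1 => (b.chart1 r m M hW hm hℓ z h0 h1).2.2.1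
    chadj := fun z h0 h1 => (b.chart1 r m M hW hm hℓ z h0 h1).2.2.2.1
    chinj := fun z h0 h1 => (b.chart1 r m M hW hm hℓ z h0 h1).2.2.2.2
    glue := fun z z' h0 h1 h0' h1' => (b.chart2 r m M hW hm hℓ z h0 h1).1 z' h0' h1'
    chwt := fun z h0 h1 => (b.chart2 r m M hW hm hℓ z h0 h1).2.1
    ψ01 := ?_
    sl1 := fun z x => (b.per_k 0 ((b.pt z).1 + x) 0).2.2.2.2
    chσ := fun z h0 h1 => (b.chart2 r m M hW hm hℓ z h0 h1).2.2 }, rfl⟩
  intro z f
  unfold ψz ψ0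
  split_ifs
  · exact Or.inr rfl
  · exact Or.inl rfl

end BandG

end Bd
end TorGrid
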