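import Pool.Agent.Lib.MP_caf32e_co.Bd.Defs

/-! From a flat band to a collar: definitions. `m` = margin, collar = layers `m .. m+M-1` of the band, `W = M + 2m`. -/

set_option autoImplicit false

namespace TorGrid
namespace Bd

open Finset

variable {V : Type} [Fintype V] [DecidableEq V] {ℓ W : ℕ}

namespace BandG

/-- layer of a point of the plane -/
def ly (b : BandG V ℓ W) (p : P2) : ℤ := p.2 - b.T p.1

/-- slope at the column `x` -/
def s (b : BandG V ℓ W) (x : ℤ) : ℤ := b.T (x + 1) - b.T x

open Classical in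
/-- a lift of a vertex of the band (layers `0 .. W`) -/
noncomputable def pt (b : BandG V ℓ W) (v : V) : P2 :=
  if h : ∃ p : P2, 0 ≤ b.ly p ∧ b.ly p ≤ W ∧ b.F p = v then h.choose else (0, 0)

/-- inner band -/
def Bv (b : BandG V ℓ W) (v : V) : Prop := ∃ p : P2, 0 < b.ly p ∧ b.ly p < W ∧ b.F p = v

open Classical in
/-- layer of a vertex, counted from the first layer of the collar -/
noncomputable def lay (b : BandG V ℓ W) (m : ℕ) (v : V) : ℤ :=
  if ∃ p : P2, 0 ≤ b.ly p ∧ b.ly p ≤ W ∧ b.F p = v then b.ly (b.pt v) - m else -2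

/-- the face function: 1 on the faces of the falling columns with a corner in the collar (the corners of such a
face `f` have the layers `ly f`, `ly f + 1`, `ly f + 1`, `ly f + 2`) -/
def ψ0 (b : BandG V ℓ W) (m M : ℕ) (f : P2) : ℤ :=
  if b.s f.1 = -1 ∧ (m : ℤ) ≤ b.ly f + 2 ∧ b.ly f + 1 ≤ m + M then 1 else 0

open Classical in
/-- the weights -/
noncomputable def wt (b : BandG V ℓ W) (m M : ℕ) (u w : V) : ℤ :=
  if h : b.Bv u ∧ ∃ q ∈ nb (b.pt u), b.F q = w then wc (b.ψ0 m M) (b.pt u) h.2.choose else 1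

/-- the vertex at displacement `d` from `v` -/
noncomputable def mv (b : BandG V ℓ W) (v : V) (d : P2) : V :=
  b.F ((b.pt v).1 + d.1, (b.pt v).2 + d.2)

/-- slope at displacement `x` from `v` -/
noncomputable def slp (b : BandG V ℓ W) (v : V) (x : ℤ) : ℤ := b.s ((b.pt v).1 + x)

/-- the six moves -/
noncomputable def sg (b : BandG V ℓ W) (v : V) : V := b.mv v (1, b.slp v 0)
/-- backward -/
noncomputable def ta (b : BandG V ℓ W) (v : V) : V := b.mv v (-1, -b.slp v (-1))
/-- forward, horizontal -/
noncomputable def N (b : BandG V ℓ W) (v : V) : V := b.mv v (1, 0)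
/-- forward, vertical -/
noncomputable def H (b : BandG V ℓ W) (v : V) : V := b.mv v (0, b.slp v 0)
/-- backward, horizontal -/
noncomputable def N' (b : BandG V ℓ W) (v : V) : V := b.mv v (-1, 0)
/-- backward, vertical -/
noncomputable def H' (b : BandG V ℓ W) (v : V) : V := b.mv v (0, -b.slp v (-1))

/-- the face function in the chart of `z` -/
noncomputable def ψz (b : BandG V ℓ W) (m M : ℕ) (z : V) (f : P2) : ℤ :=
  b.ψ0 m M ((b.pt z).1 + f.1, (b.pt z).2 + f.2)

end BandG

end Bd
end TorGrid
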