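import Pool.Agent.Lib.MP_caf32e_co.Bd.Defs

/-! The count (page, section 2). -/

set_option autoImplicit false

namespace TorGrid
namespace Bd

open Finset

variable {V : Type} [Fintype V] [DecidableEq V] {r M : ℕ} {K : Coll V r M} {R ρ R1 : ℕ}

private lemma c1_inB {r : ℕ} (hr : 4 ≤ r) {x y : ℤ} (h1 : -3 ≤ x) (h2 : x ≤ 3) (h3 : -3 ≤ y)
    (h4 : y ≤ 3) : InB (0, 0) (r : ℤ) (x, y) := by
  unfold InB
  refine ⟨?_, ?_⟩
  all_goals simp only [sub_zero, abs_le]; constructor <;> omega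

private lemma c1_inB' {r : ℕ} (hr : 4 ≤ r) {x y : ℤ} (h1 : -3 ≤ x) (h2 : x ≤ 3) (h3 : -3 ≤ y)
    (h4 : y ≤ 3) : InB (0, 0) ((r : ℤ) + 1) (x, y) := by
  unfold InB
  refine ⟨?_, ?_⟩
  all_goals simp only [sub_zero, abs_le]; constructor <;> omega

/-- ROW C1. Basic facts of a collar: use `chσ` at `z = v`, `p = (0,0)` (with `ch0`), then `chadj`, `chinj`, and `chσ` at `p = (1, sl v 0)`,
`(-1, - sl v (-1))` (these points are in the collar by `lσ`). Uniqueness: in the chart of `v` the vertex `u = N v` would be at `(1,0)`, with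
`N u` at `(2,0)` and `H u` at `(1, sl v 1)`; `u = H v` is at `(0, s)` with `N u` at `(1, s)`, `H u` at `(0, 2s)`; none of them is `(0,0)` (chinj). -/
theorem Coll.basic (K : Coll V r M) (hr : 4 ≤ r) (v : V) (hv : K.C v) :
    K.G.Adj v (K.N v) ∧ K.G.Adj v (K.H v) ∧ K.G.Adj v (K.N' v) ∧ K.G.Adj v (K.H' v) ∧
    K.G.Adj (K.N v) (K.σ v) ∧ K.G.Adj (K.H v) (K.σ v) ∧
    K.N' (K.σ v) = K.H v ∧ K.H' (K.σ v) = K.N v ∧ K.τ (K.σ v) = v ∧ K.σ (K.τ v) = v ∧
    ∀ u, K.C u → (u = K.N v ∨ u = K.H v) → ¬ (v = K.N u ∨ v = K.H u) := by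
  obtain ⟨hv0, hvM⟩ := hv
  have c0 := K.ch0 v hv0 hvM
  obtain ⟨s, hs⟩ : ∃ s : ℤ, s = K.sl v 0 := ⟨_, rfl⟩
  obtain ⟨s', hs'⟩ : ∃ s' : ℤ, s' = K.sl v (-1) := ⟨_, rfl⟩
  have hs1 : s = 1 ∨ s = -1 := by rw [hs]; exact K.sl1 v 0
  have hs1' : s' = 1 ∨ s' = -1 := by rw [hs']; exact K.sl1 v (-1)
  have hI : ∀ x y : ℤ, -3 ≤ x → x ≤ 3 → -3 ≤ y → y ≤ 3 → InB (0, 0) (r : ℤ) (x, y) :=
    fun x y h1 h2 h3 h4 => c1_inB hr h1 h2 h3 h4
  have hI' : ∀ x y : ℤ, -3 ≤ x → x ≤ 3 → -3 ≤ y → y ≤ 3 → InB (0, 0) ((r : ℤ) + 1) (x, y) :=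
    fun x y h1 h2 h3 h4 => c1_inB' hr h1 h2 h3 h4
  obtain ⟨a1, a2, a3, a4, a5, a6⟩ := K.chσ v hv0 hvM (0, 0) (hI 0 0 (by norm_num) (by norm_num)
    (by norm_num) (by norm_num)) (by rw [c0]; exact hv0) (by rw [c0]; exact hvM)
  simp only [zero_add, zero_sub] at a1 a2 a3 a4 a5 a6
  rw [c0] at a1 a2 a3 a4 a5 a6
  rw [← hs] at a1 a3
  rw [← hs'] at a4 a6
  have hlσ := K.lσ v hv0 hvM
  -- the chart at `σ v`
  obtain ⟨b1, b2, b3, b4, b5, b6⟩ := K.chσ v hv0 hvM (1, s) (hI 1 s (by norm_num) (by norm_num)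
    (by omega) (by omega)) (by rw [← a1, hlσ.1]; exact hv0) (by rw [← a1, hlσ.1]; exact hvM)
  simp only [sub_self] at b4 b5 b6
  rw [← hs, sub_self] at b4 b6
  rw [← a1] at b4 b5 b6
  -- the chart at `τ v`
  obtain ⟨d1, -⟩ := K.chσ v hv0 hvM (-1, -s') (hI (-1) (-s') (by norm_num) (by norm_num)
    (by omega) (by omega)) (by rw [← a4, hlσ.2]; exact hv0) (by rw [← a4, hlσ.2]; exact hvM)
  simp only [neg_add_cancel] at d1
  rw [← hs', neg_add_cancel, ← a4, c0] at d1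
  have adj0 : ∀ q : P2, q ∈ nb (0, 0) → K.G.Adj v (K.ch v q) := by
    intro q hq
    have h := (K.chadj v hv0 hvM (0, 0) (hI 0 0 (by norm_num) (by norm_num)
      (by norm_num) (by norm_num)) (K.ch v q)).2 ⟨q, hq, rfl⟩
    rwa [c0] at h
  refine ⟨?_, ?_, ?_, ?_, ?_, ?_, ?_, ?_, ?_, d1, ?_⟩
  · rw [a2]; exact adj0 _ (by simp [nb])
  · rw [a3]; exact adj0 _ (by rcases hs1 with h | h <;> simp [nb, h])
  · rw [a5]; exact adj0 _ (by simp [nb])
  · rw [a6]; exact adj0 _ (by rcases hs1' with h | h <;> simp [nb, h])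
  · rw [a2, a1]
    exact (K.chadj v hv0 hvM (1, 0) (hI 1 0 (by norm_num) (by norm_num)
      (by norm_num) (by norm_num)) _).2 ⟨(1, s), by rcases hs1 with h | h <;> simp [nb, h], rfl⟩
  · rw [a3, a1]
    exact (K.chadj v hv0 hvM (0, s) (hI 0 s (by norm_num) (by norm_num)
      (by omega) (by omega)) _).2 ⟨(1, s), by simp [nb], rfl⟩
  · rw [b5, a3]
  · rw [b6, a2]
  · rw [b4, c0]
  · intro u hu huv
    obtain ⟨hu0, huM⟩ := hu
    have inj0 : ∀ x y : ℤ, -3 ≤ x → x ≤ 3 → -3 ≤ y → y ≤ 3 → v = K.ch v (x, y) →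
        x = 0 ∧ y = 0 := by
      intro x y h1 h2 h3 h4 h5
      have h6 := K.chinj v hv0 hvM (0, 0) (x, y) (hI' 0 0 (by norm_num) (by norm_num)
        (by norm_num) (by norm_num)) (hI' x y h1 h2 h3 h4) (by rw [c0]; exact h5)
      exact ⟨(congrArg Prod.fst h6).symm, (congrArg Prod.snd h6).symm⟩
    rcases huv with huv | huv
    · have hu1 : u = K.ch v (1, 0) := huv.trans a2
      obtain ⟨-, e2, e3, -⟩ := K.chσ v hv0 hvM (1, 0) (hI 1 0 (by norm_num) (by norm_num)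
        (by norm_num) (by norm_num)) (by rw [← hu1]; exact hu0) (by rw [← hu1]; exact huM)
      rw [← hu1] at e2 e3
      rintro (h | h)
      · rw [e2] at h
        have := (inj0 _ _ (by norm_num) (by norm_num) (by norm_num) (by norm_num) h).1
        norm_num at this
      · rw [e3] at h
        have h7 := K.sl1 v 1
        have := (inj0 _ _ (by norm_num) (by norm_num) (by simp only; omega)
          (by simp only; omega) h).1
        norm_num at this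
    · have hu1 : u = K.ch v (0, s) := huv.trans a3
      obtain ⟨-, e2, e3, -⟩ := K.chσ v hv0 hvM (0, s) (hI 0 s (by norm_num) (by norm_num)
        (by omega) (by omega)) (by rw [← hu1]; exact hu0) (by rw [← hu1]; exact huM)
      simp only [zero_add] at e2 e3
      rw [← hu1] at e2 e3
      rw [← hs] at e3
      rintro (h | h)
      · rw [e2] at h
        have := (inj0 _ _ (by norm_num) (by norm_num) (by omega) (by omega) h).1
        norm_num at this
      · rw [e3] at h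
        have := (inj0 _ _ (by norm_num) (by norm_num) (by omega) (by omega) h).2
        omega

end Bd
end TorGrid
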