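import Pool.Agent.Lib.MP_caf32e_co.Bd.Defs

/-! The count (page, section 2). -/

set_option autoImplicit false

namespace TorGrid
namespace Bd

open Finset

variable {V : Type} [Fintype V] [DecidableEq V] {r M : ℕ} {K : Coll V r M} {R ρ R1 : ℕ}

private theorem c2_rep (W : KW K R ρ R1) (v : V) (h : ¬ W.cfg.Ft v) : W.rep v = v := by
  obtain ⟨k, hk, hlt, -⟩ := W.hrep v
  rcases Nat.eq_zero_or_pos k with h0 | h0
  · subst h0
    simpa using hk
  · exact absurd (by simpa using hlt 0 h0) h

private theorem c2_step (W : KW K R ρ R1) (v : V) (h : W.cfg.Ft v) :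
    W.rep (K.σ v) = W.rep v := by
  obtain ⟨k, hk, hlt, hn⟩ := W.hrep v
  obtain ⟨k', hk', hlt', hn'⟩ := W.hrep (K.σ v)
  rcases Nat.eq_zero_or_pos k with h0 | h0
  · subst h0
    rw [Function.iterate_zero, id] at hk
    rw [hk] at hn
    exact absurd h hn
  · obtain ⟨m, rfl⟩ : ∃ m, k = m + 1 := ⟨k - 1, by omega⟩
    have hm : m = k' := by
      rcases lt_trichotomy m k' with h1 | h1 | h1
      · exfalso
        apply hn
        rw [hk, Function.iterate_succ_apply]
        exact hlt' m h1
      · exact h1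
      · exfalso
        apply hn'
        rw [hk', ← Function.iterate_succ_apply]
        exact hlt (k' + 1) (by omega)
    subst hm
    rw [hk', hk, Function.iterate_succ_apply]

/-- ROW C2. `rep v = v` iff `¬ Ft v` (for `¬ Ft v` the number `k` of `hrep` is `0`; `rep v` is never in `Ft`); precoloured vertices are
neither in `X` nor in `pre X`; the numbers `k` of `v` and of `σ v` differ by one (uniqueness of the first exit from `Ft`). -/
theorem KW.cardX (W : KW K R ρ R1) (X : Finset V) (hX : X ⊆ W.Rs) :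
    (∀ a, a ∈ X ↔ a ∈ W.pre X ∧ ¬ W.cfg.Ft a) ∧
    (∀ v, W.cfg.Ft v → W.rep (K.σ v) = W.rep v) ∧ (∀ v, ¬ W.cfg.Ft v → W.rep v = v) := by
  classical
  refine ⟨fun a => ?_, fun v h => c2_step W v h, fun v h => c2_rep W v h⟩
  unfold KW.pre
  rw [Finset.mem_filter]
  constructor
  · intro ha
    have h1 := hX ha
    unfold KW.Rs at h1
    rw [Finset.mem_filter] at h1
    refine ⟨⟨Finset.mem_univ _, h1.2.1, ?_⟩, h1.2.2⟩
    rw [c2_rep W a h1.2.2]
    exact ha
  · rintro ⟨⟨-, -, h2⟩, h3⟩
    rw [c2_rep W a h3] at h2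
    exact h2

end Bd
end TorGrid
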