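import Pool.Agent.Lib.MP_caf32e_co.Bd.C1
import Pool.Agent.Lib.MP_caf32e_co.Bd.C2

/-! The count (page, section 2). -/

set_option autoImplicit false

namespace TorGrid
namespace Bd

open Finset

variable {V : Type} [Fintype V] [DecidableEq V] {r M : ℕ} {K : Coll V r M} {R ρ R1 : ℕ}

private lemma c3_C {L : V → Finset ℕ} {c : KCfg K L R ρ R1} {v : V} (h : c.Ft v) : K.C v := by
  obtain ⟨⟨h1, h2, -⟩, -⟩ := h
  exact ⟨by omega, by omega⟩

private lemma c3_adjσ (hr : 4 ≤ r) {u v : V} (hC : K.C u) (h : v = K.N u ∨ v = K.H u) :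
    K.G.Adj (K.σ u) v := by
  obtain ⟨-, -, -, -, h5, h6, -⟩ := K.basic hr u hC
  rcases h with rfl | rfl
  · exact h5.symm
  · exact h6.symm

private lemma c3_step (W : KW K R ρ R1) {u : V} {i : ℕ} (hF : W.cfg.Ft u)
    (hi : W.rep u = K.σ^[i] u) :
    ∃ i', i = i' + 1 ∧ W.rep (K.σ u) = W.rep u ∧ W.rep (K.σ u) = K.σ^[i'] (K.σ u) := by
  obtain ⟨-, -, -, h1⟩ := W.hrep u
  have h2 := (W.cardX ∅ (Finset.empty_subset _)).2.1 u hF
  cases i with
  | zero =>
    exfalso
    rw [Function.iterate_zero, id_eq] at hi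
    rw [hi] at h1
    exact h1 hF
  | succ i' =>
    refine ⟨i', rfl, h2, ?_⟩
    rw [h2, hi, Function.iterate_succ_apply]

private lemma c3_find (W : KW K R ρ R1) (hr : 4 ≤ r) (hT : ∀ v, W.cfg.Ts v → ¬ W.cfg.Us v)
    (n : ℕ) : ∀ (u v : V) (i j : ℕ), i + j = n → ¬ W.cfg.Us u → ¬ W.cfg.Us v → K.G.Adj u v →
      W.rep u = K.σ^[i] u → W.rep v = K.σ^[j] v →
      ∃ p q, ¬ W.cfg.Us p ∧ ¬ W.cfg.Us q ∧ W.rep p = W.rep u ∧ W.rep q = W.rep v ∧
        K.G.Adj p q ∧ ¬ (W.cfg.Ft p ∧ (q = K.N p ∨ q = K.H p)) ∧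
        ¬ (W.cfg.Ft q ∧ (p = K.N q ∨ p = K.H q)) := by
  induction n with
  | zero =>
    intro u v i j hij hu hv huv hi hj
    obtain rfl : i = 0 := by omega
    obtain rfl : j = 0 := by omega
    refine ⟨u, v, hu, hv, rfl, rfl, huv, ?_, ?_⟩
    · rintro ⟨hF, -⟩
      obtain ⟨i', h1, -⟩ := c3_step W hF hi
      omega
    · rintro ⟨hF, -⟩
      obtain ⟨i', h1, -⟩ := c3_step W hF hj
      omega
  | succ n ih =>
    intro u v i j hij hu hv huv hi hj
    by_cases h1 : W.cfg.Ft u ∧ (v = K.N u ∨ v = K.H u)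
    · obtain ⟨i', h2, h3, h4⟩ := c3_step W h1.1 hi
      obtain ⟨p, q, a1, a2, a3, a4, a5⟩ := ih (K.σ u) v i' j (by omega) (hT _ h1.1.2) hv
        (c3_adjσ hr (c3_C h1.1) h1.2) h4 hj
      exact ⟨p, q, a1, a2, a3.trans h3, a4, a5⟩
    · by_cases h2 : W.cfg.Ft v ∧ (u = K.N v ∨ u = K.H v)
      · obtain ⟨j', h3, h4, h5⟩ := c3_step W h2.1 hj
        obtain ⟨p, q, a1, a2, a3, a4, a5⟩ := ih u (K.σ v) i j' (by omega) hu (hT _ h2.1.2)
          (c3_adjσ hr (c3_C h2.1) h2.2).symm hi h5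
        exact ⟨p, q, a1, a2, a3, a4.trans h4, a5⟩
      · exact ⟨u, v, hu, hv, rfl, rfl, huv, h1, h2⟩

omit [Fintype V] in
open Classical in
private lemma c3_dIn (G : SimpleGraph V) (X : Finset V) :
    dIn G X = ((X ×ˢ X).filter (fun p => G.Adj p.1 p.2)).card := by
  unfold dIn
  congr

/-- the excluded pairs -/
private def c3P (W : KW K R ρ R1) (x : V × V) : Prop :=
  W.cfg.Ft x.1 ∧ (x.2 = K.N x.1 ∨ x.2 = K.H x.1)

open Classical in
private lemma c3_count (W : KW K R ρ R1) (hr : 4 ≤ r) (X' : Finset V) :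
    ((((X' ×ˢ X').filter (fun x => K.G.Adj x.1 x.2)).filter (c3P W)).card : ℤ) =
      ∑ u ∈ X'.filter (fun u => W.cfg.Ft u), (2 - K.oc X' u) := by
  have h1 : (((X' ×ˢ X').filter (fun x => K.G.Adj x.1 x.2)).filter (c3P W)) =
      (X'.filter (fun u => W.cfg.Ft u)).biUnion
        (fun u => (X'.filter (fun w => w = K.N u ∨ w = K.H u)).image (fun w => (u, w))) := by
    ext ⟨u, w⟩
    simp only [mem_filter, mem_product, mem_biUnion, mem_image, Prod.mk.injEq, c3P]
    constructor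
    · rintro ⟨⟨⟨h2, h3⟩, h4⟩, h5, h6⟩
      exact ⟨u, ⟨h2, h5⟩, w, ⟨h3, h6⟩, rfl, rfl⟩
    · rintro ⟨u', ⟨h2, h5⟩, w', ⟨h3, h6⟩, rfl, rfl⟩
      refine ⟨⟨⟨h2, h3⟩, ?_⟩, h5, h6⟩
      obtain ⟨b1, b2, -⟩ := K.basic hr u' (c3_C h5)
      rcases h6 with rfl | rfl
      · exact b1
      · exact b2
  rw [h1, Finset.card_biUnion]
  · rw [Nat.cast_sum]
    refine Finset.sum_congr rfl fun u hu => ?_
    rw [Finset.card_image_of_injective _ (fun a b h => (Prod.mk.inj h).2)]
    have hF : W.cfg.Ft u := (Finset.mem_filter.1 hu).2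
    have hC := c3_C hF
    have hne : K.N u ≠ K.H u := by
      intro h
      rcases K.hd u hC.1 hC.2 with ⟨h2, h3⟩ | ⟨h2, h3⟩
      · rw [h] at h2
        omega
      · rw [h] at h2
        omega
    have h2 : X'.filter (fun w => w = K.N u ∨ w = K.H u) =
        (if K.N u ∈ X' then {K.N u} else ∅) ∪ (if K.H u ∈ X' then {K.H u} else ∅) := by
      ext w
      simp only [mem_filter, mem_union]
      constructor
      · rintro ⟨h3, rfl | rfl⟩
        · left
          rw [if_pos h3]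
          exact Finset.mem_singleton_self _
        · right
          rw [if_pos h3]
          exact Finset.mem_singleton_self _
      · rintro (h3 | h3)
        · split_ifs at h3 with h4
          · rw [Finset.mem_singleton] at h3
            subst h3
            exact ⟨h4, Or.inl rfl⟩
          · exact absurd h3 (Finset.notMem_empty _)
        · split_ifs at h3 with h4
          · rw [Finset.mem_singleton] at h3
            subst h3
            exact ⟨h4, Or.inr rfl⟩
          · exact absurd h3 (Finset.notMem_empty _)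
    rw [h2, Finset.card_union_of_disjoint]
    · unfold Coll.oc
      split_ifs <;> simp
    · split_ifs <;> simp [hne]
  · intro u _ u' _ hne
    rw [Function.onFun, Finset.disjoint_left]
    rintro ⟨a, b⟩ h2 h3
    rw [Finset.mem_image] at h2 h3
    obtain ⟨_, -, h4⟩ := h2
    obtain ⟨_, -, h5⟩ := h3
    exact hne ((Prod.mk.inj h4).1.trans (Prod.mk.inj h5).1.symm)

open Classical in
/-- ROW C3. Lemma 1 of the page. Every ordered `Q`-adjacent pair `(a, b)` of `X` comes from an ordered `G`-adjacent pair `(p, q)` of `pre X`, `rep p = a`,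
`rep q = b`, such that neither (`p ∈ Ft` and `q = N p` or `q = H p`) nor (`q ∈ Ft` and `p = N q` or `p = H q`): start with any pair; if `p ∈ Ft`, `q = N p` or
`H p`, replace `p` by `σ p` (`rep (σ p) = rep p`, `σ p ~ q` by `basic`; `σ p` is not precoloured since it is tame, `hT`); symmetrically for `q`. The sum of the two
numbers `k` of `hrep` drops. So `dIn Q X` is at most the number of ordered adjacent pairs of `pre X` minus the number of the excluded pairs, and (uniqueness in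
`basic`, `N p ≠ H p` by `hd`) the excluded ones are `2 ∑_(u ∈ pre X, Ft u) (number of N u, H u in pre X)` (if both conditions held for a pair, uniqueness
is contradicted, `Ft` vertices are in the collar). -/
theorem KW.ret (W : KW K R ρ R1) (hr : 4 ≤ r) (hT : ∀ v, W.cfg.Ts v → ¬ W.cfg.Us v)
    (X : Finset V) (hX : X ⊆ W.Rs) :
    (dIn W.Q X : ℤ) ≤ (dIn K.G (W.pre X) : ℤ) -
      2 * ∑ u ∈ (W.pre X).filter (fun u => W.cfg.Ft u), (2 - K.oc (W.pre X) u) := by
  set X' : Finset V := W.pre X with hX'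
  set PG : Finset (V × V) := (X' ×ˢ X').filter (fun x => K.G.Adj x.1 x.2) with hPG
  have hmemG : ∀ x : V × V, x ∈ PG ↔ (x.1 ∈ X' ∧ x.2 ∈ X') ∧ K.G.Adj x.1 x.2 := by
    intro x
    rw [hPG, Finset.mem_filter, Finset.mem_product]
  -- the second family is the image of the first under the exchange
  have hswap : (PG.filter (fun x => c3P W (x.2, x.1))).card = (PG.filter (c3P W)).card := by
    refine Finset.card_bij' (fun x _ => (x.2, x.1)) (fun x _ => (x.2, x.1)) ?_ ?_ ?_ ?_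
    · rintro ⟨p, q⟩ h
      rw [Finset.mem_filter, hmemG] at h ⊢
      exact ⟨⟨⟨h.1.1.2, h.1.1.1⟩, h.1.2.symm⟩, h.2⟩
    · rintro ⟨p, q⟩ h
      rw [Finset.mem_filter, hmemG] at h ⊢
      exact ⟨⟨⟨h.1.1.2, h.1.1.1⟩, h.1.2.symm⟩, h.2⟩
    · rintro ⟨p, q⟩ _
      rfl
    · rintro ⟨p, q⟩ _
      rfl
  have hdisj : Disjoint (PG.filter (c3P W)) (PG.filter (fun x => c3P W (x.2, x.1))) := by
    rw [Finset.disjoint_left]
    rintro ⟨p, q⟩ h1 h2
    obtain ⟨-, h3, h4⟩ := Finset.mem_filter.1 h1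
    obtain ⟨-, h5, h6⟩ := Finset.mem_filter.1 h2
    simp only at h3 h4 h5 h6
    obtain ⟨-, -, -, -, -, -, -, -, -, -, h7⟩ := K.basic hr p (c3_C h3)
    exact h7 q (c3_C h5) h4 h6
  have hsub : PG.filter (c3P W) ∪ PG.filter (fun x => c3P W (x.2, x.1)) ⊆ PG :=
    Finset.union_subset (Finset.filter_subset _ _) (Finset.filter_subset _ _)
  have hQ : (X ×ˢ X).filter (fun x => W.Q.Adj x.1 x.2) ⊆
      (PG \ (PG.filter (c3P W) ∪ PG.filter (fun x => c3P W (x.2, x.1)))).image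
        (fun x => (W.rep x.1, W.rep x.2)) := by
    rintro ⟨a, b⟩ hab
    rw [Finset.mem_filter, Finset.mem_product] at hab
    obtain ⟨⟨ha, hb⟩, -, u, v, hu, hv, rfl, rfl, huv⟩ := hab
    simp only at ha hb
    obtain ⟨i, hi, -⟩ := W.hrep u
    obtain ⟨j, hj, -⟩ := W.hrep v
    obtain ⟨p, q, a1, a2, a3, a4, a5, a6, a7⟩ :=
      c3_find W hr hT (i + j) u v i j rfl hu hv huv hi hj
    rw [Finset.mem_image]
    refine ⟨(p, q), ?_, by rw [a3, a4]⟩
    refine Finset.mem_sdiff.2 ⟨(hmemG _).2 ⟨⟨?_, ?_⟩, a5⟩, fun h => ?_⟩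
    · rw [hX', KW.pre, Finset.mem_filter]
      exact ⟨Finset.mem_univ _, a1, by rw [a3]; exact ha⟩
    · rw [hX', KW.pre, Finset.mem_filter]
      exact ⟨Finset.mem_univ _, a2, by rw [a4]; exact hb⟩
    · rcases Finset.mem_union.1 h with h | h
      · exact a6 (Finset.mem_filter.1 h).2
      · exact a7 (Finset.mem_filter.1 h).2
  have h1 := (Finset.card_le_card hQ).trans Finset.card_image_le
  rw [Finset.card_sdiff_of_subset hsub, Finset.card_union_of_disjoint hdisj, hswap] at h1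
  have h2 := Finset.card_le_card hsub
  rw [Finset.card_union_of_disjoint hdisj, hswap] at h2
  have h3 : dIn K.G X' = PG.card := c3_dIn K.G X'
  have h4 : dIn W.Q X = ((X ×ˢ X).filter (fun x => W.Q.Adj x.1 x.2)).card := c3_dIn W.Q X
  have h5 := c3_count W hr X'
  have h6 : (((PG.filter (c3P W)).card : ℕ) : ℤ) =
      ∑ u ∈ X'.filter (fun u => W.cfg.Ft u), (2 - K.oc X' u) := h5
  rw [h3, h4, ← h6]
  omega

end Bd
end TorGrid
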