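import Pool.Agent.Lib.MP_caf32e_co.Bd.C1
import Pool.Agent.Lib.MP_caf32e_co.Bd.C2

/-! The count (page, section 2). -/

set_option autoImplicit false

namespace TorGrid
namespace Bd

open Finset

variable {V : Type} [Fintype V] [DecidableEq V] {r M : ℕ} {K : Coll V r M} {R ρ R1 : ℕ}

open Classical in
/-- ROW C4. Reindex by `u ↦ σ u`, a bijection from the `Ft` part to the `Ft'` part of `pre X` (inverse `τ`; `rep (σ u) = rep u`, so `σ` keeps `pre X`; tame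
vertices are not precoloured): `N' (σ u) = H u`, `H' (σ u) = N u` (`basic`). -/
theorem KW.symoc (W : KW K R ρ R1) (hr : 4 ≤ r) (hT : ∀ v, W.cfg.Ts v → ¬ W.cfg.Us v)
    (X : Finset V) :
    ∑ u ∈ (W.pre X).filter (fun u => W.cfg.Ft u), K.oc (W.pre X) u =
      ∑ u ∈ (W.pre X).filter (fun u => W.cfg.Ft' u), K.oc' (W.pre X) u := by
  have hC : ∀ v, W.cfg.Ts v → K.C v := by
    intro v hv
    obtain ⟨h1, h2, -⟩ := hv
    refine ⟨by linarith, by linarith⟩
  have hrep : ∀ v, W.cfg.Ft v → W.rep (K.σ v) = W.rep v :=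
    (W.cardX ∅ (Finset.empty_subset _)).2.1
  have hpre : ∀ v, v ∈ W.pre X ↔ ¬ W.cfg.Us v ∧ W.rep v ∈ X := by
    intro v
    simp only [KW.pre, Finset.mem_filter, Finset.mem_univ, true_and]
  refine Finset.sum_bij' (fun u _ => K.σ u) (fun v _ => K.τ v) ?_ ?_ ?_ ?_ ?_
  · intro u hu
    rw [Finset.mem_filter] at hu ⊢
    obtain ⟨h1, h2, h3⟩ := hu
    have hb := K.basic hr u (hC u h2)
    refine ⟨(hpre _).2 ⟨hT _ h3, ?_⟩, h3, ?_⟩
    · rw [hrep u ⟨h2, h3⟩]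
      exact ((hpre u).1 h1).2
    · rw [hb.2.2.2.2.2.2.2.2.1]
      exact h2
  · intro v hv
    rw [Finset.mem_filter] at hv ⊢
    obtain ⟨h1, h2, h3⟩ := hv
    have hb := K.basic hr v (hC v h2)
    have hs : K.σ (K.τ v) = v := hb.2.2.2.2.2.2.2.2.2.1
    have hF : W.cfg.Ft (K.τ v) := by
      refine ⟨h3, ?_⟩
      rw [hs]
      exact h2
    refine ⟨(hpre _).2 ⟨hT _ h3, ?_⟩, hF⟩
    rw [← hrep _ hF, hs]
    exact ((hpre v).1 h1).2
  · intro u hu
    rw [Finset.mem_filter] at hu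
    exact (K.basic hr u (hC u hu.2.1)).2.2.2.2.2.2.2.2.1
  · intro v hv
    rw [Finset.mem_filter] at hv
    exact (K.basic hr v (hC v hv.2.1)).2.2.2.2.2.2.2.2.2.1
  · intro u hu
    rw [Finset.mem_filter] at hu
    have hb := K.basic hr u (hC u hu.2.1)
    unfold Coll.oc Coll.oc'
    rw [hb.2.2.2.2.2.2.1, hb.2.2.2.2.2.2.2.1, add_comm]

end Bd
end TorGrid
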