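import Pool.Agent.Lib.MP_caf32e_co.Bd.Defs

/-! The count (page, section 2). -/

set_option autoImplicit false

namespace TorGrid
namespace Bd

open Finset

variable {V : Type} [Fintype V] [DecidableEq V] {r M : ℕ} {K : Coll V r M} {R ρ R1 : ℕ}

omit [Fintype V] in
open Classical in
private lemma c5_dIn (G : SimpleGraph V) (X : Finset V) :
    (dIn G X : ℤ) = ∑ v ∈ X, ∑ w ∈ X, (if G.Adj v w then (1 : ℤ) else 0) := by
  unfold dIn
  rw [Finset.card_filter, Finset.sum_product]
  push_cast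
  refine Finset.sum_congr rfl (fun v _ => Finset.sum_congr rfl (fun w _ => ?_))
  by_cases h : G.Adj v w <;> simp [h]

omit [Fintype V] in
open Classical in
private lemma c5_split (G : SimpleGraph V) (B : V → Prop) (X : Finset V) :
    (dIn G X : ℤ) = dIn G (X.filter (fun g => B g)) + dIn G (X.filter (fun g => ¬ B g)) +
      2 * ∑ g ∈ X.filter (fun g => B g), ∑ w ∈ X.filter (fun g => ¬ B g),
        (if G.Adj g w then (1 : ℤ) else 0) := by
  rw [c5_dIn, c5_dIn, c5_dIn]
  have h1 : ∀ f : V → ℤ, ∑ v ∈ X, f v = ∑ v ∈ X.filter (fun g => B g), f v +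
      ∑ v ∈ X.filter (fun g => ¬ B g), f v := fun f =>
    (Finset.sum_filter_add_sum_filter_not X (fun g => B g) f).symm
  rw [h1]
  have h2 : ∀ Y : Finset V, ∑ v ∈ Y, ∑ w ∈ X, (if G.Adj v w then (1 : ℤ) else 0) =
      ∑ v ∈ Y, ∑ w ∈ X.filter (fun g => B g), (if G.Adj v w then (1 : ℤ) else 0) +
      ∑ v ∈ Y, ∑ w ∈ X.filter (fun g => ¬ B g), (if G.Adj v w then (1 : ℤ) else 0) := by
    intro Y
    rw [← Finset.sum_add_distrib]
    exact Finset.sum_congr rfl (fun v _ => h1 _)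
  rw [h2, h2]
  have h3 : ∑ v ∈ X.filter (fun g => ¬ B g), ∑ w ∈ X.filter (fun g => B g),
      (if G.Adj v w then (1 : ℤ) else 0) = ∑ v ∈ X.filter (fun g => B g),
      ∑ w ∈ X.filter (fun g => ¬ B g), (if G.Adj v w then (1 : ℤ) else 0) := by
    rw [Finset.sum_comm]
    refine Finset.sum_congr rfl (fun v _ => Finset.sum_congr rfl (fun w _ => ?_))
    simp [G.adj_comm w v]
  rw [h3]
  ring

open Classical in
private lemma c5_cd (K : Coll V r M) (X' : Finset V) (g : V) (hg : K.B g) :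
    K.cd X' g = 4 - ∑ w ∈ X', (if K.G.Adj g w then K.wt g w else 0) := by
  have h := K.wt_out g hg
  unfold Coll.cd
  have h1 : ∑ w ∈ univ.filter (fun w => K.G.Adj g w), K.wt g w =
      ∑ w ∈ univ.filter (fun w => K.G.Adj g w ∧ w ∉ X'), K.wt g w +
      ∑ w ∈ X', (if K.G.Adj g w then K.wt g w else 0) := by
    rw [Finset.sum_filter, Finset.sum_filter]
    have h2 : ∑ w ∈ X', (if K.G.Adj g w then K.wt g w else 0) =
        ∑ w, (if w ∈ X' then (if K.G.Adj g w then K.wt g w else 0) else 0) := by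
      rw [Finset.sum_ite_mem, Finset.univ_inter]
    rw [h2, ← Finset.sum_add_distrib]
    refine Finset.sum_congr rfl (fun w _ => ?_)
    by_cases ha : K.G.Adj g w <;> by_cases hb : w ∈ X' <;> simp [ha, hb]
  linarith

open Classical in
private lemma c5_in (K : Coll V r M) (Y : Finset V) (hY : ∀ v ∈ Y, K.B v) :
    ∑ g ∈ Y, ∑ w ∈ Y, (if K.G.Adj g w then K.wt g w else 0) = (dIn K.G Y : ℤ) := by
  rw [c5_dIn]
  have h1 : ∑ g ∈ Y, ∑ w ∈ Y, (if K.G.Adj g w then K.wt g w else 0) =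
      ∑ g ∈ Y, ∑ w ∈ Y, (if K.G.Adj g w then K.wt w g else 0) := by
    rw [Finset.sum_comm]
    refine Finset.sum_congr rfl (fun v _ => Finset.sum_congr rfl (fun w _ => ?_))
    simp [K.G.adj_comm w v]
  have h2 : ∑ g ∈ Y, ∑ w ∈ Y, (if K.G.Adj g w then K.wt g w else 0) +
      ∑ g ∈ Y, ∑ w ∈ Y, (if K.G.Adj g w then K.wt w g else 0) =
      2 * ∑ v ∈ Y, ∑ w ∈ Y, (if K.G.Adj v w then (1 : ℤ) else 0) := by
    rw [← Finset.sum_add_distrib, Finset.mul_sum]
    refine Finset.sum_congr rfl (fun v hv => ?_)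
    rw [← Finset.sum_add_distrib, Finset.mul_sum]
    refine Finset.sum_congr rfl (fun w hw => ?_)
    by_cases ha : K.G.Adj v w
    · simp only [ha, if_true]
      rw [K.wt_pair v w (hY v hv) (hY w hw) ha]
      norm_num
    · simp [ha]
  linarith

open Classical in
private lemma c5_out (K : Coll V r M) (X : Finset V) :
    (dIn K.G (X.filter (fun g => ¬ K.B g)) : ℤ) +
      ∑ g ∈ X.filter (fun g => K.B g), ∑ w ∈ X.filter (fun g => ¬ K.B g),
        (if K.G.Adj g w then (1 : ℤ) else 0) ≤ 4 * ((X.filter (fun g => ¬ K.B g)).card : ℤ) := by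
  have h := K.outH (X.filter (fun g => ¬ K.B g)) (fun v hv => (Finset.mem_filter.1 hv).2)
  have h1 : ∑ g ∈ X.filter (fun g => K.B g), ∑ w ∈ X.filter (fun g => ¬ K.B g),
        (if K.G.Adj g w then (1 : ℤ) else 0) ≤
      ((∑ v ∈ X.filter (fun g => ¬ K.B g),
        (univ.filter (fun w => K.G.Adj v w ∧ K.B w)).card : ℕ) : ℤ) := by
    rw [Finset.sum_comm]
    push_cast
    refine Finset.sum_le_sum (fun v _ => ?_)
    rw [Finset.card_filter]
    push_cast
    rw [← Finset.sum_filter_add_sum_filter_not univ (fun g => g ∈ X.filter (fun g => K.B g))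
      (fun w => if K.G.Adj v w ∧ K.B w then (1 : ℤ) else 0)]
    have h2 : univ.filter (fun g => g ∈ X.filter (fun g => K.B g)) = X.filter (fun g => K.B g) := by
      ext w
      simp
    rw [h2]
    have h3 : (0 : ℤ) ≤ ∑ x with x ∉ X.filter (fun g => K.B g),
        (if K.G.Adj v x ∧ K.B x then (1 : ℤ) else 0) :=
      Finset.sum_nonneg (fun w _ => by split_ifs <;> norm_num)
    have h4 : ∑ w ∈ X.filter (fun g => K.B g), (if K.G.Adj w v then (1 : ℤ) else 0) ≤
        ∑ w ∈ X.filter (fun g => K.B g), (if K.G.Adj v w ∧ K.B w then (1 : ℤ) else 0) := by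
      refine Finset.sum_le_sum (fun w hw => ?_)
      have hw' := (Finset.mem_filter.1 hw).2
      simp [K.G.adj_comm w v, hw']
    linarith
  have h5 : ((dIn K.G (X.filter (fun g => ¬ K.B g)) + ∑ v ∈ X.filter (fun g => ¬ K.B g),
        (univ.filter (fun w => K.G.Adj v w ∧ K.B w)).card : ℕ) : ℤ) ≤
      ((4 * (X.filter (fun g => ¬ K.B g)).card : ℕ) : ℤ) := by
    exact_mod_cast h
  push_cast at h5 h1
  linarith

open Classical in
/-- ROW C5. Lemma 2 of the page, for every finite set `X'`. `X_B`, `X_O` = parts inside and outside `B`. `4|X'| - dIn X' = 4|X_B| - dIn X_B - 2 e(X_B,X_O) +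
4|X_O| - dIn X_O` and `outH` for `S = X_O` gives `4|X_O| - dIn X_O ≥ e(X_O, B) ≥ e(X_B,X_O)`. By `wt_out`:
`∑_(g ∈ X_B) cd X' g = 4|X_B| - ∑_(g ∈ X_B) ∑_(w ∈ X', w ~ g) wt g w`, and the last double sum is `dIn X_B + e(X_B,X_O)` by `wt_pair` (exchange
`g` and `w`, add, divide by two) and `wt_bd`. -/
theorem Coll.outer (K : Coll V r M) (X' : Finset V) :
    ∑ g ∈ X'.filter (fun g => K.B g), K.cd X' g ≤ 4 * (X'.card : ℤ) - (dIn K.G X' : ℤ) := by
  rw [Finset.sum_congr rfl (fun g hg => c5_cd K X' g (Finset.mem_filter.1 hg).2)]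
  rw [Finset.sum_sub_distrib, Finset.sum_const]
  have h1 : ∑ g ∈ X'.filter (fun g => K.B g), ∑ w ∈ X', (if K.G.Adj g w then K.wt g w else 0) =
      (dIn K.G (X'.filter (fun g => K.B g)) : ℤ) +
      ∑ g ∈ X'.filter (fun g => K.B g), ∑ w ∈ X'.filter (fun g => ¬ K.B g),
        (if K.G.Adj g w then (1 : ℤ) else 0) := by
    rw [← c5_in K (X'.filter (fun g => K.B g)) (fun v hv => (Finset.mem_filter.1 hv).2),
      ← Finset.sum_add_distrib]
    refine Finset.sum_congr rfl (fun g hg => ?_)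
    rw [← Finset.sum_filter_add_sum_filter_not X' (fun g => K.B g)
      (fun w => if K.G.Adj g w then K.wt g w else 0)]
    congr 1
    refine Finset.sum_congr rfl (fun w hw => ?_)
    by_cases ha : K.G.Adj g w
    · simp only [ha, if_true]
      exact K.wt_bd g w (Finset.mem_filter.1 hg).2 (Finset.mem_filter.1 hw).2 ha
    · simp [ha]
  have h2 := c5_split K.G K.B X'
  have h3 := c5_out K X'
  have h4 : (X'.card : ℤ) = ((X'.filter (fun g => K.B g)).card : ℤ) +
      ((X'.filter (fun g => ¬ K.B g)).card : ℤ) := by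
    have := Finset.card_filter_add_card_filter_not (s := X') (fun g => K.B g)
    exact_mod_cast this.symm
  rw [h1, h4, h2]
  simp only [nsmul_eq_mul]
  linarith

end Bd
end TorGrid
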