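import Pool.Agent.Lib.MP_caf32e_co.Bd.C1

/-! The count (page, section 2). -/

set_option autoImplicit false

namespace TorGrid
namespace Bd

open Finset

variable {V : Type} [Fintype V] [DecidableEq V] {r M : ℕ} {K : Coll V r M} {R ρ R1 : ℕ}

open Classical in
private theorem c6_one (G : SimpleGraph V) (X' : Finset V) (g x : V) (hx : G.Adj g x) :
    ∑ w ∈ univ.filter (fun w => G.Adj g w ∧ w ∉ X'), (if w = x then (1 : ℤ) else 0) =
      if x ∈ X' then 0 else 1 := by
  rw [Finset.sum_ite_eq' (univ.filter (fun w => G.Adj g w ∧ w ∉ X')) x (fun _ => (1 : ℤ))]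
  by_cases h : x ∈ X'
  · rw [if_neg (by simp [h]), if_pos h]
  · rw [if_pos (by simp [h, hx]), if_neg h]

/-- ROW C6. `wt_col`; the four vertices `N g, H g, N' g, H' g` are neighbours of `g` (basic): exchange the sums. -/
theorem Coll.cd_col (K : Coll V r M) (hr : 4 ≤ r) (X' : Finset V) (g : V) (hg : K.C g) :
    K.cd X' g = K.oc X' g + K.oc' X' g := by
  obtain ⟨h1, h2, h3, h4, -⟩ := K.basic hr g hg
  unfold Coll.cd Coll.oc Coll.oc'
  refine (Finset.sum_congr rfl (g := fun w => ((((if w = K.N g then (1 : ℤ) else 0) +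
    (if w = K.H g then 1 else 0)) + (if w = K.N' g then 1 else 0)) +
      (if w = K.H' g then 1 else 0))) ?_).trans ?_
  · intro w hw
    simp only [Finset.mem_filter, Finset.mem_univ, true_and] at hw
    exact K.wt_col g w hg.1 hg.2 hw.1
  · rw [Finset.sum_add_distrib, Finset.sum_add_distrib, Finset.sum_add_distrib,
      c6_one K.G X' g _ h1, c6_one K.G X' g _ h2, c6_one K.G X' g _ h3, c6_one K.G X' g _ h4]
    ring

end Bd
end TorGrid
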