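import Pool.Agent.Lib.MP_caf32e_co.Bd.C3
import Pool.Agent.Lib.MP_caf32e_co.Bd.C4
import Pool.Agent.Lib.MP_caf32e_co.Bd.C5
import Pool.Agent.Lib.MP_caf32e_co.Bd.C6

/-! The count (page, section 2). -/

set_option autoImplicit false

namespace TorGrid
namespace Bd

open Finset

variable {V : Type} [Fintype V] [DecidableEq V] {r M : ℕ} {K : Coll V r M} {R ρ R1 : ℕ}

/-- tame vertices lie in the collar -/
private theorem c7_C {L : V → Finset ℕ} (c : KCfg K L R ρ R1) (v : V) (h : c.Ts v) : K.C v := by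
  obtain ⟨h1, h2, -⟩ := h
  exact ⟨by omega, by omega⟩

open Classical in
private theorem c7_chi {L : V → Finset ℕ} (c : KCfg K L R ρ R1) (hr : 4 ≤ r) (X' : Finset V)
    (g : V) : c.chi X' g = (if K.B g then K.cd X' g else 0) - (if c.Ft g then K.oc X' g else 0) -
      (if c.Ft' g then K.oc' X' g else 0) := by
  unfold KCfg.chi
  by_cases hC : K.C g
  · have hB : K.B g := K.CB g (by have := hC.1; omega) (by have := hC.2; omega)
    rw [if_pos hC, if_pos hB, K.cd_col hr X' g hC]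
    split_ifs <;> ring
  · have h1 : ¬ c.Ft g := fun h => hC (c7_C c g h.1)
    have h2 : ¬ c.Ft' g := fun h => hC (c7_C c g h.1)
    rw [if_neg hC, if_neg h1, if_neg h2, sub_zero, sub_zero]

open Classical in
/-- ROW C7. Inequality (2.2). `h2 Q L1 X = ∑_X (2|L1| - 2) - dIn Q X = 4|X| - 2 ∑_X ls - dIn Q X`, `|X| = |pre X| - |Ft part|` (`cardX`), `ls = 0` on the `Ft`
part (`hls`), so `∑_X ls = ∑_(pre X) ls`. With `ret`: `4|X| - dIn Q X ≥ 4|pre X| - dIn G (pre X) - 2 ∑_(Ft) oc`, then `outer`, `cd_col` on the collar, and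
`2 ∑_(Ft) oc = ∑_(Ft) oc + ∑_(Ft') oc'` (`symoc`). Collar vertices are in `B` (`CB`), `Ft` and `Ft'` vertices are in the collar. -/
theorem KW.key (W : KW K R ρ R1) (hr : 4 ≤ r) (hT : ∀ v, W.cfg.Ts v → ¬ W.cfg.Us v)
    (hls : ∀ v, W.cfg.Ts v → W.cfg.L1 v = W.L v) (X : Finset V) (hX : X ⊆ W.Rs) :
    ∑ g ∈ W.pre X, (W.cfg.chi (W.pre X) g - 2 * W.cfg.ls g) ≤ h2 W.Q W.cfg.L1 X := by
  have h3 : ∀ v, W.cfg.Ft v → W.cfg.ls v = 0 := by
    intro v hv
    unfold KCfg.ls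
    rw [hls v hv.1, W.hL v]
    norm_num
  have hXe : X = (W.pre X).filter (fun a => ¬ W.cfg.Ft a) := by
    ext a
    rw [mem_filter]
    exact (W.cardX X hX).1 a
  have hret := W.ret hr hT X hX
  have hsym := W.symoc hr hT X
  have hout := K.outer (W.pre X)
  have hsum : ∑ v ∈ X, (2 * ((W.cfg.L1 v).card : ℤ) - 2) =
      4 * ((W.pre X).card : ℤ) - 2 * ∑ v ∈ W.pre X, W.cfg.ls v -
        4 * (((W.pre X).filter (fun a => W.cfg.Ft a)).card : ℤ) := by
    have e1 : ∑ v ∈ X, (2 * ((W.cfg.L1 v).card : ℤ) - 2) =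
        ∑ v ∈ (W.pre X).filter (fun a => ¬ W.cfg.Ft a), (4 - 2 * W.cfg.ls v) := by
      rw [← hXe]
      refine sum_congr rfl fun v _ => ?_
      unfold KCfg.ls
      ring
    have e2 : ∑ v ∈ (W.pre X).filter (fun a => W.cfg.Ft a), (4 - 2 * W.cfg.ls v) =
        4 * (((W.pre X).filter (fun a => W.cfg.Ft a)).card : ℤ) := by
      rw [sum_congr rfl (g := fun _ => (4 : ℤ)) (fun v hv => by
        rw [h3 v (mem_filter.1 hv).2]; norm_num)]
      rw [sum_const, nsmul_eq_mul]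
      ring
    have e3 := sum_filter_add_sum_filter_not (W.pre X) (fun a => W.cfg.Ft a)
      (fun v => 4 - 2 * W.cfg.ls v)
    have e4 : ∑ v ∈ W.pre X, (4 - 2 * W.cfg.ls v) =
        4 * ((W.pre X).card : ℤ) - 2 * ∑ v ∈ W.pre X, W.cfg.ls v := by
      rw [sum_sub_distrib, sum_const, nsmul_eq_mul, mul_sum]
      ring
    rw [e1]
    linarith
  have hA : ∑ u ∈ (W.pre X).filter (fun u => W.cfg.Ft u), (2 - K.oc (W.pre X) u) =
      2 * (((W.pre X).filter (fun a => W.cfg.Ft a)).card : ℤ) -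
        ∑ u ∈ (W.pre X).filter (fun u => W.cfg.Ft u), K.oc (W.pre X) u := by
    rw [sum_sub_distrib, sum_const, nsmul_eq_mul]
    ring
  have hC : ∑ g ∈ W.pre X, (W.cfg.chi (W.pre X) g - 2 * W.cfg.ls g) =
      ∑ g ∈ (W.pre X).filter (fun g => K.B g), K.cd (W.pre X) g -
        ∑ u ∈ (W.pre X).filter (fun u => W.cfg.Ft u), K.oc (W.pre X) u -
        ∑ u ∈ (W.pre X).filter (fun u => W.cfg.Ft' u), K.oc' (W.pre X) u -
        2 * ∑ v ∈ W.pre X, W.cfg.ls v := by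
    rw [sum_filter, sum_filter, sum_filter, mul_sum, ← sum_sub_distrib, ← sum_sub_distrib,
      ← sum_sub_distrib]
    refine sum_congr rfl fun g _ => ?_
    rw [c7_chi W.cfg hr (W.pre X) g]
  unfold h2
  rw [hC, hsum]
  linarith

end Bd
end TorGrid
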