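import Pool.Agent.Lib.MP_caf32e_co.Defs

/-! Definitions for the band theorem (page caf32e_band_page.md). -/

set_option autoImplicit false

namespace TorGrid
namespace Bd

open Finset

/-! ### Weights from a function on the faces -/

/-- weight of the step from `p` to `q`; the face `f` is the unit square with lower left corner `f`:
1 + (face on the left) - (face on the right) -/
def wc (ψ : P2 → ℤ) (p q : P2) : ℤ :=
  if q = (p.1 + 1, p.2) then 1 + ψ p - ψ (p.1, p.2 - 1)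
  else if q = (p.1 - 1, p.2) then 1 + ψ (p.1 - 1, p.2 - 1) - ψ (p.1 - 1, p.2)
  else if q = (p.1, p.2 + 1) then 1 + ψ (p.1 - 1, p.2) - ψ p
  else if q = (p.1, p.2 - 1) then 1 + ψ (p.1, p.2 - 1) - ψ (p.1 - 1, p.2 - 1)
  else 0

/-- the values are 0 and 1 -/
def F01 (ψ : P2 → ℤ) : Prop := ∀ f, ψ f = 0 ∨ ψ f = 1

open Classical in
/-- credit of `Y` inside the box of radius `ρ` -/
noncomputable def cr (ψ : P2 → ℤ) (ρ : ℤ) (Y : Finset P2) : ℤ :=
  ∑ p ∈ Y, ∑ q ∈ (nb p).filter (fun q => InB (0, 0) ρ q ∧ q ∉ Y), wc ψ p q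

/-! ### Abstract collars -/

open Classical in
/-- A finite graph with a collar of `M` layers (`0 ≤ lay < M`) inside an inner band `B`.
`σ`, `τ` = one step forward, backward along the layer; `N`, `H` (`N'`, `H'`) the two
out-neighbours in forward (backward) direction; `wt` the weights; `ch z` the chart around the
collar vertex `z` (good in the box of radius `r`), `ψ z` the face function and `sl z` the slopes in
this chart. -/
structure Coll (V : Type) [Fintype V] [DecidableEq V] (r M : ℕ) where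
  G : SimpleGraph V
  B : V → Prop
  lay : V → ℤ
  σ : V → V
  τ : V → V
  N : V → V
  H : V → V
  N' : V → V
  H' : V → V
  wt : V → V → ℤ
  ch : V → P2 → V
  ψ : V → P2 → ℤ
  sl : V → ℤ → ℤ
  CB : ∀ v, -1 ≤ lay v → lay v ≤ M → B v
  lσ : ∀ v, 0 ≤ lay v → lay v < M → lay (σ v) = lay v ∧ lay (τ v) = lay v
  hd : ∀ v, 0 ≤ lay v → lay v < M →
    (lay (N v) = lay v + 1 ∧ lay (H v) = lay v - 1) ∨
    (lay (N v) = lay v - 1 ∧ lay (H v) = lay v + 1)
  hd' : ∀ v, 0 ≤ lay v → lay v < M →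
    (lay (N' v) = lay v + 1 ∧ lay (H' v) = lay v - 1) ∨
    (lay (N' v) = lay v - 1 ∧ lay (H' v) = lay v + 1)
  adjlay : ∀ u v, 0 ≤ lay u → lay u < M → G.Adj u v → lay v = lay u + 1 ∨ lay v = lay u - 1
  orb : ∀ u v, 0 ≤ lay u → lay u < M → lay u = lay v → ∃ k : ℕ, σ^[k] u = v
  bip : ∀ j : ℤ, 0 ≤ j → j < M → ∃ A : V → Prop,
    (∀ u v, G.Adj u v → lay u ≠ j → lay v ≠ j → (A u ↔ ¬ A v)) ∧
    ∀ u, 0 ≤ lay u → lay u < M → lay u ≠ j → (A (σ u) ↔ A u)
  wt_nn : ∀ u v, 0 ≤ wt u v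
  wt_pair : ∀ u v, B u → B v → G.Adj u v → wt u v + wt v u = 2
  wt_out : ∀ u, B u → ∑ w ∈ univ.filter (fun w => G.Adj u w), wt u w = 4
  wt_bd : ∀ u v, B u → ¬ B v → G.Adj u v → wt u v = 1
  wt_col : ∀ u w, 0 ≤ lay u → lay u < M → G.Adj u w →
    wt u w = (if w = N u then 1 else 0) + (if w = H u then 1 else 0) +
      (if w = N' u then 1 else 0) + (if w = H' u then 1 else 0)
  outH : ∀ S : Finset V, (∀ v ∈ S, ¬ B v) →
    dIn G S + ∑ v ∈ S, (univ.filter (fun w => G.Adj v w ∧ B w)).card ≤ 4 * S.card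
  ch0 : ∀ z, 0 ≤ lay z → lay z < M → ch z (0, 0) = z
  chB : ∀ z, 0 ≤ lay z → lay z < M → ∀ p, InB (0, 0) r p → B (ch z p)
  chadj : ∀ z, 0 ≤ lay z → lay z < M → ∀ p, InB (0, 0) r p →
    ∀ w, G.Adj (ch z p) w ↔ ∃ q ∈ nb p, w = ch z q
  chinj : ∀ z, 0 ≤ lay z → lay z < M → ∀ p q, InB (0, 0) (r + 1) p → InB (0, 0) (r + 1) q →
    ch z p = ch z q → p = q
  glue : ∀ z z', 0 ≤ lay z → lay z < M → 0 ≤ lay z' → lay z' < M →
    ∀ p p' d : P2, InB (0, 0) r p → InB (0, 0) r p' →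
      ch z p = ch z' p' → ch z (p.1 + d.1, p.2 + d.2) = ch z' (p'.1 + d.1, p'.2 + d.2)
  chwt : ∀ z, 0 ≤ lay z → lay z < M → ∀ p, InB (0, 0) r p → ∀ q ∈ nb p,
    wt (ch z p) (ch z q) = wc (ψ z) p q
  ψ01 : ∀ z, F01 (ψ z)
  sl1 : ∀ z x, sl z x = 1 ∨ sl z x = -1
  chσ : ∀ z, 0 ≤ lay z → lay z < M → ∀ p : P2, InB (0, 0) r p → 0 ≤ lay (ch z p) →
    lay (ch z p) < M →
    σ (ch z p) = ch z (p.1 + 1, p.2 + sl z p.1) ∧ N (ch z p) = ch z (p.1 + 1, p.2) ∧
    H (ch z p) = ch z (p.1, p.2 + sl z p.1) ∧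
    τ (ch z p) = ch z (p.1 - 1, p.2 - sl z (p.1 - 1)) ∧ N' (ch z p) = ch z (p.1 - 1, p.2) ∧
    H' (ch z p) = ch z (p.1, p.2 - sl z (p.1 - 1))

section
variable {V : Type} [Fintype V] [DecidableEq V] {r M : ℕ}

/-- vertices of the collar -/
def Coll.C (K : Coll V r M) (v : V) : Prop := 0 ≤ K.lay v ∧ K.lay v < M

/-! ### Configurations of spots -/

/-- A family of spots centred in the collar with disjoint private boxes such that the lists are
constant around every collar vertex outside the boxes of radius `R1`. -/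
structure KCfg (K : Coll V r M) (L : V → Finset ℕ) (R ρ R1 : ℕ) where
  S : Finset V
  hS : ∀ z ∈ S, K.C z
  U : V → Finset P2
  φ : V → P2 → ℕ
  spot : ∀ z ∈ S, Spot (fun p => L (K.ch z p)) (U z) (φ z)
  inR : ∀ z ∈ S, ∀ u ∈ U z, InB (0, 0) R u
  sep : ∀ z ∈ S, ∀ z' ∈ S, z ≠ z' → ∀ p p', InB (0, 0) ρ p → InB (0, 0) ρ p' →
    K.ch z p ≠ K.ch z' p'
  tame : ∀ v, K.C v → (∀ z ∈ S, ∀ p, InB (0, 0) R1 p → K.ch z p ≠ v) →
    ∀ w, K.G.Adj v w → L w = L v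

namespace KCfg
variable {K : Coll V r M} {L : V → Finset ℕ} {R ρ R1 : ℕ}

/-- the precoloured vertices -/
def Us (c : KCfg K L R ρ R1) (v : V) : Prop := ∃ z ∈ c.S, ∃ u ∈ c.U z, K.ch z u = v

/-- the tame vertices: layers `1 .. M-2`, outside the boxes of radius `R1` -/
def Ts (c : KCfg K L R ρ R1) (v : V) : Prop :=
  1 ≤ K.lay v ∧ K.lay v + 2 ≤ M ∧ ∀ z ∈ c.S, ∀ p, InB (0, 0) R1 p → K.ch z p ≠ v

/-- `v` and `σ v` are tame -/
def Ft (c : KCfg K L R ρ R1) (v : V) : Prop := c.Ts v ∧ c.Ts (K.σ v)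

/-- `v` and `τ v` are tame -/
def Ft' (c : KCfg K L R ρ R1) (v : V) : Prop := c.Ts v ∧ c.Ts (K.τ v)

open Classical in
/-- the precolouring -/
noncomputable def Phi (c : KCfg K L R ρ R1) (v : V) : ℕ :=
  if h : ∃ z u, z ∈ c.S ∧ u ∈ c.U z ∧ K.ch z u = v then c.φ h.choose h.choose_spec.choose else 0

open Classical in
/-- the remaining lists -/
noncomputable def L1 (c : KCfg K L R ρ R1) (v : V) : Finset ℕ :=
  L v \ (univ.filter (fun w => K.G.Adj v w ∧ c.Us w)).image c.Phi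

/-- number of lost colours -/
noncomputable def ls (c : KCfg K L R ρ R1) (v : V) : ℤ := 3 - ((c.L1 v).card : ℤ)

/-- `v` lies in a private box -/
def Pv (c : KCfg K L R ρ R1) (v : V) : Prop := ∃ z ∈ c.S, ∃ p, InB (0, 0) (ρ : ℤ) p ∧ K.ch z p = v

end KCfg

/-! ### The world: no full layer, tops of the runs -/

/-- The whole situation. `rep v` is the top of the tame run of `v`. -/
structure KW (K : Coll V r M) (R ρ R1 : ℕ) where
  L : V → Finset ℕ
  hL : ∀ v, (L v).card = 3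
  cfg : KCfg K L R ρ R1
  rep : V → V
  hrep : ∀ v, ∃ k : ℕ, rep v = K.σ^[k] v ∧ (∀ i < k, cfg.Ft (K.σ^[i] v)) ∧ ¬ cfg.Ft (rep v)

namespace KW
variable {K : Coll V r M} {R ρ R1 : ℕ}

/-- the quotient graph on the tops -/
def Q (W : KW K R ρ R1) : SimpleGraph V where
  Adj a b := a ≠ b ∧ ∃ u v, ¬ W.cfg.Us u ∧ ¬ W.cfg.Us v ∧ W.rep u = a ∧ W.rep v = b ∧ K.G.Adj u v
  symm := by
    refine ⟨?_⟩
    rintro a b ⟨h, u, v, hu, hv, ha, hb, h1⟩
    exact ⟨h.symm, v, u, hv, hu, hb, ha, h1.symm⟩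
  loopless := ⟨fun v h => h.1 rfl⟩

open Classical in
/-- the ground set: the tops that are not precoloured -/
noncomputable def Rs (W : KW K R ρ R1) : Finset V :=
  univ.filter (fun a => ¬ W.cfg.Us a ∧ ¬ W.cfg.Ft a)

open Classical in
/-- the vertices of the classes of `X` -/
noncomputable def pre (W : KW K R ρ R1) (X : Finset V) : Finset V :=
  univ.filter (fun g => ¬ W.cfg.Us g ∧ W.rep g ∈ X)

end KW

open Classical in
/-- forward out-neighbours outside `X'` -/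
noncomputable def Coll.oc (K : Coll V r M) (X' : Finset V) (g : V) : ℤ :=
  (if K.N g ∈ X' then 0 else 1) + (if K.H g ∈ X' then 0 else 1)

open Classical in
/-- backward out-neighbours outside `X'` -/
noncomputable def Coll.oc' (K : Coll V r M) (X' : Finset V) (g : V) : ℤ :=
  (if K.N' g ∈ X' then 0 else 1) + (if K.H' g ∈ X' then 0 else 1)

open Classical in
/-- weight of the steps out of `X'` -/
noncomputable def Coll.cd (K : Coll V r M) (X' : Finset V) (g : V) : ℤ :=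
  ∑ w ∈ univ.filter (fun w => K.G.Adj g w ∧ w ∉ X'), K.wt g w

open Classical in
/-- the credit of a vertex -/
noncomputable def KCfg.chi {K : Coll V r M} {L : V → Finset ℕ} {R ρ R1 : ℕ}
    (c : KCfg K L R ρ R1) (X' : Finset V) (g : V) : ℤ :=
  if K.C g then (if c.Ft g then 0 else K.oc X' g) + (if c.Ft' g then 0 else K.oc' X' g)
  else if K.B g then K.cd X' g else 0

open Classical in
/-- the vertices of `X'` in the box of radius `s` round `z`, in the chart -/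
noncomputable def Coll.Yz (K : Coll V r M) (s : ℕ) (X' : Finset V) (z : V) : Finset P2 :=
  (Finset.Icc (-(s : ℤ)) s ×ˢ Finset.Icc (-(s : ℤ)) s).filter (fun p => K.ch z p ∈ X')

end

/-- the constants are good: `ρ` works for `R` in the private box lemma -/
def GoodP (R ρ : ℕ) : Prop :=
  R + 4 < ρ ∧
    ∀ (L : P2 → Finset ℕ) (_ : ∀ v, (L v).card = 3) (U : Finset P2) (φ : P2 → ℕ)
      (_ : Spot L U φ) (_ : ∀ u ∈ U, InB (0, 0) R u) (ψ : P2 → ℤ) (_ : F01 ψ)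
      (Y : Finset P2) (_ : ∀ v ∈ Y, InB (0, 0) ρ v) (_ : Disjoint Y U),
      2 * ∑ v ∈ Y, (lost L U φ v : ℤ) ≤ cr ψ ρ Y ∧
      (Y.Nonempty → cr ψ ρ Y ≤ 2 * ∑ v ∈ Y, (lost L U φ v : ℤ) →
        ∃ Y' ⊆ Y, Y'.Nonempty ∧ (∀ v ∈ Y', InB (0, 0) (ρ - 2) v) ∧
          ∀ v ∈ Y', ∀ w ∈ nb v, w ∈ Y → w ∈ Y')

/-! ### Flat bands -/

open Classical in
/-- A finite graph with a flat band of width `W` round an `x`-monotone closed noose of length `ℓ`.
Layer `j` = the vertices `F (x, T x + j)`, inner band = layers `1 .. W-1`. -/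
structure BandG (V : Type) [Fintype V] [DecidableEq V] (ℓ W : ℕ) where
  G : SimpleGraph V
  T : ℤ → ℤ
  v2 : ℤ
  F : P2 → V
  hT : ∀ x, T (x + 1) = T x + 1 ∨ T (x + 1) = T x - 1
  per : ∀ x, T (x + ℓ) = T x + v2
  Fper : ∀ x t, F (x + ℓ, t + v2) = F (x, t)
  inj : ∀ p q : P2, 0 ≤ p.2 - T p.1 → p.2 - T p.1 ≤ W → 0 ≤ q.2 - T q.1 → q.2 - T q.1 ≤ W →
    F p = F q → ∃ k : ℤ, q = (p.1 + k * ℓ, p.2 + k * v2)
  adj : ∀ p : P2, 0 < p.2 - T p.1 → p.2 - T p.1 < W → ∀ w, G.Adj (F p) w ↔ ∃ q ∈ nb p, w = F q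
  outH : ∀ S : Finset V, (∀ v ∈ S, ∀ p : P2, 0 < p.2 - T p.1 → p.2 - T p.1 < W → F p ≠ v) →
    dIn G S + ∑ v ∈ S, (univ.filter (fun w => G.Adj v w ∧
      ∃ p : P2, 0 < p.2 - T p.1 ∧ p.2 - T p.1 < W ∧ F p = w)).card ≤ 4 * S.card
  A : V → Prop
  par : ∀ u v, G.Adj u v → ((A u ↔ A v) ↔
    ((∃ x y, u = F (x, T x) ∧ v = F (y, T y + 1)) ∨ (∃ x y, v = F (x, T x) ∧ u = F (y, T y + 1))))

/-! ### Lattices -/

/-- the graph `Z^2 / Λ` -/
def LG (Λ : AddSubgroup P2) : SimpleGraph (P2 ⧸ Λ) where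
  Adj u v := u ≠ v ∧ ∃ p : P2, ∃ q ∈ nb p, (QuotientAddGroup.mk p : P2 ⧸ Λ) = u ∧
    (QuotientAddGroup.mk q : P2 ⧸ Λ) = v
  symm := by
    refine ⟨?_⟩
    rintro u v ⟨h, p, q, hq, hp, hq'⟩
    refine ⟨h.symm, q, p, ?_, hq', hp⟩
    simp only [nb, mem_insert, mem_singleton] at hq ⊢
    rcases hq with rfl | rfl | rfl | rfl
    · right; left; ext <;> simp
    · left; ext <;> simp
    · right; right; right; ext <;> simp
    · right; right; left; ext <;> simp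
  loopless := ⟨fun v h => h.1 rfl⟩

end Bd
end TorGrid
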