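import Pool.Agent.Lib.MP_caf32e_co.Bd.N3
import Pool.Agent.Lib.MP_caf32e_co.Bd.B9

/-! The two theorems. -/

set_option autoImplicit false

namespace TorGrid
namespace Bd

open Finset

/-- ROW F1. The band theorem for natural colours and lists of size 3: `coll_colour` gives `r`, `M`; `m = 2 r + 8`, `W = M + 2 m`, `ℓ0 = 2 r + 8`; `toColl`. -/
theorem band_nat : ∃ W ℓ0 : ℕ, ∀ (V : Type) [Fintype V] [DecidableEq V] (ℓ : ℕ) (_ : ℓ0 ≤ ℓ)
    (b : BandG V ℓ W) (L : V → Finset ℕ) (_ : ∀ v, (L v).card = 3),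
    ∃ c : V → ℕ, (∀ v, c v ∈ L v) ∧ ∀ u v, b.G.Adj u v → c u ≠ c v := by
  obtain ⟨r, M, h⟩ := coll_colour
  refine ⟨M + 2 * (2 * r + 8), 2 * r + 8, ?_⟩
  intro V _ _ ℓ hℓ b L hL
  obtain ⟨K, hK⟩ := b.toColl r (2 * r + 8) M rfl le_rfl hℓ
  obtain ⟨c, hc1, hc2⟩ := h V K L hL
  refine ⟨c, hc1, fun u v huv => hc2 u v ?_⟩
  rw [hK]
  exact huv

/-- ROW F1. Lists of size at least 3, colours of any type (see `torus_all`, `torus_mathlib` in M34.lean). -/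
theorem band_any : ∃ W ℓ0 : ℕ, ∀ (V : Type) [Fintype V] [DecidableEq V] (ℓ : ℕ) (_ : ℓ0 ≤ ℓ)
    (b : BandG V ℓ W) (α : Type) (L : V → Finset α) (_ : ∀ v, 3 ≤ (L v).card),
    ∃ c : V → α, (∀ v, c v ∈ L v) ∧ ∀ u v, b.G.Adj u v → c u ≠ c v := by
  classical
  obtain ⟨W, ℓ0, hN⟩ := band_nat
  refine ⟨W, ℓ0, ?_⟩
  intro V _ _ ℓ hℓ b α L hL
  -- names of the colours
  have hsub : ∀ v, ∃ t ⊆ L v, t.card = 3 := fun v => Finset.exists_subset_card_eq (hL v)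
  choose t ht1 ht2 using hsub
  set S : Finset α := (univ : Finset V).biUnion t with hS
  obtain ⟨f, hf⟩ : ∃ f : α → ℕ, ∀ a ∈ S, ∀ b ∈ S, f a = f b → a = b := by
    refine ⟨fun a => S.toList.idxOf a, ?_⟩
    intro a ha b hb hab
    exact (List.idxOf_inj (Finset.mem_toList.mpr ha)).mp hab
  have hLS : ∀ v, ∀ a ∈ t v, a ∈ S := by
    intro v a ha
    rw [hS, mem_biUnion]
    exact ⟨v, mem_univ _, ha⟩
  obtain ⟨c, hc1, hc2⟩ := hN V ℓ hℓ b (fun v => (t v).image f) (by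
      intro v
      rw [card_image_of_injOn]
      · exact ht2 v
      · intro a ha b hb hab
        exact hf a (hLS v a ha) b (hLS v b hb) hab)
  have hex : ∀ v : V, ∃ a ∈ t v, f a = c v := by
    intro v
    exact mem_image.mp (hc1 v)
  choose d hd1 hd2 using hex
  refine ⟨d, fun v => ht1 v (hd1 v), ?_⟩
  intro u v huv heq
  apply hc2 u v huv
  rw [← hd2, ← hd2, heq]

end Bd
end TorGrid
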