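import Pool.Agent.Lib.MP_caf32e_co.Bd.L8
import Pool.Agent.Lib.MP_caf32e_co.K4

/-! Lattices (page, section 5): every lattice with long vectors and an odd vector carries a flat band. -/

set_option autoImplicit false

namespace TorGrid
namespace Bd

open Finset

/-- ROW L10. All vectors of `Λ` even: `x + t` mod 2 is well defined on the quotient, `LG Λ` is bipartite, `bip_col` with `h2 ≥ 0` (all lists have size 3, all degrees are at most 4: `lg_deg`).
See `torus_even` in M12.lean. -/
theorem even_col (Λ : AddSubgroup P2) [Fintype (P2 ⧸ Λ)] (hev : ∀ p ∈ Λ, (p.1 + p.2) % 2 = 0)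
    (L : P2 ⧸ Λ → Finset ℕ) (hL : ∀ v, (L v).card = 3) :
    ∃ c : P2 ⧸ Λ → ℕ, (∀ v, c v ∈ L v) ∧ ∀ u v, (LG Λ).Adj u v → c u ≠ c v := by
  classical
  have par : ∀ p q : P2, (QuotientAddGroup.mk p : P2 ⧸ Λ) = QuotientAddGroup.mk q →
      ((p.1 + p.2) % 2 = 0 ↔ (q.1 + q.2) % 2 = 0) := by
    intro p q h
    have h1 := hev _ (QuotientAddGroup.eq.1 h)
    have h2 : (-p + q).1 + (-p + q).2 = (q.1 + q.2) - (p.1 + p.2) := by
      simp only [Prod.fst_add, Prod.snd_add, Prod.fst_neg, Prod.snd_neg]
      ring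
    rw [h2] at h1
    omega
  have key : ColOn (LG Λ) L (univ : Finset (P2 ⧸ Λ)) := by
    refine bip_col (LG Λ) (fun v => ∃ p : P2, (QuotientAddGroup.mk p : P2 ⧸ Λ) = v ∧
      (p.1 + p.2) % 2 = 0) L univ ?_ ?_
    · rintro u _ v _ ⟨_, p, q, hq, hp, hq'⟩
      have hA : ∀ (x : P2) (w : P2 ⧸ Λ), (QuotientAddGroup.mk x : P2 ⧸ Λ) = w →
          ((∃ p : P2, (QuotientAddGroup.mk p : P2 ⧸ Λ) = w ∧ (p.1 + p.2) % 2 = 0) ↔
            (x.1 + x.2) % 2 = 0) := by
        intro x w hx
        constructor
        · rintro ⟨y, hy, hy'⟩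
          exact (par y x (hy.trans hx.symm)).1 hy'
        · intro h
          exact ⟨x, hx, h⟩
      rw [hA p u hp, hA q v hq']
      simp only [nb, mem_insert, mem_singleton] at hq
      rcases hq with rfl | rfl | rfl | rfl <;> simp only <;> omega
    · intro W _
      have hd : dIn (LG Λ) W ≤ W.card * 4 := by
        unfold dIn
        have hsub : (W ×ˢ W).filter (fun p => (LG Λ).Adj p.1 p.2) ⊆
            W.biUnion (fun u => (@Finset.filter _ (fun w => (LG Λ).Adj u w)
              (fun _ => Classical.propDecidable _) univ).image (fun w => (u, w))) := by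
          rintro ⟨u, w⟩ h
          rw [mem_filter, mem_product] at h
          rw [mem_biUnion]
          refine ⟨u, h.1.1, mem_image.2 ⟨w, ?_, rfl⟩⟩
          rw [mem_filter]
          exact ⟨mem_univ _, h.2⟩
        refine (card_le_card hsub).trans ?_
        refine card_biUnion_le_card_mul W _ 4 ?_
        intro u _
        refine card_image_le.trans ?_
        exact lg_deg Λ u
      unfold h2
      have hs : ∑ v ∈ W, (2 * ((L v).card : ℤ) - 2) = 4 * (W.card : ℤ) := by
        rw [sum_congr rfl (g := fun _ => (4 : ℤ))]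
        · rw [sum_const, nsmul_eq_mul]
          ring
        · intro v _
          rw [hL v]
          norm_num
      rw [hs]
      have : (dIn (LG Λ) W : ℤ) ≤ (W.card : ℤ) * 4 := by exact_mod_cast hd
      linarith
  obtain ⟨c, h1, h2'⟩ := key
  exact ⟨c, fun v => h1 v (mem_univ _), fun u v h => h2' u (mem_univ _) v (mem_univ _) h⟩

end Bd
end TorGrid
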