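import Pool.Agent.Lib.MP_caf32e_co.Bd.L8

/-! Lattices (page, section 5): every lattice with long vectors and an odd vector carries a flat band. -/

set_option autoImplicit false

namespace TorGrid
namespace Bd

open Finset

private theorem l11_mk (Λ : AddSubgroup P2) (p q : P2) (h : q - p ∈ Λ) :
    (QuotientAddGroup.mk q : P2 ⧸ Λ) = QuotientAddGroup.mk p := by
  rw [QuotientAddGroup.eq]
  have h1 := Λ.neg_mem h
  have e : -(q - p) = -q + p := by abel
  rwa [e] at h1

/-- ROW L11. `PC Λ` from a colouring of the quotient (lists `L (Quotient.out w)`, colours `c (mk p)`; `mk p` and `mk q` are adjacent by `lg_adj`). -/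
theorem pc_of_quot (Λ : AddSubgroup P2) (len : ∀ p ∈ Λ, p ≠ 0 → (2 : ℤ) ≤ |p.1| + |p.2|)
    (h : ∀ L : P2 ⧸ Λ → Finset ℕ, (∀ v, (L v).card = 3) →
      ∃ c : P2 ⧸ Λ → ℕ, (∀ v, c v ∈ L v) ∧ ∀ u v, (LG Λ).Adj u v → c u ≠ c v) : PC Λ := by
  intro L hL hper
  obtain ⟨c, hc1, hc2⟩ := h (fun w => L (Quotient.out w)) (fun w => hL _)
  refine ⟨fun p => c (QuotientAddGroup.mk p), ?_, ?_, ?_⟩
  · intro p
    have h1 := hc1 (QuotientAddGroup.mk p)
    have h2 : (QuotientAddGroup.mk (Quotient.out (QuotientAddGroup.mk p : P2 ⧸ Λ)) : P2 ⧸ Λ) =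
        QuotientAddGroup.mk p := QuotientAddGroup.out_eq' _
    rw [QuotientAddGroup.eq] at h2
    have h3 : p - Quotient.out (QuotientAddGroup.mk p : P2 ⧸ Λ) ∈ Λ := by
      have e : p - Quotient.out (QuotientAddGroup.mk p : P2 ⧸ Λ) =
          -Quotient.out (QuotientAddGroup.mk p : P2 ⧸ Λ) + p := by abel
      rw [e]
      exact h2
    have h4 := hper _ _ h3
    show c (QuotientAddGroup.mk p) ∈ L p
    rw [h4]
    exact h1
  · intro p q hpq
    show c (QuotientAddGroup.mk q) = c (QuotientAddGroup.mk p)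
    rw [l11_mk Λ p q hpq]
  · intro p q hq
    exact hc2 _ _ ((lg_adj Λ len p _).2 ⟨q, hq, rfl⟩)

/-- ROW L11. `PC` is invariant under exchange of the coordinates; the exchanged lattice is
`Λ.map ((AddEquiv.prodComm : P2 ≃+ P2) : P2 →+ P2)` (equal to the `comap`). -/
theorem pc_swap (Λ Λ' : AddSubgroup P2) (hs : ∀ p : P2, p ∈ Λ' ↔ (p.2, p.1) ∈ Λ) (h : PC Λ') :
    PC Λ := by
  intro L hL hper
  obtain ⟨c, hc1, hc2, hc3⟩ := h (fun p => L (p.2, p.1)) (fun p => hL _) (by
    intro p q hpq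
    refine hper _ _ ?_
    have := (hs _).1 hpq
    exact this)
  refine ⟨fun p => c (p.2, p.1), fun p => hc1 (p.2, p.1), ?_, ?_⟩
  · intro p q hpq
    refine hc2 _ _ ((hs _).2 ?_)
    exact hpq
  · intro p q hq
    refine hc3 _ _ ?_
    unfold nb at hq ⊢
    simp only [mem_insert, mem_singleton] at hq ⊢
    rcases hq with rfl | rfl | rfl | rfl
    · right; right; left; rfl
    · right; right; right; rfl
    · left; rfl
    · right; left; rfl

end Bd
end TorGrid
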