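import Pool.Agent.Lib.MP_caf32e_co.Bd.L2

/-! Lattices (page, section 5): every lattice with long vectors and an odd vector carries a flat band. -/

set_option autoImplicit false

namespace TorGrid
namespace Bd

open Finset

/-- ROW L3. Page, (5.2). `u` = element of `Λ` with minimal positive determinant `v.1 * u.2 - v.2 * u.1` (there is one: `(0, m) ∈ Λ` for some `m > 0`, finite index). For `p ∈ Λ` let
`b = det(v, p) / det(v, u)`; `p - b u` has determinant in `[0, det(v, u))`, so `0` by minimality, so `p - b u = k v` for some `k` (otherwise `det_bound`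
gives `N v.1 ≤ 0`). `u` is odd since `w = a v + b u` is odd and `v` is even. `vN` from `len v` and `h12`. `det8` from `det_bound` for `u` (its determinant is positive, so it is not a multiple of
`v`). -/
theorem exists_ld {N : ℕ} (hN : 1 ≤ N) (Λ : AddSubgroup P2) (hΛ : Λ.FiniteIndex)
    (len : ∀ p ∈ Λ, p ≠ 0 → (N : ℤ) ≤ |p.1| + |p.2|) (w : P2) (hw : w ∈ Λ)
    (hodd : (w.1 + w.2) % 2 = 1) (v : P2) (hv : v ∈ Λ)
    (hev : (v.1 + v.2) % 2 = 0) (hnd : ∀ x ∈ Λ, v ≠ x + x)
    (hmin : ∀ v' ∈ Λ, (v'.1 + v'.2) % 2 = 0 → (∀ x ∈ Λ, v' ≠ x + x) → sn v ≤ sn v')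
    (h12 : |v.2| ≤ v.1) : Nonempty (LD N Λ) := by
  have hv0 : v ≠ 0 := by
    intro h
    exact hnd 0 Λ.zero_mem (by rw [h, add_zero])
  have hvpos : 0 < v.1 := by
    have h1 : 0 ≤ v.1 := le_trans (abs_nonneg _) h12
    rcases h1.lt_or_eq with h | h
    · exact h
    · exfalso
      rw [← h] at h12
      have h2 : v.2 = 0 := abs_nonpos_iff.1 h12
      exact hv0 (Prod.ext h.symm h2)
  have hNpos : (1 : ℤ) ≤ N := by exact_mod_cast hN
  -- an element of positive determinant
  obtain ⟨m, hm, -, hmΛ⟩ := Λ.exists_nsmul_mem_of_index_ne_zero hΛ.index_ne_zero ((0, 1) : P2)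
  have hex : ∃ D : ℕ, 0 < D ∧ ∃ p ∈ Λ, v.1 * p.2 - v.2 * p.1 = (D : ℤ) := by
    refine ⟨(v.1 * m).toNat, ?_, m • ((0, 1) : P2), hmΛ, ?_⟩
    · have h1 : 0 < v.1 * (m : ℤ) := mul_pos hvpos (by exact_mod_cast hm)
      omega
    · have h1 : 0 < v.1 * (m : ℤ) := mul_pos hvpos (by exact_mod_cast hm)
      have h2 : (m • ((0, 1) : P2)) = (0, (m : ℤ)) := by
        ext <;> simp
      rw [h2]
      simp only
      rw [mul_zero, sub_zero, Int.toNat_of_nonneg h1.le]
  classical
  obtain ⟨hDpos, u, hu, hdet⟩ := Nat.find_spec hex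
  set D : ℕ := Nat.find hex with hD
  have hDmin : ∀ p ∈ Λ, 0 < v.1 * p.2 - v.2 * p.1 → (D : ℤ) ≤ v.1 * p.2 - v.2 * p.1 := by
    intro p hp hpos
    have h1 : D ≤ (v.1 * p.2 - v.2 * p.1).toNat :=
      Nat.find_min' hex ⟨by omega, p, hp, (Int.toNat_of_nonneg hpos.le).symm⟩
    omega
  have hDZ : (0 : ℤ) < D := by exact_mod_cast hDpos
  have hgen : ∀ p ∈ Λ, ∃ a b : ℤ, p = (a * v.1 + b * u.1, a * v.2 + b * u.2) := by
    intro p hp
    set b : ℤ := (v.1 * p.2 - v.2 * p.1) / D with hb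
    have hr0 := Int.emod_nonneg (v.1 * p.2 - v.2 * p.1) hDZ.ne'
    have hr1 := Int.emod_lt_of_pos (v.1 * p.2 - v.2 * p.1) hDZ
    have hrd := Int.emod_add_mul_ediv (v.1 * p.2 - v.2 * p.1) D
    rw [← hb] at hrd
    have hp' : p - b • u ∈ Λ := Λ.sub_mem hp (Λ.zsmul_mem hu b)
    have hp1 : (p - b • u).1 = p.1 - b * u.1 := by simp
    have hp2 : (p - b • u).2 = p.2 - b * u.2 := by simp
    have hdp : v.1 * (p - b • u).2 - v.2 * (p - b • u).1 = (v.1 * p.2 - v.2 * p.1) % D := by
      rw [hp1, hp2]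
      linear_combination (-b) * hdet - hrd
    have hd0 : v.1 * (p - b • u).2 - v.2 * (p - b • u).1 = 0 := by
      by_contra hne
      have h1 := hDmin _ hp' (by rw [hdp] at hne ⊢; omega)
      rw [hdp] at h1
      omega
    by_contra hcon
    have h1 := det_bound Λ len v hv hev hnd hmin h12 (p - b • u) hp' (by
      intro k hk
      apply hcon
      refine ⟨k, b, ?_⟩
      have hk1 := congrArg Prod.fst hk
      have hk2 := congrArg Prod.snd hk
      rw [hp1] at hk1
      rw [hp2] at hk2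
      simp only at hk1 hk2
      exact Prod.ext (by simp only; linarith) (by simp only; linarith))
    rw [hd0, abs_zero, mul_zero] at h1
    have h2 : 0 < (N : ℤ) * v.1 := mul_pos (by omega) hvpos
    omega
  have huodd : (u.1 + u.2) % 2 = 1 := by
    obtain ⟨a, b, hab⟩ := hgen w hw
    have h1 : w.1 + w.2 = a * (v.1 + v.2) + b * (u.1 + u.2) := by
      rw [hab]
      ring
    by_contra hne
    have h2 : (u.1 + u.2) % 2 = 0 := by omega
    obtain ⟨s, hs⟩ := Int.dvd_of_emod_eq_zero hev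
    obtain ⟨t, ht⟩ := Int.dvd_of_emod_eq_zero h2
    rw [hs, ht] at h1
    have h3 : w.1 + w.2 = 2 * (a * s + b * t) := by
      rw [h1]
      ring
    omega
  refine ⟨⟨v, u, len, hv, hu, h12, hvpos, ?_, hev, huodd, ?_, hgen⟩⟩
  · have h1 := len v hv hv0
    rw [abs_of_pos hvpos] at h1
    linarith
  · have h1 := det_bound Λ len v hv hev hnd hmin h12 u hu (by
      intro k hk
      rw [hk] at hdet
      simp only at hdet
      have h2 : v.1 * (k * v.2) - v.2 * (k * v.1) = 0 := by ring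
      rw [h2] at hdet
      omega)
    rw [hdet, abs_of_pos hDZ] at h1
    rw [hdet]
    exact h1

end Bd
end TorGrid
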