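import Pool.Agent.Lib.MP_caf32e_co.Bd.LDefs

/-! Lattices (page, section 5): every lattice with long vectors and an odd vector carries a flat band. -/

set_option autoImplicit false

namespace TorGrid
namespace Bd

open Finset

private theorem l8_nb {p q a : P2} (h : q ∈ nb p) : q + a ∈ nb (p + a) := by
  simp only [nb, mem_insert, mem_singleton] at h ⊢
  rcases h with rfl | rfl | rfl | rfl
  · left
    ext <;> simp <;> ring
  · right; left
    ext <;> simp <;> ring
  · right; right; left
    ext <;> simp <;> ring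
  · right; right; right
    ext <;> simp <;> ring

private theorem l8_fwd (Λ : AddSubgroup P2) (p : P2) (w : P2 ⧸ Λ)
    (h : (LG Λ).Adj (QuotientAddGroup.mk p) w) : ∃ q ∈ nb p, w = QuotientAddGroup.mk q := by
  obtain ⟨-, p', q', hq, hp, hw⟩ := h
  refine ⟨q' + (-p' + p), ?_, ?_⟩
  · have h1 := l8_nb (a := -p' + p) hq
    have h2 : p' + (-p' + p) = p := by abel
    rwa [h2] at h1
  · rw [← hw, QuotientAddGroup.eq]
    have h1 : -q' + (q' + (-p' + p)) = -p' + p := by abel
    rw [h1]
    exact QuotientAddGroup.eq.mp hp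

private theorem l8_len {p q : P2} (h : q ∈ nb p) : -p + q ≠ 0 ∧ |(-p + q).1| + |(-p + q).2| = 1 := by
  simp only [nb, mem_insert, mem_singleton] at h
  rcases h with rfl | rfl | rfl | rfl
  · have e : -p + (p.1 + 1, p.2) = ((1, 0) : P2) := by ext <;> simp
    rw [e]
    exact ⟨by decide, by decide⟩
  · have e : -p + (p.1 - 1, p.2) = ((-1, 0) : P2) := by
      ext
      · simp
        ring
      · simp
    rw [e]
    exact ⟨by decide, by decide⟩
  · have e : -p + (p.1, p.2 + 1) = ((0, 1) : P2) := by ext <;> simp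
    rw [e]
    exact ⟨by decide, by decide⟩
  · have e : -p + (p.1, p.2 - 1) = ((0, -1) : P2) := by
      ext
      · simp
      · simp
        ring
    rw [e]
    exact ⟨by decide, by decide⟩

/-- ROW L8. Neighbours in `Z^2 / Λ`: if no vector of length 1 is in `Λ` the neighbours of `mk p` are the four classes `mk q`, `q ∈ nb p` (translate the lifts,
`QuotientAddGroup.eq`; `u ≠ v` because `q - p` has length 1). So all degrees are at most 4. -/
theorem lg_adj (Λ : AddSubgroup P2) (len : ∀ p ∈ Λ, p ≠ 0 → (2 : ℤ) ≤ |p.1| + |p.2|) (p : P2)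
    (w : P2 ⧸ Λ) : (LG Λ).Adj (QuotientAddGroup.mk p) w ↔ ∃ q ∈ nb p, w = QuotientAddGroup.mk q := by
  refine ⟨l8_fwd Λ p w, ?_⟩
  rintro ⟨q, hq, rfl⟩
  refine ⟨?_, p, q, hq, rfl, rfl⟩
  intro e
  obtain ⟨h1, h2⟩ := l8_len hq
  have h3 := len _ (QuotientAddGroup.eq.mp e) h1
  omega

open Classical in
/-- ROW L8. -/
theorem lg_deg (Λ : AddSubgroup P2) [Fintype (P2 ⧸ Λ)] (u : P2 ⧸ Λ) :
    (univ.filter (fun w => (LG Λ).Adj u w)).card ≤ 4 := by
  obtain ⟨p, rfl⟩ := QuotientAddGroup.mk_surjective u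
  have h1 : univ.filter (fun w => (LG Λ).Adj (QuotientAddGroup.mk p) w) ⊆
      (nb p).image (fun q => (QuotientAddGroup.mk q : P2 ⧸ Λ)) := by
    intro w hw
    obtain ⟨q, hq, e⟩ := l8_fwd Λ p w (mem_filter.mp hw).2
    exact mem_image.mpr ⟨q, hq, e.symm⟩
  refine (card_le_card h1).trans (card_image_le.trans ?_)
  exact card_le_four

end Bd
end TorGrid
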