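import Pool.Agent.Lib.MP_caf32e_co.Bd.L7
import Pool.Agent.Lib.MP_caf32e_co.Bd.L8

/-! Lattices (page, section 5): every lattice with long vectors and an odd vector carries a flat band. -/

set_option autoImplicit false

namespace TorGrid
namespace Bd

open Finset

open Classical in
private lemma l9_dIn_eq {V : Type*} [DecidableEq V] (G : SimpleGraph V) (X : Finset V) :
    dIn G X = ∑ v ∈ X, (X.filter (fun w => G.Adj v w)).card := by
  unfold dIn
  rw [card_filter, sum_product]
  apply sum_congr rfl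
  intro v _
  rw [card_filter]

open Classical in
private lemma l9_out {V : Type*} [Fintype V] [DecidableEq V] (G : SimpleGraph V)
    (hdeg : ∀ u, (univ.filter (fun w => G.Adj u w)).card ≤ 4) (I : V → Prop) (S : Finset V)
    (hS : ∀ v ∈ S, ¬ I v) :
    dIn G S + ∑ v ∈ S, (univ.filter (fun w => G.Adj v w ∧ I w)).card ≤ 4 * S.card := by
  rw [l9_dIn_eq, ← sum_add_distrib]
  have h : ∀ v ∈ S, (S.filter (fun w => G.Adj v w)).card +
      (univ.filter (fun w => G.Adj v w ∧ I w)).card ≤ 4 := by
    intro v _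
    refine le_trans ?_ (hdeg v)
    rw [← card_union_of_disjoint]
    · apply card_le_card
      intro w hw
      rw [mem_union, mem_filter, mem_filter] at hw
      rw [mem_filter]
      rcases hw with hw | hw
      · exact ⟨mem_univ _, hw.2⟩
      · exact ⟨mem_univ _, hw.2.1⟩
    · rw [disjoint_left]
      intro w hw hw'
      rw [mem_filter] at hw hw'
      exact hS w hw.1 hw'.2.2
  calc ∑ v ∈ S, ((S.filter (fun w => G.Adj v w)).card +
        (univ.filter (fun w => G.Adj v w ∧ I w)).card) ≤ ∑ _v ∈ S, 4 := sum_le_sum h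
    _ = 4 * S.card := by rw [sum_const, smul_eq_mul, mul_comm]

/-- ROW L9. The flat band of `Z^2 / Λ`: `ℓ = v.1.toNat`, `T = st v`, `F = mk`, `hT`, `per` by `st_props`; `Fper` by `vm`; `inj` by `sep`; `adj` by `lg_adj`; `outH`: for `v ∈ S` the
neighbours in `S` and the inner neighbours are disjoint sets of neighbours, at most 4 together (`lg_deg`; write `dIn` as a sum over `v ∈ S`); `A`, `par` by `LD.par`. -/
theorem LD.band {N : ℕ} {Λ : AddSubgroup P2} (d : LD N Λ) (W : ℕ) (hW : 16 * W + 64 ≤ N)
    [Fintype (P2 ⧸ Λ)] [DecidableEq (P2 ⧸ Λ)] :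
    ∃ b : BandG (P2 ⧸ Λ) d.v.1.toNat W, b.G = LG Λ := by
  classical
  have hl : ((d.v.1.toNat : ℕ) : ℤ) = d.v.1 := Int.toNat_of_nonneg d.vpos.le
  obtain ⟨A, hA⟩ := d.par (by omega)
  have hst := fun x => st_props d.v d.v12 d.vpos d.vev x
  refine ⟨{
    G := LG Λ
    T := st d.v
    v2 := d.v.2
    F := fun p => QuotientAddGroup.mk p
    hT := fun x => (hst x).1
    per := fun x => by rw [hl]; exact (hst x).2.1
    Fper := ?_
    inj := ?_
    adj := ?_
    outH := ?_
    A := A
    par := hA }, rfl⟩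
  · intro x t
    rw [hl, QuotientAddGroup.eq]
    have e : -((x + d.v.1, t + d.v.2) : P2) + (x, t) = -d.v := by
      ext
      · simp
      · simp
    rw [e]
    exact Λ.neg_mem d.vm
  · intro p q h1 h2 h3 h4 h
    rw [QuotientAddGroup.eq] at h
    have h' : q - p ∈ Λ := by
      have e : q - p = -p + q := by abel
      rw [e]
      exact h
    obtain ⟨k, hk⟩ := d.sep W (by omega) p q h' (by rw [abs_le]; omega) (by rw [abs_le]; omega)
    exact ⟨k, by rw [hl]; exact hk⟩
  · intro p _ _ w
    refine lg_adj Λ ?_ p w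
    intro p hp h0
    have := d.len p hp h0
    omega
  · intro S hS
    refine l9_out (LG Λ) (lg_deg Λ) _ S ?_
    rintro v hv ⟨p, h0, h1, h2⟩
    exact hS v hv p h0 h1 h2

end Bd
end TorGrid
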