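import Pool.Agent.Lib.MP_caf32e_co.Bd.L1
import Pool.Agent.Lib.MP_caf32e_co.Bd.L3
import Pool.Agent.Lib.MP_caf32e_co.Bd.L9
import Pool.Agent.Lib.MP_caf32e_co.Bd.L10
import Pool.Agent.Lib.MP_caf32e_co.Bd.L11

/-! Lattices (page, section 5): every lattice with long vectors and an odd vector carries a flat band. -/

set_option autoImplicit false

namespace TorGrid
namespace Bd

open Finset

/-- the case of an almost horizontal minimal vector -/
private theorem l12_or (W ℓ0 : ℕ)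
    (hcol : ∀ (V : Type) [Fintype V] [DecidableEq V] (ℓ : ℕ) (_ : ℓ0 ≤ ℓ) (b : BandG V ℓ W)
      (L : V → Finset ℕ) (_ : ∀ v, (L v).card = 3),
      ∃ c : V → ℕ, (∀ v, c v ∈ L v) ∧ ∀ u v, b.G.Adj u v → c u ≠ c v) (N : ℕ)
    (hN1 : 16 * W + 64 ≤ N) (hN2 : 2 * ℓ0 + 2 ≤ N) (Λ : AddSubgroup P2) (hΛ : Λ.FiniteIndex)
    (len : ∀ p ∈ Λ, p ≠ 0 → (N : ℤ) ≤ |p.1| + |p.2|) (w : P2) (hw : w ∈ Λ)
    (hodd : (w.1 + w.2) % 2 = 1) (v : P2) (hv : v ∈ Λ)
    (hev : (v.1 + v.2) % 2 = 0) (hnd : ∀ x ∈ Λ, v ≠ x + x)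
    (hmin : ∀ v' ∈ Λ, (v'.1 + v'.2) % 2 = 0 → (∀ x ∈ Λ, v' ≠ x + x) → sn v ≤ sn v')
    (h12 : |v.2| ≤ |v.1|) : PC Λ := by
  classical
  have hd : Nonempty (LD N Λ) := by
    rcases le_or_gt 0 v.1 with h0 | h0
    · rw [abs_of_nonneg h0] at h12
      exact exists_ld (by omega) Λ hΛ len w hw hodd v hv hev hnd hmin h12
    · refine exists_ld (by omega) Λ hΛ len w hw hodd (-v) (Λ.neg_mem hv) ?_ ?_ ?_ ?_
      · show (-v.1 + -v.2) % 2 = 0
        omega
      · intro x hx h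
        refine hnd (-x) (Λ.neg_mem hx) ?_
        rw [← neg_neg v, h]
        abel
      · intro v' hv' h1 h2
        have h3 : sn (-v) = sn v := by
          unfold sn
          show max |-v.1| |-v.2| = max |v.1| |v.2|
          rw [abs_neg, abs_neg]
        rw [h3]
        exact hmin v' hv' h1 h2
      · show |-v.2| ≤ -v.1
        rw [abs_neg]
        rw [abs_of_neg h0] at h12
        exact h12
  obtain ⟨d⟩ := hd
  have hfin : Finite (P2 ⧸ Λ) := AddSubgroup.finite_quotient_of_finiteIndex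
  let _ := Fintype.ofFinite (P2 ⧸ Λ)
  obtain ⟨b, hb⟩ := d.band W hN1
  refine pc_of_quot Λ ?_ ?_
  · intro p hp h0
    have h1 := len p hp h0
    have h2 : (2 : ℤ) ≤ N := by
      have : 2 ≤ N := by omega
      exact_mod_cast this
    omega
  · intro L hL
    have hvN := d.vN
    have hℓ : ℓ0 ≤ d.v.1.toNat := by
      have h3 : ((2 * ℓ0 + 2 : ℕ) : ℤ) ≤ N := by exact_mod_cast hN2
      push_cast at h3
      omega
    have h4 := hcol _ _ hℓ b L hL
    rw [hb] at h4
    exact h4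

/-- ROW L12. The final step. `hcol` = the band theorem. `N = max (16 W + 64) (2 ℓ0 + 2)`. Even case: `even_col`. Otherwise `exists_v`; if `|v.2| ≤ |v.1|` then replacing `v` by `-v` if
necessary `|v.2| ≤ v.1`: `exists_ld`, `LD.band` (`ℓ0 ≤ v.1.toNat` by `vN`), `pc_of_quot`. If `|v.1| < |v.2|` use the exchanged lattice `Λ'` (finite index: `AddSubgroup.map` by an equivalence / index of comap) and
`pc_swap`; `(v.2, v.1)` is minimal for it. The quotient is finite (`Λ.FiniteIndex`). -/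
theorem pc_all (W ℓ0 : ℕ)
    (hcol : ∀ (V : Type) [Fintype V] [DecidableEq V] (ℓ : ℕ) (_ : ℓ0 ≤ ℓ) (b : BandG V ℓ W)
      (L : V → Finset ℕ) (_ : ∀ v, (L v).card = 3),
      ∃ c : V → ℕ, (∀ v, c v ∈ L v) ∧ ∀ u v, b.G.Adj u v → c u ≠ c v) :
    ∃ N : ℕ, ∀ Λ : AddSubgroup P2, Λ.FiniteIndex →
      (∀ p ∈ Λ, p ≠ 0 → (N : ℤ) ≤ |p.1| + |p.2|) → PC Λ := by
  classical
  refine ⟨max (16 * W + 64) (2 * ℓ0 + 2), ?_⟩
  intro Λ hΛ len
  have hN1 := le_max_left (16 * W + 64) (2 * ℓ0 + 2)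
  have hN2 := le_max_right (16 * W + 64) (2 * ℓ0 + 2)
  generalize max (16 * W + 64) (2 * ℓ0 + 2) = N at len hN1 hN2
  have h2N : (2 : ℤ) ≤ N := by
    have : 2 ≤ N := by omega
    exact_mod_cast this
  by_cases hev : ∀ p ∈ Λ, (p.1 + p.2) % 2 = 0
  · have hfin : Finite (P2 ⧸ Λ) := AddSubgroup.finite_quotient_of_finiteIndex
    let _ := Fintype.ofFinite (P2 ⧸ Λ)
    exact pc_of_quot Λ (fun p hp h0 => h2N.trans (len p hp h0)) (fun L hL => even_col Λ hev L hL)
  · push Not at hev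
    obtain ⟨w, hw, hw1⟩ := hev
    have hodd : (w.1 + w.2) % 2 = 1 := by omega
    obtain ⟨v, hv, hve, hnd, hmin⟩ := exists_v Λ hΛ
    rcases le_total |v.2| |v.1| with h12 | h12
    · exact l12_or W ℓ0 hcol N hN1 hN2 Λ hΛ len w hw hodd v hv hve hnd hmin h12
    · set e : P2 →+ P2 := ((AddEquiv.prodComm : P2 ≃+ P2) : P2 →+ P2) with he
      have hea : ∀ p : P2, e p = (p.2, p.1) := fun p => rfl
      have hs : ∀ p : P2, p ∈ Λ.comap e ↔ (p.2, p.1) ∈ Λ := fun p => Iff.rfl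
      have hfi : (Λ.comap e).FiniteIndex := by
        refine ⟨?_⟩
        rw [AddSubgroup.index_comap_of_surjective]
        · exact hΛ.index_ne_zero
        · exact (AddEquiv.prodComm : P2 ≃+ P2).surjective
      refine pc_swap Λ (Λ.comap e) hs ?_
      refine l12_or W ℓ0 hcol N hN1 hN2 (Λ.comap e) hfi ?_ (w.2, w.1) hw ?_ (v.2, v.1) hv ?_ ?_ ?_ h12
      · intro p hp h0
        have h1 := len (p.2, p.1) hp (by
          intro h
          apply h0
          rw [Prod.ext_iff] at h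
          exact Prod.ext h.2 h.1)
        simp only at h1
        omega
      · show (w.2 + w.1) % 2 = 1
        omega
      · show (v.2 + v.1) % 2 = 0
        omega
      · intro x hx h
        refine hnd (x.2, x.1) hx ?_
        rw [Prod.ext_iff] at h ⊢
        exact ⟨h.2, h.1⟩
      · intro v' hv' h1 h2
        have h3 := hmin (v'.2, v'.1) hv' (by
          show (v'.2 + v'.1) % 2 = 0
          omega) (by
          intro x hx h
          refine h2 (x.2, x.1) hx ?_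
          rw [Prod.ext_iff] at h ⊢
          exact ⟨h.2, h.1⟩)
        unfold sn at h3 ⊢
        simp only at h3 ⊢
        rw [max_comm |v.2| |v.1|, max_comm |v'.1| |v'.2|]
        exact h3

end Bd
end TorGrid
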