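import Pool.Agent.Lib.MP_caf32e_co.Bd.F1
import Pool.Agent.Lib.MP_caf32e_co.Bd.L12

/-! The two theorems. -/

set_option autoImplicit false

namespace TorGrid
namespace Bd

open Finset

/-- ROW F2. All 4-regular quadrangulations of the torus of large edge width, with lists of size at least 3 and colours of any type: `pc_all` with `band_nat`;
choose sublists of size 3 and names of the colours on the quotient (finite; as in M34.lean), pull the lists back to the plane. -/
theorem torus4 : ∃ N : ℕ, ∀ Λ : AddSubgroup (ℤ × ℤ), Λ.FiniteIndex →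
    (∀ p ∈ Λ, p ≠ 0 → (N : ℤ) ≤ |p.1| + |p.2|) →
    ∀ (α : Type) (L : (ℤ × ℤ) ⧸ Λ → Finset α), (∀ v, 3 ≤ (L v).card) →
      ∃ c : (ℤ × ℤ) ⧸ Λ → α, (∀ v, c v ∈ L v) ∧ ∀ p : ℤ × ℤ,
        c (QuotientAddGroup.mk p) ≠ c (QuotientAddGroup.mk (p + (1, 0))) ∧
        c (QuotientAddGroup.mk p) ≠ c (QuotientAddGroup.mk (p + (0, 1))) := by
  classical
  obtain ⟨W, ℓ0, hcol⟩ := band_nat
  obtain ⟨N, hN⟩ := pc_all W ℓ0 hcol
  refine ⟨N, ?_⟩
  intro Λ hfin hlen α L hL
  have hPC : PC Λ := hN Λ hfin hlen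
  haveI : Λ.FiniteIndex := hfin
  haveI : Finite ((ℤ × ℤ) ⧸ Λ) := inferInstance
  haveI : Fintype ((ℤ × ℤ) ⧸ Λ) := Fintype.ofFinite _
  -- sublists of size 3
  have hsub : ∀ v, ∃ t ⊆ L v, t.card = 3 := fun v => Finset.exists_subset_card_eq (hL v)
  choose t ht1 ht2 using hsub
  -- names of the colours
  set S : Finset α := (univ : Finset ((ℤ × ℤ) ⧸ Λ)).biUnion t with hS
  obtain ⟨f, hf⟩ : ∃ f : α → ℕ, ∀ a ∈ S, ∀ b ∈ S, f a = f b → a = b := by
    refine ⟨fun a => S.toList.idxOf a, ?_⟩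
    intro a ha b hb hab
    exact (List.idxOf_inj (Finset.mem_toList.mpr ha)).mp hab
  have hLS : ∀ v, ∀ a ∈ t v, a ∈ S := by
    intro v a ha
    rw [hS, mem_biUnion]
    exact ⟨v, mem_univ _, ha⟩
  have hmk : ∀ p q : P2, q - p ∈ Λ →
      (QuotientAddGroup.mk q : P2 ⧸ Λ) = QuotientAddGroup.mk p := by
    intro p q h
    refine ((QuotientAddGroup.eq (s := Λ)).mpr ?_).symm
    have h2 : -p + q = q - p := by abel
    rw [h2]
    exact h
  obtain ⟨c, hc1, hc2, hc3⟩ := hPC
    (fun p : P2 => (t (QuotientAddGroup.mk p)).image f)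
    (by
      intro p
      show ((t (QuotientAddGroup.mk p)).image f).card = 3
      rw [card_image_of_injOn]
      · exact ht2 _
      · intro a ha b hb hab
        exact hf a (hLS _ a ha) b (hLS _ b hb) hab)
    (by
      intro p q h
      show (t (QuotientAddGroup.mk q)).image f = (t (QuotientAddGroup.mk p)).image f
      rw [hmk p q h])
  -- the colouring of the quotient
  have hout : ∀ p : P2, c (Quotient.out (QuotientAddGroup.mk p : P2 ⧸ Λ)) = c p := by
    intro p
    apply hc2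
    have h1 : (QuotientAddGroup.mk p : P2 ⧸ Λ) =
        QuotientAddGroup.mk (Quotient.out (QuotientAddGroup.mk p : P2 ⧸ Λ)) :=
      (QuotientAddGroup.out_eq' _).symm
    have h2 := (QuotientAddGroup.eq (s := Λ)).mp h1
    have h3 : Quotient.out (QuotientAddGroup.mk p : P2 ⧸ Λ) - p
        = -p + Quotient.out (QuotientAddGroup.mk p : P2 ⧸ Λ) := by abel
    rw [h3]
    exact h2
  have hex : ∀ v : P2 ⧸ Λ, ∃ a ∈ t v, f a = c (Quotient.out v) := by
    intro v
    have h1 := hc1 (Quotient.out v)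
    have h2 : (QuotientAddGroup.mk (Quotient.out v) : P2 ⧸ Λ) = v := QuotientAddGroup.out_eq' v
    simp only [h2] at h1
    exact mem_image.mp h1
  choose d hd1 hd2 using hex
  refine ⟨d, fun v => ht1 v (hd1 v), ?_⟩
  have key : ∀ p q : P2, q ∈ nb p →
      d (QuotientAddGroup.mk p) ≠ d (QuotientAddGroup.mk q) := by
    intro p q hq heq
    apply hc3 p q hq
    have h1 := hd2 (QuotientAddGroup.mk p)
    have h2 := hd2 (QuotientAddGroup.mk q)
    rw [hout] at h1 h2
    rw [← h1, ← h2, heq]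
  intro p
  refine ⟨key p _ ?_, key p _ ?_⟩
  · simp only [nb, mem_insert, mem_singleton]
    left
    ext <;> simp
  · simp only [nb, mem_insert, mem_singleton]
    right; right; left
    ext <;> simp

end Bd
end TorGrid
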