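import Pool.Agent.Lib.MP_caf32e_co.Bd.C1

/-! Configurations of spots, full layers, tops. -/

set_option autoImplicit false

namespace TorGrid
namespace Bd

open Finset

variable {V : Type} [Fintype V] [DecidableEq V] {r M : ℕ} {R ρ R1 : ℕ}

/-- ROW G1. Copy of `cfg_exists` (W9.lean), centres in the collar only: a maximal family of collar vertices `z` with a spot in the box of radius `R` of
the chart and disjoint private boxes. If `ch v p = ch z p'` then `v = ch v (0,0) = ch z (p' - p)` (`glue` with `d = -p`, `ch0`). The neighbours of `v` are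
`ch v q`, `q ∈ nb (0,0)` (`chadj`). -/
theorem cfg_exists (R ρ : ℕ) (hρ : R + 4 < ρ)
    (hloc : ∀ L : P2 → Finset ℕ, (∀ v, (L v).card = 3) → NoSp L (0, 0) R →
      L (0, 0) = L (1, 0) ∧ L (0, 0) = L (-1, 0) ∧ L (0, 0) = L (0, 1) ∧ L (0, 0) = L (0, -1))
    (K : Coll V r M) (hr : 8 * ρ ≤ r) (L : V → Finset ℕ) (hL : ∀ v, (L v).card = 3) :
    Nonempty (KCfg K L R ρ (2 * ρ)) := by
  classical
  have h0r : InB (0, 0) (r : ℤ) ((0, 0) : P2) := by
    constructor <;> simp
  have hin : ∀ p : P2, InB (0, 0) (ρ : ℤ) p → InB (0, 0) (r : ℤ) p := by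
    intro p hp
    obtain ⟨a1, a2⟩ := hp
    have h1 : (ρ : ℤ) ≤ (r : ℤ) := by exact_mod_cast (by omega : ρ ≤ r)
    exact ⟨le_trans a1 h1, le_trans a2 h1⟩
  -- the candidates
  let P : V → Prop := fun z =>
    K.C z ∧ ∃ (U : Finset P2) (φ : P2 → ℕ), (∀ u ∈ U, InB (0, 0) R u) ∧
      Spot (fun p => L (K.ch z p)) U φ
  -- good families
  let Gd : Finset V → Prop := fun S =>
    (∀ z ∈ S, P z) ∧
    ∀ z ∈ S, ∀ z' ∈ S, z ≠ z' → ∀ p p', InB (0, 0) ρ p → InB (0, 0) ρ p' → K.ch z p ≠ K.ch z' p'
  have hne : ((univ : Finset (Finset V)).filter Gd).Nonempty :=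
    ⟨∅, by simp [Gd]⟩
  obtain ⟨S, hS, hmax⟩ := exists_max_image _ (fun S => S.card) hne
  rw [mem_filter] at hS
  obtain ⟨-, hSP, hSsep⟩ := hS
  have hex : ∀ z, ∃ (U : Finset P2) (φ : P2 → ℕ), z ∈ S →
      (∀ u ∈ U, InB (0, 0) R u) ∧ Spot (fun p => L (K.ch z p)) U φ := by
    intro z
    by_cases hz : z ∈ S
    · obtain ⟨_, U, φ, h⟩ := hSP z hz
      exact ⟨U, φ, fun _ => h⟩
    · exact ⟨∅, fun _ => 0, fun h => absurd h hz⟩
  choose U φ hUφ using hex
  have htame : ∀ v, K.C v → (∀ z ∈ S, ∀ p, InB (0, 0) ((2 * ρ : ℕ) : ℤ) p → K.ch z p ≠ v) →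
      ∀ w, K.G.Adj v w → L w = L v := by
    intro v hvC hv w hw
    have hv00 : K.ch v (0, 0) = v := K.ch0 v hvC.1 hvC.2
    have hvS : v ∉ S := by
      intro h
      refine hv v h (0, 0) ?_ hv00
      constructor <;> simp
    have hno : NoSp (fun p => L (K.ch v p)) (0, 0) R := by
      intro U0 φ0 hU0 hsp
      have hPv : P v := ⟨hvC, U0, φ0, hU0, hsp⟩
      -- the family with v added is not good
      have hbad : ∃ z ∈ S, ∃ p p', InB (0, 0) ρ p ∧ InB (0, 0) ρ p' ∧ K.ch v p = K.ch z p' := by
        by_contra hcon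
        push Not at hcon
        have hG : Gd (insert v S) := by
          refine ⟨?_, ?_⟩
          · intro z hz
            rcases mem_insert.1 hz with rfl | hz
            · exact hPv
            · exact hSP z hz
          · intro z hz z' hz' hzz p p' hp hp'
            rcases mem_insert.1 hz with h1 | h1 <;> rcases mem_insert.1 hz' with h2 | h2
            · exact absurd (h1.trans h2.symm) hzz
            · rw [h1]
              exact hcon z' h2 p p' hp hp'
            · rw [h2]
              exact (hcon z h1 p' p hp' hp).symm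
            · exact hSsep z h1 z' h2 hzz p p' hp hp'
        have h3 := hmax (insert v S) (mem_filter.2 ⟨mem_univ _, hG⟩)
        simp only [card_insert_of_notMem hvS] at h3
        omega
      obtain ⟨z, hz, p, p', hp, hp', hpp⟩ := hbad
      have hzC : K.C z := (hSP z hz).1
      refine hv z hz (p'.1 + -p.1, p'.2 + -p.2) ?_ ?_
      · obtain ⟨a1, a2⟩ := hp
        obtain ⟨b1, b2⟩ := hp'
        simp only [sub_zero] at a1 a2 b1 b2
        rw [abs_le] at a1 a2 b1 b2
        constructor
        · simp only [sub_zero]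
          rw [abs_le]
          push_cast
          constructor <;> linarith [a1.1, a1.2, b1.1, b1.2]
        · simp only [sub_zero]
          rw [abs_le]
          push_cast
          constructor <;> linarith [a2.1, a2.2, b2.1, b2.2]
      · have e := K.glue v z hvC.1 hvC.2 hzC.1 hzC.2 p p' (-p.1, -p.2) (hin p hp) (hin p' hp') hpp
        have e2 : ((p.1 + -p.1, p.2 + -p.2) : P2) = (0, 0) := by
          ext <;> simp
        have e3 : K.ch v (p.1 + -p.1, p.2 + -p.2) = K.ch z (p'.1 + -p.1, p'.2 + -p.2) := e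
        rw [e2, hv00] at e3
        exact e3.symm
    have h4 := hloc (fun p => L (K.ch v p)) (fun p => hL _) hno
    rw [hv00] at h4
    have h5 := (K.chadj v hvC.1 hvC.2 (0, 0) h0r w).1 (by rw [hv00]; exact hw)
    obtain ⟨q, hq, rfl⟩ := h5
    simp only [nb, mem_insert, mem_singleton, zero_add, zero_sub] at hq
    rcases hq with rfl | rfl | rfl | rfl
    · exact h4.1.symm
    · exact h4.2.1.symm
    · exact h4.2.2.1.symm
    · exact h4.2.2.2.symm
  exact ⟨{ S := S
           hS := fun z hz => (hSP z hz).1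
           U := U
           φ := φ
           spot := fun z hz => (hUφ z hz).2
           inR := fun z hz => (hUφ z hz).1
           sep := hSsep
           tame := htame }⟩

end Bd
end TorGrid
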