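import Pool.Agent.Lib.MP_caf32e_co.Bd.C1

/-! Configurations of spots, full layers, tops. -/

set_option autoImplicit false

namespace TorGrid
namespace Bd

open Finset

private lemma g2_InB {r s : ℤ} {p : P2} (h : InB (0, 0) r p) (hrs : r ≤ s) : InB (0, 0) s p :=
  ⟨h.1.trans hrs, h.2.trans hrs⟩

private lemma g2_InB_nb {r s : ℤ} {p q : P2} (h : InB (0, 0) r p) (hq : q ∈ nb p)
    (hrs : r + 1 ≤ s) : InB (0, 0) s q := by
  obtain ⟨h1, h2⟩ := h
  simp only [nb, mem_insert, mem_singleton] at hq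
  rw [abs_le] at h1 h2
  simp only [sub_zero] at h1 h2
  unfold InB
  simp only [sub_zero]
  rcases hq with rfl | rfl | rfl | rfl <;> constructor <;> rw [abs_le] <;> constructor <;>
    simp only <;> linarith [h1.1, h1.2, h2.1, h2.2]

variable {V : Type} [Fintype V] [DecidableEq V] {r M : ℕ} {R ρ R1 : ℕ}

/-- ROW G2. Copy of `cfg_basic` (W1.lean); `chadj`, `chinj` replace the explicit torus. `Pv v` = `v` in a private box. A neighbour of a precoloured vertex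
`ch z u` (`u` in the box of radius `R`) is `ch z q` with `q` in the box of radius `R + 1`. -/
theorem cfg_basic {K : Coll V r M} {L : V → Finset ℕ} (hL : ∀ v, (L v).card = 3)
    (c : KCfg K L R ρ R1) (h1 : R + 4 < ρ) (h2 : ρ + 4 ≤ R1) (hr : 4 * R1 ≤ r) :
    (∀ v, c.Ts v → ¬ c.Us v) ∧
    (∀ z ∈ c.S, ∀ p, InB (0, 0) ρ p → (c.Us (K.ch z p) ↔ p ∈ c.U z)) ∧
    (∀ z ∈ c.S, ∀ p, InB (0, 0) ρ p → p ∉ c.U z →
      c.ls (K.ch z p) = lost (fun q => L (K.ch z q)) (c.U z) (c.φ z) p) ∧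
    (∀ v, ¬ c.Pv v → c.L1 v = L v) ∧
    (∀ v, c.Ts v → c.L1 v = L v) ∧
    (∀ v, c.Us v → c.Phi v ∈ L v) ∧
    (∀ u v, c.Us u → c.Us v → K.G.Adj u v → c.Phi u ≠ c.Phi v) ∧
    (∀ u v, c.Us u → K.G.Adj u v → ¬ c.Ts v) := by
  classical
  have hRρ : (R : ℤ) + 1 ≤ ρ := by exact_mod_cast (by omega : R + 1 ≤ ρ)
  have hRρ' : (R : ℤ) ≤ ρ := by exact_mod_cast (by omega : R ≤ ρ)
  have hρR1 : (ρ : ℤ) + 1 ≤ R1 := by exact_mod_cast (by omega : ρ + 1 ≤ R1)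
  have hρr : (ρ : ℤ) + 1 ≤ r := by exact_mod_cast (by omega : ρ + 1 ≤ r)
  -- the neighbours of a point of the chart
  have hadj : ∀ z ∈ c.S, ∀ p, InB (0, 0) ((ρ : ℤ) + 1) p → ∀ w, K.G.Adj (K.ch z p) w ↔
      ∃ q ∈ nb p, w = K.ch z q := by
    intro z hz p hp w
    exact K.chadj z (c.hS z hz).1 (c.hS z hz).2 p (g2_InB hp hρr) w
  have inj : ∀ z ∈ c.S, ∀ (p q : P2), InB (0, 0) ((ρ : ℤ) + 1) p → InB (0, 0) ((ρ : ℤ) + 1) q →
      K.ch z p = K.ch z q → p = q := by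
    intro z hz p q hp hq h
    exact K.chinj z (c.hS z hz).1 (c.hS z hz).2 p q (g2_InB hp (by linarith))
      (g2_InB hq (by linarith)) h
  have key : ∀ z ∈ c.S, ∀ p, InB (0, 0) ρ p → ∀ q, (q = p ∨ q ∈ nb p) → ∀ z' ∈ c.S,
      ∀ u' ∈ c.U z', K.ch z' u' = K.ch z q → z' = z ∧ u' = q := by
    intro z hz p hp q hq z' hz' u' hu' h
    have hu1 := c.inR z' hz' u' hu'
    have hzz : z' = z := by
      by_contra hne
      rcases hq with rfl | hq
      · exact c.sep z' hz' z hz hne u' q (g2_InB hu1 hRρ') hp h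
      · have h3 : K.G.Adj (K.ch z' u') (K.ch z p) := by
          rw [h]
          exact ((hadj z hz p (g2_InB hp (by linarith)) _).2 ⟨q, hq, rfl⟩).symm
        obtain ⟨u'', hu'', h4⟩ := (hadj z' hz' u' (g2_InB hu1 (by linarith)) _).1 h3
        exact c.sep z' hz' z hz hne u'' p (g2_InB_nb hu1 hu'' hRρ) hp h4.symm
    subst hzz
    refine ⟨rfl, inj z' hz' u' q (g2_InB hu1 (by linarith)) ?_ h⟩
    rcases hq with rfl | hq
    · exact g2_InB hp (by linarith)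
    · exact g2_InB_nb hp hq le_rfl
  have A2 : ∀ z ∈ c.S, ∀ u ∈ c.U z, c.Phi (K.ch z u) = c.φ z u := by
    intro z hz u hu
    have hex : ∃ z' u', z' ∈ c.S ∧ u' ∈ c.U z' ∧ K.ch z' u' = K.ch z u := ⟨z, u, hz, hu, rfl⟩
    have h3 := hex.choose_spec.choose_spec
    have h4 := key z hz u (g2_InB (c.inR z hz u hu) hRρ') u (Or.inl rfl) _ h3.1 _ h3.2.1 h3.2.2
    unfold KCfg.Phi
    rw [dif_pos hex]
    rw [h4.2]
    congr 1
    exact h4.1
  have A3' : ∀ z ∈ c.S, ∀ p, InB (0, 0) ρ p → ∀ q, (q = p ∨ q ∈ nb p) →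
      (c.Us (K.ch z q) ↔ q ∈ c.U z) := by
    intro z hz p hp q hq
    constructor
    · rintro ⟨z', hz', u', hu', h⟩
      obtain ⟨rfl, rfl⟩ := key z hz p hp q hq z' hz' u' hu' h
      exact hu'
    · intro h
      exact ⟨z, hz, q, h, rfl⟩
  -- a neighbour of a precoloured vertex is in the private box
  have A8 : ∀ u v, c.Us u → K.G.Adj u v → c.Pv v := by
    rintro u v ⟨z, hz, a, ha, rfl⟩ h
    obtain ⟨q, hq, rfl⟩ := (hadj z hz a (g2_InB (c.inR z hz a ha) (by linarith)) v).1 h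
    exact ⟨z, hz, q, g2_InB_nb (c.inR z hz a ha) hq hRρ, rfl⟩
  have A5 : ∀ v, ¬ c.Pv v → c.L1 v = L v := by
    intro v hv
    have : univ.filter (fun w => K.G.Adj v w ∧ c.Us w) = ∅ := by
      rw [filter_eq_empty_iff]
      rintro w - ⟨hw, hU⟩
      exact hv (A8 w v hU hw.symm)
    unfold KCfg.L1
    rw [this]
    simp
  have A9 : ∀ v, c.Ts v → ¬ c.Pv v := by
    rintro v hT ⟨z, hz, p, hp, rfl⟩
    exact hT.2.2 z hz p (g2_InB hp (by linarith)) rfl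
  refine ⟨?_, fun z hz p hp => A3' z hz p hp p (Or.inl rfl), ?_, A5, fun v hv => A5 v (A9 v hv),
    ?_, ?_, fun u v hu h hT => A9 v hT (A8 u v hu h)⟩
  · rintro v hT ⟨z, hz, u, hu, rfl⟩
    exact A9 _ hT ⟨z, hz, u, g2_InB (c.inR z hz u hu) hRρ', rfl⟩
  · intro z hz p hp _
    have hA : (univ.filter (fun w => K.G.Adj (K.ch z p) w ∧ c.Us w)).image c.Phi =
        ((nb p) ∩ (c.U z)).image (c.φ z) := by
      ext x
      simp only [mem_image, mem_filter, mem_inter, mem_univ, true_and]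
      constructor
      · rintro ⟨w, ⟨hw, hU⟩, rfl⟩
        obtain ⟨q, hq, rfl⟩ := (hadj z hz p (g2_InB hp (by linarith)) w).1 hw
        have h3 := (A3' z hz p hp q (Or.inr hq)).1 hU
        exact ⟨q, ⟨hq, h3⟩, (A2 z hz q h3).symm⟩
      · rintro ⟨q, ⟨hq, hU⟩, rfl⟩
        refine ⟨K.ch z q, ⟨?_, ?_⟩, A2 z hz q hU⟩
        · exact (hadj z hz p (g2_InB hp (by linarith)) _).2 ⟨q, hq, rfl⟩
        · exact (A3' z hz p hp q (Or.inr hq)).2 hU
    unfold KCfg.ls KCfg.L1 lost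
    rw [hA]
    have h5 := card_sdiff_add_card_inter (L (K.ch z p)) (((nb p) ∩ (c.U z)).image (c.φ z))
    rw [inter_comm (L (K.ch z p)), hL] at h5
    have h6 : ((L (K.ch z p) \ ((nb p) ∩ (c.U z)).image (c.φ z)).card : ℤ) +
        ((((nb p) ∩ (c.U z)).image (c.φ z) ∩ L (K.ch z p)).card : ℤ) = 3 := by
      exact_mod_cast h5
    linarith
  · rintro v ⟨z, hz, u, hu, rfl⟩
    rw [A2 z hz u hu]
    exact (c.spot z hz).mem u hu
  · rintro u v ⟨z, hz, a, ha, rfl⟩ ⟨z', hz', b, hb, rfl⟩ hadj'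
    obtain ⟨q, hq, h4⟩ := (hadj z hz a (g2_InB (c.inR z hz a ha) (by linarith)) _).1 hadj'
    obtain ⟨rfl, rfl⟩ := key z hz a (g2_InB (c.inR z hz a ha) hRρ') q (Or.inr hq) z' hz' b hb h4
    rw [A2 _ hz a ha, A2 _ hz' b hb]
    exact (c.spot _ hz).prop a ha b hb hq

end Bd
end TorGrid
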