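import Pool.Agent.Lib.MP_caf32e_co.Bd.C1

/-! Configurations of spots, full layers, tops. -/

set_option autoImplicit false

namespace TorGrid
namespace Bd

open Finset

variable {V : Type} [Fintype V] [DecidableEq V] {r M : ℕ} {R ρ R1 : ℕ}

/-- ROW G3. `k` = the least number with `¬ Ft (σ^[k] v)`; it exists: if all `σ^[i] v` were in `Ft` the whole layer of `v` would be tame (`orb`; `Ft v` gives
`1 ≤ lay v ≤ M - 2`), against `hfull`. -/
theorem rep_exists {K : Coll V r M} {L : V → Finset ℕ} (c : KCfg K L R ρ R1)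
    (hfull : ∀ j : ℤ, 1 ≤ j → j + 2 ≤ M → ∃ v, K.lay v = j ∧ ¬ c.Ts v) :
    ∃ rep : V → V, ∀ v, ∃ k : ℕ, rep v = K.σ^[k] v ∧ (∀ i < k, c.Ft (K.σ^[i] v)) ∧
      ¬ c.Ft (rep v) := by
  classical
  have key : ∀ v, ∃ k : ℕ, ¬ c.Ft (K.σ^[k] v) := by
    intro v
    by_contra hcon
    push Not at hcon
    have h0 : c.Ts v := (hcon 0).1
    obtain ⟨w, hw, hTw⟩ := hfull (K.lay v) h0.1 h0.2.1
    obtain ⟨k, hk⟩ := K.orb v w (by have := h0.1; omega) (by have := h0.2.1; omega) hw.symm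
    apply hTw
    rw [← hk]
    exact (hcon k).1
  refine ⟨fun v => K.σ^[Nat.find (key v)] v, fun v => ⟨Nat.find (key v), rfl, ?_, ?_⟩⟩
  · intro i hi
    have := Nat.find_min (key v) hi
    exact not_not.mp this
  · exact Nat.find_spec (key v)

end Bd
end TorGrid
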