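import Pool.Agent.Lib.MP_caf32e_co.Bd.C1

/-! Configurations of spots, full layers, tops. -/

set_option autoImplicit false

namespace TorGrid
namespace Bd

open Finset

variable {V : Type} [Fintype V] [DecidableEq V] {r M : ℕ} {R ρ R1 : ℕ}

/-- ROW G4. If all vertices of the layer `j` are tame the lists are constant along it: `L (σ v) = L (N v) = L v` (`N v` is adjacent to both, `tame`), then
`orb`. If the layer is empty there is nothing to show. -/
theorem layer_const {K : Coll V r M} (hr : 4 ≤ r) {L : V → Finset ℕ} (hL : ∀ v, (L v).card = 3)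
    (c : KCfg K L R ρ R1) (j : ℤ) (hj : 1 ≤ j) (hj' : j + 2 ≤ M)
    (h : ∀ v, K.lay v = j → c.Ts v) : ∃ a : ℕ, ∀ v, K.lay v = j → a ∈ L v := by
  by_cases hne : ∃ u, K.lay u = j
  · obtain ⟨u, hu⟩ := hne
    have step : ∀ v, K.lay v = j → K.lay (K.σ v) = j ∧ L (K.σ v) = L v := by
      intro v hv
      have hC : K.C v := ⟨by omega, by omega⟩
      have hs : K.lay (K.σ v) = j := by
        rw [(K.lσ v hC.1 hC.2).1, hv]
      have hCs : K.C (K.σ v) := ⟨by omega, by omega⟩
      obtain ⟨h1, -, -, -, h5, -⟩ := K.basic hr v hC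
      have e1 : L (K.N v) = L v := c.tame v hC (h v hv).2.2 _ h1
      have e2 : L (K.N v) = L (K.σ v) := c.tame (K.σ v) hCs (h _ hs).2.2 _ h5.symm
      exact ⟨hs, by rw [← e2, e1]⟩
    have it : ∀ k : ℕ, K.lay (K.σ^[k] u) = j ∧ L (K.σ^[k] u) = L u := by
      intro k
      induction k with
      | zero => exact ⟨hu, rfl⟩
      | succ k ih =>
        rw [Function.iterate_succ_apply']
        obtain ⟨a1, a2⟩ := step _ ih.1
        exact ⟨a1, by rw [a2, ih.2]⟩
    have hcard : (L u).Nonempty := by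
      rw [← Finset.card_pos, hL u]
      norm_num
    obtain ⟨a, ha⟩ := hcard
    refine ⟨a, fun v hv => ?_⟩
    obtain ⟨k, hk⟩ := K.orb u v (by omega) (by omega) (by omega)
    rw [← hk, (it k).2]
    exact ha
  · exact ⟨0, fun v hv => absurd ⟨v, hv⟩ hne⟩

end Bd
end TorGrid
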