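import Pool.Agent.Lib.MP_caf32e_co.Bd.C5
import Pool.Agent.Lib.MP_caf32e_co.Bd.C6
import Pool.Agent.Lib.MP_caf32e_co.K4

/-! Configurations of spots, full layers, tops. -/

set_option autoImplicit false

namespace TorGrid
namespace Bd

open Finset

variable {V : Type} [Fintype V] [DecidableEq V] {r M : ℕ} {R ρ R1 : ℕ}

open Classical in
/-- the weight out of a vertex is not negative -/
private theorem g5_cd_nn (K : Coll V r M) (W : Finset V) (g : V) : 0 ≤ K.cd W g := by
  unfold Coll.cd
  exact Finset.sum_nonneg fun w _ => K.wt_nn g w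

/-- a vertex next to the layer `j` -/
private theorem g5_near (K : Coll V r M) (j : ℤ) (hj : 1 ≤ j) (hj' : j + 2 ≤ M) (g w : V)
    (h : K.G.Adj g w) (hw : K.lay w = j) : K.lay g = j + 1 ∨ K.lay g = j - 1 := by
  have h1 := K.adjlay w g (by omega) (by omega) h.symm
  rw [hw] at h1
  exact h1

open Classical in
private theorem g5_oc (K : Coll V r M) (j : ℤ) (W : Finset V)
    (hW : ∀ v ∈ W, K.lay v ≠ j) (g : V) (hg : K.C g) (hl : K.lay g = j + 1 ∨ K.lay g = j - 1) :
    1 ≤ K.oc W g := by
  unfold Coll.oc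
  have key : K.N g ∉ W ∨ K.H g ∉ W := by
    rcases K.hd g hg.1 hg.2 with ⟨h1, h2⟩ | ⟨h1, h2⟩ <;> rcases hl with h3 | h3
    · right; intro h; exact hW _ h (by rw [h2, h3]; ring)
    · left; intro h; exact hW _ h (by rw [h1, h3]; ring)
    · left; intro h; exact hW _ h (by rw [h1, h3]; ring)
    · right; intro h; exact hW _ h (by rw [h2, h3]; ring)
  rcases key with h | h
  · rw [if_neg h]
    have : (0 : ℤ) ≤ (if K.H g ∈ W then 0 else 1) := by split_ifs <;> norm_num
    linarith
  · rw [if_neg h]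
    have : (0 : ℤ) ≤ (if K.N g ∈ W then 0 else 1) := by split_ifs <;> norm_num
    linarith

open Classical in
private theorem g5_oc' (K : Coll V r M) (j : ℤ) (W : Finset V)
    (hW : ∀ v ∈ W, K.lay v ≠ j) (g : V) (hg : K.C g) (hl : K.lay g = j + 1 ∨ K.lay g = j - 1) :
    1 ≤ K.oc' W g := by
  unfold Coll.oc'
  have key : K.N' g ∉ W ∨ K.H' g ∉ W := by
    rcases K.hd' g hg.1 hg.2 with ⟨h1, h2⟩ | ⟨h1, h2⟩ <;> rcases hl with h3 | h3
    · right; intro h; exact hW _ h (by rw [h2, h3]; ring)
    · left; intro h; exact hW _ h (by rw [h1, h3]; ring)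
    · left; intro h; exact hW _ h (by rw [h1, h3]; ring)
    · right; intro h; exact hW _ h (by rw [h2, h3]; ring)
  rcases key with h | h
  · rw [if_neg h]
    have : (0 : ℤ) ≤ (if K.H' g ∈ W then 0 else 1) := by split_ifs <;> norm_num
    linarith
  · rw [if_neg h]
    have : (0 : ℤ) ≤ (if K.N' g ∈ W then 0 else 1) := by split_ifs <;> norm_num
    linarith

open Classical in
/-- the surplus outside the layer -/
private theorem g5_h2 (K : Coll V r M) (hr : 4 ≤ r) (L' : V → Finset ℕ)
    (j : ℤ) (hj : 1 ≤ j) (hj' : j + 2 ≤ M)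
    (hL1 : ∀ v, (∃ w, K.G.Adj v w ∧ K.lay w = j) → 2 ≤ (L' v).card)
    (hL2 : ∀ v, ¬ (∃ w, K.G.Adj v w ∧ K.lay w = j) → 3 ≤ (L' v).card)
    (W : Finset V) (hW : ∀ v ∈ W, K.lay v ≠ j) : 0 ≤ h2 K.G L' W := by
  unfold h2
  have hout := K.outer W
  -- the vertices next to the layer
  set Nr := W.filter (fun v => ∃ w, K.G.Adj v w ∧ K.lay w = j) with hNr
  have hprop : ∀ g ∈ Nr, K.C g ∧ K.B g ∧ 2 ≤ K.cd W g := by
    intro g hg
    obtain ⟨hgW, w, hadj, hw⟩ := Finset.mem_filter.1 hg
    have hl := g5_near K j hj hj' g w hadj hw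
    have hC : K.C g := by
      unfold Coll.C
      constructor
      · rcases hl with h | h <;> omega
      · rcases hl with h | h <;> omega
    refine ⟨hC, K.CB g (by rcases hl with h | h <;> omega) (by rcases hl with h | h <;> omega), ?_⟩
    rw [K.cd_col hr W g hC]
    have h1 := g5_oc K j W hW g hC hl
    have h2 := g5_oc' K j W hW g hC hl
    linarith
  have hsub : Nr ⊆ W.filter (fun g => K.B g) := by
    intro g hg
    exact Finset.mem_filter.2 ⟨(Finset.mem_filter.1 hg).1, (hprop g hg).2.1⟩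
  have h3 : 2 * (Nr.card : ℤ) ≤ ∑ g ∈ W.filter (fun g => K.B g), K.cd W g := by
    calc 2 * (Nr.card : ℤ) = ∑ _g ∈ Nr, (2 : ℤ) := by
          rw [Finset.sum_const, nsmul_eq_mul]; ring
      _ ≤ ∑ g ∈ Nr, K.cd W g := Finset.sum_le_sum fun g hg => (hprop g hg).2.2
      _ ≤ ∑ g ∈ W.filter (fun g => K.B g), K.cd W g :=
          Finset.sum_le_sum_of_subset_of_nonneg hsub fun g _ _ => g5_cd_nn K W g
  have h4 : 4 * (W.card : ℤ) - 2 * (Nr.card : ℤ) ≤ ∑ v ∈ W, (2 * ((L' v).card : ℤ) - 2) := by
    have h5 : 4 * (W.card : ℤ) - 2 * (Nr.card : ℤ) =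
        ∑ v ∈ W, ((4 : ℤ) - if (∃ w, K.G.Adj v w ∧ K.lay w = j) then 2 else 0) := by
      rw [Finset.sum_sub_distrib, Finset.sum_const, nsmul_eq_mul, ← Finset.sum_filter,
        Finset.sum_const, nsmul_eq_mul]
      ring
    rw [h5]
    apply Finset.sum_le_sum
    intro v _
    split_ifs with h
    · have := hL1 v h
      have h6 : (2 : ℤ) ≤ ((L' v).card : ℤ) := by exact_mod_cast this
      linarith
    · have := hL2 v h
      have h6 : (3 : ℤ) ≤ ((L' v).card : ℤ) := by exact_mod_cast this
      linarith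
  linarith

/-- ROW G5. Colour the layer `j` with `a`. The rest is bipartite (`bip`). Lists `L' v = L v \ {a}` if `v` has a neighbour in the layer, `L v` otherwise. `bip_col`:
for `W` outside the layer `h2 G L' W ≥ 4|W| - dIn W - 2 #{g ∈ W : g next to the layer} ≥ ∑_(g ∈ W ∩ B) cd W g - 2 #{..}` (`outer`), and a vertex
`g` of `W` with a neighbour in the layer is in the collar (layer `j ± 1`, by `adjlay` applied to the neighbour), and `cd W g = oc W g + oc' W g ≥ 2`
(`cd_col`), because one of `N g, H g` and one of `N' g, H' g` is in the layer `j` (`hd`, `hd'`), so not in `W`; all `cd ≥ 0`. -/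
theorem full_colour (K : Coll V r M) (hr : 4 ≤ r) (L : V → Finset ℕ) (hL : ∀ v, (L v).card = 3)
    (j : ℤ) (hj : 1 ≤ j) (hj' : j + 2 ≤ M) (a : ℕ) (ha : ∀ v, K.lay v = j → a ∈ L v) :
    ∃ c : V → ℕ, (∀ v, c v ∈ L v) ∧ ∀ u v, K.G.Adj u v → c u ≠ c v := by
  classical
  obtain ⟨A, hA, -⟩ := K.bip j (by omega) (by omega)
  set L' : V → Finset ℕ := fun v =>
    if (∃ w, K.G.Adj v w ∧ K.lay w = j) then (L v).erase a else L v with hL'
  set X : Finset V := univ.filter (fun v => K.lay v ≠ j) with hX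
  have hmem : ∀ v, v ∈ X ↔ K.lay v ≠ j := by
    intro v
    rw [hX, Finset.mem_filter]
    simp
  have hcol : ColOn K.G L' X := by
    apply bip_col K.G A L' X
    · intro u hu v hv huv
      exact hA u v huv ((hmem u).1 hu) ((hmem v).1 hv)
    · intro W hW
      apply g5_h2 K hr L' j hj hj'
      · intro v hv
        have h1 : L' v = (L v).erase a := by rw [hL']; simp only; rw [if_pos hv]
        rw [h1]
        have h2 := Finset.pred_card_le_card_erase (s := L v) (a := a)
        rw [hL v] at h2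
        exact h2
      · intro v hv
        have h1 : L' v = L v := by rw [hL']; simp only; rw [if_neg hv]
        rw [h1, hL v]
      · intro v hv
        exact (hmem v).1 (hW hv)
  obtain ⟨c, hc1, hc2⟩ := hcol
  refine ⟨fun v => if K.lay v = j then a else c v, ?_, ?_⟩
  · intro v
    by_cases hv : K.lay v = j
    · simp only [if_pos hv]
      exact ha v hv
    · simp only [if_neg hv]
      have h1 := hc1 v ((hmem v).2 hv)
      rw [hL'] at h1
      simp only at h1
      split_ifs at h1 with h2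
      · exact Finset.mem_of_mem_erase h1
      · exact h1
  · have key : ∀ u v, K.G.Adj u v → K.lay u = j → (K.lay v ≠ j ∧ c v ≠ a) := by
      intro u v huv hu
      have hv : K.lay v ≠ j := by
        rcases g5_near K j hj hj' v u huv.symm hu with h | h <;> omega
      refine ⟨hv, ?_⟩
      have h1 := hc1 v ((hmem v).2 hv)
      have h2 : L' v = (L v).erase a := by
        rw [hL']; simp only; rw [if_pos ⟨u, huv.symm, hu⟩]
      rw [h2] at h1
      exact Finset.ne_of_mem_erase h1
    intro u v huv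
    by_cases hu : K.lay u = j
    · obtain ⟨hv, hcv⟩ := key u v huv hu
      simp only [if_pos hu, if_neg hv]
      exact fun h => hcv h.symm
    · by_cases hv : K.lay v = j
      · obtain ⟨-, hcu⟩ := key v u huv.symm hv
        simp only [if_neg hu, if_pos hv]
        exact hcu
      · simp only [if_neg hu, if_neg hv]
        exact hc2 u ((hmem u).2 hu) v ((hmem v).2 hv) huv

end Bd
end TorGrid
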