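import Pool.Agent.Lib.MP_caf32e_co.Bd.Defs
import Pool.Agent.Lib.MP_caf32e_co.K4
import Pool.Agent.Lib.MP_caf32e_co.K6

/-! Criticality (page, section 4). -/

set_option autoImplicit false

namespace TorGrid
namespace Bd

open Finset

open Classical in
private lemma k1_dIn_eq {V : Type*} [DecidableEq V] (G : SimpleGraph V) (X : Finset V) :
    dIn G X = ∑ v ∈ X, (X.filter (fun w => G.Adj v w)).card := by
  unfold dIn
  rw [card_filter, sum_product]
  apply sum_congr rfl
  intro v _
  rw [card_filter]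

open Classical in
private lemma k1_cross {V : Type*} [DecidableEq V] (G : SimpleGraph V) (Y W : Finset V) :
    ∑ v ∈ Y, (W.filter (fun w => G.Adj v w)).card =
      ∑ v ∈ W, (Y.filter (fun w => G.Adj v w)).card := by
  simp only [card_filter]
  rw [sum_comm]
  apply sum_congr rfl
  intro v _
  apply sum_congr rfl
  intro w _
  simp only [G.adj_comm v w]

open Classical in
private lemma k1_dIn_union {V : Type*} [DecidableEq V] (G : SimpleGraph V) {Y W : Finset V}
    (h : Disjoint Y W) :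
    dIn G (Y ∪ W) = dIn G Y + dIn G W + 2 * ∑ v ∈ W, (Y.filter (fun w => G.Adj v w)).card := by
  have h1 : ∀ v, ((Y ∪ W).filter (fun w => G.Adj v w)).card =
      (Y.filter (fun w => G.Adj v w)).card + (W.filter (fun w => G.Adj v w)).card := by
    intro v
    rw [filter_union, card_union_of_disjoint (disjoint_filter_filter h)]
  rw [k1_dIn_eq, k1_dIn_eq, k1_dIn_eq, sum_union h]
  simp only [h1, sum_add_distrib]
  have h2 := k1_cross G Y W
  omega

/-- One step: precolour `Y`; some `W` outside lowers the surplus. -/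
private lemma k1_step {V : Type*} [DecidableEq V] (G : SimpleGraph V)
    (L : V → Finset ℕ) (X : Finset V) (hX : ¬ ColOn G L X) (Y : Finset V)
    (hY : ColOn G L Y) (A : V → Prop) (hbip : ∀ u ∈ X \ Y, ∀ v ∈ X \ Y, G.Adj u v → (A u ↔ ¬ A v)) :
    ∃ W ⊆ X \ Y, W.Nonempty ∧ h2 G L (Y ∪ W) < h2 G L Y := by
  classical
  obtain ⟨ψ, hψ1, hψ2⟩ := hY
  let L' : V → Finset ℕ := fun v => L v \ (Y.filter (fun w => G.Adj v w)).image ψ
  -- not colourable
  have hnc : ¬ ColOn G L' (X \ Y) := by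
    rintro ⟨c, hc1, hc2⟩
    apply hX
    refine ⟨fun v => if v ∈ Y then ψ v else c v, ?_, ?_⟩
    · intro v hv
      by_cases hvY : v ∈ Y
      · simp only [hvY, if_true]; exact hψ1 v hvY
      · simp only [hvY, if_false]
        exact (mem_sdiff.1 (hc1 v (mem_sdiff.2 ⟨hv, hvY⟩))).1
    · intro u hu v hv huv
      by_cases huY : u ∈ Y <;> by_cases hvY : v ∈ Y
      · simp only [huY, hvY, if_true]; exact hψ2 u huY v hvY huv
      · simp only [huY, hvY, if_true, if_false]
        have h1 := (mem_sdiff.1 (hc1 v (mem_sdiff.2 ⟨hv, hvY⟩))).2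
        intro h
        apply h1
        rw [← h]
        exact mem_image_of_mem _ (mem_filter.2 ⟨huY, huv.symm⟩)
      · simp only [huY, hvY, if_true, if_false]
        have h1 := (mem_sdiff.1 (hc1 u (mem_sdiff.2 ⟨hu, huY⟩))).2
        intro h
        apply h1
        rw [h]
        exact mem_image_of_mem _ (mem_filter.2 ⟨hvY, huv⟩)
      · simp only [huY, hvY, if_false]
        exact hc2 u (mem_sdiff.2 ⟨hu, huY⟩) v (mem_sdiff.2 ⟨hv, hvY⟩) huv
  -- a bad set
  have hW : ∃ W ⊆ X \ Y, h2 G L' W < 0 := by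
    by_contra hcon
    push Not at hcon
    exact hnc (bip_col G A L' (X \ Y) hbip hcon)
  obtain ⟨W, hWs, hWn⟩ := hW
  refine ⟨W, hWs, ?_, ?_⟩
  · rw [nonempty_iff_ne_empty]
    rintro rfl
    simp [h2, dIn] at hWn
  · have hdis : Disjoint Y W := by
      rw [Finset.disjoint_left]
      intro v hv hvW
      exact (mem_sdiff.1 (hWs hvW)).2 hv
    have h3 : ∀ v ∈ W, (2 * ((L v).card : ℤ) - 2) ≤ (2 * ((L' v).card : ℤ) - 2) +
        2 * ((Y.filter (fun w => G.Adj v w)).card : ℤ) := by
      intro v _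
      have h4 : (L v).card ≤ (L' v).card + (Y.filter (fun w => G.Adj v w)).card := by
        have h5 := card_le_card_sdiff_add_card (s := L v)
          (t := (Y.filter (fun w => G.Adj v w)).image ψ)
        have h6 : ((Y.filter (fun w => G.Adj v w)).image ψ).card ≤
          (Y.filter (fun w => G.Adj v w)).card := card_image_le
        show (L v).card ≤ (L v \ (Y.filter (fun w => G.Adj v w)).image ψ).card + _
        omega
      have h4' : ((L v).card : ℤ) ≤ (L' v).card + (Y.filter (fun w => G.Adj v w)).card := by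
        exact_mod_cast h4
      linarith
    have h7 := sum_le_sum h3
    rw [sum_add_distrib, ← mul_sum] at h7
    unfold h2 at hWn ⊢
    rw [sum_union hdis, k1_dIn_union G hdis]
    push_cast
    linarith

/-- Iterating the step. -/
private lemma k1_iter {V : Type*} [DecidableEq V] (G : SimpleGraph V)
    (L : V → Finset ℕ) (X : Finset V) (hX : ¬ ColOn G L X)
    (hmin : ∀ Y, Y ⊂ X → ColOn G L Y) (A : V → Prop) :
    ∀ (n : ℕ) (Y : Finset V), (X \ Y).card ≤ n → Y ⊆ X →
      (∀ u ∈ X \ Y, ∀ v ∈ X \ Y, G.Adj u v → (A u ↔ ¬ A v)) →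
      h2 G L X ≤ h2 G L Y ∧ (Y ≠ X → h2 G L X < h2 G L Y) := by
  intro n
  induction n with
  | zero =>
    intro Y hn hYX _
    have h1 : X \ Y = ∅ := card_eq_zero.1 (by omega)
    have h2 : Y = X := subset_antisymm hYX (sdiff_eq_empty_iff_subset.1 h1)
    subst h2
    exact ⟨le_rfl, fun h => absurd rfl h⟩
  | succ n ih =>
    intro Y hn hYX hd
    by_cases hne : Y = X
    · subst hne
      exact ⟨le_rfl, fun h => absurd rfl h⟩
    · have hss : Y ⊂ X := lt_of_le_of_ne hYX hne
      obtain ⟨W, hWs, hWne, hlt⟩ := k1_step G L X hX Y (hmin Y hss) A hd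
      have h1 : (X \ (Y ∪ W)).card ≤ n := by
        obtain ⟨w, hw⟩ := hWne
        have h2 : X \ (Y ∪ W) ⊂ X \ Y := by
          refine ⟨sdiff_subset_sdiff subset_rfl subset_union_left, fun h => ?_⟩
          have h3 := mem_sdiff.1 (h (hWs hw))
          exact h3.2 (mem_union_right _ hw)
        have := card_lt_card h2
        omega
      have h2 := ih (Y ∪ W) h1 (union_subset hYX (hWs.trans sdiff_subset))
        (fun u hu v hv => hd u (mem_sdiff.2 ⟨(mem_sdiff.1 hu).1, fun h => (mem_sdiff.1 hu).2 (mem_union_left _ h)⟩)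
          v (mem_sdiff.2 ⟨(mem_sdiff.1 hv).1, fun h => (mem_sdiff.1 hv).2 (mem_union_left _ h)⟩))
      have h3 := lt_of_le_of_lt h2.1 hlt
      exact ⟨h3.le, fun _ => h3⟩

/-- ROW K1. Same proof as `k5_step`, `k5_iter` and the end of `crit` in K5.lean (copy them; there `hbip` comes from `δ` and the layer `d`, here it is given).
Iterate: for `Y ⊆ Y1 ⊂ X` colour `Y1` (minimality), the rest is bipartite and not colourable from the remaining lists, so by `bip_col` there is
`W ⊆ X \ Y1` with `h2 < 0` for these lists, so `h2 (Y1 ∪ W) < h2 Y1`. At the end `h2 X < h2 Y ≤ 4 |Y|` (no edges inside `Y`). -/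
theorem crit2 {V : Type} [DecidableEq V] (G : SimpleGraph V) (L : V → Finset ℕ)
    (hL : ∀ v, (L v).card ≤ 3) (X : Finset V) (hX : ¬ ColOn G L X)
    (hmin : ∀ Y, Y ⊂ X → ColOn G L Y) (Y : Finset V) (hY : Y ⊆ X) (hYX : Y ≠ X) (A : V → Prop)
    (hbip : ∀ u ∈ X \ Y, ∀ v ∈ X \ Y, G.Adj u v → (A u ↔ ¬ A v))
    (hind : ∀ u ∈ Y, ∀ v ∈ Y, ¬ G.Adj u v) :
    h2 G L X < 4 * (Y.card : ℤ) := by
  have h1 := (k1_iter G L X hX hmin A (X \ Y).card Y le_rfl hY hbip).2 (Ne.symm hYX ∘ Eq.symm)
  have h2 : h2 G L Y ≤ 4 * (Y.card : ℤ) := by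
    have h3 : ∑ v ∈ Y, (2 * ((L v).card : ℤ) - 2) ≤ ∑ v ∈ Y, (4 : ℤ) := by
      apply sum_le_sum
      intro v _
      have h4 : ((L v).card : ℤ) ≤ 3 := by exact_mod_cast hL v
      linarith
    rw [sum_const, nsmul_eq_mul] at h3
    unfold TorGrid.h2
    have h5 : (0 : ℤ) ≤ (dIn G Y : ℤ) := by positivity
    linarith
  exact lt_of_lt_of_le h1 h2

end Bd
end TorGrid
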