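import Pool.Agent.Lib.MP_caf32e_co.Bd.LDefs

/-! Lattices (page, section 5): every lattice with long vectors and an odd vector carries a flat band. -/

set_option autoImplicit false

namespace TorGrid
namespace Bd

open Finset

private theorem l1_mul (Λ : AddSubgroup P2) (hΛ : Λ.FiniteIndex) (p : P2) :
    ∃ n : ℕ, 0 < n ∧ ((n : ℤ) * p.1, (n : ℤ) * p.2) ∈ Λ := by
  obtain ⟨n, hn, _, h⟩ := AddSubgroup.exists_nsmul_mem_of_index_ne_zero hΛ.index_ne_zero p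
  refine ⟨n, hn, ?_⟩
  have : n • p = ((n : ℤ) * p.1, (n : ℤ) * p.2) := by
    ext <;> simp
  rwa [this] at h

private theorem l1_exists (Λ : AddSubgroup P2) (hΛ : Λ.FiniteIndex) :
    ∃ v ∈ Λ, (v.1 + v.2) % 2 = 0 ∧ (∀ x ∈ Λ, v ≠ x + x) := by
  classical
  have hx : ∃ n : ℕ, 0 < n ∧ ((n : ℤ), (0 : ℤ)) ∈ Λ := by
    obtain ⟨n, hn, h⟩ := l1_mul Λ hΛ (1, 0)
    exact ⟨n, hn, by simpa using h⟩
  have hy : ∃ n : ℕ, 0 < n ∧ ((0 : ℤ), (n : ℤ)) ∈ Λ := by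
    obtain ⟨n, hn, h⟩ := l1_mul Λ hΛ (0, 1)
    exact ⟨n, hn, by simpa using h⟩
  obtain ⟨n, ⟨hn, hnΛ⟩, hnmin⟩ : ∃ n : ℕ, (0 < n ∧ ((n : ℤ), (0 : ℤ)) ∈ Λ) ∧
      ∀ k < n, ¬ (0 < k ∧ ((k : ℤ), (0 : ℤ)) ∈ Λ) :=
    ⟨Nat.find hx, Nat.find_spec hx, fun k hk => Nat.find_min hx hk⟩
  obtain ⟨m, ⟨hm, hmΛ⟩, hmmin⟩ : ∃ n : ℕ, (0 < n ∧ ((0 : ℤ), (n : ℤ)) ∈ Λ) ∧
      ∀ k < n, ¬ (0 < k ∧ ((0 : ℤ), (k : ℤ)) ∈ Λ) :=
    ⟨Nat.find hy, Nat.find_spec hy, fun k hk => Nat.find_min hy hk⟩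
  by_cases hn2 : n % 2 = 0
  · refine ⟨((n : ℤ), (0 : ℤ)), hnΛ, by simp only; omega, ?_⟩
    rintro ⟨a, b⟩ hab h
    have h1 : (n : ℤ) = a + a := congrArg Prod.fst h
    have h2 : (0 : ℤ) = b + b := congrArg Prod.snd h
    have hb : b = 0 := by omega
    subst hb
    refine hnmin a.toNat (by omega) ⟨by omega, ?_⟩
    have : (a.toNat : ℤ) = a := by omega
    rw [this]
    exact hab
  · by_cases hm2 : m % 2 = 0
    · refine ⟨((0 : ℤ), (m : ℤ)), hmΛ, by simp only; omega, ?_⟩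
      rintro ⟨a, b⟩ hab h
      have h1 : (0 : ℤ) = a + a := congrArg Prod.fst h
      have h2 : (m : ℤ) = b + b := congrArg Prod.snd h
      have ha : a = 0 := by omega
      subst ha
      refine hmmin b.toNat (by omega) ⟨by omega, ?_⟩
      have : (b.toNat : ℤ) = b := by omega
      rw [this]
      exact hab
    · refine ⟨((n : ℤ), (m : ℤ)), ?_, by simp only; omega, ?_⟩
      · have := Λ.add_mem hnΛ hmΛ
        simpa using this
      · rintro ⟨a, b⟩ hab h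
        have h1 : (n : ℤ) = a + a := congrArg Prod.fst h
        omega

/-- ROW L1. Even vectors of `Λ` that are not in `2 Λ` exist: let `n > 0` be minimal with `(n, 0) ∈ Λ`, `m > 0` minimal with `(0, m) ∈ Λ` (finite index: some positive
multiple of every point is in `Λ`; `AddSubgroup.exists_nsmul_mem_of_index_ne_zero` or `AddSubgroup.nsmul_index_mem`). If `n` is even take `(n, 0)` (if it is `x + x` then `x = (n/2, 0)`, against minimality), if `m` is even take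
`(0, m)`, otherwise `(n, m)` is even and not `x + x`. Then take one of minimal `(sn v).toNat` (`Nat.find` or `WellFounded.has_min`). -/
theorem exists_v (Λ : AddSubgroup P2) (hΛ : Λ.FiniteIndex) :
    ∃ v ∈ Λ, (v.1 + v.2) % 2 = 0 ∧ (∀ x ∈ Λ, v ≠ x + x) ∧
      ∀ v' ∈ Λ, (v'.1 + v'.2) % 2 = 0 → (∀ x ∈ Λ, v' ≠ x + x) → sn v ≤ sn v' := by
  classical
  have hex : ∃ k : ℕ, ∃ v ∈ Λ, (v.1 + v.2) % 2 = 0 ∧ (∀ x ∈ Λ, v ≠ x + x) ∧ (sn v).toNat = k := by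
    obtain ⟨v, hv, h1, h2⟩ := l1_exists Λ hΛ
    exact ⟨_, v, hv, h1, h2, rfl⟩
  obtain ⟨v, hv, h1, h2, h3⟩ := Nat.find_spec hex
  refine ⟨v, hv, h1, h2, ?_⟩
  intro v' hv' h1' h2'
  have hle : Nat.find hex ≤ (sn v').toNat := Nat.find_min' hex ⟨v', hv', h1', h2', rfl⟩
  have h0 : 0 ≤ sn v := le_trans (abs_nonneg _) (le_max_left _ _)
  have h0' : 0 ≤ sn v' := le_trans (abs_nonneg _) (le_max_left _ _)
  omega

end Bd
end TorGrid
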