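import Pool.Agent.Lib.MP_caf32e_co.Bd.LDefs

/-! Lattices (page, section 5): every lattice with long vectors and an odd vector carries a flat band. -/

set_option autoImplicit false

namespace TorGrid
namespace Bd

open Finset

private lemma l2_aux {N X Y a b D : ℤ} (hX : 0 < X) (hY : |Y| ≤ X) (ha : 0 < a) (h8 : 8 * a < N)
    (hD : 8 * |D| < N * X) (he : X * b = D + Y * a) (hlen : N ≤ |a| + |b|) : False := by
  have h1 : X * |b| ≤ |D| + X * a := by
    have h2 : |X * b| = X * |b| := by rw [abs_mul, abs_of_pos hX]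
    have h3 : |D + Y * a| ≤ |D| + |Y * a| := abs_add_le _ _
    have h4 : |Y * a| = |Y| * a := by rw [abs_mul, abs_of_pos ha]
    have h5 : |Y| * a ≤ X * a := mul_le_mul_of_nonneg_right hY ha.le
    rw [← h2, he]
    linarith
  have h6 : 8 * a * X < N * X := mul_lt_mul_of_pos_right h8 hX
  have h7 : (8 * |b|) * X < (2 * N) * X := by nlinarith
  have h8' : 8 * |b| < 2 * N := lt_of_mul_lt_mul_right h7 hX.le
  rw [abs_of_pos ha] at hlen
  linarith

private lemma l2_core {N : ℤ} {X Y a b D : ℤ} (hX : 0 < X) (hY : |Y| ≤ X) (ha : 0 < a) (haX : a < X)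
    (hD : 8 * |D| < N * X) (he : X * b = D + Y * a) (hlen : N ≤ |a| + |b|)
    (hlen' : N ≤ |X - a| + |Y - b|) (hmin : X ≤ |Y - 2 * b|) : False := by
  have h1 : X * |Y - 2 * b| ≤ X * |X - 2 * a| + 2 * |D| := by
    have h2 : |X * (Y - 2 * b)| = X * |Y - 2 * b| := by rw [abs_mul, abs_of_pos hX]
    have h3 : X * (Y - 2 * b) = Y * (X - 2 * a) - 2 * D := by linarith
    have h4 : |Y * (X - 2 * a) - 2 * D| ≤ |Y * (X - 2 * a)| + |2 * D| := abs_sub _ _
    have h5 : |Y * (X - 2 * a)| ≤ X * |X - 2 * a| := by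
      rw [abs_mul]
      exact mul_le_mul_of_nonneg_right hY (abs_nonneg _)
    have h6 : |2 * D| = 2 * |D| := by rw [abs_mul]; norm_num
    rw [← h2, h3]
    linarith
  have h7 : X * X ≤ X * |Y - 2 * b| := mul_le_mul_of_nonneg_left hmin hX.le
  have h8 : (4 * (X - |X - 2 * a|)) * X < N * X := by nlinarith
  have h9 : 4 * (X - |X - 2 * a|) < N := lt_of_mul_lt_mul_right h8 hX.le
  rcases le_or_gt (2 * a) X with h | h
  · rw [abs_of_nonneg (by linarith)] at h9
    exact l2_aux hX hY ha (by linarith) hD he hlen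
  · rw [abs_of_neg (by linarith)] at h9
    refine l2_aux (D := -D) hX hY (show 0 < X - a by linarith) (by linarith) (by rwa [abs_neg]) ?_ hlen'
    linarith

/-- ROW L2. Page, (5.1). `v.1 > 0` (`v ≠ 0 + 0`). Replace `w` by `w - k v`, `k = w.1 / v.1` (the determinant `D = v.1 * w.2 - v.2 * w.1` does not change, the new
`w` is in `Λ`, not `0`), so `0 ≤ w.1 < v.1`. Suppose `8 |D| < N v.1`. (1) `w.1 = 0`: `v.1 |w.2| = |D|`, so `8 |w.2| < N`, but `N ≤ |w.2|`. (2) `w.1 > 0`: `v - (w + w)` is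
in `Λ`, even, not `x + x` (else `v = (x + w) + (x + w)`), so `sn v = v.1 ≤ sn (v - (w + w))`, and `|v.1 - 2 w.1| < v.1`, so `v.1 ≤ |v.2 - 2 w.2|`. Now
`v.1 (v.2 - 2 w.2) = v.2 (v.1 - 2 w.1) - 2 D`, so `v.1 * v.1 ≤ v.1 |v.1 - 2 w.1| + 2 |D|`, hence `4 (v.1 - |v.1 - 2 w.1|) < N`. If `2 w.1 ≤ v.1` this says `8 w.1 < N`; `v.1 w.2 = D + v.2 w.1`
gives `8 |w.2| < 2 N`, and `|w.1| + |w.2| < N`, contradiction. If `2 w.1 > v.1` the same with `v - w` (determinant `-D`, first coordinate `v.1 - w.1`). -/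
theorem det_bound {N : ℕ} (Λ : AddSubgroup P2)
    (len : ∀ p ∈ Λ, p ≠ 0 → (N : ℤ) ≤ |p.1| + |p.2|) (v : P2) (hv : v ∈ Λ)
    (hev : (v.1 + v.2) % 2 = 0) (hnd : ∀ x ∈ Λ, v ≠ x + x)
    (hmin : ∀ v' ∈ Λ, (v'.1 + v'.2) % 2 = 0 → (∀ x ∈ Λ, v' ≠ x + x) → sn v ≤ sn v')
    (h12 : |v.2| ≤ v.1) (w : P2) (hw : w ∈ Λ) (hne : ∀ k : ℤ, w ≠ (k * v.1, k * v.2)) :
    (N : ℤ) * v.1 ≤ 8 * |v.1 * w.2 - v.2 * w.1| := by
  have hX : 0 < v.1 := by
    rcases lt_or_ge 0 v.1 with h | h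
    · exact h
    · exfalso
      have h1 : |v.2| ≤ 0 := le_trans h12 h
      have h2 : v.2 = 0 := abs_nonpos_iff.mp h1
      have h3 : 0 ≤ v.1 := le_trans (abs_nonneg _) h12
      have h4 : v.1 = 0 := le_antisymm h h3
      exact hnd 0 Λ.zero_mem (by
        ext
        · simpa using h4
        · simpa using h2)
  obtain ⟨k, hk⟩ : ∃ k : ℤ, k = w.1 / v.1 := ⟨_, rfl⟩
  obtain ⟨a, hadef⟩ : ∃ a : ℤ, a = w.1 - k * v.1 := ⟨_, rfl⟩
  obtain ⟨b, hbdef⟩ : ∃ b : ℤ, b = w.2 - k * v.2 := ⟨_, rfl⟩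
  have hmem : ((a, b) : P2) ∈ Λ := by
    have h1 : w - k • v ∈ Λ := Λ.sub_mem hw (Λ.zsmul_mem hv k)
    have h2 : w - k • v = ((a, b) : P2) := by
      ext
      · simp [hadef]
      · simp [hbdef]
    rwa [h2] at h1
  have hemod : a = w.1 % v.1 := by
    rw [hadef, hk, Int.emod_def]
    ring
  have ha0 : 0 ≤ a := by rw [hemod]; exact Int.emod_nonneg _ hX.ne'
  have haX : a < v.1 := by rw [hemod]; exact Int.emod_lt_of_pos _ hX
  have hab : ((a, b) : P2) ≠ 0 := by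
    intro h
    have h1 : a = 0 := congrArg Prod.fst h
    have h2 : b = 0 := congrArg Prod.snd h
    apply hne k
    ext
    · show w.1 = k * v.1
      linarith
    · show w.2 = k * v.2
      linarith
  have hD : v.1 * w.2 - v.2 * w.1 = v.1 * b - v.2 * a := by
    rw [hadef, hbdef]
    ring
  rw [hD]
  have hlen : (N : ℤ) ≤ |a| + |b| := len _ hmem hab
  by_contra hcon
  rw [not_le] at hcon
  rcases eq_or_lt_of_le ha0 with h0 | h0
  · rw [← h0] at hcon hlen
    have h1 : |v.1 * b - v.2 * 0| = v.1 * |b| := by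
      rw [mul_zero, sub_zero, abs_mul, abs_of_pos hX]
    rw [h1] at hcon
    rw [abs_zero, zero_add] at hlen
    have h2 : (N : ℤ) * v.1 ≤ |b| * v.1 := mul_le_mul_of_nonneg_right hlen hX.le
    have h3 : 0 ≤ v.1 * |b| := mul_nonneg hX.le (abs_nonneg _)
    nlinarith
  · have hsub : v - (((a, b) : P2) + ((a, b) : P2)) ∈ Λ := Λ.sub_mem hv (Λ.add_mem hmem hmem)
    have hs := hmin _ hsub (by
      show (v.1 - (a + a) + (v.2 - (b + b))) % 2 = 0
      omega) (by
      intro x hx he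
      apply hnd (x + ((a, b) : P2)) (Λ.add_mem hx hmem)
      have h1 : v = (x + x) + (((a, b) : P2) + ((a, b) : P2)) := by
        rw [← he]
        abel
      rw [h1]
      abel)
    have h2 : v.1 ≤ sn v := le_trans (le_abs_self _) (le_max_left _ _)
    have h3 : sn (v - (((a, b) : P2) + ((a, b) : P2))) = max |v.1 - (a + a)| |v.2 - (b + b)| := rfl
    have h4 : |v.1 - (a + a)| < v.1 := by
      rw [abs_lt]
      constructor <;> linarith
    have h5 : v.1 ≤ |v.2 - 2 * b| := by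
      rw [h3] at hs
      have h6 : v.1 ≤ max |v.1 - (a + a)| |v.2 - (b + b)| := le_trans h2 hs
      rcases le_max_iff.mp h6 with h7 | h7
      · linarith
      · have h8 : v.2 - (b + b) = v.2 - 2 * b := by ring
        rwa [h8] at h7
    have hlen' : (N : ℤ) ≤ |v.1 - a| + |v.2 - b| := by
      have h6 : v - ((a, b) : P2) ∈ Λ := Λ.sub_mem hv hmem
      refine len _ h6 ?_
      intro h7
      have h8 : v.1 - a = 0 := congrArg Prod.fst h7
      linarith
    exact l2_core (D := v.1 * b - v.2 * a) hX h12 h0 haX hcon (by ring) hlen hlen' h5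

end Bd
end TorGrid
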