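import Pool.Agent.Lib.MP_caf32e_co.Bd.LDefs

/-! Lattices (page, section 5): every lattice with long vectors and an odd vector carries a flat band. -/

set_option autoImplicit false

namespace TorGrid
namespace Bd

open Finset

/-- ROW L4. Page, (5.3). With `p = (v.1 + v.2) / 2`, `0 ≤ p ≤ v.1`, `2 p = v.1 + v.2`: `p (x + 1) / v.1 - p x / v.1` is 0 or 1; `p (x + v.1) / v.1 = p x / v.1 + p`;
`p x - v.1 < v.1 * (p x / v.1) ≤ p x`. The last statement by induction on `k` (`Int.induction_on`) or directly (`Int.add_mul_ediv_right`). -/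
theorem st_props (v : P2) (h12 : |v.2| ≤ v.1) (h0 : 0 < v.1) (hev : (v.1 + v.2) % 2 = 0) (x : ℤ) :
    (st v (x + 1) = st v x + 1 ∨ st v (x + 1) = st v x - 1) ∧ st v (x + v.1) = st v x + v.2 ∧
    x * v.2 - 2 * v.1 < v.1 * st v x ∧ v.1 * st v x ≤ x * v.2 ∧
    ∀ k : ℤ, st v (x + k * v.1) = st v x + k * v.2 := by
  obtain ⟨p, hp⟩ : ∃ p : ℤ, v.1 + v.2 = 2 * p := ⟨(v.1 + v.2) / 2, by omega⟩
  have h1 := abs_le.1 h12
  have hp0 : 0 ≤ p := by omega
  have hp1 : p ≤ v.1 := by omega
  have hst : ∀ y, st v y = 2 * ((p * y) / v.1) - y := by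
    intro y
    unfold st
    rw [hp, Int.mul_ediv_cancel_left p (by norm_num)]
  have hv : v.2 = 2 * p - v.1 := by omega
  have hk : ∀ k : ℤ, st v (x + k * v.1) = st v x + k * v.2 := by
    intro k
    rw [hst, hst, hv]
    have h2 : p * (x + k * v.1) = p * x + (p * k) * v.1 := by ring
    rw [h2, Int.add_mul_ediv_right _ _ (by omega)]
    ring
  have hq := Int.mul_ediv_add_emod (p * x) v.1
  have hr0 := Int.emod_nonneg (p * x) (show v.1 ≠ 0 by omega)
  have hr1 := Int.emod_lt_of_pos (p * x) h0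
  have hc : x * v.2 = 2 * (p * x) - v.1 * x := by rw [hv]; ring
  refine ⟨?_, ?_, ?_, ?_, hk⟩
  · have h2 : p * (x + 1) = (p * x % v.1 + p) + (p * x / v.1) * v.1 := by linarith
    rw [hst, hst, h2, Int.add_mul_ediv_right _ _ (by omega)]
    rcases lt_or_ge (p * x % v.1 + p) v.1 with h3 | h3
    · right
      rw [Int.ediv_eq_zero_of_lt (by omega) h3]
      ring
    · left
      have h4 : (p * x % v.1 + p) / v.1 = 1 := by
        have h5 : p * x % v.1 + p = (p * x % v.1 + p - v.1) + 1 * v.1 := by ring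
        rw [h5, Int.add_mul_ediv_right _ _ (by omega),
          Int.ediv_eq_zero_of_lt (by omega) (by omega)]
        ring
      rw [h4]
      ring
  · have h2 := hk 1
    rw [one_mul, one_mul] at h2
    exact h2
  · rw [hst, hc]
    have h2 : v.1 * (2 * (p * x / v.1) - x) = 2 * (v.1 * (p * x / v.1)) - v.1 * x := by ring
    rw [h2]
    omega
  · rw [hst, hc]
    have h2 : v.1 * (2 * (p * x / v.1) - x) = 2 * (v.1 * (p * x / v.1)) - v.1 * x := by ring
    rw [h2]
    omega

end Bd
end TorGrid
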