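import Pool.Agent.Lib.MP_caf32e_co.Bd.L4

/-! Lattices (page, section 5): every lattice with long vectors and an odd vector carries a flat band. -/

set_option autoImplicit false

namespace TorGrid
namespace Bd

open Finset

private theorem l5_pos (N W v1 b D x : ℤ) (hv : 0 < v1) (hW : 16 * W + 32 ≤ N)
    (hD : N * v1 ≤ 8 * D) (hW0 : 0 ≤ W) (hb : 1 ≤ b) (hx : x ≤ 2 * W)
    (h1 : b * D - 2 * v1 < v1 * x) : False := by
  have hN : 0 < N * v1 := by
    apply mul_pos _ hv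
    omega
  have hD0 : 0 < D := by omega
  have h2 : D ≤ b * D := by nlinarith
  have h3 : v1 * x ≤ v1 * (2 * W) := mul_le_mul_of_nonneg_left hx hv.le
  have h4 : (16 * W + 32) * v1 ≤ N * v1 := mul_le_mul_of_nonneg_right hW hv.le
  nlinarith

/-- ROW L5. Two points near the graph of `T = st v` that agree modulo `Λ` differ by a multiple of `v`. `q - p = a v + b u` (`gen`). If `b = 0` done. Otherwise
`|det(v, q - p)| = |b| det(v, u) ≥ N v.1 / 8`, and by `st_props` `v.1 * (T q.1 - T p.1)` differs from `v.2 * (q.1 - p.1)` by less than `2 v.1`, so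
`v.1 * |(q.2 - T q.1) - (p.2 - T p.1)| > N v.1 / 8 - 2 v.1`, while the left side is at most `2 W v.1`. -/
theorem LD.sep {N : ℕ} {Λ : AddSubgroup P2} (d : LD N Λ) (W : ℕ) (hW : 16 * W + 32 ≤ N) (p q : P2)
    (h : q - p ∈ Λ) (hp : |p.2 - st d.v p.1| ≤ W) (hq : |q.2 - st d.v q.1| ≤ W) :
    ∃ k : ℤ, q = (p.1 + k * d.v.1, p.2 + k * d.v.2) := by
  obtain ⟨a, b, hab⟩ := d.gen _ h
  have e1 : q.1 - p.1 = a * d.v.1 + b * d.u.1 := congrArg Prod.fst hab
  have e2 : q.2 - p.2 = a * d.v.2 + b * d.u.2 := congrArg Prod.snd hab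
  by_cases hb : b = 0
  · refine ⟨a, Prod.ext ?_ ?_⟩
    · show q.1 = p.1 + a * d.v.1
      rw [hb] at e1
      linarith
    · show q.2 = p.2 + a * d.v.2
      rw [hb] at e2
      linarith
  · exfalso
    obtain ⟨-, -, q1, q2, -⟩ := st_props d.v d.v12 d.vpos d.vev q.1
    obtain ⟨-, -, p1, p2, -⟩ := st_props d.v d.v12 d.vpos d.vev p.1
    have hp' := abs_le.1 hp
    have hq' := abs_le.1 hq
    have hNW : 16 * (W : ℤ) + 32 ≤ N := by exact_mod_cast hW
    have hdet : d.v.1 * (q.2 - p.2) - d.v.2 * (q.1 - p.1) =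
        b * (d.v.1 * d.u.2 - d.v.2 * d.u.1) := by
      rw [e1, e2]
      ring
    have hW0 : (0 : ℤ) ≤ W := Int.natCast_nonneg _
    rcases lt_or_gt_of_ne hb with hb | hb
    · refine l5_pos N W d.v.1 (-b) (d.v.1 * d.u.2 - d.v.2 * d.u.1)
        ((p.2 - st d.v p.1) - (q.2 - st d.v q.1)) d.vpos hNW d.det8 hW0 (by omega) (by omega) ?_
      nlinarith
    · refine l5_pos N W d.v.1 b (d.v.1 * d.u.2 - d.v.2 * d.u.1)
        ((q.2 - st d.v q.1) - (p.2 - st d.v p.1)) d.vpos hNW d.det8 hW0 (by omega) (by omega) ?_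
      nlinarith

end Bd
end TorGrid
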