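import Pool.Agent.Lib.MP_caf32e_co.Bd.L4

/-! Lattices (page, section 5): every lattice with long vectors and an odd vector carries a flat band. -/

set_option autoImplicit false

namespace TorGrid
namespace Bd

open Finset

/-- the bounds for `tk` -/
private theorem l6_bd {N : ℕ} {Λ : AddSubgroup P2} (d : LD N Λ) (k x : ℤ) :
    x * d.v.2 + k * (d.v.1 * d.u.2 - d.v.2 * d.u.1) - 2 * d.v.1 < d.v.1 * tk d.v d.u k x ∧
    d.v.1 * tk d.v d.u k x ≤ x * d.v.2 + k * (d.v.1 * d.u.2 - d.v.2 * d.u.1) := by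
  obtain ⟨-, -, h1, h2, -⟩ := st_props d.v d.v12 d.vpos d.vev (x - k * d.u.1)
  unfold tk
  constructor
  · nlinarith [h1]
  · nlinarith [h2]

private theorem l6_det {N : ℕ} {Λ : AddSubgroup P2} (d : LD N Λ) (hN : 32 ≤ N) :
    4 * d.v.1 ≤ d.v.1 * d.u.2 - d.v.2 * d.u.1 := by
  have h1 := d.det8
  have h2 : (32 : ℤ) ≤ (N : ℤ) := by exact_mod_cast hN
  have h3 : (32 : ℤ) * d.v.1 ≤ (N : ℤ) * d.v.1 := mul_le_mul_of_nonneg_right h2 d.vpos.le
  linarith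

private theorem l6_mono {N : ℕ} {Λ : AddSubgroup P2} (d : LD N Λ) (hN : 32 ≤ N) (j k x : ℤ)
    (h : j < k) : tk d.v d.u j x + 1 ≤ tk d.v d.u k x := by
  have hj := (l6_bd d j x).2
  have hk := (l6_bd d k x).1
  have hD := l6_det d hN
  have hv := d.vpos
  have h1 : (d.v.1 * d.u.2 - d.v.2 * d.u.1) ≤ (k - j) * (d.v.1 * d.u.2 - d.v.2 * d.u.1) := by
    have h2 : (1 : ℤ) ≤ k - j := by omega
    have h3 : 0 ≤ d.v.1 * d.u.2 - d.v.2 * d.u.1 := by linarith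
    nlinarith
  have h4 : d.v.1 * tk d.v d.u j x < d.v.1 * tk d.v d.u k x := by nlinarith
  have h5 : tk d.v d.u j x < tk d.v d.u k x := lt_of_mul_lt_mul_left h4 hv.le
  omega

private theorem l6_shu (v u : P2) (k x : ℤ) : tk v u (k + 1) (x + u.1) = tk v u k x + u.2 := by
  unfold tk
  have h : x + u.1 - (k + 1) * u.1 = x - k * u.1 := by ring
  rw [h]
  ring

private theorem l6_shv {N : ℕ} {Λ : AddSubgroup P2} (d : LD N Λ) (k x : ℤ) :
    tk d.v d.u k (x + d.v.1) = tk d.v d.u k x + d.v.2 := by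
  obtain ⟨-, h1, -⟩ := st_props d.v d.v12 d.vpos d.vev (x - k * d.u.1)
  unfold tk
  have h : x + d.v.1 - k * d.u.1 = x - k * d.u.1 + d.v.1 := by ring
  rw [h, h1]
  ring

private theorem l6_uniq {N : ℕ} {Λ : AddSubgroup P2} (d : LD N Λ) (hN : 32 ≤ N) (x y k k' : ℤ)
    (h1 : tk d.v d.u k x < y) (h2 : y ≤ tk d.v d.u (k + 1) x)
    (h1' : tk d.v d.u k' x < y) (h2' : y ≤ tk d.v d.u (k' + 1) x) : k = k' := by
  rcases lt_trichotomy k k' with h | h | h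
  · exfalso
    rcases eq_or_lt_of_le (show k + 1 ≤ k' by omega) with h3 | h3
    · rw [h3] at h2
      omega
    · have := l6_mono d hN _ _ x h3
      omega
  · exact h
  · exfalso
    rcases eq_or_lt_of_le (show k' + 1 ≤ k by omega) with h3 | h3
    · rw [h3] at h2'
      omega
    · have := l6_mono d hN _ _ x h3
      omega

private theorem l6_ex {N : ℕ} {Λ : AddSubgroup P2} (d : LD N Λ) (hN : 32 ≤ N) (p : P2) :
    ∃ k : ℤ, tk d.v d.u k p.1 < p.2 ∧ p.2 ≤ tk d.v d.u (k + 1) p.1 := by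
  have hD := l6_det d hN
  have hv := d.vpos
  have hD1 : 1 ≤ d.v.1 * d.u.2 - d.v.2 * d.u.1 := by linarith
  obtain ⟨D, hDD⟩ : ∃ D, D = d.v.1 * d.u.2 - d.v.2 * d.u.1 := ⟨_, rfl⟩
  rw [← hDD] at hD hD1
  obtain ⟨k, hk, hmax⟩ := Int.exists_greatest_of_bdd (P := fun k => tk d.v d.u k p.1 < p.2)
    ⟨|d.v.1 * p.2 - p.1 * d.v.2 + 2 * d.v.1|, fun z hz => by
      by_contra hcon
      push Not at hcon
      have h1 := (l6_bd d z p.1).1
      rw [← hDD] at h1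
      have h2 : d.v.1 * tk d.v d.u z p.1 < d.v.1 * p.2 := mul_lt_mul_of_pos_left hz hv
      have h3 := le_abs_self (d.v.1 * p.2 - p.1 * d.v.2 + 2 * d.v.1)
      have h4 := abs_nonneg (d.v.1 * p.2 - p.1 * d.v.2 + 2 * d.v.1)
      have h5 : z ≤ z * D := by nlinarith
      linarith⟩
    ⟨-(|p.1 * d.v.2 - d.v.1 * p.2| + 1), by
      have h1 := (l6_bd d (-(|p.1 * d.v.2 - d.v.1 * p.2| + 1)) p.1).2
      rw [← hDD] at h1
      have h3 := le_abs_self (p.1 * d.v.2 - d.v.1 * p.2)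
      have h4 := abs_nonneg (p.1 * d.v.2 - d.v.1 * p.2)
      have h5 : -(|p.1 * d.v.2 - d.v.1 * p.2| + 1) * D ≤ -(|p.1 * d.v.2 - d.v.1 * p.2| + 1) := by
        nlinarith
      have h6 : d.v.1 * tk d.v d.u (-(|p.1 * d.v.2 - d.v.1 * p.2| + 1)) p.1 < d.v.1 * p.2 := by
        linarith
      exact lt_of_mul_lt_mul_left h6 hv.le⟩
  refine ⟨k, hk, ?_⟩
  by_contra hcon
  push Not at hcon
  have := hmax _ hcon
  omega

/-- ROW L6. Page, (5.4). By `st_props`: `x v.2 + k D - 2 v.1 < v.1 * tk v u k x ≤ x v.2 + k D`, `D = v.1 * u.2 - v.2 * u.1 ≥ N v.1 / 8 ≥ 4 v.1`. So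
`tk (k+1) x - tk k x > N / 8 - 2 ≥ 1` for `N ≥ 32` and `tk` is unbounded in both directions. `κ p` = the greatest `k` with `tk k p.1 < p.2`
(`Int.exists_greatest_of_bdd`); it is the only `k` with `tk k p.1 < p.2 ≤ tk (k+1) p.1` by monotonicity. The translation rules follow from uniqueness and `tk (k+1) (x + u.1) = tk k x + u.2`,
`tk k (x + v.1) = tk k x + v.2`. -/
theorem LD.kappa {N : ℕ} {Λ : AddSubgroup P2} (d : LD N Λ) (hN : 32 ≤ N) :
    (∀ j k x : ℤ, j < k → tk d.v d.u j x + 1 ≤ tk d.v d.u k x) ∧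
    ∃ κ : P2 → ℤ, (∀ p, tk d.v d.u (κ p) p.1 < p.2) ∧ (∀ p, p.2 ≤ tk d.v d.u (κ p + 1) p.1) ∧
      (∀ p, κ (p.1 + d.u.1, p.2 + d.u.2) = κ p + 1) ∧ ∀ p, κ (p.1 + d.v.1, p.2 + d.v.2) = κ p := by
  refine ⟨l6_mono d hN, ?_⟩
  choose κ h1 h2 using l6_ex d hN
  refine ⟨κ, h1, h2, fun p => ?_, fun p => ?_⟩
  · refine l6_uniq d hN (p.1 + d.u.1) (p.2 + d.u.2) _ _
      (h1 (p.1 + d.u.1, p.2 + d.u.2)) (h2 (p.1 + d.u.1, p.2 + d.u.2)) ?_ ?_
    · rw [l6_shu]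
      have := h1 p
      omega
    · rw [l6_shu]
      have := h2 p
      omega
  · refine l6_uniq d hN (p.1 + d.v.1) (p.2 + d.v.2) _ _
      (h1 (p.1 + d.v.1, p.2 + d.v.2)) (h2 (p.1 + d.v.1, p.2 + d.v.2)) ?_ ?_
    · rw [l6_shv]
      have := h1 p
      omega
    · rw [l6_shv]
      have := h2 p
      omega

end Bd
end TorGrid
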