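import Pool.Agent.Lib.MP_caf32e_co.Bd.L5
import Pool.Agent.Lib.MP_caf32e_co.Bd.L6

/-! Lattices (page, section 5): every lattice with long vectors and an odd vector carries a flat band. -/

set_option autoImplicit false

namespace TorGrid
namespace Bd

open Finset

/-- the height over the graph of `tk v u k` changes by one along an edge -/
private theorem l7_nb {N : ℕ} {Λ : AddSubgroup P2} (d : LD N Λ) (k : ℤ) (p q : P2) (h : q ∈ nb p) :
    q.2 - tk d.v d.u k q.1 = p.2 - tk d.v d.u k p.1 + 1 ∨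
    q.2 - tk d.v d.u k q.1 = p.2 - tk d.v d.u k p.1 - 1 := by
  have h1 := (st_props d.v d.v12 d.vpos d.vev (p.1 - k * d.u.1)).1
  have h2 := (st_props d.v d.v12 d.vpos d.vev (p.1 - 1 - k * d.u.1)).1
  have e1 : p.1 - k * d.u.1 + 1 = p.1 + 1 - k * d.u.1 := by ring
  have e2 : p.1 - 1 - k * d.u.1 + 1 = p.1 - k * d.u.1 := by ring
  rw [e1] at h1
  rw [e2] at h2
  simp only [nb, mem_insert, mem_singleton] at h
  rcases h with rfl | rfl | rfl | rfl
  · simp only [tk]; omega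
  · simp only [tk]; omega
  · simp only [tk]; omega
  · simp only [tk]; omega

private theorem l7_sum (p q : P2) (h : q ∈ nb p) : q.1 + q.2 = p.1 + p.2 + 1 ∨ q.1 + q.2 = p.1 + p.2 - 1 := by
  simp only [nb, mem_insert, mem_singleton] at h
  rcases h with rfl | rfl | rfl | rfl
  · left; show p.1 + 1 + p.2 = _; ring
  · right; show p.1 - 1 + p.2 = _; ring
  · left; show p.1 + (p.2 + 1) = _; ring
  · right; show p.1 + (p.2 - 1) = _; ring

private theorem l7_nb_symm (p q : P2) (h : q ∈ nb p) : p ∈ nb q := by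
  simp only [nb, mem_insert, mem_singleton] at h ⊢
  rcases h with rfl | rfl | rfl | rfl
  · right; left; ext <;> simp
  · left; ext <;> simp
  · right; right; right; ext <;> simp
  · right; right; left; ext <;> simp

private theorem l7_nb_add (p q e : P2) (h : q ∈ nb p) : q + e ∈ nb (p + e) := by
  simp only [nb, mem_insert, mem_singleton] at h ⊢
  rcases h with rfl | rfl | rfl | rfl
  · left; ext
    · show p.1 + 1 + e.1 = p.1 + e.1 + 1; ring
    · rfl
  · right; left; ext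
    · show p.1 - 1 + e.1 = p.1 + e.1 - 1; ring
    · rfl
  · right; right; left; ext
    · rfl
    · show p.2 + 1 + e.2 = p.2 + e.2 + 1; ring
  · right; right; right; ext
    · rfl
    · show p.2 - 1 + e.2 = p.2 + e.2 - 1; ring

/-- `κ` under `k v` -/
private theorem l7_kv {v : P2} {κ : P2 → ℤ} (h : ∀ p, κ (p.1 + v.1, p.2 + v.2) = κ p) (a : ℤ) (p : P2) :
    κ (p.1 + a * v.1, p.2 + a * v.2) = κ p := by
  induction a using Int.induction_on with
  | zero => simp
  | succ i ih =>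
    have := h (p.1 + i * v.1, p.2 + i * v.2)
    rw [← ih, ← this]
    congr 1
    ext
    · show p.1 + (i + 1) * v.1 = p.1 + i * v.1 + v.1; ring
    · show p.2 + (i + 1) * v.2 = p.2 + i * v.2 + v.2; ring
  | pred i ih =>
    have := h (p.1 + (-i - 1) * v.1, p.2 + (-i - 1) * v.2)
    rw [← ih, ← this]
    congr 1
    ext
    · show p.1 + (-i - 1) * v.1 + v.1 = p.1 + -i * v.1; ring
    · show p.2 + (-i - 1) * v.2 + v.2 = p.2 + -i * v.2; ring

/-- `κ` under `k u` -/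
private theorem l7_ku {u : P2} {κ : P2 → ℤ} (h : ∀ p, κ (p.1 + u.1, p.2 + u.2) = κ p + 1) (a : ℤ) (p : P2) :
    κ (p.1 + a * u.1, p.2 + a * u.2) = κ p + a := by
  induction a using Int.induction_on with
  | zero => simp
  | succ i ih =>
    have := h (p.1 + i * u.1, p.2 + i * u.2)
    rw [ih] at this
    rw [← add_assoc, ← this]
    congr 1
    ext
    · show p.1 + (i + 1) * u.1 = p.1 + i * u.1 + u.1; ring
    · show p.2 + (i + 1) * u.2 = p.2 + i * u.2 + u.2; ring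
  | pred i ih =>
    have h1 := h (p.1 + (-i - 1) * u.1, p.2 + (-i - 1) * u.2)
    have h2 : ((p.1 + (-i - 1) * u.1, p.2 + (-i - 1) * u.2) : P2).1 + u.1 = p.1 + -i * u.1 := by
      show p.1 + (-i - 1) * u.1 + u.1 = _; ring
    have h3 : ((p.1 + (-i - 1) * u.1, p.2 + (-i - 1) * u.2) : P2).2 + u.2 = p.2 + -i * u.2 := by
      show p.2 + (-i - 1) * u.2 + u.2 = _; ring
    rw [h2, h3, ih] at h1
    omega

/-- invariance of the parity -/
private theorem l7_inv {N : ℕ} {Λ : AddSubgroup P2} (d : LD N Λ) {κ : P2 → ℤ}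
    (hu : ∀ p, κ (p.1 + d.u.1, p.2 + d.u.2) = κ p + 1) (hv : ∀ p, κ (p.1 + d.v.1, p.2 + d.v.2) = κ p)
    (p q : P2) (h : q - p ∈ Λ) : (q.1 + q.2 + κ q) % 2 = (p.1 + p.2 + κ p) % 2 := by
  obtain ⟨a, b, hab⟩ := d.gen _ h
  have h1 : q.1 = p.1 + a * d.v.1 + b * d.u.1 := by
    have : q.1 - p.1 = a * d.v.1 + b * d.u.1 := congrArg Prod.fst hab
    linarith
  have h2 : q.2 = p.2 + a * d.v.2 + b * d.u.2 := by
    have : q.2 - p.2 = a * d.v.2 + b * d.u.2 := congrArg Prod.snd hab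
    linarith
  have hk : κ q = κ p + b := by
    have e1 := l7_kv hv a p
    have e2 := l7_ku hu b (p.1 + a * d.v.1, p.2 + a * d.v.2)
    rw [e1] at e2
    rw [← e2]
    congr 1
    ext
    · exact h1
    · exact h2
  have hve : ∃ c, d.v.1 + d.v.2 = 2 * c := ⟨(d.v.1 + d.v.2) / 2, by have := d.vev; omega⟩
  have huo : ∃ c, d.u.1 + d.u.2 = 2 * c + 1 := ⟨(d.u.1 + d.u.2) / 2, by have := d.uodd; omega⟩
  obtain ⟨c, hc⟩ := hve
  obtain ⟨e, he⟩ := huo
  have : q.1 + q.2 + κ q = p.1 + p.2 + κ p + 2 * (a * c + b * e + b) := by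
    rw [hk, h1, h2]
    linear_combination a * hc + b * he
  rw [this]
  omega

/-- the claim on an edge with `κ p < κ q` -/
private theorem l7_lt {N : ℕ} {Λ : AddSubgroup P2} (d : LD N Λ) {κ : P2 → ℤ}
    (hm : ∀ j k x : ℤ, j < k → tk d.v d.u j x + 1 ≤ tk d.v d.u k x)
    (h1 : ∀ p, tk d.v d.u (κ p) p.1 < p.2) (h2 : ∀ p, p.2 ≤ tk d.v d.u (κ p + 1) p.1)
    (p q : P2) (h : q ∈ nb p) (hlt : κ p < κ q) :
    κ q = κ p + 1 ∧ p.2 = tk d.v d.u (κ q) p.1 ∧ q.2 = tk d.v d.u (κ q) q.1 + 1 := by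
  have a1 := h2 p
  have a2 := h1 q
  have a3 := l7_nb d (κ p + 1) p q h
  have a4 : tk d.v d.u (κ p + 1) q.1 ≤ tk d.v d.u (κ q) q.1 := by
    rcases eq_or_lt_of_le (show κ p + 1 ≤ κ q by omega) with h | h
    · rw [h]
    · have := hm _ _ q.1 h
      omega
  have a5 : κ q = κ p + 1 := by
    by_contra hne
    have := hm (κ p + 1) (κ q) q.1 (by omega)
    omega
  refine ⟨a5, ?_, ?_⟩
  · rw [a5]; omega
  · rw [a5]; rw [a5] at a2; omega

private theorem l7_mk {N : ℕ} {Λ : AddSubgroup P2} (d : LD N Λ) (k : ℤ) (p : P2) :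
    (QuotientAddGroup.mk p : P2 ⧸ Λ) = QuotientAddGroup.mk (p.1 - k * d.u.1, p.2 - k * d.u.2) := by
  rw [QuotientAddGroup.eq]
  have h1 : k • d.u ∈ Λ := Λ.zsmul_mem d.um k
  have h2 : -p + (p.1 - k * d.u.1, p.2 - k * d.u.2) = -(k • d.u) := by
    ext
    · show -p.1 + (p.1 - k * d.u.1) = -(k • d.u.1)
      rw [smul_eq_mul]; ring
    · show -p.2 + (p.2 - k * d.u.2) = -(k • d.u.2)
      rw [smul_eq_mul]; ring
  rw [h2]
  exact Λ.neg_mem h1

/-- forward direction -/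
private theorem l7_fwd {N : ℕ} {Λ : AddSubgroup P2} (d : LD N Λ) {κ : P2 → ℤ}
    (hm : ∀ j k x : ℤ, j < k → tk d.v d.u j x + 1 ≤ tk d.v d.u k x)
    (h1 : ∀ p, tk d.v d.u (κ p) p.1 < p.2) (h2 : ∀ p, p.2 ≤ tk d.v d.u (κ p + 1) p.1)
    (p q : P2) (h : q ∈ nb p) (hlt : κ p < κ q) :
    ∃ x y, (QuotientAddGroup.mk p : P2 ⧸ Λ) = QuotientAddGroup.mk (x, st d.v x) ∧
      (QuotientAddGroup.mk q : P2 ⧸ Λ) = QuotientAddGroup.mk (y, st d.v y + 1) := by
  obtain ⟨-, b1, b2⟩ := l7_lt d hm h1 h2 p q h hlt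
  refine ⟨p.1 - κ q * d.u.1, q.1 - κ q * d.u.1, ?_, ?_⟩
  · rw [l7_mk d (κ q) p]
    congr 2
    rw [b1]
    simp only [tk]
    ring
  · rw [l7_mk d (κ q) q]
    congr 2
    rw [b2]
    simp only [tk]
    ring

/-- backward direction -/
private theorem l7_bwd {N : ℕ} {Λ : AddSubgroup P2} (d : LD N Λ) (hN : 64 ≤ N) {κ : P2 → ℤ}
    (hm : ∀ j k x : ℤ, j < k → tk d.v d.u j x + 1 ≤ tk d.v d.u k x)
    (h1 : ∀ p, tk d.v d.u (κ p) p.1 < p.2) (h2 : ∀ p, p.2 ≤ tk d.v d.u (κ p + 1) p.1)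
    (hu : ∀ p, κ (p.1 + d.u.1, p.2 + d.u.2) = κ p + 1) (hv : ∀ p, κ (p.1 + d.v.1, p.2 + d.v.2) = κ p)
    (p q : P2) (h : q ∈ nb p) (x y : ℤ)
    (hx : (QuotientAddGroup.mk p : P2 ⧸ Λ) = QuotientAddGroup.mk (x, st d.v x))
    (hy : (QuotientAddGroup.mk q : P2 ⧸ Λ) = QuotientAddGroup.mk (y, st d.v y + 1)) :
    (p.1 + p.2 + κ p) % 2 = (q.1 + q.2 + κ q) % 2 := by
  rw [QuotientAddGroup.eq] at hx hy
  obtain ⟨e, he⟩ : ∃ e, -p + (x, st d.v x) = e := ⟨_, rfl⟩
  rw [he] at hx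
  have hp0 : p + e = (x, st d.v x) := by rw [← he]; abel
  obtain ⟨q0, hq0⟩ : ∃ q0, q + e = q0 := ⟨_, rfl⟩
  have hq1 : q0 ∈ nb (x, st d.v x) := by
    rw [← hq0, ← hp0]; exact l7_nb_add p q e h
  have t0 : ∀ z, tk d.v d.u 0 z = st d.v z := by
    intro z; simp [tk]
  have hnb := l7_nb d 0 (x, st d.v x) q0 hq1
  rw [t0, t0] at hnb
  have hnb' : q0.2 - st d.v q0.1 = 1 ∨ q0.2 - st d.v q0.1 = -1 := by
    rcases hnb with hnb | hnb
    · left; rw [hnb]; show st d.v x - st d.v x + 1 = 1; ring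
    · right; rw [hnb]; show st d.v x - st d.v x - 1 = -1; ring
  have hmem : (y, st d.v y + 1) - q0 ∈ Λ := by
    have : (y, st d.v y + 1) - q0 = (-q + (y, st d.v y + 1)) - e := by rw [← hq0]; abel
    rw [this]
    exact Λ.sub_mem hy hx
  obtain ⟨k, hk⟩ := d.sep 1 (by omega) q0 (y, st d.v y + 1) hmem
    (by rcases hnb' with h | h <;> rw [h] <;> norm_num)
    (by show |st d.v y + 1 - st d.v y| ≤ _; rw [add_sub_cancel_left]; norm_num)
  have hk1 : y = q0.1 + k * d.v.1 := congrArg Prod.fst hk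
  have hk2 : st d.v y + 1 = q0.2 + k * d.v.2 := congrArg Prod.snd hk
  have hper := (st_props d.v d.v12 d.vpos d.vev q0.1).2.2.2.2 k
  rw [← hk1] at hper
  have hq2 : q0.2 = st d.v q0.1 + 1 := by omega
  have hκp : κ (x, st d.v x) = -1 := by
    have a1 := h1 (x, st d.v x)
    have a2 := h2 (x, st d.v x)
    obtain ⟨κp, hκp⟩ : ∃ z, κ (x, st d.v x) = z := ⟨_, rfl⟩
    rw [hκp] at a1 a2 ⊢
    replace a1 : tk d.v d.u κp x < st d.v x := a1
    replace a2 : st d.v x ≤ tk d.v d.u (κp + 1) x := a2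
    have b1 : κp < 0 := by
      by_contra hc
      rcases eq_or_lt_of_le (not_lt.1 hc) with h | h
      · rw [← h, t0] at a1; omega
      · have := hm 0 κp x h
        rw [t0] at this
        omega
    have b2 : ¬ κp + 1 < 0 := by
      intro h
      have := hm (κp + 1) 0 x h
      rw [t0] at this
      omega
    omega
  have hκq : κ q0 = 0 := by
    have a1 := h1 q0
    have a2 := h2 q0
    obtain ⟨κq, hκq⟩ : ∃ z, κ q0 = z := ⟨_, rfl⟩
    rw [hκq] at a1 a2 ⊢
    have b1 : ¬ 0 < κq := by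
      intro h
      have := hm 0 κq q0.1 h
      rw [t0] at this
      omega
    have b2 : ¬ κq < 0 := by
      intro h
      rcases eq_or_lt_of_le (show κq + 1 ≤ 0 by omega) with h | h
      · rw [h, t0] at a2; omega
      · have := hm (κq + 1) 0 q0.1 h
        rw [t0] at this
        omega
    omega
  have i1 := l7_inv d hu hv p (x, st d.v x) (by
    have : (x, st d.v x) - p = e := by rw [← hp0]; abel
    rw [this]; exact hx)
  have i2 := l7_inv d hu hv q q0 (by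
    have : q0 - q = e := by rw [← hq0]; abel
    rw [this]; exact hx)
  have hs := l7_sum _ _ hq1
  rw [← i1, ← i2, hκp, hκq]
  obtain ⟨sx, hsx⟩ : ∃ z, ((x, st d.v x) : P2).1 + ((x, st d.v x) : P2).2 = z := ⟨_, rfl⟩
  rw [hsx] at hs ⊢
  omega

/-- ROW L7. `A w` = `x + t + κ (x, t)` is even for a (every) lift `(x, t)` of `w` (`Quotient.out`). First: this parity is invariant under `Λ` (`gen`, and induction over multiples of `u` (odd, `κ` grows by 1) and of `v`
(even, `κ` constant), cf. `kappa`). For an edge take lifts `p`, `q ∈ nb p` with `mk p = u`, `mk q = v` (definition of `LG`). The parity of `x + t` changes, so `A u ↔ A v` iff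
`κ p - κ q` is odd. Claim: if `κ p < κ q` then with `k = κ p + 1`: `p.2 ≤ tk k p.1` and `q.2 > tk (κ q) q.1 ≥ tk k q.1`, and `t - tk k x` changes by
exactly 1 in absolute value along an edge (`st_props`), so `p.2 = tk k p.1`, `q.2 = tk k q.1 + 1`, `κ q = k`; and `p - k u`, `q - k u` are the points `(y, T y)`, `(y', T y' + 1)`.
Same with `p`, `q` exchanged. This gives one direction. Conversely let `u = mk (x, T x)`, `v = mk (y, T y + 1)`: translate `p`, `q` so that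
`p = (x, T x)` (`QuotientAddGroup.eq`); `q.2 - T q.1 = 1` or `-1`; by `sep` (W = 1) for `q` and `(y, T y + 1)` (periodicity of `st`) it is `1`; so `κ p = -1`, `κ q = 0` (uniqueness of `κ` by the
monotonicity). -/
theorem LD.par {N : ℕ} {Λ : AddSubgroup P2} (d : LD N Λ) (hN : 64 ≤ N) :
    ∃ A : P2 ⧸ Λ → Prop, ∀ u v, (LG Λ).Adj u v → ((A u ↔ A v) ↔
      ((∃ x y, u = QuotientAddGroup.mk (x, st d.v x) ∧ v = QuotientAddGroup.mk (y, st d.v y + 1)) ∨
        (∃ x y, v = QuotientAddGroup.mk (x, st d.v x) ∧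
          u = QuotientAddGroup.mk (y, st d.v y + 1)))) := by
  obtain ⟨hm, κ, h1, h2, hu, hv⟩ := d.kappa (by omega)
  refine ⟨fun w => (w.out.1 + w.out.2 + κ w.out) % 2 = 0, ?_⟩
  have hA : ∀ p : P2, (((QuotientAddGroup.mk p : P2 ⧸ Λ).out.1 + (QuotientAddGroup.mk p : P2 ⧸ Λ).out.2
      + κ (QuotientAddGroup.mk p : P2 ⧸ Λ).out) % 2 = (p.1 + p.2 + κ p) % 2) := by
    intro p
    apply l7_inv d hu hv
    have h3 : (QuotientAddGroup.mk (QuotientAddGroup.mk p : P2 ⧸ Λ).out : P2 ⧸ Λ) = QuotientAddGroup.mk p :=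
      QuotientAddGroup.out_eq' _
    rw [eq_comm, QuotientAddGroup.eq] at h3
    rw [sub_eq_neg_add]
    exact h3
  rintro u v ⟨-, p, q, hq, rfl, rfl⟩
  simp only [hA]
  have hs := l7_sum p q hq
  constructor
  · intro h
    have hne : κ p ≠ κ q := by
      intro he
      rw [he] at h
      omega
    rcases lt_or_gt_of_ne hne with hlt | hlt
    · left
      exact l7_fwd d hm h1 h2 p q hq hlt
    · right
      exact l7_fwd d hm h1 h2 q p (l7_nb_symm _ _ hq) hlt
  · rintro (⟨x, y, hx, hy⟩ | ⟨x, y, hx, hy⟩)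
    · rw [l7_bwd d hN hm h1 h2 hu hv p q hq x y hx hy]
    · rw [l7_bwd d hN hm h1 h2 hu hv q p (l7_nb_symm _ _ hq) x y hx hy]

end Bd
end TorGrid
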