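import Pool.Agent.Lib.MP_caf32e_co.Bd.Defs

/-! Lattices (page, section 5): definitions. -/

set_option autoImplicit false

namespace TorGrid
namespace Bd

open Finset

/-- sup norm -/
def sn (p : P2) : ℤ := max |p.1| |p.2|

/-- A basis `v`, `u` of the lattice: `v` is even and almost horizontal, `u` is odd and far from the line of `v`. -/
structure LD (N : ℕ) (Λ : AddSubgroup P2) where
  v : P2
  u : P2
  len : ∀ p ∈ Λ, p ≠ 0 → (N : ℤ) ≤ |p.1| + |p.2|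
  vm : v ∈ Λ
  um : u ∈ Λ
  v12 : |v.2| ≤ v.1
  vpos : 0 < v.1
  vN : (N : ℤ) ≤ 2 * v.1
  vev : (v.1 + v.2) % 2 = 0
  uodd : (u.1 + u.2) % 2 = 1
  det8 : (N : ℤ) * v.1 ≤ 8 * (v.1 * u.2 - v.2 * u.1)
  gen : ∀ p ∈ Λ, ∃ a b : ℤ, p = (a * v.1 + b * u.1, a * v.2 + b * u.2)

/-- the Sturmian function of slope `v.2 / v.1` with steps `1`, `-1` -/
def st (v : P2) (x : ℤ) : ℤ := 2 * (((v.1 + v.2) / 2 * x) / v.1) - x

/-- the translate of the graph of `st v` by `k u` -/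
def tk (v u : P2) (k x : ℤ) : ℤ := st v (x - k * u.1) + k * u.2

/-- colourability from periodic lists on the plane -/
def PC (Λ : AddSubgroup P2) : Prop :=
  ∀ L : P2 → Finset ℕ, (∀ p, (L p).card = 3) → (∀ p q, q - p ∈ Λ → L q = L p) →
    ∃ c : P2 → ℕ, (∀ p, c p ∈ L p) ∧ (∀ p q, q - p ∈ Λ → c q = c p) ∧ ∀ p, ∀ q ∈ nb p, c p ≠ c q

end Bd
end TorGrid
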