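import Pool.Agent.Lib.MP_caf32e_co.Bd.W7
import Pool.Agent.Lib.MP_caf32e_co.Bd.K1

/-! Colouring of graphs with a collar. -/

set_option autoImplicit false

namespace TorGrid
namespace Bd

open Finset

section
variable {V : Type} [Fintype V] [DecidableEq V] {r M : ℕ} {K : Coll V r M} {R ρ R1 : ℕ}

/-- the iterates up to `k` stay in the layer, if the steps start in `Ft` -/
private theorem n1_iter (W : KW K R ρ R1) (v : V) (k : ℕ)
    (h : ∀ i < k, W.cfg.Ft (K.σ^[i] v)) : K.lay (K.σ^[k] v) = K.lay v := by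
  induction k with
  | zero => rfl
  | succ k ih =>
    have h1 := ih (fun i hi => h i (by omega))
    have h2 := (h k (by omega)).1
    rw [Function.iterate_succ_apply']
    rw [(K.lσ _ (by have := h2.1; omega) (by have := h2.2.1; omega)).1, h1]

private theorem n1_lay (W : KW K R ρ R1) (v : V) : K.lay (W.rep v) = K.lay v := by
  obtain ⟨k, hk, h1, _⟩ := W.hrep v
  rw [hk]
  exact n1_iter W v k h1

private theorem n1_A (W : KW K R ρ R1) (j : ℤ) (A : V → Prop)
    (hA : ∀ u, 0 ≤ K.lay u → K.lay u < M → K.lay u ≠ j → (A (K.σ u) ↔ A u)) (v : V)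
    (hv : K.lay v ≠ j) : A (W.rep v) ↔ A v := by
  obtain ⟨k, hk, h1, _⟩ := W.hrep v
  rw [hk]
  clear hk
  induction k with
  | zero => rfl
  | succ k ih =>
    have h2 := ih (fun i hi => h1 i (by omega))
    have h3 := (h1 k (by omega)).1
    have h4 := n1_iter W v k (fun i hi => h1 i (by omega))
    rw [Function.iterate_succ_apply', ← h2]
    exact hA _ (by have := h3.1; omega) (by have := h3.2.1; omega) (by rw [h4]; exact hv)

omit [Fintype V] [DecidableEq V] in
/-- there is a minimal non-colourable set -/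
private theorem n1_min (G : SimpleGraph V) (L : V → Finset ℕ) (Rs : Finset V)
    (h : ¬ ColOn G L Rs) : ∃ X ⊆ Rs, ¬ ColOn G L X ∧ (∀ Y, Y ⊂ X → ColOn G L Y) ∧ X.Nonempty := by
  classical
  obtain ⟨X, hXm⟩ := (Rs.powerset.filter (fun X => ¬ ColOn G L X)).exists_minimal
    ⟨Rs, by simp [h]⟩
  have hX1 : X ⊆ Rs ∧ ¬ ColOn G L X := by
    have := hXm.prop
    simpa using this
  have hmin : ∀ Y, Y ⊂ X → ColOn G L Y := by
    intro Y hY
    by_contra hc
    have h1 : Y ∈ Rs.powerset.filter (fun X => ¬ ColOn G L X) := by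
      simp only [mem_filter, mem_powerset]
      exact ⟨hY.subset.trans hX1.1, hc⟩
    exact hY.not_subset (hXm.le_of_le h1 hY.subset)
  refine ⟨X, hX1.1, hX1.2, hmin, ?_⟩
  rw [nonempty_iff_ne_empty]
  rintro rfl
  exact hX1.2 ⟨fun _ => 0, by simp, by simp⟩

/-- `h2 ≥ 0` -/
private theorem n1_nonneg (W : KW K R ρ (2 * ρ)) (hg : GoodP R ρ) (hr : 8 * ρ ≤ r) (X : Finset V)
    (hX : X ⊆ W.Rs) : 0 ≤ h2 W.Q W.cfg.L1 X := by
  classical
  have hρ := hg.1
  obtain ⟨b1, b2, b3, b4, b5, b6, b7, b8⟩ :=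
    cfg_basic W.hL W.cfg hρ (by omega) (by omega)
  have h1 := W.key (by omega) b1 b5 X hX
  rw [W.split hg hr X] at h1
  have h3 : 0 ≤ ∑ z ∈ W.cfg.S, ∑ p ∈ K.Yz ρ (W.pre X) z,
        (W.cfg.chi (W.pre X) (K.ch z p) - 2 * W.cfg.ls (K.ch z p)) :=
    Finset.sum_nonneg (fun z hz => (W.pbox hg hr X z hz).1)
  have h4 : 0 ≤ ∑ g ∈ (W.pre X).filter (fun g => ¬ W.cfg.Pv g), W.cfg.chi (W.pre X) g :=
    Finset.sum_nonneg (fun g _ => W.chi_nn (W.pre X) g)
  linarith

/-- the criticality inequality for the layer `j` -/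
private theorem n1_layer (W : KW K R ρ R1) (X : Finset V)
    (hX : ¬ ColOn W.Q W.cfg.L1 X) (hmin : ∀ Y, Y ⊂ X → ColOn W.Q W.cfg.L1 Y) (j : ℤ)
    (hj : 1 ≤ j) (hj' : j + 2 ≤ M) (hne : X.filter (fun a => K.lay a = j) ≠ X) :
    h2 W.Q W.cfg.L1 X < 4 * ((X.filter (fun a => K.lay a = j)).card : ℤ) := by
  obtain ⟨A, hA1, hA2⟩ := K.bip j (by omega) (by omega)
  refine crit2 W.Q W.cfg.L1 ?_ X hX hmin _ (filter_subset _ _) hne A ?_ ?_
  · intro v
    rw [← W.hL v]
    exact card_le_card sdiff_subset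
  · intro a ha b hb hab
    have ha' : K.lay a ≠ j := by
      intro h
      exact (mem_sdiff.1 ha).2 (mem_filter.2 ⟨(mem_sdiff.1 ha).1, h⟩)
    have hb' : K.lay b ≠ j := by
      intro h
      exact (mem_sdiff.1 hb).2 (mem_filter.2 ⟨(mem_sdiff.1 hb).1, h⟩)
    obtain ⟨_, u, v, _, _, hu, hv, huv⟩ := hab
    have hu' : K.lay u ≠ j := by rw [← n1_lay W u, hu]; exact ha'
    have hv' : K.lay v ≠ j := by rw [← n1_lay W v, hv]; exact hb'
    have e1 := n1_A W j A hA2 u hu'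
    have e2 := n1_A W j A hA2 v hv'
    rw [hu] at e1
    rw [hv] at e2
    rw [e1, e2]
    exact hA1 u v huv hu' hv'
  · intro a ha b hb hab
    obtain ⟨_, u, v, _, _, hu, hv, huv⟩ := hab
    have h1 : K.lay u = j := by rw [← n1_lay W u, hu]; exact (mem_filter.1 ha).2
    have h2 : K.lay v = j := by rw [← n1_lay W v, hv]; exact (mem_filter.1 hb).2
    rcases K.adjlay u v (by omega) (by omega) huv with h | h <;> omega

/-- the layers are disjoint -/
private theorem n1_sum (K : Coll V r M) (X : Finset V) :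
    ∑ j ∈ Finset.Icc (1 : ℤ) ((M : ℤ) - 2), ((X.filter (fun a => K.lay a = j)).card : ℤ) =
      ((X.filter (fun a => 1 ≤ K.lay a ∧ K.lay a + 2 ≤ M)).card : ℤ) := by
  have h := card_eq_sum_card_fiberwise (f := K.lay)
    (s := X.filter (fun a => 1 ≤ K.lay a ∧ K.lay a + 2 ≤ M)) (t := Finset.Icc (1 : ℤ) ((M : ℤ) - 2))
    (by
      intro v hv
      have := (mem_filter.1 (mem_coe.1 hv)).2
      exact mem_coe.2 (mem_Icc.2 ⟨this.1, by omega⟩))
  rw [h]
  push_cast
  apply sum_congr rfl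
  intro j hj
  rw [mem_Icc] at hj
  congr 2
  ext a
  simp only [mem_filter]
  constructor
  · rintro ⟨h1, h2⟩
    exact ⟨⟨h1, by omega, by omega⟩, h2⟩
  · rintro ⟨⟨h1, _⟩, h2⟩
    exact ⟨h1, h2⟩

end

/-- ROW N1. `Q` is colourable from `L1`. Otherwise take `X ⊆ Rs` minimal non-colourable. For each `j` with `1 ≤ j`, `j + 2 ≤ M` let `Y_j = X.filter (lay = j)`. `X \ Y_j` is
bipartite in `Q` by the predicate `A` of `bip j` (constant along runs: `rep v = σ^[k] v` with all steps in the layer of `v`, which is `≠ j`; vertices outside `Ft` are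
their own representatives); no `Q`-edges inside `Y_j` (`adjlay`: adjacent vertices are in different layers, `rep` keeps layers). `crit2`: `Y_j = X` or `h2 X < 4 |Y_j|`.
`h2 X ≥ 0` by `key`, `split`, `pbox`, `chi_nn`. If `Y_j = X` for some `j`, take another `j'` (`M ≥ 6`): `Y_j'` is empty and `≠ X` (`X` nonempty), so `h2 X < 0`, contradiction. So
`(M - 2) h2 X < 4 ∑_j |Y_j| ≤ 4 C h2 X` (the `Y_j` are disjoint parts of the set counted in `MI`): contradiction for `M ≥ 4 C + 6`. -/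
theorem Q_col (R ρ : ℕ) (hg : GoodP R ρ) : ∃ M0 : ℕ, ∀ (V : Type) [Fintype V] [DecidableEq V]
    (r M : ℕ) (K : Coll V r M) (_ : 8 * ρ ≤ r) (_ : M0 ≤ M) (W : KW K R ρ (2 * ρ)),
    ColOn W.Q W.cfg.L1 W.Rs := by
  obtain ⟨C, hC⟩ := MI R ρ hg
  refine ⟨4 * C + 6, ?_⟩
  intro V _ _ r M K hr hM W
  by_contra hcon
  obtain ⟨X, hXR, hX, hmin, hne⟩ := n1_min W.Q W.cfg.L1 W.Rs hcon
  have hnn := n1_nonneg W hg hr X hXR
  have hmi := hC V r M K hr W X hXR hX hmin
  -- no layer is everything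
  have hall : ∀ j : ℤ, 1 ≤ j → j + 2 ≤ M → X.filter (fun a => K.lay a = j) ≠ X := by
    intro j hj hj' heq
    have hj'' : ∃ i : ℤ, 1 ≤ i ∧ i + 2 ≤ M ∧ i ≠ j := by
      by_cases h1 : j = 1
      · exact ⟨2, by omega, by omega, by omega⟩
      · exact ⟨1, by omega, by omega, by omega⟩
    obtain ⟨i, hi, hi', hij⟩ := hj''
    have hemp : X.filter (fun a => K.lay a = i) = ∅ := by
      rw [filter_eq_empty_iff]
      intro a ha
      rw [← heq] at ha
      have := (mem_filter.1 ha).2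
      omega
    have h1 := n1_layer W X hX hmin i hi hi' (by rw [hemp]; exact fun h => hne.ne_empty h.symm)
    rw [hemp] at h1
    simp only [card_empty, Nat.cast_zero, mul_zero] at h1
    omega
  -- sum over the layers
  have hsum : ∑ j ∈ Finset.Icc (1 : ℤ) ((M : ℤ) - 2), (h2 W.Q W.cfg.L1 X + 1) ≤
      ∑ j ∈ Finset.Icc (1 : ℤ) ((M : ℤ) - 2), 4 * ((X.filter (fun a => K.lay a = j)).card : ℤ) := by
    apply sum_le_sum
    intro j hj
    rw [mem_Icc] at hj
    have := n1_layer W X hX hmin j hj.1 (by omega) (hall j hj.1 (by omega))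
    omega
  rw [← mul_sum, n1_sum, sum_const, Int.card_Icc, nsmul_eq_mul] at hsum
  have hM' : (((M : ℤ) - 2 + 1 - 1).toNat : ℤ) = (M : ℤ) - 2 := by
    rw [Int.toNat_of_nonneg (by omega)]
    ring
  rw [hM'] at hsum
  have h5 : (4 * (C : ℤ) + 4) * (h2 W.Q W.cfg.L1 X + 1) ≤ ((M : ℤ) - 2) * (h2 W.Q W.cfg.L1 X + 1) := by
    apply mul_le_mul_of_nonneg_right _ (by omega)
    have : ((4 * C + 6 : ℕ) : ℤ) ≤ (M : ℤ) := by exact_mod_cast hM
    push_cast at this
    linarith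
  have hC0 : (0 : ℤ) ≤ C := by positivity
  nlinarith

end Bd
end TorGrid
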