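import Pool.Agent.Lib.MP_caf32e_co.Bd.C2
import Pool.Agent.Lib.MP_caf32e_co.Bd.G2

/-! Colouring of graphs with a collar. -/

set_option autoImplicit false

namespace TorGrid
namespace Bd

open Finset

section
variable {V : Type} [Fintype V] [DecidableEq V] {r M : ℕ} {K : Coll V r M}
  {L : V → Finset ℕ} {R ρ R1 : ℕ}

private theorem n2_C (c : KCfg K L R ρ R1) (v : V) (h : c.Ts v) : K.C v := by
  unfold Coll.C
  obtain ⟨h1, h2, _⟩ := h
  exact ⟨by omega, by omega⟩

/-- lists are constant along a tame step -/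
private theorem n2_step (c : KCfg K L R ρ R1) (hr : 4 ≤ r) (v : V) (h : c.Ft v) :
    L (K.σ v) = L v := by
  obtain ⟨h1, h2⟩ := h
  have hC := n2_C c v h1
  have hb := K.basic hr v hC
  have e1 : L (K.N v) = L v := c.tame v hC h1.2.2 _ hb.1
  have e2 : L (K.N v) = L (K.σ v) :=
    c.tame (K.σ v) (n2_C c _ h2) h2.2.2 _ (SimpleGraph.Adj.symm hb.2.2.2.2.1)
  rw [← e2, e1]

private theorem n2_run (c : KCfg K L R ρ R1) (hr : 4 ≤ r) (v : V) (k : ℕ)
    (h : ∀ i < k, c.Ft (K.σ^[i] v)) : L (K.σ^[k] v) = L v ∧ K.lay (K.σ^[k] v) = K.lay v := by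
  induction k with
  | zero => exact ⟨rfl, rfl⟩
  | succ k ih =>
    rw [Function.iterate_succ_apply']
    have hk := h k (by omega)
    obtain ⟨i1, i2⟩ := ih (fun i hi => h i (by omega))
    have hC := n2_C c _ hk.1
    refine ⟨by rw [n2_step c hr _ hk, i1], ?_⟩
    rw [(K.lσ _ hC.1 hC.2).1, i2]

end

/-- ROW N2. Copy of the second half of `World.colour` (W8.lean): colour `v` by `Phi v` if precoloured, by the colour of `rep v` otherwise. Lists are constant along a
tame run (`L (σ v) = L (N v) = L v` for `Ft v`, by `tame`, `basic`). Adjacent `u`, `v`, both not precoloured: `rep u ≠ rep v`, as `u`, `v` tame in one run would be in the same layer,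
against `adjlay`; if one of them is not tame it is its own representative .. (if `rep u = rep v`: both in the same layer if one of them is in the collar; if neither is in
`Ft` then `u = rep u = rep v = v`, excluded). One precoloured: the other one is not tame (`cfg_basic`), so its own representative, and its list `L1` avoids
the colour. -/
theorem W_colour {V : Type} [Fintype V] [DecidableEq V] {r M R ρ : ℕ} {K : Coll V r M}
    (hg : GoodP R ρ) (hr : 8 * ρ ≤ r) (W : KW K R ρ (2 * ρ)) (h : ColOn W.Q W.cfg.L1 W.Rs) :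
    ∃ c : V → ℕ, (∀ v, c v ∈ W.L v) ∧ ∀ u v, K.G.Adj u v → c u ≠ c v := by
  classical
  have hρ : R + 4 < ρ := hg.1
  have hr4 : 4 ≤ r := by omega
  obtain ⟨b1, -, -, -, -, b6, b7, b8⟩ := cfg_basic W.hL W.cfg hρ (by omega) (by omega)
  obtain ⟨c, hc1, hc2⟩ := h
  -- the top of a run
  have hrepF : ∀ v, ¬ W.cfg.Ft (W.rep v) := fun v => by
    obtain ⟨k, _, _, h3⟩ := W.hrep v
    exact h3
  have hrun : ∀ v, W.L (W.rep v) = W.L v ∧ K.lay (W.rep v) = K.lay v := fun v => by
    obtain ⟨k, h1, h2, _⟩ := W.hrep v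
    rw [h1]
    exact n2_run W.cfg hr4 v k h2
  have hrepEq : ∀ v, ¬ W.cfg.Ft v → W.rep v = v := fun v hv => by
    obtain ⟨k, h1, h2, _⟩ := W.hrep v
    rcases Nat.eq_zero_or_pos k with hk | hk
    · rw [h1, hk]; rfl
    · exact absurd (h2 0 hk) hv
  have hrepU : ∀ v, ¬ W.cfg.Us v → W.rep v ∈ W.Rs := fun v hv => by
    unfold KW.Rs
    rw [Finset.mem_filter]
    refine ⟨Finset.mem_univ _, ?_, hrepF v⟩
    obtain ⟨k, h1, h2, _⟩ := W.hrep v
    rcases k with _ | k
    · rw [h1]; exact hv
    · rw [h1]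
      have h3 := (h2 k (by omega)).2
      rw [Function.iterate_succ_apply']
      exact b1 _ h3
  have hlist : ∀ v, ¬ W.cfg.Us v → c (W.rep v) ∈ W.L v := fun v hv => by
    have h1 := hc1 _ (hrepU v hv)
    have h2 : c (W.rep v) ∈ W.L (W.rep v) := by
      unfold KCfg.L1 at h1
      exact (Finset.mem_sdiff.1 h1).1
    rwa [(hrun v).1] at h2
  have hmixed : ∀ u v, W.cfg.Us u → ¬ W.cfg.Us v → K.G.Adj u v →
      W.cfg.Phi u ≠ c (W.rep v) := by
    intro u v hu hv hadj heq
    have hT : ¬ W.cfg.Ts v := b8 u v hu hadj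
    have hF : ¬ W.cfg.Ft v := fun hF => hT hF.1
    have hrm := hrepU v hv
    rw [hrepEq v hF] at hrm heq
    have h1 := hc1 v hrm
    unfold KCfg.L1 at h1
    rw [Finset.mem_sdiff] at h1
    apply h1.2
    rw [Finset.mem_image]
    refine ⟨u, ?_, heq⟩
    rw [Finset.mem_filter]
    exact ⟨Finset.mem_univ _, SimpleGraph.Adj.symm hadj, hu⟩
  refine ⟨fun v => if W.cfg.Us v then W.cfg.Phi v else c (W.rep v), ?_, ?_⟩
  · intro v
    by_cases hv : W.cfg.Us v
    · simp only [if_pos hv]; exact b6 v hv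
    · simp only [if_neg hv]; exact hlist v hv
  · intro u v hadj
    by_cases hu : W.cfg.Us u <;> by_cases hv : W.cfg.Us v
    · simp only [if_pos hu, if_pos hv]; exact b7 u v hu hv hadj
    · simp only [if_pos hu, if_neg hv]; exact hmixed u v hu hv hadj
    · simp only [if_neg hu, if_pos hv]
      exact (hmixed v u hv hu (SimpleGraph.Adj.symm hadj)).symm
    · simp only [if_neg hu, if_neg hv]
      refine hc2 _ (hrepU u hu) _ (hrepU v hv) ?_
      refine ⟨?_, u, v, hu, hv, rfl, rfl, hadj⟩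
      intro heq
      have hlay : K.lay u = K.lay v := by
        rw [← (hrun u).2, ← (hrun v).2, heq]
      by_cases hFu : W.cfg.Ft u
      · have hC := n2_C W.cfg u hFu.1
        rcases K.adjlay u v hC.1 hC.2 hadj with h1 | h1 <;> omega
      · by_cases hFv : W.cfg.Ft v
        · have hC := n2_C W.cfg v hFv.1
          rcases K.adjlay v u hC.1 hC.2 (SimpleGraph.Adj.symm hadj) with h1 | h1 <;> omega
        · rw [hrepEq u hFu, hrepEq v hFv] at heq
          exact SimpleGraph.Adj.ne hadj heq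

end Bd
end TorGrid
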