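import Pool.Agent.Lib.MP_caf32e_co.Bd.P1

/-! Weights and private boxes (page, section 0). -/

set_option autoImplicit false

namespace TorGrid
namespace Bd

open Finset

private lemma p2_nb_symm {p q : P2} : q ∈ nb p ↔ p ∈ nb q := by
  have h : ∀ {p q : P2}, q ∈ nb p → p ∈ nb q := by
    intro p q h
    simp only [nb, mem_insert, mem_singleton] at h ⊢
    rcases h with rfl | rfl | rfl | rfl
    · right; left; simp
    · left; simp
    · right; right; right; simp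
    · right; right; left; simp
  exact ⟨h, h⟩

private lemma p2_card_nb (p : P2) : (nb p).card = 4 := by
  unfold nb
  rw [card_insert_of_notMem, card_insert_of_notMem, card_insert_of_notMem, card_singleton]
  · simp only [mem_singleton, Prod.mk.injEq, not_and]
    intro _; omega
  · simp only [mem_insert, mem_singleton, Prod.mk.injEq, not_or, not_and]
    constructor <;> intro h <;> omega
  · simp only [mem_insert, mem_singleton, Prod.mk.injEq, not_or, not_and]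
    refine ⟨?_, ?_, ?_⟩ <;> intro h <;> omega

private lemma p2_inside (f : P2 → P2 → ℤ) (Z : Finset P2) :
    ∑ p ∈ Z, ∑ q ∈ nb p ∩ Z, f p q = ∑ p ∈ Z, ∑ q ∈ Z, if q ∈ nb p then f p q else 0 := by
  refine sum_congr rfl fun p _ => ?_
  rw [← sum_filter]
  refine sum_congr ?_ fun _ _ => rfl
  ext q
  simp only [mem_inter, mem_filter]
  tauto

private lemma p2_swap (ψ : P2 → ℤ) (Z : Finset P2) :
    ∑ p ∈ Z, ∑ q ∈ nb p ∩ Z, wc ψ p q = ∑ p ∈ Z, ∑ q ∈ nb p ∩ Z, wc ψ q p := by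
  rw [p2_inside (fun p q => wc ψ p q), p2_inside (fun p q => wc ψ q p), sum_comm]
  refine sum_congr rfl fun p _ => sum_congr rfl fun q _ => ?_
  by_cases h : q ∈ nb p
  · rw [if_pos h, if_pos (p2_nb_symm.1 h)]
  · rw [if_neg h, if_neg (fun h' => h (p2_nb_symm.1 h'))]

private lemma p2_two (ψ : P2 → ℤ) (Z : Finset P2) :
    ∑ p ∈ Z, ∑ q ∈ nb p ∩ Z, wc ψ p q + ∑ p ∈ Z, ∑ q ∈ nb p ∩ Z, wc ψ q p =
      2 * ∑ p ∈ Z, ((nb p ∩ Z).card : ℤ) := by
  rw [← sum_add_distrib, mul_sum]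
  refine sum_congr rfl fun p _ => ?_
  rw [← sum_add_distrib, sum_congr rfl (fun q hq => wc_pair ψ p q (mem_inter.1 hq).1), sum_const]
  simp [mul_comm]

private lemma p2_split (f : P2 → P2 → ℤ) (Z : Finset P2) :
    ∑ p ∈ Z, ∑ q ∈ nb p, f p q =
      ∑ p ∈ Z, ∑ q ∈ nb p ∩ Z, f p q + ∑ p ∈ Z, ∑ q ∈ nb p \ Z, f p q := by
  rw [← sum_add_distrib]
  refine sum_congr rfl fun p _ => ?_
  exact (sum_inter_add_sum_sdiff (nb p) Z (f p)).symm

private lemma p2_bd (Z : Finset P2) :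
    (bd Z : ℤ) = ∑ _p ∈ Z, (4 : ℤ) - ∑ p ∈ Z, ((nb p ∩ Z).card : ℤ) := by
  unfold bd
  rw [← sum_sub_distrib]
  push_cast
  refine sum_congr rfl fun p _ => ?_
  have h := card_sdiff_add_card_inter (nb p) Z
  rw [p2_card_nb] at h
  omega

/-- ROW P2. `∑_(p ∈ Z) ∑_(q ∈ nb p) wc = 4 |Z|` (wc_out); the part with `q ∈ Z` is, by exchanging `p` and `q` and `wc_pair`, the
number of ordered adjacent pairs in `Z`; and `bd Z = 4|Z| -` (the same number). -/
theorem bd_out (ψ : P2 → ℤ) (Z : Finset P2) :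
    ∑ p ∈ Z, ∑ q ∈ nb p \ Z, wc ψ p q = bd Z ∧ ∑ p ∈ Z, ∑ q ∈ nb p \ Z, wc ψ q p = bd Z := by
  have h1 := p2_swap ψ Z
  have h2 := p2_two ψ Z
  have h3 := p2_split (fun p q => wc ψ p q) Z
  have h4 := p2_split (fun p q => wc ψ q p) Z
  have h5 := p2_bd Z
  rw [sum_congr rfl (fun p _ => (wc_out ψ p).1)] at h3
  rw [sum_congr rfl (fun p _ => (wc_out ψ p).2)] at h4
  constructor <;> linarith

end Bd
end TorGrid
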