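import Pool.Agent.Lib.MP_caf32e_co.Bd.P3

/-! Weights and private boxes (page, section 0). -/

set_option autoImplicit false

namespace TorGrid
namespace Bd

open Finset

/-- membership in the box by inequalities -/
private theorem p4_inB (r x y : ℤ) : InB (0, 0) r (x, y) ↔ (-r ≤ x ∧ x ≤ r) ∧ (-r ≤ y ∧ y ≤ r) := by
  unfold InB
  simp only [sub_zero, abs_le]

/-- the four corners of a face in the box are in `Y` together -/
private theorem p4_face (ψ : P2 → ℤ) (hψ : F01 ψ) (r : ℤ) (Y : Finset P2)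
    (h : ∀ p ∈ Y, ∀ q ∈ nb p, InB (0, 0) r q → q ∉ Y → wc ψ p q ≤ 0) (x y : ℤ)
    (h1 : -r ≤ x) (h2 : x + 1 ≤ r) (h3 : -r ≤ y) (h4 : y + 1 ≤ r)
    (hc : (x, y) ∈ Y ∨ (x + 1, y) ∈ Y ∨ (x + 1, y + 1) ∈ Y ∨ (x, y + 1) ∈ Y) :
    (x, y) ∈ Y ∧ (x + 1, y) ∈ Y ∧ (x + 1, y + 1) ∈ Y ∧ (x, y + 1) ∈ Y := by
  refine face_closed ψ hψ (InB (0, 0) r) Y h x y ?_ ?_ ?_ ?_ hc
  all_goals
    rw [p4_inB]
    omega

/-- horizontal step -/
private theorem p4_h (ψ : P2 → ℤ) (hψ : F01 ψ) (r : ℤ) (hr : 1 ≤ r) (Y : Finset P2)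
    (h : ∀ p ∈ Y, ∀ q ∈ nb p, InB (0, 0) r q → q ∉ Y → wc ψ p q ≤ 0) (x y : ℤ)
    (h1 : -r ≤ x) (h2 : x + 1 ≤ r) (h3 : -r ≤ y) (h4 : y ≤ r) :
    (x, y) ∈ Y ↔ (x + 1, y) ∈ Y := by
  by_cases hy : y + 1 ≤ r
  · constructor
    · intro hc
      exact (p4_face ψ hψ r Y h x y h1 h2 h3 hy (Or.inl hc)).2.1
    · intro hc
      exact (p4_face ψ hψ r Y h x y h1 h2 h3 hy (Or.inr (Or.inl hc))).1
  · have e : y - 1 + 1 = y := by ring
    constructor
    · intro hc
      have := p4_face ψ hψ r Y h x (y - 1) h1 h2 (by omega) (by omega)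
        (Or.inr (Or.inr (Or.inr (by rw [e]; exact hc))))
      rw [e] at this
      exact this.2.2.1
    · intro hc
      have := p4_face ψ hψ r Y h x (y - 1) h1 h2 (by omega) (by omega)
        (Or.inr (Or.inr (Or.inl (by rw [e]; exact hc))))
      rw [e] at this
      exact this.2.2.2

/-- vertical step -/
private theorem p4_v (ψ : P2 → ℤ) (hψ : F01 ψ) (r : ℤ) (hr : 1 ≤ r) (Y : Finset P2)
    (h : ∀ p ∈ Y, ∀ q ∈ nb p, InB (0, 0) r q → q ∉ Y → wc ψ p q ≤ 0) (x y : ℤ)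
    (h1 : -r ≤ x) (h2 : x ≤ r) (h3 : -r ≤ y) (h4 : y + 1 ≤ r) :
    (x, y) ∈ Y ↔ (x, y + 1) ∈ Y := by
  by_cases hx : x + 1 ≤ r
  · constructor
    · intro hc
      exact (p4_face ψ hψ r Y h x y h1 hx h3 h4 (Or.inl hc)).2.2.2
    · intro hc
      exact (p4_face ψ hψ r Y h x y h1 hx h3 h4 (Or.inr (Or.inr (Or.inr hc)))).1
  · have e : x - 1 + 1 = x := by ring
    constructor
    · intro hc
      have := p4_face ψ hψ r Y h (x - 1) y (by omega) (by omega) h3 h4
        (Or.inr (Or.inl (by rw [e]; exact hc)))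
      rw [e] at this
      exact this.2.2.1
    · intro hc
      have := p4_face ψ hψ r Y h (x - 1) y (by omega) (by omega) h3 h4
        (Or.inr (Or.inr (Or.inl (by rw [e]; exact hc))))
      rw [e] at this
      exact this.2.1

/-- a predicate on an interval of integers that passes to both neighbours is constant -/
private theorem p4_int (P : ℤ → Prop) (r : ℤ) (hP : ∀ x, -r ≤ x → x + 1 ≤ r → (P x ↔ P (x + 1)))
    (a b : ℤ) (ha : -r ≤ a) (ha' : a ≤ r) (hb : -r ≤ b) (hb' : b ≤ r) (h : P a) : P b := by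
  have key : ∀ n : ℕ, ∀ x : ℤ, -r ≤ x → x + n ≤ r → (P x ↔ P (x + n)) := by
    intro n
    induction n with
    | zero => intro x _ _; simp
    | succ n ih =>
      intro x h1 h2
      push_cast at h2
      rw [ih x h1 (by omega), hP (x + n) (by omega) (by omega)]
      push_cast
      rw [add_assoc]
  rcases le_total a b with hab | hab
  · have := key (b - a).toNat a ha (by omega)
    rw [show a + ((b - a).toNat : ℤ) = b by omega] at this
    exact this.1 h
  · have := key (a - b).toNat b hb (by omega)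
    rw [show b + ((a - b).toNat : ℤ) = a by omega] at this
    exact this.2 h

/-- ROW P4. Two neighbours in the box lie in a common face inside the box (`1 ≤ r`), so membership in `Y` passes to neighbours in the box
(face_closed with `D = InB (0,0) r`); any two points of the box are joined by a path in the box (first horizontally, then vertically;
induction on the distance). -/
theorem box_closed (ψ : P2 → ℤ) (hψ : F01 ψ) (r : ℤ) (hr : 1 ≤ r) (Y : Finset P2)
    (hY : ∀ p ∈ Y, InB (0, 0) r p) (h : ∀ p ∈ Y, ∀ q ∈ nb p, InB (0, 0) r q → q ∉ Y → wc ψ p q ≤ 0)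
    (hne : Y.Nonempty) : ∀ p, InB (0, 0) r p → p ∈ Y := by
  obtain ⟨⟨a, b⟩, hab⟩ := hne
  obtain ⟨⟨ha, ha'⟩, hb, hb'⟩ := (p4_inB r a b).1 (hY _ hab)
  rintro ⟨c, d⟩ hcd
  obtain ⟨⟨hc, hc'⟩, hd, hd'⟩ := (p4_inB r c d).1 hcd
  have h1 : (c, b) ∈ Y :=
    p4_int (fun x => (x, b) ∈ Y) r (fun x hx hx' => p4_h ψ hψ r hr Y h x b hx hx' hb hb') a c
      ha ha' hc hc' hab
  exact p4_int (fun y => (c, y) ∈ Y) r (fun y hy hy' => p4_v ψ hψ r hr Y h c y hc hc' hy hy') b d
    hb hb' hd hd' h1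

end Bd
end TorGrid
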