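import Pool.Agent.Lib.MP_caf32e_co.Bd.P6
import Pool.Agent.Lib.MP_caf32e_co.Bd.P4
import Pool.Agent.Lib.MP_caf32e_co.Bd.P2

/-! Weights and private boxes (page, section 0). -/

set_option autoImplicit false

namespace TorGrid
namespace Bd

open Finset

private theorem p7_nb_symm {u v : P2} (h : u ∈ nb v) : v ∈ nb u := by
  unfold nb at h ⊢
  simp only [mem_insert, mem_singleton] at h ⊢
  rcases h with h | h | h | h <;> rw [h] <;> simp

private theorem p7_nb_near {r : ℤ} {v w : P2} (h : w ∈ nb v) (hv : InB (0, 0) (r - 1) v) :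
    InB (0, 0) r w := by
  unfold InB at hv ⊢
  unfold nb at h
  simp only [sub_zero, mem_insert, mem_singleton] at hv h ⊢
  rw [abs_le, abs_le] at hv
  rw [abs_le, abs_le]
  rcases h with h | h | h | h <;> rw [h] <;> simp only <;> omega

private theorem p7_mono {r s : ℤ} {v : P2} (hrs : r ≤ s) (hv : InB (0, 0) r v) : InB (0, 0) s v := by
  unfold InB at hv ⊢
  exact ⟨hv.1.trans hrs, hv.2.trans hrs⟩

private theorem p7_lost_zero {L : P2 → Finset ℕ} {U : Finset P2} {φ : P2 → ℕ} {v : P2}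
    (h : v ∉ U.biUnion nb) : lost L U φ v = 0 := by
  unfold lost
  have : nb v ∩ U = ∅ := by
    rw [Finset.eq_empty_iff_forall_notMem]
    intro u hu
    rw [mem_inter] at hu
    exact h (mem_biUnion.2 ⟨u, hu.2, p7_nb_symm hu.1⟩)
  rw [this]
  simp

private theorem p7_nbU {U : Finset P2} {R : ℕ} (hU : ∀ u ∈ U, InB (0, 0) R u) {v : P2}
    (h : v ∈ U.biUnion nb) : |v.1| ≤ R + 1 ∧ |v.2| ≤ R + 1 := by
  obtain ⟨u, hu, hv⟩ := mem_biUnion.1 h
  have h1 := hU u hu
  unfold InB at h1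
  simp only [sub_zero] at h1
  unfold nb at hv
  simp only [mem_insert, mem_singleton] at hv
  obtain ⟨h1, h2⟩ := h1
  rw [abs_le] at h1 h2 ⊢
  rw [abs_le]
  rcases hv with hv | hv | hv | hv <;> rw [hv] <;> simp only <;> omega

private theorem p7_lost_sum {L : P2 → Finset ℕ} (hL : ∀ v, (L v).card = 3) {U : Finset P2}
    {φ : P2 → ℕ} {R : ℕ} (hU : ∀ u ∈ U, InB (0, 0) R u) (Y : Finset P2) :
    2 * ∑ v ∈ Y, lost L U φ v ≤ 6 * (2 * R + 3) ^ 2 := by
  classical
  have h1 : ∑ v ∈ Y, lost L U φ v ≤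
      ∑ v ∈ (Finset.Icc (-(R + 1 : ℤ)) (R + 1) ×ˢ Finset.Icc (-(R + 1 : ℤ)) (R + 1)), 3 := by
    calc ∑ v ∈ Y, lost L U φ v ≤ ∑ v ∈ Y.filter (fun v => v ∈ U.biUnion nb), 3 := by
          rw [Finset.sum_filter]
          refine Finset.sum_le_sum fun v _ => ?_
          by_cases h : v ∈ U.biUnion nb
          · rw [if_pos h]
            unfold lost
            rw [← hL v]
            exact Finset.card_le_card Finset.inter_subset_right
          · rw [p7_lost_zero h]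
            exact Nat.zero_le _
      _ ≤ _ := by
          refine Finset.sum_le_sum_of_subset ?_
          intro v hv
          rw [mem_filter] at hv
          have h2 := p7_nbU hU hv.2
          rw [abs_le, abs_le] at h2
          rw [mem_product, mem_Icc, mem_Icc]
          omega
  rw [Finset.sum_const, Finset.card_product, Int.card_Icc] at h1
  have h3 : (((R : ℤ) + 1 + 1 - -(R + 1 : ℤ)).toNat) = 2 * R + 3 := by omega
  rw [h3, smul_eq_mul] at h1
  nlinarith

open Classical in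
/-- steps into `Z` are credit of `Y` -/
private theorem p7_into (ψ : P2 → ℤ) (hψ : F01 ψ) (ρ : ℤ) (Y Z : Finset P2)
    (hZ : ∀ q ∈ Z, InB (0, 0) ρ q ∧ q ∉ Y) (hn : ∀ q ∈ Z, ∀ p ∈ nb q, p ∉ Z → p ∈ Y) :
    (bd Z : ℤ) ≤ cr ψ ρ Y := by
  rw [← (bd_out ψ Z).2]
  have e1 : ∀ q ∈ Z, ∑ p ∈ nb q \ Z, wc ψ p q ≤ ∑ p ∈ Y, if p ∈ nb q then wc ψ p q else 0 := by
    intro q hq
    rw [← Finset.sum_filter]
    apply Finset.sum_le_sum_of_subset_of_nonneg
    · intro p hp
      rw [mem_sdiff] at hp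
      rw [mem_filter]
      exact ⟨hn q hq p hp.1 hp.2, hp.1⟩
    · intro p _ _
      exact wc_nn ψ hψ p q
  refine (Finset.sum_le_sum e1).trans ?_
  rw [Finset.sum_comm]
  unfold cr
  refine Finset.sum_le_sum fun p _ => ?_
  rw [← Finset.sum_filter]
  apply Finset.sum_le_sum_of_subset_of_nonneg
  · intro q hq
    rw [mem_filter] at hq
    rw [mem_filter]
    exact ⟨p7_nb_symm hq.2, hZ q hq.1⟩
  · intro q _ _
    exact wc_nn ψ hψ p q

open Classical in
/-- steps out of `Y1` are credit of `Y` -/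
private theorem p7_out (ψ : P2 → ℤ) (hψ : F01 ψ) (ρ : ℤ) (Y Y1 : Finset P2) (hs : Y1 ⊆ Y)
    (hn : ∀ p ∈ Y1, ∀ q ∈ nb p, q ∉ Y1 → InB (0, 0) ρ q ∧ q ∉ Y) :
    (bd Y1 : ℤ) ≤ cr ψ ρ Y := by
  rw [← (bd_out ψ Y1).1]
  unfold cr
  refine le_trans (Finset.sum_le_sum fun p hp => ?_)
    (Finset.sum_le_sum_of_subset_of_nonneg hs fun p _ _ =>
      Finset.sum_nonneg fun q _ => wc_nn ψ hψ p q)
  apply Finset.sum_le_sum_of_subset_of_nonneg
  · intro q hq
    rw [mem_sdiff] at hq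
    rw [mem_filter]
    exact ⟨hq.1, hn p hp q hq.1 hq.2⟩
  · intro q _ _
    exact wc_nn ψ hψ p q

/-- ROW P7. `K = 6 (2R+3)^2 + 1`, `ρ = R + 2K + 6`. `lost ≤ 3` and `lost = 0` outside the box of radius `R+1`, so `2 ∑ lost < K`. If
`cr ≥ K` both claims are clear (the second vacuous). Otherwise `pure_ann`. (a) annulus in `Y`: `Z = (box of radius r-1) \ Y` contains `U`; all
neighbours of `Z` outside `Z` are in `Y` (they are in the box of radius `r`; inside the box of radius `r-1` by definition of `Z`, otherwise in the annulus), so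
`cr ≥ ∑_(q ∈ Z) ∑_(p ∈ nb q \ Z) wc ψ p q = bd Z` (bd_out) `≥ 2 + 2 ∑_(N(U) \ Z) lost ≥ 2 + 2 ∑_Y lost` (S1; `Y ∩ N(U)` is disjoint from `Z`;
points of `Y` outside `U.biUnion nb` lose nothing): both claims hold, the second vacuously. (b) annulus disjoint from `Y`: `Y1 = Y ∩ (box of radius r-1)`;
`cr ψ ρ Y ≥ ∑_(p ∈ Y1) ∑_(q ∈ nb p \ Y1) wc = bd Y1 ≥ 2 ∑_Y1 lost = 2 ∑_Y lost` (S2; all neighbours of `Y1` are in the box of radius `r ≤ ρ` and if they are not in `Y1`
they are not in `Y`). If `cr ≤ 2 ∑ lost` and `Y1` nonempty: `Y' = Y1`. If `Y1` is empty: `∑ lost = 0`, `cr ≤ 0`, all terms of `cr` are `0`,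
box_closed: `Y` is the whole box: contradiction to the empty annulus. -/
theorem private_box (R : ℕ) : ∃ ρ : ℕ, GoodP R ρ := by
  classical
  refine ⟨R + 2 * (6 * (2 * R + 3) ^ 2 + 1) + 6, by omega, ?_⟩
  intro L hL U φ hS hU ψ hψ Y hY hYU
  have hls := p7_lost_sum hL (φ := φ) hU Y
  obtain ⟨K, hK⟩ : ∃ K : ℕ, K = 6 * (2 * R + 3) ^ 2 + 1 := ⟨_, rfl⟩
  rw [← hK] at hY ⊢
  have hls' : 2 * ∑ v ∈ Y, lost L U φ v < K := by omega
  clear hls
  have hlsZ : 2 * ∑ v ∈ Y, (lost L U φ v : ℤ) < K := by exact_mod_cast hls'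
  obtain ⟨ρ, hρ⟩ : ∃ ρ : ℕ, ρ = R + 2 * K + 6 := ⟨_, rfl⟩
  rw [← hρ] at hY ⊢
  by_cases hM : cr ψ ρ Y < K
  swap
  · exact ⟨by omega, fun _ h => by omega⟩
  obtain ⟨r, hr1, hr2, hfr⟩ := pure_ann ψ hψ R K ρ (by omega) Y hY hM
  rcases hfr with hfr | hfr
  · -- annulus inside `Y`
    obtain ⟨Z, hZ⟩ : ∃ Z : Finset P2, ∀ v : P2, v ∈ Z ↔ InB (0, 0) (r - 1) v ∧ v ∉ Y := by
      refine ⟨(Finset.Icc (-r + 1) (r - 1) ×ˢ Finset.Icc (-r + 1) (r - 1)) \ Y, fun v => ?_⟩
      unfold InB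
      rw [mem_sdiff, mem_product, mem_Icc, mem_Icc, abs_le, abs_le]
      simp only [sub_zero]
      constructor
      · rintro ⟨h1, h2⟩
        exact ⟨by omega, h2⟩
      · rintro ⟨h1, h2⟩
        exact ⟨by omega, h2⟩
    have hUZ : U ⊆ Z := by
      intro u hu
      rw [hZ]
      exact ⟨p7_mono (by omega) (hU u hu), fun h => (Finset.disjoint_left.1 hYU h) hu⟩
    have hbd : (bd Z : ℤ) ≤ cr ψ ρ Y := by
      apply p7_into ψ hψ
      · intro q hq
        rw [hZ] at hq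
        exact ⟨p7_mono (by omega) hq.1, hq.2⟩
      · intro q hq p hp hpZ
        rw [hZ] at hq
        have h1 := p7_nb_near hp hq.1
        by_contra h2
        apply hpZ
        rw [hZ]
        refine ⟨?_, h2⟩
        by_contra h3
        exact h2 (hfr p ⟨p7_mono (by omega) h1, h3⟩)
    have hlost : ∑ v ∈ Y, lost L U φ v ≤ ∑ v ∈ (U.biUnion nb) \ Z, lost L U φ v := by
      calc ∑ v ∈ Y, lost L U φ v = ∑ v ∈ Y.filter (fun v => v ∈ U.biUnion nb), lost L U φ v := by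
            rw [Finset.sum_filter]
            refine Finset.sum_congr rfl fun v _ => ?_
            by_cases h : v ∈ U.biUnion nb
            · rw [if_pos h]
            · rw [if_neg h, p7_lost_zero h]
        _ ≤ _ := by
            refine Finset.sum_le_sum_of_subset ?_
            intro v hv
            rw [mem_filter] at hv
            rw [mem_sdiff]
            exact ⟨hv.2, fun h => ((hZ v).1 h).2 hv.1⟩
    have h1 := hS.S1 Z hUZ
    have h2 : 2 + 2 * ∑ v ∈ Y, lost L U φ v ≤ bd Z := by omega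
    have h3 : 2 + 2 * ∑ v ∈ Y, (lost L U φ v : ℤ) ≤ bd Z := by exact_mod_cast h2
    exact ⟨by omega, fun _ h => by omega⟩
  · -- annulus outside `Y`
    obtain ⟨Y1, hY1⟩ : ∃ Y1 : Finset P2, ∀ v : P2, v ∈ Y1 ↔ v ∈ Y ∧ InB (0, 0) (r - 1) v := by
      exact ⟨Y.filter (fun v => InB (0, 0) (r - 1) v), fun v => mem_filter⟩
    have hsub : Y1 ⊆ Y := fun v hv => ((hY1 v).1 hv).1
    have key : ∀ v ∈ Y1, ∀ w ∈ nb v, w ∈ Y → w ∈ Y1 := by
      intro v hv w hw hwY
      rw [hY1] at hv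
      have h1 := p7_nb_near hw hv.2
      rw [hY1]
      refine ⟨hwY, ?_⟩
      by_contra h3
      exact hfr w ⟨p7_mono (by omega) h1, h3⟩ hwY
    have hbd : (bd Y1 : ℤ) ≤ cr ψ ρ Y := by
      apply p7_out ψ hψ ρ Y Y1 hsub
      intro p hp q hq hqn
      refine ⟨p7_mono (by omega) (p7_nb_near hq ((hY1 p).1 hp).2), fun h => hqn (key p hp q hq h)⟩
    have hlost : ∑ v ∈ Y, lost L U φ v = ∑ v ∈ Y1, lost L U φ v := by
      symm
      refine Finset.sum_subset hsub fun v hv hv1 => p7_lost_zero fun h => hv1 ?_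
      have h1 := p7_nbU hU h
      rw [hY1]
      refine ⟨hv, ?_⟩
      unfold InB
      simp only [sub_zero]
      exact ⟨by omega, by omega⟩
    have hlostZ : ∑ v ∈ Y, (lost L U φ v : ℤ) = ∑ v ∈ Y1, (lost L U φ v : ℤ) := by
      exact_mod_cast hlost
    have hdis : Disjoint Y1 U := Finset.disjoint_of_subset_left hsub hYU
    have h1 := hS.S2 Y1 hdis
    have h1Z : 2 * ∑ v ∈ Y1, (lost L U φ v : ℤ) ≤ bd Y1 := by exact_mod_cast h1
    refine ⟨by omega, fun hne hle => ?_⟩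
    by_cases hne1 : Y1.Nonempty
    · refine ⟨Y1, hsub, hne1, ?_, key⟩
      intro v hv
      exact p7_mono (by omega) ((hY1 v).1 hv).2
    · exfalso
      rw [Finset.not_nonempty_iff_eq_empty] at hne1
      rw [hlostZ, hne1] at hle
      simp only [Finset.sum_empty, mul_zero] at hle
      have hnn : ∀ p ∈ Y, 0 ≤ ∑ q ∈ (nb p).filter (fun q => InB (0, 0) (ρ : ℤ) q ∧ q ∉ Y),
          wc ψ p q := fun p _ => Finset.sum_nonneg fun q _ => wc_nn ψ hψ p q
      have hz : cr ψ ρ Y = 0 := le_antisymm hle (Finset.sum_nonneg hnn)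
      unfold cr at hz
      rw [Finset.sum_eq_zero_iff_of_nonneg hnn] at hz
      have hall := box_closed ψ hψ ρ (by omega) Y hY (fun p hp q hq hqB hqY => by
        have h2 := hz p hp
        rw [Finset.sum_eq_zero_iff_of_nonneg (fun q _ => wc_nn ψ hψ p q)] at h2
        exact le_of_eq (h2 q (mem_filter.2 ⟨hq, hqB, hqY⟩))) hne (0, 0) (by
        unfold InB
        simp)
      have h0 : ((0, 0) : P2) ∈ Y1 := by
        rw [hY1]
        refine ⟨hall, ?_⟩
        unfold InB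
        simp only [sub_zero, abs_zero]
        omega
      rw [hne1] at h0
      exact absurd h0 (Finset.notMem_empty _)

end Bd
end TorGrid
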