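import Pool.Agent.Lib.MP_caf32e_co.Bd.N1
import Pool.Agent.Lib.MP_caf32e_co.Bd.N2
import Pool.Agent.Lib.MP_caf32e_co.Bd.G1
import Pool.Agent.Lib.MP_caf32e_co.Bd.G3
import Pool.Agent.Lib.MP_caf32e_co.Bd.G4
import Pool.Agent.Lib.MP_caf32e_co.Bd.G5
import Pool.Agent.Lib.MP_caf32e_co.Bd.P7
import Pool.Agent.Lib.MP_caf32e_co.G3

/-! Colouring of graphs with a collar. -/

set_option autoImplicit false

namespace TorGrid
namespace Bd

open Finset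

/-- ROW N3. `local_lemma` (G3) gives `R`, `private_box` gives `ρ`, `Q_col` gives `M0`; `r = 8 ρ`, `M = M0 + 6`. `cfg_exists`. If some layer `j`, `1 ≤ j`, `j + 2 ≤ M`, is completely
tame: `layer_const`, `full_colour`. Otherwise `rep_exists` gives a `KW` and `W_colour`. -/
theorem coll_colour : ∃ r M : ℕ, ∀ (V : Type) [Fintype V] [DecidableEq V] (K : Coll V r M)
    (L : V → Finset ℕ) (_ : ∀ v, (L v).card = 3),
    ∃ c : V → ℕ, (∀ v, c v ∈ L v) ∧ ∀ u v, K.G.Adj u v → c u ≠ c v := by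
  obtain ⟨R, hR⟩ := local_lemma
  obtain ⟨ρ, hg⟩ := private_box R
  obtain ⟨M0, hM0⟩ := Q_col R ρ hg
  have hρ : R + 4 < ρ := hg.1
  refine ⟨8 * ρ, M0 + 6, ?_⟩
  intro V _ _ K L hL
  obtain ⟨c⟩ := cfg_exists R ρ hρ hR K le_rfl L hL
  by_cases hfull : ∃ j : ℤ, 1 ≤ j ∧ j + 2 ≤ ((M0 + 6 : ℕ) : ℤ) ∧ ∀ v, K.lay v = j → c.Ts v
  · obtain ⟨j, hj, hj', h⟩ := hfull
    obtain ⟨a, ha⟩ := layer_const (by omega) hL c j hj hj' h
    exact full_colour K (by omega) L hL j hj hj' a ha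
  · push Not at hfull
    obtain ⟨rep, hrep⟩ := rep_exists c hfull
    exact W_colour hg le_rfl ⟨L, hL, c, rep, hrep⟩
      (hM0 V (8 * ρ) (M0 + 6) K le_rfl (by omega) ⟨L, hL, c, rep, hrep⟩)

end Bd
end TorGrid
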