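import Pool.Agent.Lib.MP_caf32e_co.Bd.P1

/-! Weights and private boxes (page, section 0). -/

set_option autoImplicit false

namespace TorGrid
namespace Bd

open Finset

private theorem p3_right (ψ : P2 → ℤ) (a b : ℤ) :
    wc ψ (a, b) (a + 1, b) = 1 + ψ (a, b) - ψ (a, b - 1) := by
  unfold wc
  rw [if_pos rfl]

private theorem p3_left (ψ : P2 → ℤ) (a b : ℤ) :
    wc ψ (a + 1, b) (a, b) = 1 + ψ (a, b - 1) - ψ (a, b) := by
  unfold wc
  have e : (a, b) = (a + 1 - 1, b) := by rw [add_sub_cancel_right]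
  rw [if_neg (by simp only [Prod.mk.injEq, not_and]; omega), if_pos e]
  simp only [add_sub_cancel_right]

private theorem p3_up (ψ : P2 → ℤ) (a b : ℤ) :
    wc ψ (a, b) (a, b + 1) = 1 + ψ (a - 1, b) - ψ (a, b) := by
  unfold wc
  rw [if_neg (by simp only [Prod.mk.injEq, not_and]; omega),
    if_neg (by simp only [Prod.mk.injEq, not_and]; omega), if_pos rfl]

private theorem p3_down (ψ : P2 → ℤ) (a b : ℤ) :
    wc ψ (a, b + 1) (a, b) = 1 + ψ (a, b) - ψ (a - 1, b) := by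
  unfold wc
  have e : (a, b) = (a, b + 1 - 1) := by rw [add_sub_cancel_right]
  rw [if_neg (by simp only [Prod.mk.injEq, not_and]; omega),
    if_neg (by simp only [Prod.mk.injEq, not_and]; omega),
    if_neg (by simp only [Prod.mk.injEq, not_and]; omega), if_pos e]
  simp only [add_sub_cancel_right]

private theorem p3_step (ψ : P2 → ℤ) (D : P2 → Prop) (Y : Finset P2)
    (h : ∀ p ∈ Y, ∀ q ∈ nb p, D q → q ∉ Y → wc ψ p q ≤ 0) (p q : P2) (hp : p ∈ Y)
    (hq : q ∈ nb p) (hD : D q) (hw : 1 ≤ wc ψ p q) : q ∈ Y := by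
  by_contra hc
  have := h p hp q hq hD hc
  omega

/-- ROW P3. Let `f = ψ (x, y)`. If `f = 0` all clockwise steps round the face have weight `1 + ψ(other side) - 0 ≥ 1`, so membership in `Y`
goes round clockwise: (x,y) → (x,y+1) → (x+1,y+1) → (x+1,y) → (x,y). If `f = 1` the counterclockwise steps have weight
`1 + 1 - ψ(other side) ≥ 1`. -/
theorem face_closed (ψ : P2 → ℤ) (hψ : F01 ψ) (D : P2 → Prop) (Y : Finset P2)
    (h : ∀ p ∈ Y, ∀ q ∈ nb p, D q → q ∉ Y → wc ψ p q ≤ 0) (x y : ℤ)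
    (h1 : D (x, y)) (h2 : D (x + 1, y)) (h3 : D (x + 1, y + 1)) (h4 : D (x, y + 1))
    (hc : (x, y) ∈ Y ∨ (x + 1, y) ∈ Y ∨ (x + 1, y + 1) ∈ Y ∨ (x, y + 1) ∈ Y) :
    (x, y) ∈ Y ∧ (x + 1, y) ∈ Y ∧ (x + 1, y + 1) ∈ Y ∧ (x, y + 1) ∈ Y := by
  have f1 := hψ (x, y)
  have f2 := hψ (x - 1, y)
  have f3 := hψ (x, y + 1)
  have f4 := hψ (x + 1, y)
  have f5 := hψ (x, y - 1)
  have e1 := p3_right ψ x y
  have e2 := p3_left ψ x y
  have e3 := p3_right ψ x (y + 1)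
  have e4 := p3_left ψ x (y + 1)
  have e5 := p3_up ψ x y
  have e6 := p3_down ψ x y
  have e7 := p3_up ψ (x + 1) y
  have e8 := p3_down ψ (x + 1) y
  simp only [add_sub_cancel_right] at e3 e4 e7 e8
  rcases f1 with f1 | f1
  · have s1 : (x, y) ∈ Y → (x, y + 1) ∈ Y := fun hp =>
      p3_step ψ D Y h _ _ hp (by simp [nb]) h4 (by omega)
    have s2 : (x, y + 1) ∈ Y → (x + 1, y + 1) ∈ Y := fun hp =>
      p3_step ψ D Y h _ _ hp (by simp [nb]) h3 (by omega)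
    have s3 : (x + 1, y + 1) ∈ Y → (x + 1, y) ∈ Y := fun hp =>
      p3_step ψ D Y h _ _ hp (by simp [nb]) h2 (by omega)
    have s4 : (x + 1, y) ∈ Y → (x, y) ∈ Y := fun hp =>
      p3_step ψ D Y h _ _ hp (by simp [nb]) h1 (by omega)
    tauto
  · have s1 : (x, y) ∈ Y → (x + 1, y) ∈ Y := fun hp =>
      p3_step ψ D Y h _ _ hp (by simp [nb]) h2 (by omega)
    have s2 : (x + 1, y) ∈ Y → (x + 1, y + 1) ∈ Y := fun hp =>
      p3_step ψ D Y h _ _ hp (by simp [nb]) h3 (by omega)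
    have s3 : (x + 1, y + 1) ∈ Y → (x, y + 1) ∈ Y := fun hp =>
      p3_step ψ D Y h _ _ hp (by simp [nb]) h4 (by omega)
    have s4 : (x, y + 1) ∈ Y → (x, y) ∈ Y := fun hp =>
      p3_step ψ D Y h _ _ hp (by simp [nb]) h1 (by omega)
    tauto

end Bd
end TorGrid
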