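import Pool.Agent.Lib.MP_caf32e_co.Bd.P3

/-! Weights and private boxes (page, section 0). -/

set_option autoImplicit false

namespace TorGrid
namespace Bd

open Finset

/-- membership in the annulus by inequalities -/
private theorem p5_inA (r x y : ℤ) : (InB (0, 0) (r + 1) (x, y) ∧ ¬ InB (0, 0) (r - 1) (x, y)) ↔
    (-(r + 1) ≤ x ∧ x ≤ r + 1 ∧ -(r + 1) ≤ y ∧ y ≤ r + 1) ∧
      (x ≤ -r ∨ r ≤ x ∨ y ≤ -r ∨ r ≤ y) := by
  unfold InB
  simp only [sub_zero, abs_le]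
  omega

/-- the four corners of a face in the annulus are in `Y` together -/
private theorem p5_face (ψ : P2 → ℤ) (hψ : F01 ψ) (r : ℤ) (Y : Finset P2)
    (h : ∀ p ∈ Y, ∀ q ∈ nb p, InB (0, 0) (r + 1) q ∧ ¬ InB (0, 0) (r - 1) q → q ∉ Y → wc ψ p q ≤ 0)
    (x y : ℤ) (h1 : -(r + 1) ≤ x) (h2 : x + 1 ≤ r + 1) (h3 : -(r + 1) ≤ y) (h4 : y + 1 ≤ r + 1)
    (h5 : x + 1 ≤ -r ∨ r ≤ x ∨ y + 1 ≤ -r ∨ r ≤ y)
    (hc : (x, y) ∈ Y ∨ (x + 1, y) ∈ Y ∨ (x + 1, y + 1) ∈ Y ∨ (x, y + 1) ∈ Y) :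
    (x, y) ∈ Y ∧ (x + 1, y) ∈ Y ∧ (x + 1, y + 1) ∈ Y ∧ (x, y + 1) ∈ Y := by
  refine face_closed ψ hψ (fun q => InB (0, 0) (r + 1) q ∧ ¬ InB (0, 0) (r - 1) q) Y h x y
    ?_ ?_ ?_ ?_ hc
  all_goals
    show InB (0, 0) (r + 1) _ ∧ ¬ InB (0, 0) (r - 1) _
    rw [p5_inA]
    omega

/-- a predicate on an interval of integers that passes to both neighbours is constant -/
private theorem p5_int (P : ℤ → Prop) (r : ℤ) (hP : ∀ x, -r ≤ x → x + 1 ≤ r → (P x ↔ P (x + 1)))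
    (a b : ℤ) (ha : -r ≤ a) (ha' : a ≤ r) (hb : -r ≤ b) (hb' : b ≤ r) (h : P a) : P b := by
  have key : ∀ n : ℕ, ∀ x : ℤ, -r ≤ x → x + n ≤ r → (P x ↔ P (x + n)) := by
    intro n
    induction n with
    | zero => intro x _ _; simp
    | succ n ih =>
      intro x h1 h2
      push_cast at h2
      rw [ih x h1 (by omega), hP (x + n) (by omega) (by omega)]
      push_cast
      rw [add_assoc]
  rcases le_total a b with hab | hab
  · have := key (b - a).toNat a ha (by omega)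
    rw [show a + ((b - a).toNat : ℤ) = b by omega] at this
    exact this.1 h
  · have := key (a - b).toNat b hb (by omega)
    rw [show b + ((a - b).toNat : ℤ) = a by omega] at this
    exact this.2 h

/-- a horizontal strip is in `Y` if one of its points is -/
private theorem p5_h (ψ : P2 → ℤ) (hψ : F01 ψ) (r : ℤ) (hr : 1 ≤ r) (Y : Finset P2)
    (h : ∀ p ∈ Y, ∀ q ∈ nb p, InB (0, 0) (r + 1) q ∧ ¬ InB (0, 0) (r - 1) q → q ∉ Y → wc ψ p q ≤ 0)
    (y : ℤ) (hy : y = r ∨ y = -(r + 1)) (a b : ℤ) (ha : -(r + 1) ≤ a) (ha' : a ≤ r + 1)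
    (hb : -(r + 1) ≤ b) (hb' : b ≤ r + 1) (hc : (a, y) ∈ Y ∨ (a, y + 1) ∈ Y) :
    (b, y) ∈ Y ∧ (b, y + 1) ∈ Y := by
  have f : ∀ x : ℤ, -(r + 1) ≤ x → x + 1 ≤ r + 1 →
      ((x, y) ∈ Y ∨ (x + 1, y) ∈ Y ∨ (x + 1, y + 1) ∈ Y ∨ (x, y + 1) ∈ Y) →
      (x, y) ∈ Y ∧ (x + 1, y) ∈ Y ∧ (x + 1, y + 1) ∈ Y ∧ (x, y + 1) ∈ Y := by
    intro x h1 h2 hq
    exact p5_face ψ hψ r Y h x y h1 h2 (by omega) (by omega) (by omega) hq
  have ha2 : (a, y) ∈ Y ∧ (a, y + 1) ∈ Y := by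
    by_cases h1 : a + 1 ≤ r + 1
    · have := f a ha h1 (by tauto)
      exact ⟨this.1, this.2.2.2⟩
    · have e : a - 1 + 1 = a := by ring
      have := f (a - 1) (by omega) (by omega) (by rw [e]; tauto)
      rw [e] at this
      exact ⟨this.2.1, this.2.2.1⟩
  refine p5_int (fun x => (x, y) ∈ Y ∧ (x, y + 1) ∈ Y) (r + 1) ?_ a b ha ha' hb hb' ha2
  intro x h1 h2
  constructor
  · rintro ⟨h3, -⟩
    have := f x h1 h2 (Or.inl h3)
    exact ⟨this.2.1, this.2.2.1⟩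
  · rintro ⟨h3, -⟩
    have := f x h1 h2 (Or.inr (Or.inl h3))
    exact ⟨this.1, this.2.2.2⟩

/-- a vertical strip is in `Y` if one of its points is -/
private theorem p5_v (ψ : P2 → ℤ) (hψ : F01 ψ) (r : ℤ) (hr : 1 ≤ r) (Y : Finset P2)
    (h : ∀ p ∈ Y, ∀ q ∈ nb p, InB (0, 0) (r + 1) q ∧ ¬ InB (0, 0) (r - 1) q → q ∉ Y → wc ψ p q ≤ 0)
    (x : ℤ) (hx : x = r ∨ x = -(r + 1)) (a b : ℤ) (ha : -(r + 1) ≤ a) (ha' : a ≤ r + 1)
    (hb : -(r + 1) ≤ b) (hb' : b ≤ r + 1) (hc : (x, a) ∈ Y ∨ (x + 1, a) ∈ Y) :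
    (x, b) ∈ Y ∧ (x + 1, b) ∈ Y := by
  have f : ∀ y : ℤ, -(r + 1) ≤ y → y + 1 ≤ r + 1 →
      ((x, y) ∈ Y ∨ (x + 1, y) ∈ Y ∨ (x + 1, y + 1) ∈ Y ∨ (x, y + 1) ∈ Y) →
      (x, y) ∈ Y ∧ (x + 1, y) ∈ Y ∧ (x + 1, y + 1) ∈ Y ∧ (x, y + 1) ∈ Y := by
    intro y h1 h2 hq
    exact p5_face ψ hψ r Y h x y (by omega) (by omega) h1 h2 (by omega) hq
  have ha2 : (x, a) ∈ Y ∧ (x + 1, a) ∈ Y := by
    by_cases h1 : a + 1 ≤ r + 1
    · have := f a ha h1 (by tauto)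
      exact ⟨this.1, this.2.1⟩
    · have e : a - 1 + 1 = a := by ring
      have := f (a - 1) (by omega) (by omega) (by rw [e]; tauto)
      rw [e] at this
      exact ⟨this.2.2.2, this.2.2.1⟩
  refine p5_int (fun y => (x, y) ∈ Y ∧ (x + 1, y) ∈ Y) (r + 1) ?_ a b ha ha' hb hb' ha2
  intro y h1 h2
  constructor
  · rintro ⟨h3, -⟩
    have := f y h1 h2 (Or.inl h3)
    exact ⟨this.2.2.2, this.2.2.1⟩
  · rintro ⟨h3, -⟩
    have := f y h1 h2 (Or.inr (Or.inr (Or.inr h3)))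
    exact ⟨this.1, this.2.1⟩

/-- ROW P5. The annulus `r ≤ |p| ≤ r + 1` (sup norm, `1 ≤ r`) is connected by its faces: every neighbour pair in the annulus lies in a
common face of the annulus, and the annulus is connected (walk round the outer ring; every inner point is adjacent to an outer one). -/
theorem ann_closed (ψ : P2 → ℤ) (hψ : F01 ψ) (r : ℤ) (hr : 1 ≤ r) (Y : Finset P2)
    (hY : ∀ p ∈ Y, InB (0, 0) (r + 1) p ∧ ¬ InB (0, 0) (r - 1) p)
    (h : ∀ p ∈ Y, ∀ q ∈ nb p, InB (0, 0) (r + 1) q ∧ ¬ InB (0, 0) (r - 1) q → q ∉ Y → wc ψ p q ≤ 0)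
    (hne : Y.Nonempty) : ∀ p, InB (0, 0) (r + 1) p ∧ ¬ InB (0, 0) (r - 1) p → p ∈ Y := by
  have H := p5_h ψ hψ r hr Y h
  have V := p5_v ψ hψ r hr Y h
  have eb : -(r + 1) + 1 = -r := by ring
  obtain ⟨⟨a, b⟩, hab⟩ := hne
  obtain ⟨⟨ha, ha', hb, hb'⟩, hor⟩ := (p5_inA r a b).1 (hY _ hab)
  -- the corner `(r, r)`
  have hcor : (r, r) ∈ Y := by
    rcases hor with h1 | h1 | h1 | h1
    · have h2 : (-(r + 1), b) ∈ Y ∨ (-(r + 1) + 1, b) ∈ Y := by
        have : a = -(r + 1) ∨ a = -(r + 1) + 1 := by omega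
        rcases this with e | e
        · left; rw [← e]; exact hab
        · right; rw [← e]; exact hab
      have h3 := (V (-(r + 1)) (Or.inr rfl) b r hb hb' (by omega) (by omega) h2).1
      exact (H r (Or.inl rfl) (-(r + 1)) r (by omega) (by omega) (by omega) (by omega)
        (Or.inl h3)).1
    · have h2 : (r, b) ∈ Y ∨ (r + 1, b) ∈ Y := by
        have : a = r ∨ a = r + 1 := by omega
        rcases this with e | e
        · left; rw [← e]; exact hab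
        · right; rw [← e]; exact hab
      exact (V r (Or.inl rfl) b r hb hb' (by omega) (by omega) h2).1
    · have h2 : (a, -(r + 1)) ∈ Y ∨ (a, -(r + 1) + 1) ∈ Y := by
        have : b = -(r + 1) ∨ b = -(r + 1) + 1 := by omega
        rcases this with e | e
        · left; rw [← e]; exact hab
        · right; rw [← e]; exact hab
      have h3 := (H (-(r + 1)) (Or.inr rfl) a r ha ha' (by omega) (by omega) h2).1
      exact (V r (Or.inl rfl) (-(r + 1)) r (by omega) (by omega) (by omega) (by omega)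
        (Or.inl h3)).1
    · have h2 : (a, r) ∈ Y ∨ (a, r + 1) ∈ Y := by
        have : b = r ∨ b = r + 1 := by omega
        rcases this with e | e
        · left; rw [← e]; exact hab
        · right; rw [← e]; exact hab
      exact (H r (Or.inl rfl) a r ha ha' (by omega) (by omega) h2).1
  -- the four strips
  have hT : ∀ x, -(r + 1) ≤ x → x ≤ r + 1 → (x, r) ∈ Y ∧ (x, r + 1) ∈ Y := fun x h1 h2 =>
    H r (Or.inl rfl) r x (by omega) (by omega) h1 h2 (Or.inl hcor)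
  have hR : ∀ y, -(r + 1) ≤ y → y ≤ r + 1 → (r, y) ∈ Y ∧ (r + 1, y) ∈ Y := fun y h1 h2 =>
    V r (Or.inl rfl) r y (by omega) (by omega) h1 h2 (Or.inl hcor)
  have hB : ∀ x, -(r + 1) ≤ x → x ≤ r + 1 → (x, -(r + 1)) ∈ Y ∧ (x, -(r + 1) + 1) ∈ Y :=
    fun x h1 h2 => H (-(r + 1)) (Or.inr rfl) r x (by omega) (by omega) h1 h2
      (Or.inl (hR (-(r + 1)) (by omega) (by omega)).1)
  have hL : ∀ y, -(r + 1) ≤ y → y ≤ r + 1 → (-(r + 1), y) ∈ Y ∧ (-(r + 1) + 1, y) ∈ Y :=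
    fun y h1 h2 => V (-(r + 1)) (Or.inr rfl) r y (by omega) (by omega) h1 h2
      (Or.inl (hT (-(r + 1)) (by omega) (by omega)).1)
  rintro ⟨c, d⟩ hcd
  obtain ⟨⟨hc, hc', hd, hd'⟩, hor'⟩ := (p5_inA r c d).1 hcd
  rcases hor' with h1 | h1 | h1 | h1
  · have := hL d hd hd'
    have e : c = -(r + 1) ∨ c = -(r + 1) + 1 := by omega
    rcases e with e | e
    · rw [e]; exact this.1
    · rw [e]; exact this.2
  · have := hR d hd hd'
    have e : c = r ∨ c = r + 1 := by omega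
    rcases e with e | e
    · rw [e]; exact this.1
    · rw [e]; exact this.2
  · have := hB c hc hc'
    have e : d = -(r + 1) ∨ d = -(r + 1) + 1 := by omega
    rcases e with e | e
    · rw [e]; exact this.1
    · rw [e]; exact this.2
  · have := hT c hc hc'
    have e : d = r ∨ d = r + 1 := by omega
    rcases e with e | e
    · rw [e]; exact this.1
    · rw [e]; exact this.2

end Bd
end TorGrid
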