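import Pool.Agent.Lib.MP_caf32e_co.Bd.P5

/-! Weights and private boxes (page, section 0). -/

set_option autoImplicit false

namespace TorGrid
namespace Bd

open Finset

private lemma p6_mono {r s : ℤ} (h : r ≤ s) {p : P2} (hp : InB (0, 0) r p) : InB (0, 0) s p :=
  ⟨le_trans hp.1 h, le_trans hp.2 h⟩

/-- one step of weight at least one in an annulus which is not pure -/
private lemma p6_step (ψ : P2 → ℤ) (hψ : F01 ψ) (r : ℤ) (hr : 1 ≤ r) (Y : Finset P2)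
    (h1 : ∃ p, (InB (0, 0) (r + 1) p ∧ ¬ InB (0, 0) (r - 1) p) ∧ p ∉ Y)
    (h2 : ∃ p, (InB (0, 0) (r + 1) p ∧ ¬ InB (0, 0) (r - 1) p) ∧ p ∈ Y) :
    ∃ p ∈ Y, (InB (0, 0) (r + 1) p ∧ ¬ InB (0, 0) (r - 1) p) ∧
      ∃ q ∈ nb p, InB (0, 0) (r + 1) q ∧ q ∉ Y ∧ 1 ≤ wc ψ p q := by
  classical
  by_contra hcon
  push Not at hcon
  obtain ⟨p1, hp1, hp1Y⟩ := h1
  obtain ⟨p2, hp2, hp2Y⟩ := h2
  have h := ann_closed ψ hψ r hr (Y.filter (fun p => InB (0, 0) (r + 1) p ∧ ¬ InB (0, 0) (r - 1) p))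
    (fun p hp => (Finset.mem_filter.1 hp).2)
    (fun p hp q hq hqD hqY => by
      have hqY' : q ∉ Y := fun hh => hqY (Finset.mem_filter.2 ⟨hh, hqD⟩)
      have := hcon p (Finset.mem_filter.1 hp).1 (Finset.mem_filter.1 hp).2 q hq hqD.1 hqY'
      omega)
    ⟨p2, Finset.mem_filter.2 ⟨hp2Y, hp2⟩⟩ p1 hp1
  exact hp1Y (Finset.mem_filter.1 h).1

/-- ROW P6. Steps inside the annulus `r ≤ |p| ≤ r + 1`: if `Y` contains some but not all of its points there is a step from a point of `Y`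
to a point of the annulus outside `Y` with weight at least one (ann_closed for `Y ∩ annulus`). For the disjoint annuli `r = R+2, R+4, ..`,
`K` of them, none of them pure: `cr ψ ρ Y ≥ K` (the steps are different terms of the sum, all terms are `≥ 0`). -/
theorem pure_ann (ψ : P2 → ℤ) (hψ : F01 ψ) (R : ℕ) (K : ℕ) (ρ : ℕ) (hρ : R + 2 * K + 4 ≤ ρ) (Y : Finset P2)
    (hY : ∀ p ∈ Y, InB (0, 0) ρ p) (hcr : cr ψ ρ Y < K) :
    ∃ r : ℤ, (R : ℤ) + 2 ≤ r ∧ r + 3 ≤ ρ ∧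
      ((∀ p, InB (0, 0) (r + 1) p ∧ ¬ InB (0, 0) (r - 1) p → p ∈ Y) ∨
       (∀ p, InB (0, 0) (r + 1) p ∧ ¬ InB (0, 0) (r - 1) p → p ∉ Y)) := by
  classical
  by_contra hcon
  have hstep : ∀ j : ℕ, ∃ p : P2, j < K → p ∈ Y ∧
      (InB (0, 0) ((R : ℤ) + 2 + 2 * j + 1) p ∧ ¬ InB (0, 0) ((R : ℤ) + 2 + 2 * j - 1) p) ∧
      ∃ q ∈ nb p, InB (0, 0) ((R : ℤ) + 2 + 2 * j + 1) q ∧ q ∉ Y ∧ 1 ≤ wc ψ p q := by
    intro j
    by_cases hj : j < K
    · have hj' : (j : ℤ) + 1 ≤ K := by exact_mod_cast hj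
      have hρ' : (R : ℤ) + 2 * K + 4 ≤ ρ := by exact_mod_cast hρ
      have hn : ¬ ((∀ p, InB (0, 0) ((R : ℤ) + 2 + 2 * j + 1) p ∧
            ¬ InB (0, 0) ((R : ℤ) + 2 + 2 * j - 1) p → p ∈ Y) ∨
          (∀ p, InB (0, 0) ((R : ℤ) + 2 + 2 * j + 1) p ∧
            ¬ InB (0, 0) ((R : ℤ) + 2 + 2 * j - 1) p → p ∉ Y)) := by
        intro hh
        exact hcon ⟨(R : ℤ) + 2 + 2 * j, by omega, by omega, hh⟩
      rw [not_or] at hn
      obtain ⟨n1, n2⟩ := hn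
      have n1' : ∃ p, (InB (0, 0) ((R : ℤ) + 2 + 2 * j + 1) p ∧
          ¬ InB (0, 0) ((R : ℤ) + 2 + 2 * j - 1) p) ∧ p ∉ Y := by
        by_contra h3
        exact n1 fun p hp => by
          by_contra h4
          exact h3 ⟨p, hp, h4⟩
      have n2' : ∃ p, (InB (0, 0) ((R : ℤ) + 2 + 2 * j + 1) p ∧
          ¬ InB (0, 0) ((R : ℤ) + 2 + 2 * j - 1) p) ∧ p ∈ Y := by
        by_contra h3
        exact n2 fun p hp h4 => h3 ⟨p, hp, h4⟩
      obtain ⟨p, hp, hpA, q, hq, hq1, hq2, hq3⟩ := p6_step ψ hψ ((R : ℤ) + 2 + 2 * j) (by omega) Y n1' n2'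
      exact ⟨p, fun _ => ⟨hp, hpA, q, hq, hq1, hq2, hq3⟩⟩
    · exact ⟨(0, 0), fun h => absurd h hj⟩
  choose P hP using hstep
  -- the points are different
  have hinj : Set.InjOn P (Finset.range K : Set ℕ) := by
    have key : ∀ i j : ℕ, i < K → j < K → i < j → P i ≠ P j := by
      intro i j hi hj hij heq
      have h1 := (hP i hi).2.1.1
      have h2 := (hP j hj).2.1.2
      rw [← heq] at h2
      have hij' : (i : ℤ) + 1 ≤ j := by exact_mod_cast hij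
      exact h2 (p6_mono (by omega) h1)
    intro i hi j hj heq
    rw [Finset.mem_coe, Finset.mem_range] at hi hj
    rcases lt_trichotomy i j with h | h | h
    · exact absurd heq (key i j hi hj h)
    · exact h
    · exact absurd heq.symm (key j i hj hi h)
  have hsub : (Finset.range K).image P ⊆ Y := by
    intro p hp
    obtain ⟨j, hj, rfl⟩ := Finset.mem_image.1 hp
    exact (hP j (Finset.mem_range.1 hj)).1
  have hnn : ∀ p : P2, 0 ≤ ∑ q ∈ (nb p).filter (fun q => InB (0, 0) (ρ : ℤ) q ∧ q ∉ Y), wc ψ p q :=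
    fun p => Finset.sum_nonneg fun q _ => wc_nn ψ hψ p q
  have hone : ∀ j ∈ Finset.range K, (1 : ℤ) ≤
      ∑ q ∈ (nb (P j)).filter (fun q => InB (0, 0) (ρ : ℤ) q ∧ q ∉ Y), wc ψ (P j) q := by
    intro j hj
    have hj := Finset.mem_range.1 hj
    have hj' : (j : ℤ) + 1 ≤ K := by exact_mod_cast hj
    have hρ' : (R : ℤ) + 2 * K + 4 ≤ ρ := by exact_mod_cast hρ
    obtain ⟨-, -, q, hq, hq1, hq2, hq3⟩ := hP j hj
    refine le_trans hq3 ?_
    exact Finset.single_le_sum (f := fun q => wc ψ (P j) q) (fun q _ => wc_nn ψ hψ (P j) q)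
      (Finset.mem_filter.2 ⟨hq, p6_mono (by omega) hq1, hq2⟩)
  have h1 : (K : ℤ) ≤ ∑ j ∈ Finset.range K,
      ∑ q ∈ (nb (P j)).filter (fun q => InB (0, 0) (ρ : ℤ) q ∧ q ∉ Y), wc ψ (P j) q := by
    have h2 := Finset.sum_le_sum hone
    simpa using h2
  have h2 : ∑ j ∈ Finset.range K,
      ∑ q ∈ (nb (P j)).filter (fun q => InB (0, 0) (ρ : ℤ) q ∧ q ∉ Y), wc ψ (P j) q =
      ∑ p ∈ (Finset.range K).image P,
        ∑ q ∈ (nb p).filter (fun q => InB (0, 0) (ρ : ℤ) q ∧ q ∉ Y), wc ψ p q :=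
    (Finset.sum_image (f := fun p => ∑ q ∈ (nb p).filter (fun q => InB (0, 0) (ρ : ℤ) q ∧ q ∉ Y),
      wc ψ p q) (fun i hi j hj h => hinj hi hj h)).symm
  have h3 : ∑ p ∈ (Finset.range K).image P,
        ∑ q ∈ (nb p).filter (fun q => InB (0, 0) (ρ : ℤ) q ∧ q ∉ Y), wc ψ p q ≤
      ∑ p ∈ Y, ∑ q ∈ (nb p).filter (fun q => InB (0, 0) (ρ : ℤ) q ∧ q ∉ Y), wc ψ p q :=
    Finset.sum_le_sum_of_subset_of_nonneg hsub fun p _ _ => hnn p
  have h4 : (K : ℤ) ≤ cr ψ ρ Y := by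
    unfold cr
    refine le_trans (h1.trans (h2.le.trans h3)) (le_of_eq ?_)
    refine Finset.sum_congr rfl fun p _ => ?_
    congr!
  omega

end Bd
end TorGrid
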