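import Pool.Agent.Lib.MP_caf32e_co.Bd.C6
import Pool.Agent.Lib.MP_caf32e_co.Bd.G2

/-! The main inequality (page, section 3). Standing constants: `GoodP R ρ`, `R1 = 2 ρ`, `8 ρ ≤ r`. -/

set_option autoImplicit false

namespace TorGrid
namespace Bd

open Finset

variable {V : Type} [Fintype V] [DecidableEq V] {r M : ℕ} {K : Coll V r M} {R ρ : ℕ}

/-- neighbours of a point of the box of radius `s` lie in the box of radius `s + 1` -/
private theorem w1_nb {s : ℤ} {p q : P2} (hp : InB (0, 0) s p) (hq : q ∈ nb p) :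
    InB (0, 0) (s + 1) q := by
  obtain ⟨h1, h2⟩ := hp
  simp only [sub_zero] at h1 h2
  rw [abs_le] at h1 h2
  simp only [nb, mem_insert, mem_singleton] at hq
  unfold InB
  simp only [sub_zero]
  rcases hq with rfl | rfl | rfl | rfl <;> constructor <;> rw [abs_le] <;> constructor <;>
    simp only <;> linarith

open Classical in
/-- ROW W1. All vertices `ch z p` of the box of radius `2ρ` are not tame, so not in `Ft`, `Ft'`; in the collar `chi = oc + oc' = cd` (`cd_col`), outside the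
collar `chi = cd` (`chB`). `cd (ch z p)` is a sum over the neighbours `ch z q`, `q ∈ nb p` (`chadj`, injective by `chinj`), weights by `chwt`. -/
theorem KW.chart_chi (W : KW K R ρ (2 * ρ)) (hρ : 1 ≤ ρ) (hr : 8 * ρ ≤ r) (X' : Finset V) (z : V)
    (hz : z ∈ W.cfg.S) (p : P2) (hp : InB (0, 0) ((2 * ρ : ℕ) : ℤ) p) :
    W.cfg.chi X' (K.ch z p) = ∑ q ∈ (nb p).filter (fun q => K.ch z q ∉ X'), wc (K.ψ z) p q := by
  obtain ⟨hz0, hz1⟩ := W.cfg.hS z hz
  have hr2 : ((2 * ρ : ℕ) : ℤ) ≤ (r : ℤ) := by exact_mod_cast (by omega : 2 * ρ ≤ r)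
  have hpr : InB (0, 0) (r : ℤ) p := ⟨le_trans hp.1 hr2, le_trans hp.2 hr2⟩
  have hnT : ¬ W.cfg.Ts (K.ch z p) := fun h => h.2.2 z hz p hp rfl
  have hF : ¬ W.cfg.Ft (K.ch z p) := fun h => hnT h.1
  have hF' : ¬ W.cfg.Ft' (K.ch z p) := fun h => hnT h.1
  have hB : K.B (K.ch z p) := K.chB z hz0 hz1 p hpr
  have h1 : W.cfg.chi X' (K.ch z p) = K.cd X' (K.ch z p) := by
    unfold KCfg.chi
    rw [if_neg hF, if_neg hF', if_pos hB]
    split_ifs with hC
    · exact (K.cd_col (by omega) X' _ hC).symm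
    · rfl
  rw [h1]
  unfold Coll.cd
  have h2 : univ.filter (fun w => K.G.Adj (K.ch z p) w ∧ w ∉ X')
      = ((nb p).filter (fun q => K.ch z q ∉ X')).image (K.ch z) := by
    ext w
    simp only [mem_filter, mem_univ, true_and, mem_image]
    constructor
    · rintro ⟨ha, hw⟩
      obtain ⟨q, hq, rfl⟩ := (K.chadj z hz0 hz1 p hpr w).1 ha
      exact ⟨q, ⟨hq, hw⟩, rfl⟩
    · rintro ⟨q, ⟨hq, hw⟩, rfl⟩
      exact ⟨(K.chadj z hz0 hz1 p hpr _).2 ⟨q, hq, rfl⟩, hw⟩
  rw [h2, Finset.sum_image]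
  · refine Finset.sum_congr rfl fun q hq => ?_
    exact K.chwt z hz0 hz1 p hpr q (mem_filter.1 hq).1
  · intro a ha b hb hab
    have ha' := (mem_filter.1 (Finset.mem_coe.1 ha)).1
    have hb' := (mem_filter.1 (Finset.mem_coe.1 hb)).1
    exact K.chinj z hz0 hz1 a b (w1_nb hpr ha') (w1_nb hpr hb') hab

end Bd
end TorGrid
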