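import Pool.Agent.Lib.MP_caf32e_co.Bd.W1
import Pool.Agent.Lib.MP_caf32e_co.Bd.P7

/-! The main inequality (page, section 3). Standing constants: `GoodP R ρ`, `R1 = 2 ρ`, `8 ρ ≤ r`. -/

set_option autoImplicit false

namespace TorGrid
namespace Bd

open Finset

variable {V : Type} [Fintype V] [DecidableEq V] {r M : ℕ} {K : Coll V r M} {R ρ : ℕ}

/-- ROW W2. `chi ≥ 0` (each of `oc`, `oc'`, `cd` is `≥ 0`, `wt_nn`). -/
theorem KW.chi_nn (W : KW K R ρ (2 * ρ)) (X' : Finset V) (g : V) : 0 ≤ W.cfg.chi X' g := by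
  classical
  have h1 : 0 ≤ K.oc X' g := by
    unfold Coll.oc
    split_ifs <;> norm_num
  have h2 : 0 ≤ K.oc' X' g := by
    unfold Coll.oc'
    split_ifs <;> norm_num
  have h3 : 0 ≤ K.cd X' g := by
    unfold Coll.cd
    exact Finset.sum_nonneg fun w _ => K.wt_nn g w
  unfold KCfg.chi
  split_ifs
  all_goals first | exact h3 | exact le_refl _ | skip
  all_goals linarith

private theorem w2_mem (s : ℕ) (X' : Finset V) (z : V) (p : P2) :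
    p ∈ K.Yz s X' z ↔ InB (0, 0) (s : ℤ) p ∧ K.ch z p ∈ X' := by
  classical
  unfold Coll.Yz InB
  rw [Finset.mem_filter, Finset.mem_product, Finset.mem_Icc, Finset.mem_Icc, abs_le, abs_le]
  simp only [sub_zero]

/-- ROW W2. `chart_chi` and `GoodP` for the plane lists `L ∘ ch z`, `ψ z`, `Y = Yz ρ (pre X) z`: `∑_Y chi ≥ cr (ψ z) ρ Y` (drop the steps that leave the box; for `q` in the
box `ch z q ∉ pre X` iff `q ∉ Y`; all weights `≥ 0`) and `ls = lost` (`cfg_basic`; `Y` is disjoint from `U z`, because precoloured vertices are not in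
`pre X`). -/
theorem KW.pbox (W : KW K R ρ (2 * ρ)) (hg : GoodP R ρ) (hr : 8 * ρ ≤ r) (X : Finset V) (z : V)
    (hz : z ∈ W.cfg.S) :
    0 ≤ ∑ p ∈ K.Yz ρ (W.pre X) z,
      (W.cfg.chi (W.pre X) (K.ch z p) - 2 * W.cfg.ls (K.ch z p)) ∧
    ((K.Yz ρ (W.pre X) z).Nonempty → (∑ p ∈ K.Yz ρ (W.pre X) z,
      (W.cfg.chi (W.pre X) (K.ch z p) - 2 * W.cfg.ls (K.ch z p))) ≤ 0 →
      ∃ Y' ⊆ K.Yz ρ (W.pre X) z, Y'.Nonempty ∧ (∀ v ∈ Y', InB (0, 0) (ρ - 2) v) ∧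
          ∀ v ∈ Y', ∀ w ∈ nb v, w ∈ K.Yz ρ (W.pre X) z → w ∈ Y') := by
  classical
  obtain ⟨hR, hG⟩ := hg
  set Y := K.Yz ρ (W.pre X) z with hY
  have hmem : ∀ p, p ∈ Y ↔ InB (0, 0) (ρ : ℤ) p ∧ K.ch z p ∈ W.pre X := fun p => w2_mem ρ _ z p
  have hU : ∀ p ∈ Y, p ∉ W.cfg.U z := by
    intro p hp hu
    have h1 := ((hmem p).1 hp).2
    unfold KW.pre at h1
    rw [Finset.mem_filter] at h1
    exact h1.2.1 ⟨z, hz, p, hu, rfl⟩
  have hdis : Disjoint Y (W.cfg.U z) := Finset.disjoint_left.2 hU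
  obtain ⟨g1, g2⟩ := hG (fun p => W.L (K.ch z p)) (fun v => W.hL _) (W.cfg.U z) (W.cfg.φ z)
    (W.cfg.spot z hz) (W.cfg.inR z hz) (K.ψ z) (K.ψ01 z) Y (fun v hv => ((hmem v).1 hv).1) hdis
  obtain ⟨-, -, b3, -, -, -, -, -⟩ := cfg_basic W.hL W.cfg hR (by omega) (by omega)
  have hls : ∀ p ∈ Y, W.cfg.ls (K.ch z p) =
      (lost (fun q => W.L (K.ch z q)) (W.cfg.U z) (W.cfg.φ z) p : ℤ) :=
    fun p hp => b3 z hz p ((hmem p).1 hp).1 (hU p hp)
  have hchi : cr (K.ψ z) ρ Y ≤ ∑ p ∈ Y, W.cfg.chi (W.pre X) (K.ch z p) := by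
    unfold cr
    refine Finset.sum_le_sum fun p hp => ?_
    have hb := ((hmem p).1 hp).1
    rw [W.chart_chi (by omega) hr (W.pre X) z hz p (by
      unfold InB at hb ⊢
      push_cast
      constructor
      · linarith [hb.1, abs_nonneg (p.1 - (0, 0).1)]
      · linarith [hb.2, abs_nonneg (p.2 - (0, 0).2)])]
    refine Finset.sum_le_sum_of_subset_of_nonneg ?_ fun q _ _ => wc_nn _ (K.ψ01 z) p q
    intro q hq
    rw [Finset.mem_filter] at hq ⊢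
    exact ⟨hq.1, fun h => hq.2.2 ((hmem q).2 ⟨hq.2.1, h⟩)⟩
  have hsum : ∑ p ∈ Y, (W.cfg.chi (W.pre X) (K.ch z p) - 2 * W.cfg.ls (K.ch z p)) =
      ∑ p ∈ Y, W.cfg.chi (W.pre X) (K.ch z p) -
        2 * ∑ p ∈ Y, (lost (fun q => W.L (K.ch z q)) (W.cfg.U z) (W.cfg.φ z) p : ℤ) := by
    rw [Finset.sum_sub_distrib, Finset.mul_sum]
    congr 1
    exact Finset.sum_congr rfl fun p hp => by rw [hls p hp]
  refine ⟨by rw [hsum]; linarith, fun hne hle => ?_⟩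
  rw [hsum] at hle
  exact g2 hne (by linarith)

end Bd
end TorGrid
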