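import Pool.Agent.Lib.MP_caf32e_co.Bd.W2

/-! The main inequality (page, section 3). Standing constants: `GoodP R ρ`, `R1 = 2 ρ`, `8 ρ ≤ r`. -/

set_option autoImplicit false

namespace TorGrid
namespace Bd

open Finset

variable {V : Type} [Fintype V] [DecidableEq V] {r M : ℕ} {K : Coll V r M} {R ρ : ℕ}

private lemma w3_mem (s : ℕ) (X' : Finset V) (z : V) (p : P2) :
    p ∈ K.Yz s X' z ↔ InB (0, 0) (s : ℤ) p ∧ K.ch z p ∈ X' := by
  unfold Coll.Yz InB
  simp only [Finset.mem_filter, Finset.mem_product, Finset.mem_Icc, sub_zero, abs_le]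

open Classical in
/-- the sum over the vertices in private boxes -/
private lemma w3_sum (W : KW K R ρ (2 * ρ)) (hr : 8 * ρ ≤ r) (X' : Finset V) (F : V → ℤ) :
    ∑ g ∈ X'.filter (fun g => W.cfg.Pv g), F g =
      ∑ z ∈ W.cfg.S, ∑ p ∈ K.Yz ρ X' z, F (K.ch z p) := by
  have hρr : (ρ : ℤ) ≤ (r : ℤ) + 1 := by
    have : (8 * ρ : ℤ) ≤ r := by exact_mod_cast hr
    have h0 : (0 : ℤ) ≤ ρ := Int.natCast_nonneg ρ
    linarith
  have hmono : ∀ p : P2, InB (0, 0) (ρ : ℤ) p → InB (0, 0) ((r : ℤ) + 1) p := fun p hp =>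
    ⟨le_trans hp.1 hρr, le_trans hp.2 hρr⟩
  rw [Finset.sum_sigma']
  symm
  refine Finset.sum_bij (fun x _ => K.ch x.1 x.2) ?_ ?_ ?_ ?_
  · rintro ⟨z, p⟩ hx
    rw [Finset.mem_sigma] at hx
    obtain ⟨hz, hp⟩ := hx
    have hp' := (w3_mem (K := K) ρ X' z p).1 hp
    rw [Finset.mem_filter]
    exact ⟨hp'.2, z, hz, p, hp'.1, rfl⟩
  · rintro ⟨z, p⟩ hx ⟨z', p'⟩ hx' heq
    rw [Finset.mem_sigma] at hx hx'
    obtain ⟨hz, hp⟩ := hx
    obtain ⟨hz', hp'⟩ := hx'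
    have hp1 := (w3_mem (K := K) ρ X' z p).1 hp
    have hp1' := (w3_mem (K := K) ρ X' z' p').1 hp'
    simp only at heq
    by_cases hzz : z = z'
    · subst hzz
      have hC := W.cfg.hS z hz
      have := K.chinj z hC.1 hC.2 p p' (hmono p hp1.1) (hmono p' hp1'.1) heq
      rw [this]
    · exact absurd heq (W.cfg.sep z hz z' hz' hzz p p' hp1.1 hp1'.1)
  · intro g hg
    rw [Finset.mem_filter] at hg
    obtain ⟨hgX, z, hz, p, hp, rfl⟩ := hg
    refine ⟨⟨z, p⟩, ?_, rfl⟩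
    rw [Finset.mem_sigma]
    exact ⟨hz, (w3_mem (K := K) ρ X' z p).2 ⟨hp, hgX⟩⟩
  · intro x _
    rfl

open Classical in
/-- ROW W3. For every `X ⊆ Rs`: `0 ≤ ∑_(pre X) (chi - 2 ls)`; more precisely the sum over the private boxes of the gains plus the `chi` of the
other vertices: split `pre X` into the vertices in private boxes (`Pv`; the boxes are disjoint: `sep`, `chinj`, so the sum over `Pv` vertices is the sum over
`z ∈ S` of the sums over `Yz ρ`) and the others (`ls = 0` there by `cfg_basic`). -/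
theorem KW.split (W : KW K R ρ (2 * ρ)) (hg : GoodP R ρ) (hr : 8 * ρ ≤ r) (X : Finset V) :
    ∑ g ∈ W.pre X, (W.cfg.chi (W.pre X) g - 2 * W.cfg.ls g) =
      ∑ z ∈ W.cfg.S, ∑ p ∈ K.Yz ρ (W.pre X) z,
        (W.cfg.chi (W.pre X) (K.ch z p) - 2 * W.cfg.ls (K.ch z p)) +
      ∑ g ∈ (W.pre X).filter (fun g => ¬ W.cfg.Pv g), W.cfg.chi (W.pre X) g := by
  have h1 : R + 4 < ρ := hg.1
  have hb := cfg_basic W.hL W.cfg h1 (by omega) (by omega)
  have hls : ∀ g, ¬ W.cfg.Pv g → W.cfg.ls g = 0 := by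
    intro g hgp
    have h2 := hb.2.2.2.1 g hgp
    unfold KCfg.ls
    rw [h2, W.hL g]
    norm_num
  rw [← w3_sum W hr (W.pre X) (fun g => W.cfg.chi (W.pre X) g - 2 * W.cfg.ls g),
    ← Finset.sum_filter_add_sum_filter_not (W.pre X) (fun g => W.cfg.Pv g)]
  congr 1
  apply Finset.sum_congr rfl
  intro g hg'
  rw [Finset.mem_filter] at hg'
  rw [hls g hg'.2]
  ring

end Bd
end TorGrid
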