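import Pool.Agent.Lib.MP_caf32e_co.Bd.W3
import Pool.Agent.Lib.MP_caf32e_co.Bd.C7
import Pool.Agent.Lib.MP_caf32e_co.K4
import Pool.Agent.Lib.MP_caf32e_co.K6

/-! The main inequality (page, section 3). Standing constants: `GoodP R ρ`, `R1 = 2 ρ`, `8 ρ ≤ r`. -/

set_option autoImplicit false

namespace TorGrid
namespace Bd

open Finset

variable {V : Type} [Fintype V] [DecidableEq V] {r M : ℕ} {K : Coll V r M} {R ρ : ℕ}

private theorem w4_nb {s : ℤ} {p q : P2} (hp : InB (0, 0) s p) (hq : q ∈ nb p) :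
    InB (0, 0) (s + 1) q := by
  obtain ⟨h1, h2⟩ := hp
  simp only [nb, mem_insert, mem_singleton] at hq
  simp only [sub_zero, abs_le] at h1 h2
  rcases hq with rfl | rfl | rfl | rfl <;>
    exact ⟨by simp only [sub_zero, abs_le]; constructor <;> linarith [h1.1, h1.2],
      by simp only [sub_zero, abs_le]; constructor <;> linarith [h2.1, h2.2]⟩

private theorem w4_par {p q : P2} (hq : q ∈ nb p) : Even (p.1 + p.2) ↔ ¬ Even (q.1 + q.2) := by
  simp only [nb, mem_insert, mem_singleton] at hq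
  rcases hq with rfl | rfl | rfl | rfl <;> simp only [Int.even_iff] <;> omega

private theorem w4_mono {a s : ℤ} {p : P2} (h : InB (0, 0) a p) (hrs : a ≤ s) :
    InB (0, 0) s p := ⟨h.1.trans hrs, h.2.trans hrs⟩

/-- vertices of the big box are not tame -/
private theorem w4_wild (W : KW K R ρ (2 * ρ)) (z : V) (hz : z ∈ W.cfg.S) (p : P2)
    (hp : InB (0, 0) ((2 * ρ : ℕ) : ℤ) p) : ¬ W.cfg.Ts (K.ch z p) :=
  fun h => h.2.2 z hz p hp rfl

/-- a vertex which is not tame is its own representative -/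
private theorem w4_rep (W : KW K R ρ (2 * ρ)) (v : V) (hv : ¬ W.cfg.Ts v) : W.rep v = v := by
  obtain ⟨k, hk1, hk2, -⟩ := W.hrep v
  rcases Nat.eq_zero_or_pos k with rfl | hk
  · simpa using hk1
  · exact absurd (hk2 0 hk).1 hv

/-- only a vertex which is not tame itself is represented by it -/
private theorem w4_rep' (W : KW K R ρ (2 * ρ)) (u v : V) (hv : ¬ W.cfg.Ts v)
    (h : W.rep u = v) : u = v := by
  obtain ⟨k, hk1, hk2, -⟩ := W.hrep u
  rcases Nat.eq_zero_or_pos k with rfl | hk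
  · rw [← h, hk1]; rfl
  · obtain ⟨j, rfl⟩ : ∃ j, k = j + 1 := ⟨k - 1, by omega⟩
    have h1 := (hk2 j (by omega)).2
    rw [← Function.iterate_succ_apply' K.σ j u, ← hk1, h] at h1
    exact absurd h1 hv

/-- quotient neighbours of a vertex of a private box -/
private theorem w4_Q (W : KW K R ρ (2 * ρ)) (hρ : 1 ≤ ρ) (hr : 8 * ρ ≤ r) (z : V)
    (hz : z ∈ W.cfg.S) (p : P2) (hp : InB (0, 0) (ρ : ℤ) p) (v : V)
    (h : W.Q.Adj (K.ch z p) v) : ∃ q ∈ nb p, v = K.ch z q := by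
  have hC := W.cfg.hS z hz
  obtain ⟨-, u', v', -, -, hu, hv, ha⟩ := h
  have hp1 : InB (0, 0) ((2 * ρ : ℕ) : ℤ) p := w4_mono hp (by push_cast; linarith)
  have hp2 : InB (0, 0) (r : ℤ) p := w4_mono hp (by exact_mod_cast (by omega : ρ ≤ r))
  have hu2 : u' = K.ch z p := w4_rep' W u' _ (w4_wild W z hz p hp1) hu
  rw [hu2, K.chadj z hC.1 hC.2 p hp2] at ha
  obtain ⟨q, hq, hv'⟩ := ha
  have hq1 : InB (0, 0) ((2 * ρ : ℕ) : ℤ) q :=
    w4_mono (w4_nb hp hq) (by exact_mod_cast (by omega : ρ + 1 ≤ 2 * ρ))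
  refine ⟨q, hq, ?_⟩
  rw [← hv, hv', w4_rep W _ (w4_wild W z hz q hq1)]

open Classical in
private theorem w4_mem (W : KW K R ρ (2 * ρ)) (X : Finset V) (hX : X ⊆ W.Rs) (z : V)
    (hz : z ∈ W.cfg.S) (p : P2) :
    p ∈ K.Yz ρ (W.pre X) z ↔ InB (0, 0) ρ p ∧ K.ch z p ∈ X := by
  have e1 : p ∈ K.Yz ρ (W.pre X) z ↔ InB (0, 0) ρ p ∧ K.ch z p ∈ W.pre X := by
    unfold Coll.Yz InB
    simp only [mem_filter, mem_product, mem_Icc, sub_zero, abs_le]
  rw [e1]
  refine and_congr_right fun hp => ?_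
  have hp1 : InB (0, 0) ((2 * ρ : ℕ) : ℤ) p := w4_mono hp (by push_cast; linarith)
  have h1 := w4_rep W _ (w4_wild W z hz p hp1)
  unfold KW.pre
  rw [mem_filter, h1]
  constructor
  · exact fun h => h.2.2
  · intro h
    refine ⟨mem_univ _, ?_, h⟩
    have h2 := hX h
    unfold KW.Rs at h2
    exact (mem_filter.1 h2).2.1

open Classical in
private theorem w4_h2 (W : KW K R ρ (2 * ρ)) (hg : GoodP R ρ) (hr : 8 * ρ ≤ r) (X : Finset V)
    (hX : X ⊆ W.Rs) : 0 ≤ h2 W.Q W.cfg.L1 X := by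
  obtain ⟨hR, -⟩ := id hg
  have hb := cfg_basic W.hL W.cfg hR (by omega) (by omega)
  refine le_trans ?_ (W.key (by omega) hb.1 hb.2.2.2.2.1 X hX)
  rw [W.split hg hr X]
  refine add_nonneg (sum_nonneg fun z hz => (W.pbox hg hr X z hz).1)
    (sum_nonneg fun g _ => W.chi_nn _ g)

/-- ROW W4. Copy of `World.pbox_crit` (W4b.lean). Otherwise `pbox` gives `Y'`; its image under `ch z` is a nonempty part of `X` (vertices of the box are not tame, so their
own representatives) without `Q`-neighbours in the rest of `X` (neighbours in `G` of `ch z p`, `p` in the box of radius `ρ - 2`, are `ch z q`, `q ∈ nb p`), so it is all of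
`X` (`crit_connected`). `X` is bipartite by the parity of `p.1 + p.2` in the chart and `h2 ≥ 0` on all its subsets (`key`, `split`, `pbox`, `chi_nn`), so
colourable by `bip_col`: contradiction. -/
theorem KW.pbox_crit (W : KW K R ρ (2 * ρ)) (hg : GoodP R ρ) (hr : 8 * ρ ≤ r) (X : Finset V)
    (hX : X ⊆ W.Rs) (z : V) (hz : z ∈ W.cfg.S) (hne : (K.Yz ρ (W.pre X) z).Nonempty)
    (h1 : ¬ ColOn W.Q W.cfg.L1 X) (h2 : ∀ Y, Y ⊂ X → ColOn W.Q W.cfg.L1 Y) :
    1 ≤ ∑ p ∈ K.Yz ρ (W.pre X) z,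
      (W.cfg.chi (W.pre X) (K.ch z p) - 2 * W.cfg.ls (K.ch z p)) := by
  classical
  obtain ⟨hR, -⟩ := id hg
  have hC := W.cfg.hS z hz
  by_contra hcon
  obtain ⟨Y', hY1, hY2, hY3, hY4⟩ := (W.pbox hg hr X z hz).2 hne (by omega)
  have hin : ∀ p ∈ Y', InB (0, 0) (ρ : ℤ) p := fun p hp => w4_mono (hY3 p hp) (by linarith)
  have hYX : Y'.image (K.ch z) ⊆ X := by
    intro v hv
    obtain ⟨p, hp, rfl⟩ := mem_image.1 hv
    exact ((w4_mem W X hX z hz p).1 (hY1 hp)).2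
  have hcl : ∀ u ∈ Y'.image (K.ch z), ∀ v ∈ X, W.Q.Adj u v → v ∈ Y'.image (K.ch z) := by
    intro u hu v hv ha
    obtain ⟨p, hp, rfl⟩ := mem_image.1 hu
    obtain ⟨q, hq, rfl⟩ := w4_Q W (by omega) hr z hz p (hin p hp) v ha
    have hq1 : InB (0, 0) (ρ : ℤ) q := w4_mono (w4_nb (hY3 p hp) hq) (by linarith)
    exact mem_image_of_mem _ (hY4 p hp q hq ((w4_mem W X hX z hz q).2 ⟨hq1, hv⟩))
  have hYeq : Y'.image (K.ch z) = X :=
    crit_connected W.Q W.cfg.L1 X h1 h2 _ hYX (hY2.image _) hcl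
  have hinj : ∀ p q, InB (0, 0) (ρ : ℤ) p → InB (0, 0) (ρ : ℤ) q →
      K.ch z p = K.ch z q → p = q :=
    fun p q hp hq h => K.chinj z hC.1 hC.2 p q
      (w4_mono hp (by exact_mod_cast (by omega : ρ ≤ r + 1)))
      (w4_mono hq (by exact_mod_cast (by omega : ρ ≤ r + 1))) h
  apply h1
  refine bip_col W.Q (fun v => ∃ p, InB (0, 0) (ρ : ℤ) p ∧ K.ch z p = v ∧ Even (p.1 + p.2))
    W.cfg.L1 X ?_ fun Z hZ => w4_h2 W hg hr Z (hZ.trans hX)
  intro u hu v hv ha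
  rw [← hYeq] at hu hv
  obtain ⟨p, hp, rfl⟩ := mem_image.1 hu
  obtain ⟨q, hq, rfl⟩ := mem_image.1 hv
  obtain ⟨q', hq', hqq⟩ := w4_Q W (by omega) hr z hz p (hin p hp) _ ha
  have hq1 : InB (0, 0) (ρ : ℤ) q' := w4_mono (w4_nb (hY3 p hp) hq') (by linarith)
  have hqe : q = q' := hinj q q' (hin q hq) hq1 hqq
  subst hqe
  have e1 : ∀ s, InB (0, 0) (ρ : ℤ) s →
      ((∃ p, InB (0, 0) (ρ : ℤ) p ∧ K.ch z p = K.ch z s ∧ Even (p.1 + p.2)) ↔
        Even (s.1 + s.2)) := by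
    intro s hs
    constructor
    · rintro ⟨t, ht, ht1, ht2⟩
      rwa [hinj t s ht hs ht1] at ht2
    · intro h
      exact ⟨s, hs, rfl, h⟩
  rw [e1 p (hin p hp), e1 q (hin q hq)]
  exact w4_par hq'

end Bd
end TorGrid
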