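import Pool.Agent.Lib.MP_caf32e_co.Bd.W2

/-! The main inequality (page, section 3). Standing constants: `GoodP R ρ`, `R1 = 2 ρ`, `8 ρ ≤ r`. -/

set_option autoImplicit false

namespace TorGrid
namespace Bd

open Finset

variable {V : Type} [Fintype V] [DecidableEq V] {r M : ℕ} {K : Coll V r M} {R ρ : ℕ}

private theorem w5_mem {s : ℕ} {X' : Finset V} {z : V} {p : P2} :
    p ∈ K.Yz s X' z ↔ InB (0, 0) (s : ℤ) p ∧ K.ch z p ∈ X' := by
  classical
  unfold Coll.Yz InB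
  rw [mem_filter, mem_product, mem_Icc, mem_Icc]
  simp only [sub_zero, abs_le]

/-- ROW W5. `Y = Yz (2ρ) (pre X) z` is nonempty and not the whole box (`U z` is nonempty: `S1` for `Z = ∅`; its vertices are precoloured, so not in `pre X`). By
`box_closed` some `q ∈ Y` has a step of weight `≥ 1` to a point of the box outside `Y`; so `chi (ch z q) ≥ 1` by `chart_chi`. -/
theorem KW.walk (W : KW K R ρ (2 * ρ)) (hg : GoodP R ρ) (hr : 8 * ρ ≤ r) (X : Finset V) (z : V)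
    (hz : z ∈ W.cfg.S) (p : P2) (hp : InB (0, 0) ((2 * ρ : ℕ) : ℤ) p) (hpX : K.ch z p ∈ W.pre X) :
    ∃ q, InB (0, 0) ((2 * ρ : ℕ) : ℤ) q ∧ K.ch z q ∈ W.pre X ∧
      (W.cfg.Pv (K.ch z q) ∨ 1 ≤ W.cfg.chi (W.pre X) (K.ch z q)) := by
  classical
  have hρ : 1 ≤ ρ := by
    have := hg.1
    omega
  by_contra hcon
  push Not at hcon
  have hall := box_closed (K.ψ z) (K.ψ01 z) ((2 * ρ : ℕ) : ℤ) (by push_cast; omega)
    (K.Yz (2 * ρ) (W.pre X) z) (fun q hq => (w5_mem.1 hq).1) ?_ ⟨p, w5_mem.2 ⟨hp, hpX⟩⟩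
  · have hU : (W.cfg.U z).Nonempty := by
      rw [Finset.nonempty_iff_ne_empty]
      intro h0
      have h1 := (W.cfg.spot z hz).S1 ∅ (by rw [h0])
      have h2 : bd (∅ : Finset P2) = 0 := by simp [bd]
      omega
    obtain ⟨u, hu⟩ := hU
    have hR := W.cfg.inR z hz u hu
    have hub : InB (0, 0) ((2 * ρ : ℕ) : ℤ) u := by
      have h3 := hg.1
      unfold InB at hR ⊢
      push_cast
      have hle : (R : ℤ) ≤ 2 * (ρ : ℤ) := by omega
      exact ⟨le_trans hR.1 hle, le_trans hR.2 hle⟩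
    have hm := (w5_mem.1 (hall u hub)).2
    unfold KW.pre at hm
    rw [mem_filter] at hm
    exact hm.2.1 ⟨z, hz, u, hu, rfl⟩
  · intro a ha b hb hbB hbY
    by_contra hw
    push Not at hw
    have ha' := w5_mem.1 ha
    have hbX : K.ch z b ∉ W.pre X := fun h => hbY (w5_mem.2 ⟨hbB, h⟩)
    have hc := W.chart_chi hρ hr (W.pre X) z hz a ha'.1
    have h1 : wc (K.ψ z) a b ≤
        ∑ q ∈ (nb a).filter (fun q => K.ch z q ∉ W.pre X), wc (K.ψ z) a q :=
      Finset.single_le_sum (f := fun q => wc (K.ψ z) a q)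
        (fun q _ => wc_nn (K.ψ z) (K.ψ01 z) a q) (mem_filter.2 ⟨hb, hbX⟩)
    have h2 := (hcon a ha'.1 ha'.2).2
    rw [hc] at h2
    omega

end Bd
end TorGrid
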