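import Pool.Agent.Lib.MP_caf32e_co.Bd.C1
import Pool.Agent.Lib.MP_caf32e_co.Bd.G2

/-! The main inequality (page, section 3). Standing constants: `GoodP R ρ`, `R1 = 2 ρ`, `8 ρ ≤ r`. -/

set_option autoImplicit false

namespace TorGrid
namespace Bd

open Finset

variable {V : Type} [Fintype V] [DecidableEq V] {r M : ℕ} {K : Coll V r M} {R ρ : ℕ}

/-- ROW W6. Page (3.3). `a` is tame, `σ a` is in the layer of `a` but not tame (`a ∈ X` is not in `Ft`), so `σ a = ch z p0` with `p0` in the box of radius `2ρ`, `z ∈ S`. Go to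
the chart of `z` (`glue` from the chart of `σ a`: `a = ch z (p0.1 - 1, p0.2 - s)`, `N a = ch z (p0.1, p0.2 - s)`, `H a = ch z (p0.1 - 1, p0.2)` with
`s = sl z (p0.1 - 1)`, by `chσ` for `a`, `σ a = ch z p0`). If `oc (pre X) a = 0` then `N a`, `H a` are in `pre X`. If `p0.2 - s` is in range, `N a` is in the box: second
alternative. If `p0.1 - 1` is in range, `H a` is in the box. Otherwise: if `σ a ∈ pre X`: second alternative with `p0`. Else `H a ∈ pre X` is in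
the collar (`hd`, `1 ≤ lay a ≤ M - 2`), `σ (H a) = ch z (p0.1, p0.2 + s)` is in the box (`|p0.2| = 2ρ` and `p0.2 - s` out of range), so `H a ∉ Ft`, and
`N (H a) = ch z (p0.1, p0.2) = σ a ∉ pre X`: third alternative. -/
theorem KW.tame_charge (W : KW K R ρ (2 * ρ)) (hg : GoodP R ρ) (hr : 8 * ρ ≤ r) (X : Finset V)
    (hX : X ⊆ W.Rs) (a : V) (ha : a ∈ X) (hT : W.cfg.Ts a) :
    1 ≤ K.oc (W.pre X) a ∨
    (∃ z ∈ W.cfg.S, ∃ p, InB (0, 0) ((2 * ρ : ℕ) : ℤ) p ∧ K.ch z p ∈ W.pre X ∧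
      (K.ch z p = K.N a ∨ K.ch z p = K.H a ∨ K.ch z p = K.σ a)) ∨
    (K.H a ∈ W.pre X ∧ K.C (K.H a) ∧ ¬ W.cfg.Ft (K.H a) ∧ 1 ≤ K.oc (W.pre X) (K.H a)) := by
  classical
  have hρ : R + 4 < ρ := hg.1
  obtain ⟨hT1, hT2, hT3⟩ := hT
  have hCa : K.C a := ⟨by omega, by omega⟩
  have ha' := hX ha
  unfold KW.Rs at ha'
  have hnF : ¬ W.cfg.Ft a := (Finset.mem_filter.1 ha').2.2
  have hσT : ¬ W.cfg.Ts (K.σ a) := fun h => hnF ⟨⟨hT1, hT2, hT3⟩, h⟩
  have hlσ : K.lay (K.σ a) = K.lay a := (K.lσ a hCa.1 hCa.2).1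
  obtain ⟨z, hz, p, hp, he⟩ : ∃ z ∈ W.cfg.S, ∃ p, InB (0, 0) ((2 * ρ : ℕ) : ℤ) p ∧ K.ch z p = K.σ a := by
    by_contra hcon
    apply hσT
    refine ⟨by omega, by omega, ?_⟩
    intro z hz p hp he
    exact hcon ⟨z, hz, p, hp, he⟩
  by_cases h1 : 1 ≤ K.oc (W.pre X) a
  · exact Or.inl h1
  right
  have hNH : K.N a ∈ W.pre X ∧ K.H a ∈ W.pre X := by
    unfold Coll.oc at h1
    constructor
    · by_contra hcon
      rw [if_neg hcon] at h1
      split_ifs at h1 <;> omega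
    · by_contra hcon
      rw [if_neg (c := K.H a ∈ W.pre X) hcon] at h1
      split_ifs at h1 <;> omega
  have hzC := W.cfg.hS z hz
  have hp' := hp
  unfold InB at hp'
  simp only [sub_zero] at hp'
  have q1 := abs_le.1 hp'.1
  have q2 := abs_le.1 hp'.2
  push_cast at q1 q2
  have hr' : (8 * ρ : ℤ) ≤ (r : ℤ) := by exact_mod_cast hr
  have hρ' : (4 : ℤ) < (ρ : ℤ) := by
    have : 4 < ρ := by omega
    exact_mod_cast this
  have hpr : InB (0, 0) (r : ℤ) p := by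
    unfold InB
    simp only [sub_zero]
    constructor
    · rw [abs_le]; constructor <;> linarith
    · rw [abs_le]; constructor <;> linarith
  obtain ⟨-, -, -, e4, -, -⟩ := K.chσ z hzC.1 hzC.2 p hpr (by rw [he, hlσ]; exact hCa.1)
    (by rw [he, hlσ]; exact hCa.2)
  have hb := Coll.basic K (by omega) a hCa
  have hτ : K.τ (K.σ a) = a := hb.2.2.2.2.2.2.2.2.1
  rw [he, hτ] at e4
  obtain ⟨s, hs⟩ : ∃ s : ℤ, s = K.sl z (p.1 - 1) := ⟨_, rfl⟩
  rw [← hs] at e4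
  have hs1 : s = 1 ∨ s = -1 := by rw [hs]; exact K.sl1 z _
  have hp1r : InB (0, 0) (r : ℤ) ((p.1 - 1, p.2 - s) : P2) := by
    unfold InB
    simp only [sub_zero]
    rcases hs1 with h | h <;> rw [h] <;> constructor <;> rw [abs_le] <;> constructor <;> linarith
  obtain ⟨-, f2, f3, -, -, -⟩ := K.chσ z hzC.1 hzC.2 (p.1 - 1, p.2 - s) hp1r (by rw [← e4]; exact hCa.1)
    (by rw [← e4]; exact hCa.2)
  simp only [← e4, ← hs, sub_add_cancel] at f2 f3
  by_cases hN : InB (0, 0) ((2 * ρ : ℕ) : ℤ) ((p.1, p.2 - s) : P2)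
  · left
    exact ⟨z, hz, _, hN, by rw [← f2]; exact hNH.1, Or.inl f2.symm⟩
  by_cases hσX : K.σ a ∈ W.pre X
  · left
    exact ⟨z, hz, p, hp, by rw [he]; exact hσX, Or.inr (Or.inr he)⟩
  right
  have hCH : K.C (K.H a) := by
    rcases K.hd a hCa.1 hCa.2 with h | h
    · exact ⟨by omega, by omega⟩
    · exact ⟨by omega, by omega⟩
  have hp2r : InB (0, 0) (r : ℤ) ((p.1 - 1, p.2) : P2) := by
    unfold InB
    simp only [sub_zero]
    constructor <;> rw [abs_le] <;> constructor <;> linarith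
  obtain ⟨g1, g2, -, -, -, -⟩ := K.chσ z hzC.1 hzC.2 (p.1 - 1, p.2) hp2r (by rw [← f3]; exact hCH.1)
    (by rw [← f3]; exact hCH.2)
  simp only [← f3, ← hs, sub_add_cancel] at g1 g2
  have hin : InB (0, 0) ((2 * ρ : ℕ) : ℤ) ((p.1, p.2 + s) : P2) := by
    unfold InB at hN ⊢
    simp only [sub_zero] at hN ⊢
    refine ⟨hp'.1, ?_⟩
    have h6 : ¬ |p.2 - s| ≤ ((2 * ρ : ℕ) : ℤ) := fun h => hN ⟨hp'.1, h⟩
    rw [abs_le] at h6 ⊢
    push_cast at h6 ⊢
    rcases hs1 with h | h <;> rw [h] at h6 ⊢ <;> constructor <;> by_contra hcon <;> apply h6 <;>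
      constructor <;> linarith
  have hgN : K.N (K.H a) = K.σ a := by
    rw [g2, ← he]
  refine ⟨hNH.2, hCH, ?_, ?_⟩
  · intro hF
    exact hF.2.2.2 z hz _ hin g1.symm
  · unfold Coll.oc
    rw [if_neg (c := K.N (K.H a) ∈ W.pre X) (by rw [hgN]; exact hσX)]
    split_ifs <;> omega

end Bd
end TorGrid
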