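import Pool.Agent.Lib.MP_caf32e_co.Bd.W4
import Pool.Agent.Lib.MP_caf32e_co.Bd.W5
import Pool.Agent.Lib.MP_caf32e_co.Bd.W6

/-! The main inequality (page, section 3). Standing constants: `GoodP R ρ`, `R1 = 2 ρ`, `8 ρ ≤ r`. -/

set_option autoImplicit false

namespace TorGrid
namespace Bd

open Finset

variable {V : Type} [Fintype V] [DecidableEq V] {r M : ℕ} {K : Coll V r M} {R ρ : ℕ}

private noncomputable def w7B (K : Coll V r M) (s : ℕ) (z : V) : Finset V :=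
  (Finset.Icc (-(s : ℤ)) s ×ˢ Finset.Icc (-(s : ℤ)) s).image (K.ch z)

private theorem w7B_card (K : Coll V r M) (s : ℕ) (z : V) : (w7B K s z).card ≤ (2 * s + 1) ^ 2 := by
  unfold w7B
  refine card_image_le.trans ?_
  rw [card_product, Int.card_Icc]
  have h : ((s : ℤ) + 1 - -(s : ℤ)).toNat = 2 * s + 1 := by omega
  rw [h]
  apply le_of_eq
  ring

private theorem w7_InB (s : ℤ) (p : P2) :
    InB (0, 0) s p ↔ (-s ≤ p.1 ∧ p.1 ≤ s) ∧ (-s ≤ p.2 ∧ p.2 ≤ s) := by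
  unfold InB
  simp only [sub_zero]
  rw [abs_le, abs_le]

private theorem w7B_mem (K : Coll V r M) (s : ℕ) (z : V) (p : P2) (h : InB (0, 0) (s : ℤ) p) :
    K.ch z p ∈ w7B K s z := by
  rw [w7_InB] at h
  unfold w7B
  rw [mem_image]
  refine ⟨p, ?_, rfl⟩
  rw [mem_product, mem_Icc, mem_Icc]
  exact h

/-- a displaced vertex is in the box of the other one -/
private theorem w7_back (K : Coll V r M) (z z' : V) (hz : K.C z) (hz' : K.C z') (p p' : P2)
    (hp : InB (0, 0) r p) (hp' : InB (0, 0) r p') (h : K.ch z p = K.ch z' p') :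
    z = K.ch z' (p'.1 - p.1, p'.2 - p.2) := by
  have h1 := K.glue z z' hz.1 hz.2 hz'.1 hz'.2 p p' (-p.1, -p.2) hp hp' h
  have h2 : ((p.1 + (-p.1, -p.2).1, p.2 + (-p.1, -p.2).2) : P2) = (0, 0) := by
    ext <;> simp
  rw [h2, K.ch0 z hz.1 hz.2] at h1
  rw [h1]
  simp [sub_eq_add_neg]

/-- neighbours along the three forward moves -/
private theorem w7_nbr (K : Coll V r M) (hr : 1 ≤ r) (a : V) (ha : K.C a) (g : V) (hg : K.C g)
    (h : g = K.N a ∨ g = K.H a ∨ g = K.σ a) : a ∈ w7B K 1 g := by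
  have hr' : (1 : ℤ) ≤ r := by exact_mod_cast hr
  have h00 : InB (0, 0) (r : ℤ) (0, 0) := by rw [w7_InB]; simp
  have e0 := K.ch0 a ha.1 ha.2
  have hc := K.chσ a ha.1 ha.2 (0, 0) h00 (by rw [e0]; exact ha.1) (by rw [e0]; exact ha.2)
  rw [e0] at hc
  have hs := K.sl1 a 0
  have key : ∃ d : P2, InB (0, 0) 1 d ∧ g = K.ch a d := by
    rcases h with h | h | h
    · refine ⟨(0 + 1, 0), ?_, ?_⟩
      · rw [w7_InB]; simp
      · rw [h]; exact hc.2.1
    · refine ⟨(0, 0 + K.sl a 0), ?_, ?_⟩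
      · rw [w7_InB]; rcases hs with hs | hs <;> rw [hs] <;> simp
      · rw [h]; exact hc.2.2.1
    · refine ⟨(0 + 1, 0 + K.sl a 0), ?_, ?_⟩
      · rw [w7_InB]; rcases hs with hs | hs <;> rw [hs] <;> simp
      · rw [h]; exact hc.1
  obtain ⟨d, hd, hg'⟩ := key
  rw [w7_InB] at hd
  have hdr : InB (0, 0) (r : ℤ) d := by
    rw [w7_InB]; omega
  have h1 := w7_back K a g ha hg d (0, 0) hdr h00 (by rw [K.ch0 g hg.1 hg.2]; exact hg'.symm)
  rw [h1]
  refine w7B_mem K 1 g _ ?_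
  rw [w7_InB]
  simp only [zero_sub, Nat.cast_one]
  omega

open Classical in
/-- the bound of the numbers of units -/
private theorem w7_units (W : KW K R ρ (2 * ρ)) (hg : GoodP R ρ) (hr : 8 * ρ ≤ r) (X : Finset V)
    (hX : X ⊆ W.Rs) (h1 : ¬ ColOn W.Q W.cfg.L1 X) (h2' : ∀ Y, Y ⊂ X → ColOn W.Q W.cfg.L1 Y) :
    (((W.cfg.S.filter (fun z => (K.Yz ρ (W.pre X) z).Nonempty)).card : ℤ) +
      (((W.pre X).filter (fun g => ¬ W.cfg.Pv g ∧ 1 ≤ W.cfg.chi (W.pre X) g)).card : ℤ)) ≤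
      h2 W.Q W.cfg.L1 X := by
  classical
  have hρ := hg.1
  obtain ⟨b1, -, -, -, b5, -⟩ := cfg_basic W.hL W.cfg hρ (by omega) (by omega)
  have hkey := W.key (by omega) b1 b5 X hX
  rw [W.split hg hr X] at hkey
  refine le_trans (add_le_add ?_ ?_) hkey
  · have hsub : (W.cfg.S.filter (fun z => (K.Yz ρ (W.pre X) z).Nonempty)) ⊆ W.cfg.S :=
      filter_subset _ _
    refine le_trans ?_ (sum_le_sum_of_subset_of_nonneg hsub
      (fun z hz _ => (W.pbox hg hr X z hz).1))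
    rw [card_eq_sum_ones, Nat.cast_sum]
    refine sum_le_sum (fun z hz => ?_)
    rw [mem_filter] at hz
    rw [Nat.cast_one]
    exact W.pbox_crit hg hr X hX z hz.1 hz.2 h1 h2'
  · have hsub : ((W.pre X).filter (fun g => ¬ W.cfg.Pv g ∧ 1 ≤ W.cfg.chi (W.pre X) g)) ⊆
        (W.pre X).filter (fun g => ¬ W.cfg.Pv g) := by
      intro g hgg
      rw [mem_filter] at hgg ⊢
      exact ⟨hgg.1, hgg.2.1⟩
    refine le_trans ?_ (sum_le_sum_of_subset_of_nonneg hsub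
      (fun g _ _ => W.chi_nn (W.pre X) g))
    rw [card_eq_sum_ones, Nat.cast_sum]
    refine sum_le_sum (fun z hz => ?_)
    rw [mem_filter] at hz
    rw [Nat.cast_one]
    exact hz.2.2

open Classical in
/-- vertices of the private boxes and units -/
private noncomputable def w7G1 (W : KW K R ρ (2 * ρ)) (X : Finset V) : Finset V :=
  (W.pre X).filter (fun g => W.cfg.Pv g ∨ 1 ≤ W.cfg.chi (W.pre X) g)

open Classical in
/-- centres whose big box meets the set -/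
private noncomputable def w7S1 (W : KW K R ρ (2 * ρ)) (X : Finset V) : Finset V :=
  W.cfg.S.filter (fun z => ∃ p, InB (0, 0) ((2 * ρ : ℕ) : ℤ) p ∧ K.ch z p ∈ W.pre X)

private theorem w7_G1 (W : KW K R ρ (2 * ρ)) (hg : GoodP R ρ) (hr : 8 * ρ ≤ r) (X : Finset V)
    (hX : X ⊆ W.Rs) (h1 : ¬ ColOn W.Q W.cfg.L1 X) (h2' : ∀ Y, Y ⊂ X → ColOn W.Q W.cfg.L1 Y) :
    ((w7G1 W X).card : ℤ) ≤ (((2 * ρ + 1) ^ 2 : ℕ) : ℤ) * h2 W.Q W.cfg.L1 X := by
  classical
  have hu := w7_units W hg hr X hX h1 h2'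
  have hsub : w7G1 W X ⊆ (W.cfg.S.filter (fun z => (K.Yz ρ (W.pre X) z).Nonempty)).biUnion
      (w7B K ρ) ∪ (W.pre X).filter (fun g => ¬ W.cfg.Pv g ∧ 1 ≤ W.cfg.chi (W.pre X) g) := by
    intro g hgg
    unfold w7G1 at hgg
    rw [mem_filter] at hgg
    rw [mem_union]
    by_cases hP : W.cfg.Pv g
    · left
      obtain ⟨z, hz, p, hp, hpg⟩ := hP
      rw [mem_biUnion]
      refine ⟨z, ?_, ?_⟩
      · rw [mem_filter]
        refine ⟨hz, p, ?_⟩
        unfold Coll.Yz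
        rw [mem_filter, mem_product, mem_Icc, mem_Icc]
        rw [w7_InB] at hp
        refine ⟨hp, ?_⟩
        rw [hpg]; exact hgg.1
      · rw [← hpg]; exact w7B_mem K ρ z p hp
    · right
      rw [mem_filter]
      exact ⟨hgg.1, hP, hgg.2.resolve_left hP⟩
  have hc := (card_le_card hsub).trans (card_union_le _ _)
  have hc1 := card_biUnion_le_card_mul
    (W.cfg.S.filter (fun z => (K.Yz ρ (W.pre X) z).Nonempty)) (w7B K ρ) ((2 * ρ + 1) ^ 2)
    (fun z _ => w7B_card K ρ z)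
  set u1 := (W.cfg.S.filter (fun z => (K.Yz ρ (W.pre X) z).Nonempty)).card
  set u2 := ((W.pre X).filter (fun g => ¬ W.cfg.Pv g ∧ 1 ≤ W.cfg.chi (W.pre X) g)).card
  have hk : 1 ≤ (2 * ρ + 1) ^ 2 := Nat.one_le_pow _ _ (by omega)
  have hc2 : (w7G1 W X).card ≤ (2 * ρ + 1) ^ 2 * (u1 + u2) := by
    have h3 : u2 ≤ (2 * ρ + 1) ^ 2 * u2 := Nat.le_mul_of_pos_left _ hk
    have h4 : (2 * ρ + 1) ^ 2 * (u1 + u2) = u1 * (2 * ρ + 1) ^ 2 + (2 * ρ + 1) ^ 2 * u2 := by ring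
    omega
  have hc3 : ((w7G1 W X).card : ℤ) ≤ (((2 * ρ + 1) ^ 2 : ℕ) : ℤ) * ((u1 : ℤ) + u2) := by
    exact_mod_cast hc2
  refine hc3.trans (mul_le_mul_of_nonneg_left hu (Int.natCast_nonneg _))

private theorem w7_S1 (W : KW K R ρ (2 * ρ)) (hg : GoodP R ρ) (hr : 8 * ρ ≤ r) (X : Finset V) :
    (w7S1 W X).card ≤ (2 * (4 * ρ) + 1) ^ 2 * (w7G1 W X).card := by
  classical
  have hw : ∀ z ∈ w7S1 W X, ∃ q, InB (0, 0) ((2 * ρ : ℕ) : ℤ) q ∧ K.ch z q ∈ W.pre X ∧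
      (W.cfg.Pv (K.ch z q) ∨ 1 ≤ W.cfg.chi (W.pre X) (K.ch z q)) := by
    intro z hz
    unfold w7S1 at hz
    rw [mem_filter] at hz
    obtain ⟨hz1, p, hp, hpX⟩ := hz
    exact W.walk hg hr X z hz1 p hp hpX
  choose! q hq1 hq2 hq3 using hw
  have hC : ∀ z ∈ w7S1 W X, K.C z := by
    intro z hz
    unfold w7S1 at hz
    rw [mem_filter] at hz
    exact W.cfg.hS z hz.1
  refine card_le_mul_card_image_of_maps_to (f := fun z => K.ch z (q z)) ?_ _ ?_
  · intro z hz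
    unfold w7G1
    rw [mem_filter]
    exact ⟨hq2 z hz, hq3 z hz⟩
  · intro b _
    rcases (filter (fun a => K.ch a (q a) = b) (w7S1 W X)).eq_empty_or_nonempty with he | ⟨z1, hz1⟩
    · rw [he]; simp
    · refine (card_le_card ?_).trans (w7B_card K (4 * ρ) z1)
      intro z2 hz2
      rw [mem_filter] at hz1 hz2
      have i1 := hq1 z1 hz1.1
      have i2 := hq1 z2 hz2.1
      rw [w7_InB] at i1 i2
      have j1 : InB (0, 0) (r : ℤ) (q z1) := by rw [w7_InB]; push_cast at i1; omega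
      have j2 : InB (0, 0) (r : ℤ) (q z2) := by rw [w7_InB]; push_cast at i2; omega
      have e := w7_back K z2 z1 (hC z2 hz2.1) (hC z1 hz1.1) (q z2) (q z1) j2 j1
        (by rw [hz2.2, hz1.2])
      rw [e]
      refine w7B_mem K (4 * ρ) z1 _ ?_
      rw [w7_InB]
      push_cast at i1 i2 ⊢
      omega

private theorem w7_cover (W : KW K R ρ (2 * ρ)) (hg : GoodP R ρ) (hr : 8 * ρ ≤ r) (X : Finset V)
    (hX : X ⊆ W.Rs) (a : V) (ha : a ∈ X) (l1 : 1 ≤ K.lay a) (l2 : K.lay a + 2 ≤ M) :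
    a ∈ w7G1 W X ∪ (w7S1 W X).biUnion (w7B K (2 * ρ)) ∨
    ∃ g, g ∈ w7G1 W X ∪ (w7S1 W X).biUnion (w7B K (2 * ρ)) ∧ a ∈ w7B K 1 g := by
  classical
  have hρ := hg.1
  have hN := ((W.cardX X hX).1 a).1 ha
  have hCa : K.C a := ⟨by omega, by omega⟩
  have hN1 : K.C (K.N a) := by
    unfold Coll.C
    rcases K.hd a hCa.1 hCa.2 with h | h <;> omega
  have hH1 : K.C (K.H a) := by
    unfold Coll.C
    rcases K.hd a hCa.1 hCa.2 with h | h <;> omega
  have hσ1 : K.C (K.σ a) := by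
    unfold Coll.C
    rw [(K.lσ a hCa.1 hCa.2).1]
    exact hCa
  have hgg : ∀ z ∈ W.cfg.S, ∀ p, InB (0, 0) ((2 * ρ : ℕ) : ℤ) p → K.ch z p ∈ W.pre X →
      K.ch z p ∈ w7G1 W X ∪ (w7S1 W X).biUnion (w7B K (2 * ρ)) := by
    intro z hz p hp hpX
    rw [mem_union]
    right
    rw [mem_biUnion]
    refine ⟨z, ?_, w7B_mem K (2 * ρ) z p hp⟩
    unfold w7S1
    rw [mem_filter]
    exact ⟨hz, p, hp, hpX⟩
  have hchi : ∀ g, g ∈ W.pre X → K.C g → ¬ W.cfg.Ft g → 1 ≤ K.oc (W.pre X) g →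
      g ∈ w7G1 W X := by
    intro g h1 h2 h3 h4
    unfold w7G1
    rw [mem_filter]
    refine ⟨h1, Or.inr ?_⟩
    unfold KCfg.chi
    rw [if_pos h2, if_neg h3]
    have : 0 ≤ (if W.cfg.Ft' g then 0 else K.oc' (W.pre X) g) := by
      split_ifs
      · exact le_refl _
      · unfold Coll.oc'
        split_ifs <;> norm_num
    omega
  by_cases hT : W.cfg.Ts a
  · rcases W.tame_charge hg hr X hX a ha hT with h | ⟨z, hz, p, hp, hpX, h⟩ | ⟨h1, h2, h3, h4⟩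
    · left
      rw [mem_union]
      left
      exact hchi a hN.1 hCa hN.2 h
    · right
      refine ⟨K.ch z p, hgg z hz p hp hpX, ?_⟩
      refine w7_nbr K (by omega) a hCa _ ?_ h
      rcases h with h | h | h <;> rw [h] <;> assumption
    · right
      refine ⟨K.H a, ?_, w7_nbr K (by omega) a hCa _ h2 (Or.inr (Or.inl rfl))⟩
      rw [mem_union]
      left
      exact hchi _ h1 h2 h3 h4
  · left
    have : ∃ z ∈ W.cfg.S, ∃ p, InB (0, 0) ((2 * ρ : ℕ) : ℤ) p ∧ K.ch z p = a := by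
      by_contra hcon
      push Not at hcon
      exact hT ⟨l1, l2, fun z hz p hp => hcon z hz p hp⟩
    obtain ⟨z, hz, p, hp, hpa⟩ := this
    rw [← hpa]
    exact hgg z hz p hp (by rw [hpa]; exact hN.1)

open Classical in
/-- ROW W7. `h := h2 Q L1 X ≥` (sum of the gains of the private boxes) + (sum of the `chi` outside them) by `key`, `split`; all terms are `≥ 0`. Units: every `z ∈ S` whose `Yz ρ` is
nonempty contributes `≥ 1` (`pbox_crit`), every vertex of `pre X` outside the private boxes with `chi ≥ 1` contributes `≥ 1`; so there are at most `h` units. (a) `S1` = the `z ∈ S` with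
`Yz (2ρ)` nonempty. `walk` maps `z` to a unit: either `z' ∈ S` with `Yz ρ z'` nonempty and `ch z q = ch z' q'` (then `z = ch z' (q' - q)` by `glue`: at most `(6ρ+1)^2` such `z`
for each `z'`), or a vertex `g = ch z q` outside the private boxes with `chi g ≥ 1`; two centres with `ch z1 q1 = g = ch z2 q2` satisfy `z2 = ch z1 (q1 - q2)` (`glue`), so there are at most
`(8ρ+1)^2` of them for each `g`. So `|S1| ≤ C1 h`. (b) non tame members of `X` in the layers `1..M-2`: each is `ch z p`, `z ∈ S1`, `p` in the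
box of radius `2ρ`: at most `(4ρ+1)^2 |S1|`. (c) tame members `a` of `X`: `tame_charge`; first alternative: `chi a ≥ oc a ≥ 1` (`a ∉ Ft`, in the collar; not in a private box): a unit; second
alternative: `z ∈ S1` and `a` is determined by `N a`, `H a` or `σ a` (`basic` in the collar: `N' (σ a) = H a` etc.; `a = τ (σ a)`; `N a = N b` for `a`, `b` in the layers `1..M-2`: `N' (N a) = a` by the chart of `a`; `H`
similarly: `H a = H b`: in the chart of `g = H a` the vertex `a` is `(0, 1)` or `(0, -1)`), at most `4 (4ρ+1)^2` for each `z`; third: `chi (H a) ≥ 1`, and `H a` is outside the private boxes: a unit, or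
`H a` is in a private box: then `H a = ch z p` with `z ∈ S1`; each vertex is `H a` for at most 2 vertices `a`. -/
theorem MI (R ρ : ℕ) (hg : GoodP R ρ) : ∃ C : ℕ, ∀ (V : Type) [Fintype V] [DecidableEq V]
    (r M : ℕ) (K : Coll V r M) (_ : 8 * ρ ≤ r) (W : KW K R ρ (2 * ρ)) (X : Finset V)
    (_ : X ⊆ W.Rs) (_ : ¬ ColOn W.Q W.cfg.L1 X) (_ : ∀ Y, Y ⊂ X → ColOn W.Q W.cfg.L1 Y),
    ((X.filter (fun a => 1 ≤ K.lay a ∧ K.lay a + 2 ≤ M)).card : ℤ) ≤ C * h2 W.Q W.cfg.L1 X := by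
  refine ⟨10 * ((2 * ρ + 1) ^ 2 + (2 * (2 * ρ) + 1) ^ 2 * (2 * (4 * ρ) + 1) ^ 2 * (2 * ρ + 1) ^ 2),
    ?_⟩
  intro V _ _ r M K hr W X hX h1 h2'
  have c1 := w7_G1 W hg hr X hX h1 h2'
  have c2 := w7_S1 W hg hr X
  have hsub : (X.filter (fun a => 1 ≤ K.lay a ∧ K.lay a + 2 ≤ M)) ⊆
      (w7G1 W X ∪ (w7S1 W X).biUnion (w7B K (2 * ρ))) ∪
      (w7G1 W X ∪ (w7S1 W X).biUnion (w7B K (2 * ρ))).biUnion (w7B K 1) := by
    intro a ha
    rw [mem_filter] at ha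
    rw [mem_union]
    rcases w7_cover W hg hr X hX a ha.1 ha.2.1 ha.2.2 with h | ⟨g, hg1, hg2⟩
    · exact Or.inl h
    · right
      rw [mem_biUnion]
      exact ⟨g, hg1, hg2⟩
  have d1 := (card_le_card hsub).trans (card_union_le _ _)
  have d2 := card_biUnion_le_card_mul (w7G1 W X ∪ (w7S1 W X).biUnion (w7B K (2 * ρ))) (w7B K 1)
    ((2 * 1 + 1) ^ 2) (fun z _ => w7B_card K 1 z)
  have d3 := card_union_le (w7G1 W X) ((w7S1 W X).biUnion (w7B K (2 * ρ)))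
  have d4 := card_biUnion_le_card_mul (w7S1 W X) (w7B K (2 * ρ))
    ((2 * (2 * ρ) + 1) ^ 2) (fun z _ => w7B_card K (2 * ρ) z)
  have d5 : (w7S1 W X).card * (2 * (2 * ρ) + 1) ^ 2 ≤
      (2 * (4 * ρ) + 1) ^ 2 * (w7G1 W X).card * (2 * (2 * ρ) + 1) ^ 2 :=
    Nat.mul_le_mul_right _ c2
  have d6 : (X.filter (fun a => 1 ≤ K.lay a ∧ K.lay a + 2 ≤ M)).card ≤
      10 * (1 + (2 * (2 * ρ) + 1) ^ 2 * (2 * (4 * ρ) + 1) ^ 2) * (w7G1 W X).card := by
    have e : 10 * (1 + (2 * (2 * ρ) + 1) ^ 2 * (2 * (4 * ρ) + 1) ^ 2) * (w7G1 W X).card =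
      10 * ((w7G1 W X).card +
        (2 * (4 * ρ) + 1) ^ 2 * (w7G1 W X).card * (2 * (2 * ρ) + 1) ^ 2) := by ring
    rw [e]
    omega
  have d7 : ((X.filter (fun a => 1 ≤ K.lay a ∧ K.lay a + 2 ≤ M)).card : ℤ) ≤
      ((10 * (1 + (2 * (2 * ρ) + 1) ^ 2 * (2 * (4 * ρ) + 1) ^ 2) : ℕ) : ℤ) *
        ((w7G1 W X).card : ℤ) := by
    exact_mod_cast d6
  refine d7.trans ((mul_le_mul_of_nonneg_left c1 (Int.natCast_nonneg _)).trans (le_of_eq ?_))
  push_cast
  ring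

end Bd
end TorGrid
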